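import Pool.Agent.Work.MP_a2bf38_gt.K.Defs
import Pool.Agent.Work.MP_a2bf38_gt.I.Setup

/-!
# The setup of a Kähler-Ricci flow on a fibration with singular fibres
-/

open scoped ContDiff ENNReal ComplexOrder
open Set Pool.Agent.ToricKRF Pool.Agent.ToricKRF.G Pool.Agent.KRFS Pool.Agent.KRFF

namespace Pool.Agent.KRFG

/-- A Kähler-Ricci flow on a fibration with semistable models. -/
structure Mod (n m : ℕ) (M Y W : Type) [TopologicalSpace M] [TopologicalSpace Y]
    [TopologicalSpace W] (κ P ι : Type) (T : ℝ) extends Flow n M κ T where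
  b : P → OpenPartialHomeomorph Y (Cn m)
  f : M → Y
  a : ι → OpenPartialHomeomorph W (Cn n)
  al : ι → κ
  lab : W → P
  π : W → M
  τ : W → Cn m
  N : P → Fin m → ℕ
  pc : ι → P
  s : ι → Fin m → ℝ
  row : ι → Fin n → Option (Fin m)
  K : P → Cn m → ℝ
  hol : IsHolMap e b f
  model : IsModel e b f a al lab π τ N pc s row
  lim : IsLimit e b f T ψ Ω K
  Θ_eq : ∀ c z, Θ c z = ψ c (0, z) + T * Real.log (Ω c z)

section

variable {n m : ℕ} {M Y W : Type} [TopologicalSpace M] [TopologicalSpace Y]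
  [TopologicalSpace W] {κ P ι : Type} {T : ℝ} (F : Mod n m M Y W κ P ι T)

/-- the maximum of `φ(t)` on the fibre over `y` -/
noncomputable def Mod.Mx (t : ℝ) (y : Y) : ℝ := sSup (F.Phi t '' (F.f ⁻¹' {y}))

/-- the base coordinates of the point `x` of the chart `c` of `W` -/
noncomputable def Mod.yc (c : ι) (x : Cn n) : Cn m := F.b (F.pc c) (F.f (F.π ((F.a c).symm x)))

/-- `φ - max_{F_y} φ ≤ 0` in the chart `c` of `W` -/
noncomputable def Mod.gc (t : ℝ) (c : ι) (x : Cn n) : ℝ :=
  F.Phi t (F.π ((F.a c).symm x)) - F.Mx t (F.f (F.π ((F.a c).symm x)))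

end

/-! ### logarithmic coordinates of the fibres -/

/-- the point of `ℂ^n` with the complex coordinates `z` -/
noncomputable def ofC {n : ℕ} (z : Fin n → ℂ) : Cn n := (fun l => (z l).re, fun l => (z l).im)

open Classical in
/-- The point with the coordinates `q_l exp w_l` if `row l = i`, `l ≠ piv i`, with
`q_l exp (- ∑ w_l')` if `l = piv i`, and with `q_l + w_l` if `row l = none`. -/
noncomputable def Em {n m : ℕ} (row : Fin n → Option (Fin m)) (piv : Fin m → Fin n)
    (q w : Cn n) : Cn n :=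
  ofC fun l => match row l with
    | none => cc q l + cc w l
    | some i => if l = piv i
      then cc q l * Complex.exp (-∑ l', if row l' = some i ∧ l' ≠ l then cc w l' else 0)
      else cc q l * Complex.exp (cc w l)

/-- `C₁ ∑ |y_i|^(2ε) - A |y|^2` -/
noncomputable def hB {m : ℕ} (C₁ A ε : ℝ) (y : Cn m) : ℝ :=
  C₁ * ∑ i, ((y.1 i) ^ 2 + (y.2 i) ^ 2) ^ ε - A * nsq y

/-- Continuous functions on `V` with the sub-mean value property on complex discs. -/
def PshC {m : ℕ} (u : Cn m → ℝ) (V : Set (Cn m)) : Prop :=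
  ContinuousOn u V ∧ ∀ z v : Cn m, (∀ ζ : ℂ, ‖ζ‖ ≤ 1 → line z v ζ ∈ V) →
    u z ≤ cavg (fun ζ => u (line z v ζ)) 1

end Pool.Agent.KRFG
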