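import Pool.Agent.Work.MP_a2bf38_gt.K.NatDefs
import Pool.Agent.Work.MP_a2bf38_gt.K.Setup
import Pool.Agent.Work.MP_a2bf38_gt.I.NatTop

/-!
# From local semistable models to the setup
-/

open scoped ContDiff ENNReal ComplexOrder Topology
open Set Filter Pool.Agent.ToricKRF Pool.Agent.ToricKRF.G Pool.Agent.KRFS Pool.Agent.KRFF

namespace Pool.Agent.KRFG

attribute [instance] SemistableAt.top SemistableAt.t2

namespace NK

/-! ### Complex coordinates -/

section Coord

variable {m : ℕ}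

theorem sq_norm_cc (u : Cn m) (i : Fin m) : ‖cc u i‖ ^ 2 = u.1 i ^ 2 + u.2 i ^ 2 := by
  rw [Complex.sq_norm, Complex.normSq_apply]
  simp only [cc]
  ring

theorem mem_opd_iff {r : ℝ} (hr : 0 ≤ r) {u : Cn m} : u ∈ opd r ↔ ∀ i, ‖cc u i‖ < r := by
  refine forall_congr' fun i => ?_
  rw [← sq_norm_cc]
  exact pow_lt_pow_iff_left₀ (norm_nonneg _) hr (by norm_num)

theorem mem_cpd_iff {r : ℝ} (hr : 0 ≤ r) {u : Cn m} : u ∈ cpd r ↔ ∀ i, ‖cc u i‖ ≤ r := by
  refine forall_congr' fun i => ?_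
  rw [← sq_norm_cc]
  exact pow_le_pow_iff_left₀ (norm_nonneg _) hr (by norm_num)

theorem nsq_eq_sum (u : Cn m) : nsq u = ∑ i, ‖cc u i‖ ^ 2 := by
  simp only [sq_norm_cc, nsq, dotProduct, ← Finset.sum_add_distrib]
  exact Finset.sum_congr rfl fun i _ => by ring

theorem norm_cc_le {r : ℝ} (hr : 0 ≤ r) {u : Cn m} (h : nsq u ≤ r ^ 2) (i : Fin m) :
    ‖cc u i‖ ≤ r := by
  rw [nsq_eq_sum] at h
  have h1 := Finset.single_le_sum (f := fun i => ‖cc u i‖ ^ 2) (fun i _ => sq_nonneg _)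
    (Finset.mem_univ i)
  exact le_of_sq_le_sq (h1.trans h) hr

theorem norm_cc_lt {r : ℝ} (hr : 0 ≤ r) {u : Cn m} (h : nsq u < r ^ 2) (i : Fin m) :
    ‖cc u i‖ < r := by
  rw [nsq_eq_sum] at h
  have h1 := Finset.single_le_sum (f := fun i => ‖cc u i‖ ^ 2) (fun i _ => sq_nonneg _)
    (Finset.mem_univ i)
  exact lt_of_pow_lt_pow_left₀ 2 hr (lt_of_le_of_lt h1 h)

theorem nsq_smul (c : ℝ) (u : Cn m) : nsq (c • u) = c ^ 2 * nsq u := by
  simp only [nsq, Prod.smul_fst, Prod.smul_snd, smul_dotProduct, dotProduct_smul, smul_eq_mul]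
  ring

theorem cc_smul (c : ℝ) (u : Cn m) (i : Fin m) : cc (c • u) i = c * cc u i := by
  apply Complex.ext <;> simp [cc]

theorem cc_sub (u v : Cn m) (i : Fin m) : cc (u - v) i = cc u i - cc v i := by
  apply Complex.ext <;> simp [cc]

theorem cc_zero (i : Fin m) : cc (0 : Cn m) i = 0 := by
  apply Complex.ext <;> simp [cc]

theorem cc_ext {u v : Cn m} (h : ∀ i, cc u i = cc v i) : u = v := by
  refine Prod.ext (funext fun i => ?_) (funext fun i => ?_)
  · exact congrArg Complex.re (h i)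
  · exact congrArg Complex.im (h i)

/-- the coordinates multiplied with positive real numbers -/
def scal (σ : Fin m → ℝ) (u : Cn m) : Cn m := (fun i => σ i * u.1 i, fun i => σ i * u.2 i)

theorem cc_scal (σ : Fin m → ℝ) (u : Cn m) (i : Fin m) : cc (scal σ u) i = σ i * cc u i := by
  apply Complex.ext <;> simp [cc, scal]

theorem prow_smul {n : ℕ} (row : Fin n → Option (Fin m)) (i : Fin m) {q : ℝ} (hq : 0 < q) :
    ∃ s > 0, ∀ x : Cn n, prow row i (q • x) = (s : ℝ) * prow row i x := by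
  classical
  refine ⟨∏ l, if row l = some i then q else 1, ?_, fun x => ?_⟩
  · exact Finset.prod_pos fun l _ => by split_ifs <;> [exact hq; exact one_pos]
  · unfold prow
    rw [Complex.ofReal_prod, ← Finset.prod_mul_distrib]
    refine Finset.prod_congr rfl fun l _ => ?_
    split_ifs
    · rw [cc_smul]
    · simp

end Coord

section

variable {M Y : Type} [TopologicalSpace M] [TopologicalSpace Y] {n m : ℕ} {κ P : Type}
  {e : κ → OpenPartialHomeomorph M (Cn n)} {b : P → OpenPartialHomeomorph Y (Cn m)} {f : M → Y}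

/-- a finite part of a semistable model -/
structure LData (e : κ → OpenPartialHomeomorph M (Cn n)) (b : P → OpenPartialHomeomorph Y (Cn m))
    (f : M → Y) (y₀ : Y) where
  S : SemistableAt e b f y₀
  R : ℝ
  R_pos : 0 < R
  sub : ∀ y, nsq (y - b S.j y₀) < R ^ 2 → y ∈ (b S.j).target
  ι : Type
  fin : Fintype ι
  a : ι → OpenPartialHomeomorph S.W (Cn n)
  al : ι → κ
  row : ι → Fin n → Option (Fin m)
  s : ι → Fin m → ℝ
  s_pos : ∀ i k, 0 < s i k
  target : ∀ i, (a i).target = opd 10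
  nonempty : ∀ i, (a i).source.Nonempty
  row_ne : ∀ i k, ∃ l, row i l = some k
  mem : ∀ i, ∀ w ∈ (a i).source, S.π w ∈ (e (al i)).source
  holo : ∀ i, HolOn (fun x => e (al i) (S.π ((a i).symm x))) (opd 10)
  mono : ∀ i, ∀ w ∈ (a i).source, ∀ k, cc (S.τ w) k = s i k * prow (row i) k (a i w)
  cover : ∀ w, (∀ i, ‖cc (S.τ w) i‖ ^ S.N i ≤ R / 2) → ∃ i, w ∈ (a i).source ∧ a i w ∈ cpd 1
  small : ∀ t : Cn m, (∀ i, ‖cc t i‖ ^ S.N i ≤ R / 2) → t ∈ opd S.r

theorem exists_ldata (y₀ : Y) (S : SemistableAt e b f y₀) : Nonempty (LData e b f y₀) := by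
  classical
  have hch : ∀ w : {w // S.τ w = 0}, ∃ (a : OpenPartialHomeomorph S.W (Cn n)) (c : κ)
    (row : Fin n → Option (Fin m)), w.1 ∈ a.source ∧ a w.1 = 0 ∧ (∀ i, ∃ l, row l = some i) ∧
      (∀ w' ∈ a.source, S.π w' ∈ (e c).source) ∧
      HolOn (fun x => e c (S.π (a.symm x))) a.target ∧
      ∀ w' ∈ a.source, ∀ i, cc (S.τ w') i = prow row i (a w') := fun w => S.chart w.1 w.2
  choose a₀ c row hwa ha0 hrow hmem hholo hmono using hch
  have hrad : ∀ w : {w // S.τ w = 0}, ∃ r > 0, ∀ x : Cn n, x - 0 ∈ opd r → x ∈ (a₀ w).target :=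
    fun w => NT.exists_opd (a₀ w).open_target (by rw [← ha0 w]; exact (a₀ w).map_source (hwa w))
  choose r hr hra using hrad
  have hbase := fun w => NT.exists_base (a₀ w) 0 (hr w) (hra w)
  choose a hat has hav hasymm using hbase
  -- the finite cover of `τ = 0`
  set U : {w // S.τ w = 0} → Set S.W := fun w => (a₀ w).source ∩ (a₀ w) ⁻¹' (opd (r w / 10)) with hU
  have hUo : ∀ w, IsOpen (U w) := fun w => (a₀ w).isOpen_inter_preimage (NT.isOpen_opd _)
  have hwU : ∀ w, w.1 ∈ U w := fun w => ⟨hwa w, by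
    rw [mem_preimage, ha0 w]
    exact NT.zero_mem_opd (by have := hr w; positivity)⟩
  have hc1 : IsCompact {w | S.τ w ∈ cpd (S.r / 2)} :=
    S.proper _ (by linarith [S.r_pos]) (by linarith [S.r_pos])
  have hclosed : IsClosed {w | S.τ w = 0} := isClosed_singleton.preimage S.cont
  have hc0 : IsCompact {w | S.τ w = 0} := hc1.of_isClosed_subset hclosed fun w hw => by
    show S.τ w ∈ cpd (S.r / 2)
    rw [show S.τ w = 0 from hw]
    exact NT.zero_mem_cpd _
  obtain ⟨t, ht⟩ := hc0.elim_finite_subcover U hUo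
    (fun w hw => mem_iUnion.2 ⟨⟨w, hw⟩, hwU ⟨w, hw⟩⟩)
  set U' : Set S.W := ⋃ w ∈ t, U w with hU'
  have hU'o : IsOpen U' := isOpen_biUnion fun w _ => hUo w
  -- a neighbourhood of `τ = 0` is covered
  obtain ⟨ε, hε, hεr, hεU⟩ : ∃ ε > 0, ε ≤ S.r / 2 ∧ ∀ w, S.τ w ∈ cpd ε → w ∈ U' := by
    have hC : IsCompact ({w | S.τ w ∈ cpd (S.r / 2)} \ U') := hc1.diff hU'o
    rcases ({w | S.τ w ∈ cpd (S.r / 2)} \ U').eq_empty_or_nonempty with hemp | hne
    · refine ⟨S.r / 2, by have := S.r_pos; positivity, le_rfl, fun w hw => ?_⟩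
      by_contra h
      have : w ∈ {w | S.τ w ∈ cpd (S.r / 2)} \ U' := ⟨hw, h⟩
      rw [hemp] at this
      exact this
    · obtain ⟨w₁, hw₁, hmin⟩ := hC.exists_isMinOn hne (f := fun w => ‖S.τ w‖)
        S.cont.norm.continuousOn
      have hpos : 0 < ‖S.τ w₁‖ := norm_pos_iff.2 fun h => hw₁.2 (ht h)
      refine ⟨min (S.r / 2) (‖S.τ w₁‖ / 2), lt_min (by have := S.r_pos; positivity)
        (by positivity), min_le_left _ _, fun w hw => ?_⟩
      by_contra h
      have hw2 : S.τ w ∈ cpd (S.r / 2) := fun i => (hw i).trans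
        (pow_le_pow_left₀ (le_min (by have := S.r_pos; positivity) (by positivity))
          (min_le_left _ _) 2)
      have h1 : ‖S.τ w₁‖ ≤ ‖S.τ w‖ := hmin ⟨hw2, h⟩
      have h2 : ‖S.τ w‖ ≤ ‖S.τ w₁‖ / 2 := by
        rw [Prod.norm_def, max_le_iff, pi_norm_le_iff_of_nonneg (by positivity),
          pi_norm_le_iff_of_nonneg (by positivity)]
        have h3 : ∀ i, (S.τ w).1 i ^ 2 + (S.τ w).2 i ^ 2 ≤ (‖S.τ w₁‖ / 2) ^ 2 := fun i =>
          (hw i).trans (pow_le_pow_left₀ (le_min (by have := S.r_pos; positivity) (by positivity))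
            (min_le_right _ _) 2)
        refine ⟨fun i => ?_, fun i => ?_⟩
        · rw [Real.norm_eq_abs]
          exact abs_le_of_sq_le_sq (by nlinarith [h3 i, sq_nonneg ((S.τ w).2 i)]) (by positivity)
        · rw [Real.norm_eq_abs]
          exact abs_le_of_sq_le_sq (by nlinarith [h3 i, sq_nonneg ((S.τ w).1 i)]) (by positivity)
      linarith
  -- the radius `R`
  obtain ⟨R₀, hR₀, hR₀b⟩ := NT.exists_opd (b S.j).open_target ((b S.j).map_source S.mem)
  obtain ⟨R₁, hR₁, hR₁N⟩ := NT.exists_pos_le (Finset.univ : Finset (Fin m))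
    (fun i => 2 * ε ^ S.N i) (fun i => by positivity)
  set R := min R₀ R₁ with hR
  have hRpos : 0 < R := lt_min hR₀ hR₁
  have hRN : ∀ t' : Cn m, (∀ i, ‖cc t' i‖ ^ S.N i ≤ R / 2) → t' ∈ cpd ε := by
    intro t' ht'
    rw [mem_cpd_iff hε.le]
    intro i
    have h1 : ‖cc t' i‖ ^ S.N i ≤ ε ^ S.N i := by
      have h2 := hR₁N i (Finset.mem_univ i)
      have h3 : R ≤ R₁ := min_le_right _ _
      linarith [ht' i]
    exact le_of_pow_le_pow_left₀ (S.N_pos i).ne' hε.le h1
  have hs := fun (w : {w : {w // S.τ w = 0} // w ∈ t}) (k : Fin m) =>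
    prow_smul (row w) k (q := r w / 10) (by have := hr w; positivity)
  choose s hspos hss using hs
  refine ⟨⟨S, R, hRpos, ?_, {w : {w // S.τ w = 0} // w ∈ t}, inferInstance, fun w => a w,
    fun w => c w, fun w => row w, s, hspos, fun w => hat w, ?_, fun w => hrow w, ?_, ?_, ?_, ?_,
    ?_⟩⟩
  · intro y hy
    refine hR₀b y ?_
    rw [mem_opd_iff hR₀.le]
    intro i
    exact norm_cc_lt hR₀.le (lt_of_lt_of_le hy (pow_le_pow_left₀ hRpos.le (min_le_left _ _) 2)) i
  · intro w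
    refine ⟨w.1.1, (has w _).2 ⟨hwa w, ?_⟩⟩
    rw [ha0, sub_zero]
    exact NT.zero_mem_opd (hr w)
  · intro w w' hw'
    exact hmem w w' ((has w w').1 hw').1
  · intro w
    have h1 : (fun x => e (c w) (S.π ((a w).symm x))) = fun x =>
        e (c w) (S.π ((a₀ w).symm (0 + (r w / 10) • x))) := by
      funext x
      rw [hasymm]
    rw [h1]
    refine NT.hol_comp (G := fun x => e (c w) (S.π ((a₀ w).symm x))) (NT.isOpen_opd 10)
      (a₀ w).open_target (hholo w) (NT.hol_scale (r w / 10) 0 _) ?_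
    intro x hx
    refine hra w _ ?_
    show (0 : Cn n) + (r w / 10) • x - 0 ∈ opd (r w)
    rw [zero_add, sub_zero]
    have h4 := NT.smul_mem_opd (c := r w / 10) (r := 10) (u := x) (by have := hr w; positivity)
    have h5 : r w / 10 * 10 = r w := by ring
    rw [h5] at h4
    exact h4.2 hx
  · intro w w' hw' k
    rw [hmono w w' ((has w w').1 hw').1 k, ← hss]
    congr 1
    rw [hav, sub_zero, smul_smul]
    have h5 : r w / 10 * (10 / r w) = 1 := by
      have := (hr w).ne'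
      field_simp
    rw [h5, one_smul]
  · intro w hw
    obtain ⟨w', hw', hww'⟩ := mem_iUnion₂.1 (hεU w (hRN _ hw))
    refine ⟨⟨w', hw'⟩, (has w' w).2 ⟨hww'.1, ?_⟩, ?_⟩
    · rw [sub_zero]
      exact NT.opd_mono (by have := hr w'; positivity) (by have := hr w'; linarith) hww'.2
    · rw [hav, sub_zero]
      have h4 := NT.smul_mem_cpd (c := 10 / r w') (r := r w' / 10) (u := a₀ w' w)
        (by have := hr w'; positivity)
      have h5 : 10 / r w' * (r w' / 10) = 1 := by
        have := (hr w').ne'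
        field_simp
      rw [h5] at h4
      exact h4.2 (NT.opd_subset_cpd _ hww'.2)
  · intro t' ht'
    have h1 := hRN t' ht'
    intro i
    refine lt_of_le_of_lt (h1 i) (pow_lt_pow_left₀ (by linarith [S.r_pos]) hε.le (by norm_num))

end

/-! ### The disjoint union of the models -/

section Sum

variable {P' : Type} {W : P' → Type} [∀ j, TopologicalSpace (W j)] {n : ℕ}

/-- a chart of one part of a disjoint union -/
theorem exists_sigma_chart (j : P') (a : OpenPartialHomeomorph (W j) (Cn n))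
    (ha : a.source.Nonempty) : ∃ a' : OpenPartialHomeomorph (Σ j, W j) (Cn n),
      a'.target = a.target ∧ (∀ w, w ∈ a'.source ↔ ∃ w' ∈ a.source, w = ⟨j, w'⟩) ∧
      (∀ w', a' ⟨j, w'⟩ = a w') ∧ ∀ x, a'.symm x = ⟨j, a.symm x⟩ := by
  have : Nonempty (W j) := ⟨ha.some⟩
  set F : OpenPartialHomeomorph (W j) (Σ j, W j) :=
    Topology.IsOpenEmbedding.toOpenPartialHomeomorph (Sigma.mk j)
      Topology.IsOpenEmbedding.sigmaMk with hF
  have hFs : F.source = univ := rfl
  have hFt : F.target = range (Sigma.mk j) := by simp [hF]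
  have hFa : ∀ w, F w = ⟨j, w⟩ := fun w => rfl
  have hFsymm : ∀ w, F.symm ⟨j, w⟩ = w := fun w => by
    have h := F.left_inv (x := w) (by rw [hFs]; trivial)
    rwa [hFa] at h
  refine ⟨F.symm.trans a, ?_, ?_, ?_, ?_⟩
  · rw [OpenPartialHomeomorph.trans_target]
    ext x
    simp [hFs]
  · intro w
    rw [OpenPartialHomeomorph.trans_source, OpenPartialHomeomorph.symm_source, hFt]
    constructor
    · rintro ⟨⟨w', rfl⟩, hw⟩
      rw [mem_preimage, hFsymm] at hw
      exact ⟨w', hw, rfl⟩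
    · rintro ⟨w', hw', rfl⟩
      exact ⟨⟨w', rfl⟩, by rw [mem_preimage, hFsymm]; exact hw'⟩
  · intro w'
    rw [OpenPartialHomeomorph.coe_trans, Function.comp_apply, hFsymm]
  · intro x
    simp [hFa]

end Sum

end NK

section

variable {M Y : Type} [TopologicalSpace M] [TopologicalSpace Y] {n m : ℕ} {κ P : Type}
  {e : κ → OpenPartialHomeomorph M (Cn n)} {b : P → OpenPartialHomeomorph Y (Cn m)} {f : M → Y}

theorem exists_model [CompactSpace M] (hf : IsHolOnto e b f)
    (hmod : ∀ y, Nonempty (SemistableAt e b f y)) :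
    ∃ (P' ι W : Type) (_ : Finite P') (_ : Fintype ι) (_ : TopologicalSpace W) (_ : T2Space W)
      (b' : P' → OpenPartialHomeomorph Y (Cn m)) (ρ : P' → P)
      (a : ι → OpenPartialHomeomorph W (Cn n)) (al : ι → κ) (lab : W → P') (π : W → M)
      (τ : W → Cn m) (N : P' → Fin m → ℕ) (pc : ι → P') (s : ι → Fin m → ℝ)
      (row : ι → Fin n → Option (Fin m)) (y₀ : P' → Cn m) (r : P' → ℝ),
      IsHolMap e b' f ∧ IsModel e b' f a al lab π τ N pc s row ∧ (∀ j, 0 < r j) ∧
      (∀ j, (b' j).source = (b (ρ j)).source) ∧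
      (∀ j y, y ∈ (b' j).target → y₀ j + r j • y ∈ (b (ρ j)).target) ∧
      ∀ j p, b (ρ j) p = y₀ j + r j • b' j p := by
  classical
  have D : ∀ y : Y, NK.LData e b f y := fun y => (NK.exists_ldata y (hmod y).some).some
  -- the unit parts
  set U : Y → Set Y := fun y => (b (D y).S.j).source ∩ (b (D y).S.j) ⁻¹'
    {z | nsq (z - b (D y).S.j y) < ((D y).R / 10) ^ 2} with hU
  have hnsq : Continuous (nsq : Cn m → ℝ) := by
    unfold nsq dotProduct
    fun_prop
  have hUo : ∀ y, IsOpen (U y) := fun y => (b (D y).S.j).isOpen_inter_preimage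
    (isOpen_lt (hnsq.comp (by fun_prop)) continuous_const)
  have hyU : ∀ y, y ∈ U y := fun y => ⟨(D y).S.mem, by
    show nsq (b (D y).S.j y - b (D y).S.j y) < _
    rw [sub_self]
    have h0 : nsq (0 : Cn m) = 0 := by simp [nsq]
    rw [h0]
    have := (D y).R_pos
    positivity⟩
  have hcpt : IsCompact (univ : Set Y) := by
    rw [← hf.surj.range_eq]
    exact isCompact_range hf.continuous
  obtain ⟨t, ht⟩ := hcpt.elim_finite_subcover U hUo
    (fun y _ => mem_iUnion.2 ⟨y, hyU y⟩)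
  let P' : Type := {y : Y // y ∈ t}
  let ι : Type := Σ y : P', (D y.1).ι
  let W : Type := Σ y : P', (D y.1).S.W
  have inst : ∀ y : P', Fintype (D y.1).ι := fun y => (D y.1).fin
  have hs0 : ∀ y : P', 10 / (D y.1).R ≠ 0 := fun y => by
    have := (D y.1).R_pos
    positivity
  set b' : P' → OpenPartialHomeomorph Y (Cn m) := fun y =>
    (b (D y.1).S.j).transHomeomorph (NT.affH (b (D y.1).S.j y.1) (10 / (D y.1).R) (hs0 y)) with hb'
  have hb'a : ∀ (y : P') p, b' y p = (10 / (D y.1).R) • (b (D y.1).S.j p - b (D y.1).S.j y.1) :=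
    fun y p => rfl
  have hcharts := fun i : ι => NK.exists_sigma_chart (W := fun y : P' => (D y.1).S.W) i.1
    ((D i.1.1).a i.2) ((D i.1.1).nonempty i.2)
  choose a hat has haa hasymm using hcharts
  set σ : P' → Fin m → ℝ := fun y i =>
    (10 / (D y.1).R) ^ ((1 : ℝ) / ((D y.1).S.N i : ℝ)) with hσ
  have hRpos : ∀ y : P', 0 < (D y.1).R := fun y => (D y.1).R_pos
  have hσpos : ∀ y i, 0 < σ y i := fun y i => Real.rpow_pos_of_pos (by have := hRpos y; positivity) _
  have hσN : ∀ y i, σ y i ^ (D y.1).S.N i = 10 / (D y.1).R := by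
    intro y i
    rw [hσ, ← Real.rpow_natCast, ← Real.rpow_mul (by have := hRpos y; positivity),
      one_div, inv_mul_cancel₀ (by exact_mod_cast ((D y.1).S.N_pos i).ne'), Real.rpow_one]
  refine ⟨P', ι, W, inferInstance, inferInstance, inferInstance, inferInstance, b',
    fun y => (D y.1).S.j, a, fun i => (D i.1.1).al i.2, fun w => w.1, fun w => (D w.1.1).S.π w.2,
    fun w => NK.scal (σ w.1) ((D w.1.1).S.τ w.2), fun y => (D y.1).S.N, fun i => i.1,
    fun i k => σ i.1 k * (D i.1.1).s i.2 k, fun i => (D i.1.1).row i.2,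
    fun y => b (D y.1).S.j y.1, fun y => (D y.1).R / 10, ?_, ?_, ?_, ?_, ?_, ?_⟩
  · -- the map
    refine ⟨hf.continuous, hf.surj, ?_, ?_, ?_⟩
    · intro c y
      have h1 : (fun z => b' y (f ((e c).symm z))) = fun z =>
          (-((10 / (D y.1).R) • b (D y.1).S.j y.1) : Cn m) +
            (10 / (D y.1).R) • b (D y.1).S.j (f ((e c).symm z)) := by
        funext z
        rw [hb'a, smul_sub]
        abel
      rw [h1]
      exact NT.hol_add_smul (NT.isOpen_cdom hf.continuous c (D y.1).S.j) (hf.holo c (D y.1).S.j) _ _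
    · intro y z hz
      show (NT.affH (b (D y.1).S.j y.1) (10 / (D y.1).R) (hs0 y)).symm z ∈ (b (D y.1).S.j).target
      have h1 : (NT.affH (b (D y.1).S.j y.1) (10 / (D y.1).R) (hs0 y)).symm z =
        b (D y.1).S.j y.1 + (10 / (D y.1).R)⁻¹ • z := rfl
      rw [h1]
      refine (D y.1).sub _ ?_
      rw [add_sub_cancel_left, NK.nsq_smul, inv_div, div_pow]
      have h2 : nsq z < 100 := hz
      have h3 : 0 < (D y.1).R ^ 2 := by have := hRpos y; positivity
      have h4 : (D y.1).R ^ 2 / 10 ^ 2 * nsq z = (D y.1).R ^ 2 * (nsq z / 100) := by ring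
      rw [h4]
      nlinarith
    · intro y
      obtain ⟨y', hy', hyy'⟩ := mem_iUnion₂.1 (ht (mem_univ y))
      refine ⟨⟨y', hy'⟩, hyy'.1, ?_⟩
      rw [hb'a, NK.nsq_smul]
      have h1 : nsq (b (D y').S.j y - b (D y').S.j y') < ((D y').R / 10) ^ 2 := hyy'.2
      have h2 : 0 < (10 / (D y').R) ^ 2 := by have := (D y').R_pos; positivity
      have h3 : (10 / (D y').R) ^ 2 * ((D y').R / 10) ^ 2 = 1 := by
        have := (D y').R_pos.ne'
        field_simp
      calc (10 / (D y').R) ^ 2 * nsq (b (D y').S.j y - b (D y').S.j y')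
          ≤ (10 / (D y').R) ^ 2 * ((D y').R / 10) ^ 2 := by gcongr
        _ = 1 := h3
  · -- the model
    have hscale : ∀ (y : P') (p : Y) (i : Fin m), cc (b' y p) i =
        ((10 / (D y.1).R : ℝ) : ℂ) * (cc (b (D y.1).S.j p) i - cc (b (D y.1).S.j y.1) i) := by
      intro y p i
      rw [hb'a, NK.cc_smul, NK.cc_sub]
    have hσC : ∀ y i, ((σ y i : ℝ) : ℂ) ^ (D y.1).S.N i = ((10 / (D y.1).R : ℝ) : ℂ) := by
      intro y i
      rw [← hσN y i]
      push_cast
      rfl
    have hnorm : ∀ (y : P') (p : Y), nsq (b' y p) ≤ 25 → ∀ t' : Cn m,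
        (∀ i, cc (b (D y.1).S.j p) i = cc (b (D y.1).S.j y.1) i + cc t' i ^ (D y.1).S.N i) →
        ∀ i, ‖cc t' i‖ ^ (D y.1).S.N i ≤ (D y.1).R / 2 := by
      intro y p hp t' ht' i
      have h1 := NK.norm_cc_le (r := 5) (by norm_num) (u := b' y p) (by linarith) i
      rw [hscale, ht' i, add_sub_cancel_left, norm_mul, norm_pow, Complex.norm_real,
        Real.norm_of_nonneg (by have := hRpos y; positivity)] at h1
      have h2 := hRpos y
      rw [div_mul_eq_mul_div, div_le_iff₀ h2] at h1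
      linarith
    refine ⟨?_, fun y i => (D y.1).S.N_pos i, ?_, ?_, ?_, ?_, ?_, ?_, ?_, ?_, ?_, ?_⟩
    · rintro ⟨y, w⟩
      obtain ⟨h1, h2⟩ := (D y.1).S.base w
      refine ⟨h1, fun i => ?_⟩
      show cc (b' y (f ((D y.1).S.π w))) i = cc (NK.scal (σ y) ((D y.1).S.τ w)) i ^ (D y.1).S.N i
      rw [hscale, h2 i, add_sub_cancel_left, NK.cc_scal, mul_pow, hσC]
    · intro i
      rw [hat, (D i.1.1).target]
    · intro i w hw
      obtain ⟨w', -, rfl⟩ := (has i w).1 hw
      rfl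
    · intro i k
      exact mul_pos (hσpos _ _) ((D i.1.1).s_pos _ _)
    · intro i k
      exact (D i.1.1).row_ne i.2 k
    · intro i w hw k
      obtain ⟨w', hw', rfl⟩ := (has i w).1 hw
      show cc (NK.scal (σ i.1) ((D i.1.1).S.τ w')) k = _
      rw [NK.cc_scal, (D i.1.1).mono i.2 w' hw' k, haa]
      push_cast
      ring
    · intro i w hw
      obtain ⟨w', hw', rfl⟩ := (has i w).1 hw
      exact (D i.1.1).mem i.2 w' hw'
    · intro i
      have h1 : (fun x => e ((D i.1.1).al i.2) ((D ((a i).symm x).1.1).S.π ((a i).symm x).2)) =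
          fun x => e ((D i.1.1).al i.2) ((D i.1.1).S.π (((D i.1.1).a i.2).symm x)) := by
        funext x
        rw [hasymm]
      rw [h1]
      exact (D i.1.1).holo i.2
    · rintro ⟨y, w⟩ hw
      have hw' : nsq (b' y (f ((D y.1).S.π w))) ≤ 25 := hw
      obtain ⟨i, hi1, hi2⟩ := (D y.1).cover w
        (hnorm y _ hw' ((D y.1).S.τ w) ((D y.1).S.base w).2)
      refine ⟨⟨y, i⟩, (has ⟨y, i⟩ _).2 ⟨w, hi1, rfl⟩, ?_⟩
      rw [haa]
      exact hi2
    · intro y p hp hp' t' ht'
      set t₀ : Cn m := NK.scal (fun i => (σ y i)⁻¹) t' with ht₀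
      have h1 : ∀ i, cc (b (D y.1).S.j (f p)) i = cc (b (D y.1).S.j y.1) i +
          cc t₀ i ^ (D y.1).S.N i := by
        intro i
        have h2 := ht' i
        rw [hscale] at h2
        rw [ht₀, NK.cc_scal, mul_pow, h2]
        have h3 : ((10 / (D y.1).R : ℝ) : ℂ) ≠ 0 := by
          exact_mod_cast hs0 y
        have h4 : (((σ y i)⁻¹ : ℝ) : ℂ) ^ (D y.1).S.N i = ((10 / (D y.1).R : ℝ) : ℂ)⁻¹ := by
          rw [Complex.ofReal_inv, inv_pow, hσC]
        rw [h4, inv_mul_cancel_left₀ h3]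
        ring
      obtain ⟨w, hw1, hw2⟩ := (D y.1).S.lift p hp t₀
        ((D y.1).small t₀ (hnorm y (f p) hp' t₀ h1)) h1
      refine ⟨⟨y, w⟩, rfl, ?_, hw2⟩
      show NK.scal (σ y) ((D y.1).S.τ w) = t'
      apply NK.cc_ext
      intro i
      rw [hw1, ht₀, NK.cc_scal, NK.cc_scal, ← mul_assoc, ← Complex.ofReal_mul,
        mul_inv_cancel₀ (hσpos y i).ne', Complex.ofReal_one, one_mul]
    · intro y t' ht'
      set t₀ : Cn m := NK.scal (fun i => (σ y i)⁻¹) t' with ht₀
      have h1 : ∀ i, cc t₀ i ≠ 0 := by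
        intro i
        rw [ht₀, NK.cc_scal]
        exact mul_ne_zero (by exact_mod_cast (inv_pos.2 (hσpos y i)).ne') (ht' i)
      have h0 : Continuous fun w : (D y.1).S.W => (⟨y, w⟩ : Σ y : P', (D y.1).S.W) :=
        continuous_sigmaMk (σ := fun y : P' => (D y.1).S.W)
      have h2 := ((D y.1).S.connected t₀ h1).image
        (fun w => (⟨y, w⟩ : Σ y : P', (D y.1).S.W)) h0.continuousOn
      convert h2 using 1
      ext w
      constructor
      · rintro ⟨hw1, hw2⟩
        obtain ⟨y', w⟩ := w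
        obtain rfl : y' = y := hw1
        refine ⟨w, ?_, rfl⟩
        have hw3 : NK.scal (σ y') ((D y'.1).S.τ w) = t' := hw2
        show (D y'.1).S.τ w = t₀
        apply NK.cc_ext
        intro i
        rw [ht₀, ← hw3, NK.cc_scal, NK.cc_scal, ← mul_assoc, ← Complex.ofReal_mul,
          inv_mul_cancel₀ (hσpos y' i).ne', Complex.ofReal_one, one_mul]
      · rintro ⟨w', hw', rfl⟩
        refine ⟨rfl, ?_⟩
        show NK.scal (σ y) ((D y.1).S.τ w') = t'
        apply NK.cc_ext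
        intro i
        rw [show (D y.1).S.τ w' = t₀ from hw', ht₀, NK.cc_scal, NK.cc_scal, ← mul_assoc,
          ← Complex.ofReal_mul, mul_inv_cancel₀ (hσpos y i).ne', Complex.ofReal_one, one_mul]
  · intro y
    have := hRpos y
    positivity
  · intro y
    rfl
  · intro y z hz
    have h1 : (NT.affH (b (D y.1).S.j y.1) (10 / (D y.1).R) (hs0 y)).symm z ∈
      (b (D y.1).S.j).target := hz
    have h2 : (NT.affH (b (D y.1).S.j y.1) (10 / (D y.1).R) (hs0 y)).symm z =
        b (D y.1).S.j y.1 + (10 / (D y.1).R)⁻¹ • z := rfl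
    rw [h2, inv_div] at h1
    exact h1
  · intro y p
    rw [hb'a, smul_smul]
    have h3 : (D y.1).R / 10 * (10 / (D y.1).R) = 1 := by
      have := (hRpos y).ne'
      field_simp
    rw [h3, one_smul]
    abel

end

end Pool.Agent.KRFG
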