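import Pool.Agent.Work.MP_a2bf38_gt.K.Setup
import Pool.Agent.Work.MP_a2bf38_gt.I.Line

/-!
# Continuous plurisubharmonic functions from touching functions

The hypothesis `visc` of `pshC_of_touch_of` is the one-variable statement `visc` of `K/Visc.lean`.
-/

open scoped ContDiff ENNReal ComplexOrder Topology
open Set MeasureTheory Filter Pool.Agent.ToricKRF Pool.Agent.ToricKRF.G Pool.Agent.KRFS
  Pool.Agent.KRFF

namespace Pool.Agent.KRFG

variable {m : ℕ}

theorem cc_line (z v : Cn m) (ζ : ℂ) (i : Fin m) :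
    cc (line z v ζ) i = cc z i + ζ * cc v i := by
  apply Complex.ext
  · simp [cc, line, J]; ring
  · simp [cc, line, J]; ring

theorem D_shift (q : ℂ → ℝ) (a w ζ : ℂ) :
    D w (fun ζ => q (ζ - a)) ζ = D w q (ζ - a) := by
  have h := fderiv_comp_add_right (𝕜 := ℝ) (f := q) (x := ζ) (-a)
  change fderiv ℝ (fun ζ => q (ζ - a)) ζ w = fderiv ℝ q (ζ - a) w
  simp only [sub_eq_add_neg]
  rw [h]

theorem lapC_shift (q : ℂ → ℝ) (a : ℂ) : lapC (fun ζ => q (ζ - a)) a = lapC q 0 := by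
  have h : ∀ w : ℂ, D w (D w fun ζ => q (ζ - a)) a = D w (D w q) 0 := by
    intro w
    have h1 : (D w fun ζ => q (ζ - a)) = fun ζ => D w q (ζ - a) :=
      funext fun ζ => D_shift q a w ζ
    rw [h1, D_shift, sub_self]
  rw [lapC, lapC, h, h]

theorem zeros_finite {z v : Cn m} (h : ∀ i, cc z i ≠ 0 ∨ cc v i ≠ 0) :
    {ζ : ℂ | ∃ i, cc (line z v ζ) i = 0}.Finite := by
  have h1 : {ζ : ℂ | ∃ i, cc (line z v ζ) i = 0} = ⋃ i, {ζ : ℂ | cc (line z v ζ) i = 0} := by
    ext ζ; simp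
  rw [h1]
  refine Set.finite_iUnion fun i => Set.Subsingleton.finite fun a ha b hb => ?_
  simp only [mem_ofPred_eq, cc_line] at ha hb
  by_cases hv : cc v i = 0
  · rw [hv, mul_zero, add_zero] at ha
    rcases h i with h | h
    · exact absurd ha h
    · exact absurd hv h
  · have h2 : (a - b) * cc v i = 0 := by linear_combination ha - hb
    rcases mul_eq_zero.1 h2 with h2 | h2
    · exact sub_eq_zero.1 h2
    · exact absurd h2 hv

/-- the statement `visc` for the unit disc -/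
def Visc1 : Prop := ∀ (u : ℂ → ℝ) (S : Set ℂ), ContinuousOn u (Metric.closedBall 0 1) →
    S.Finite → (∀ z ∈ Metric.ball (0 : ℂ) 1, z ∉ S → ∃ q : ℂ → ℝ, ContDiffAt ℝ 2 q z ∧
      q z = u z ∧ (∀ᶠ w in 𝓝 z, q w ≤ u w) ∧ 0 ≤ lapC q z) → u 0 ≤ cavg u 1

theorem line_shift (z v : Cn m) (a ζ : ℂ) : line (line z v a) v (ζ - a) = line z v ζ := by
  rw [line_eq, line_eq z v a, line_eq z v ζ, add_assoc, ← map_add, add_sub_cancel]

theorem touch_good (visc : Visc1) {u : Cn m → ℝ} {V : Set (Cn m)}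
    (hu : ContinuousOn u V)
    (h : ∀ z ∈ V, (∀ i, cc z i ≠ 0) → ∀ v : Cn m, ∃ q : ℂ → ℝ, ContDiffAt ℝ 2 q 0 ∧ q 0 = u z ∧
      (∀ᶠ ζ in 𝓝 (0 : ℂ), q ζ ≤ u (line z v ζ)) ∧ 0 ≤ lapC q 0) {z v : Cn m}
    (hz : ∀ i, cc z i ≠ 0 ∨ cc v i ≠ 0) (hV : ∀ ζ : ℂ, ‖ζ‖ ≤ 1 → line z v ζ ∈ V) :
    u z ≤ cavg (fun ζ => u (line z v ζ)) 1 := by
  have h1 : u z = (fun ζ => u (line z v ζ)) 0 := by simp only [line_zero]
  rw [h1]
  refine visc (fun ζ => u (line z v ζ)) {ζ : ℂ | ∃ i, cc (line z v ζ) i = 0} ?_ (zeros_finite hz) ?_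
  · refine hu.comp (contDiff_line z v).continuous.continuousOn fun ζ hζ => hV ζ ?_
    simpa using hζ
  · intro a ha haS
    simp only [mem_ofPred_eq, not_exists] at haS
    obtain ⟨q, hq1, hq2, hq3, hq4⟩ := h (line z v a) (hV a (by
      have := Metric.mem_ball.1 ha; rw [dist_zero_right] at this; exact this.le)) haS v
    refine ⟨fun ζ => q (ζ - a), ?_, ?_, ?_, ?_⟩
    · have h2 : ContDiffAt ℝ 2 q (a - a) := by rwa [sub_self]
      exact ContDiffAt.comp (g := q) (f := fun ζ : ℂ => ζ - a) a h2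
        (contDiffAt_id.sub contDiffAt_const)
    · simp only [sub_self]; exact hq2
    · have h2 : Tendsto (fun ζ : ℂ => ζ - a) (𝓝 a) (𝓝 0) := by
        have : Continuous fun ζ : ℂ => ζ - a := by fun_prop
        simpa using this.tendsto a
      filter_upwards [h2.eventually hq3] with ζ hζ
      rwa [line_shift] at hζ
    · rw [lapC_shift]; exact hq4

/-- the vector `(1, …, 1)` -/
def onesC (m : ℕ) : Cn m := (fun _ => 1, fun _ => 0)

theorem cc_add_ones (z : Cn m) (δ : ℝ) (i : Fin m) :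
    cc (z + δ • onesC m) i = cc z i + δ := by
  apply Complex.ext <;> simp [cc, onesC]

theorem norm_onesC (m : ℕ) : ‖onesC m‖ ≤ 1 := by
  rw [onesC, Prod.norm_def]
  refine max_le ?_ ?_
  · exact (pi_norm_le_iff_of_nonneg zero_le_one).2 fun i => by simp
  · exact (pi_norm_le_iff_of_nonneg zero_le_one).2 fun i => by simp

theorem line_add_ones (z v : Cn m) (δ : ℝ) (ζ : ℂ) :
    line (z + δ • onesC m) v ζ = line z v ζ + δ • onesC m := by
  rw [line_eq, line_eq]; abel

theorem pshC_of_touch_of (visc : Visc1) {u : Cn m → ℝ} {V : Set (Cn m)} (hV : IsOpen V)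
    (hu : ContinuousOn u V)
    (h : ∀ z ∈ V, (∀ i, cc z i ≠ 0) → ∀ v : Cn m, ∃ q : ℂ → ℝ, ContDiffAt ℝ 2 q 0 ∧ q 0 = u z ∧
      (∀ᶠ ζ in 𝓝 (0 : ℂ), q ζ ≤ u (line z v ζ)) ∧ 0 ≤ lapC q 0) : PshC u V := by
  refine ⟨hu, fun z v hz => ?_⟩
  -- a compact neighbourhood of the closed disc
  have hcl : Continuous (line z v) := (contDiff_line z v).continuous
  have hK : IsCompact (line z v '' Metric.closedBall 0 1) :=
    (isCompact_closedBall (0 : ℂ) 1).image hcl
  have hKV : line z v '' Metric.closedBall 0 1 ⊆ V := by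
    rintro _ ⟨ζ, hζ, rfl⟩
    exact hz ζ (by simpa using hζ)
  obtain ⟨ρ, hρ, hρV⟩ := hK.exists_cthickening_subset_open hV hKV
  have hK' : IsCompact (Metric.cthickening ρ (line z v '' Metric.closedBall 0 1)) :=
    hK.cthickening
  obtain ⟨C, hC⟩ := hK'.exists_bound_of_continuousOn (hu.mono hρV)
  have hmem : ∀ δ : ℝ, |δ| ≤ ρ → ∀ ζ : ℂ, ‖ζ‖ ≤ 1 → line (z + δ • onesC m) v ζ ∈
      Metric.cthickening ρ (line z v '' Metric.closedBall 0 1) := by
    intro δ hδ ζ hζ
    rw [line_add_ones]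
    refine Metric.mem_cthickening_of_dist_le _ (line z v ζ) ρ _
      (mem_image_of_mem _ (by simpa using hζ)) ?_
    rw [dist_eq_norm, add_sub_cancel_left, norm_smul, Real.norm_eq_abs]
    calc |δ| * ‖onesC m‖ ≤ |δ| * 1 :=
          mul_le_mul_of_nonneg_left (norm_onesC m) (abs_nonneg _)
      _ ≤ ρ := by rw [mul_one]; exact hδ
  have hsmall : ∀ᶠ δ : ℝ in 𝓝[≠] 0, |δ| ≤ ρ := by
    refine mem_nhdsWithin_of_mem_nhds ?_
    filter_upwards [Metric.closedBall_mem_nhds (0 : ℝ) hρ] with δ hδ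
    simpa [Real.dist_eq] using hδ
  have hgood : ∀ᶠ δ : ℝ in 𝓝[≠] 0, ∀ i, cc (z + δ • onesC m) i ≠ 0 := by
    refine eventually_all.2 fun i => ?_
    by_cases hi : cc z i = 0
    · filter_upwards [self_mem_nhdsWithin] with δ hδ
      rw [cc_add_ones, hi, zero_add]
      exact_mod_cast hδ
    · refine mem_nhdsWithin_of_mem_nhds ?_
      have h1 : Continuous fun δ : ℝ => cc z i + (δ : ℂ) := by fun_prop
      have h2 : (fun δ : ℝ => cc z i + (δ : ℂ)) 0 ≠ 0 := by simpa using hi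
      filter_upwards [h1.continuousAt.eventually_ne h2] with δ hδ
      rw [cc_add_ones]; exact hδ
  have hle : ∀ᶠ δ : ℝ in 𝓝[≠] 0, u (z + δ • onesC m) ≤
      cavg (fun ζ => u (line (z + δ • onesC m) v ζ)) 1 := by
    filter_upwards [hsmall, hgood] with δ h1 h2
    exact touch_good visc hu h (fun i => Or.inl (h2 i))
      fun ζ hζ => hρV (hmem δ h1 ζ hζ)
  -- limits
  have hlim1 : Tendsto (fun δ : ℝ => u (z + δ • onesC m)) (𝓝[≠] 0) (𝓝 (u z)) := by
    have h0 : z ∈ V := by simpa [line_zero] using hz 0 (by simp)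
    have h1 : Continuous fun δ : ℝ => z + δ • onesC m := by fun_prop
    have h2 : Tendsto (fun δ : ℝ => z + δ • onesC m) (𝓝 0) (𝓝 z) := by
      simpa using h1.tendsto 0
    exact ((hu.continuousAt (hV.mem_nhds h0)).tendsto.comp h2).mono_left nhdsWithin_le_nhds
  have hlim2 : Tendsto (fun δ : ℝ => cavg (fun ζ => u (line (z + δ • onesC m) v ζ)) 1)
      (𝓝[≠] 0) (𝓝 (cavg (fun ζ => u (line z v ζ)) 1)) := by
    simp only [cavg]
    refine Tendsto.const_mul _ ?_
    have hn : ∀ θ : ℝ, ‖((1 : ℝ) : ℂ) * Complex.exp (θ * Complex.I)‖ ≤ 1 := by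
      intro θ; simp [Complex.norm_exp_ofReal_mul_I]
    refine intervalIntegral.tendsto_integral_filter_of_dominated_convergence (fun _ => C) ?_ ?_
      intervalIntegrable_const ?_
    · filter_upwards [hsmall] with δ hδ
      have h3 : ContinuousOn (fun θ : ℝ => u (line (z + δ • onesC m) v
          (((1 : ℝ) : ℂ) * Complex.exp (θ * Complex.I)))) univ := by
        refine hu.comp (f := fun θ : ℝ => line (z + δ • onesC m) v
          (((1 : ℝ) : ℂ) * Complex.exp (θ * Complex.I))) ?_ fun θ _ => hρV (hmem δ hδ _ (hn θ))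
        refine Continuous.continuousOn ((contDiff_line _ v).continuous.comp ?_)
        fun_prop
      exact (continuousOn_univ.1 h3).aestronglyMeasurable
    · filter_upwards [hsmall] with δ hδ
      refine Eventually.of_forall fun θ _ => hC _ (hmem δ hδ _ (hn θ))
    · refine Eventually.of_forall fun θ _ => ?_
      have h0 := hz _ (hn θ)
      have h1 : Continuous fun δ : ℝ => line (z + δ • onesC m) v
          (((1 : ℝ) : ℂ) * Complex.exp (θ * Complex.I)) := by
        simp only [line_add_ones]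
        fun_prop
      have h2 := h1.tendsto 0
      simp only [zero_smul, add_zero] at h2
      exact ((hu.continuousAt (hV.mem_nhds h0)).tendsto.comp h2).mono_left nhdsWithin_le_nhds
  exact le_of_tendsto_of_tendsto hlim1 hlim2 hle

end Pool.Agent.KRFG
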