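import Pool.Agent.Work.MP_a2bf38_gt.K.Setup
import Mathlib.Analysis.Complex.Harmonic.MeanValue
import Mathlib.Analysis.Fourier.AddCircle

/-!
# Functions of one complex variable touched from below by subharmonic functions

A continuous function which is touched from below by functions with nonnegative Laplacian, at all
points but finitely many, has the sub-mean value property.
-/

open scoped ContDiff ENNReal ComplexOrder Topology Laplacian
open Set MeasureTheory Filter Pool.Agent.ToricKRF Pool.Agent.ToricKRF.G Pool.Agent.KRFS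
  Pool.Agent.KRFF InnerProductSpace

namespace Pool.Agent.KRFG.ViscAux

/-- the second derivative along `w` -/
theorem D_D_eq {G : ℂ → ℝ} {z : ℂ} (hG : ContDiffAt ℝ 2 G z) (w : ℂ) :
    D w (D w G) z = fderiv ℝ (fderiv ℝ G) z w w := by
  have h2 : ContDiffAt ℝ 1 (fderiv ℝ G) z := hG.fderiv_right (by norm_num)
  have h3 : DifferentiableAt ℝ (fderiv ℝ G) z := h2.differentiableAt (by norm_num)
  show fderiv ℝ (fun q => fderiv ℝ G q w) z w = _
  rw [fderiv_clm_apply h3 (differentiableAt_const w)]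
  simp

theorem lapC_eq {G : ℂ → ℝ} {z : ℂ} (hG : ContDiffAt ℝ 2 G z) :
    lapC G z = (Δ G) z := by
  rw [laplacian_eq_iteratedFDeriv_complexPlane]
  simp only [iteratedFDeriv_two_apply]
  simp [lapC, D_D_eq hG]

theorem lapC_nonpos {G : ℂ → ℝ} {z : ℂ} (hG : ContDiffAt ℝ 2 G z) (hm : IsLocalMax G z) :
    lapC G z ≤ 0 := by
  have key : ∀ w : ℂ, D w (D w G) z ≤ 0 := by
    intro w
    obtain ⟨h1, -, h3⟩ := line_facts w hG
    have hc : Tendsto (fun s : ℝ => z + s • w) (𝓝 0) (𝓝 z) := by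
      have := (hasDerivAt_line' z w 0).continuousAt.tendsto
      simpa using this
    have hm' : IsLocalMax (fun s : ℝ => G (z + s • w)) 0 := by
      have := hc.eventually hm
      filter_upwards [this] with s hs
      simpa using hs
    have := deriv_deriv_nonpos_of_isLocalMax h1 hm'
    rw [h3] at this
    exact this
  exact add_nonpos (key 1) (key Complex.I)

theorem D_D_normSq (w z : ℂ) : D w (D w fun z : ℂ => Complex.normSq z) z =
    2 * Complex.normSq w := by
  have hc : ContDiffAt ℝ 2 (fun z : ℂ => Complex.normSq z) z := by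
    have : (fun z : ℂ => Complex.normSq z) = fun z => z.re * z.re + z.im * z.im := by
      ext z; rw [Complex.normSq_apply]
    rw [this]
    have h1 : ContDiff ℝ 2 (fun z : ℂ => z.re) := Complex.reCLM.contDiff
    have h2 : ContDiff ℝ 2 (fun z : ℂ => z.im) := Complex.imCLM.contDiff
    exact ((h1.mul h1).add (h2.mul h2)).contDiffAt
  obtain ⟨-, -, h3⟩ := line_facts w hc
  show fderiv ℝ (fun q => fderiv ℝ (fun z : ℂ => Complex.normSq z) q w) z w = _
  rw [← h3]
  have h4 : (fun s : ℝ => Complex.normSq (z + s • w)) = fun s =>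
      Complex.normSq z + s * (2 * (z.re * w.re + z.im * w.im)) + s ^ 2 * Complex.normSq w := by
    ext s
    simp only [Complex.normSq_apply, Complex.add_re, Complex.add_im, Complex.real_smul,
      Complex.mul_re, Complex.mul_im, Complex.ofReal_re, Complex.ofReal_im]
    ring
  rw [h4]
  have h5 : ∀ s : ℝ, HasDerivAt (fun s : ℝ =>
      Complex.normSq z + s * (2 * (z.re * w.re + z.im * w.im)) + s ^ 2 * Complex.normSq w)
      (2 * (z.re * w.re + z.im * w.im) + 2 * s * Complex.normSq w) s := by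
    intro s
    have h6 := (((hasDerivAt_id s).mul_const (2 * (z.re * w.re + z.im * w.im))).const_add
      (Complex.normSq z)).add ((hasDerivAt_pow 2 s).mul_const (Complex.normSq w))
    have h7 : (1 : ℝ) * (2 * (z.re * w.re + z.im * w.im)) + ((2 : ℕ) : ℝ) * s ^ (2 - 1) *
        Complex.normSq w = 2 * (z.re * w.re + z.im * w.im) + 2 * s * Complex.normSq w := by
      norm_num
    rw [h7] at h6
    exact h6
  have h7 : deriv (fun s : ℝ =>
      Complex.normSq z + s * (2 * (z.re * w.re + z.im * w.im)) + s ^ 2 * Complex.normSq w) =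
      fun s => 2 * (z.re * w.re + z.im * w.im) + 2 * s * Complex.normSq w :=
    funext fun s => (h5 s).deriv
  rw [h7]
  have h8 : HasDerivAt (fun s : ℝ =>
      2 * (z.re * w.re + z.im * w.im) + 2 * s * Complex.normSq w) (2 * Complex.normSq w) 0 := by
    have h9 := (((hasDerivAt_id (0:ℝ)).const_mul 2).mul_const (Complex.normSq w)).const_add
      (2 * (z.re * w.re + z.im * w.im))
    simpa using h9
  exact h8.deriv

theorem contDiff_normSq : ContDiff ℝ 2 (fun z : ℂ => Complex.normSq z) := by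
  have : (fun z : ℂ => Complex.normSq z) = fun z => z.re * z.re + z.im * z.im := by
    ext z; rw [Complex.normSq_apply]
  rw [this]
  have h1 : ContDiff ℝ 2 (fun z : ℂ => z.re) := Complex.reCLM.contDiff
  have h2 : ContDiff ℝ 2 (fun z : ℂ => z.im) := Complex.imCLM.contDiff
  exact (h1.mul h1).add (h2.mul h2)

theorem laplacian_normSq (z : ℂ) : (Δ fun z : ℂ => Complex.normSq z) z = 4 := by
  rw [← lapC_eq contDiff_normSq.contDiffAt, lapC, D_D_normSq, D_D_normSq]
  norm_num

/-- the comparison with a harmonic function -/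
theorem compare {u P : ℂ → ℝ} {r ε : ℝ}
    (hu : ContinuousOn u (Metric.closedBall 0 r)) {S : Set ℂ} (hS : S.Finite)
    (h : ∀ z ∈ Metric.ball (0 : ℂ) r, z ∉ S → ∃ q : ℂ → ℝ, ContDiffAt ℝ 2 q z ∧ q z = u z ∧
      (∀ᶠ w in 𝓝 z, q w ≤ u w) ∧ 0 ≤ lapC q z)
    (hP : ∀ z, HarmonicAt P z) (hb : ∀ z ∈ Metric.sphere (0 : ℂ) r, u z ≤ P z + ε)
    {z₁ : ℂ} (hz₁ : z₁ ∈ Metric.ball (0 : ℂ) r) (hz₁S : z₁ ∉ S) : u z₁ ≤ P z₁ + ε := by
  classical
  by_contra hcon
  push Not at hcon
  have hr : 0 < r := by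
    have := (norm_nonneg z₁).trans_lt (by simpa using hz₁)
    exact this
  have hPc : Continuous P := continuous_iff_continuousAt.mpr fun z =>
    (hP z).1.continuousAt
  obtain ⟨B, hB⟩ := hS.isBounded.exists_norm_le
  set R : ℝ := r + |B| + 1 with hR
  have hRpos : 0 < R := by positivity
  have hle1 : ∀ z ∈ Metric.closedBall (0 : ℂ) r, ∀ s ∈ S, ‖z - s‖ / R ≤ 1 := by
    intro z hz s hs
    rw [div_le_one hRpos]
    have h1 : ‖z‖ ≤ r := by simpa using hz
    have h2 := (hB s hs).trans (le_abs_self B)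
    linarith [norm_sub_le z s]
  set F : Finset ℂ := hS.toFinset with hF
  set L : ℂ → ℝ := fun z => ∑ s ∈ F, Real.log (‖z - s‖ / R) with hL
  have hterm : ∀ z ∈ Metric.closedBall (0 : ℂ) r, ∀ s ∈ F, Real.log (‖z - s‖ / R) ≤ 0 := by
    intro z hz s hs
    exact Real.log_nonpos (by positivity) (hle1 z hz s (by simpa [hF] using hs))
  have hLle : ∀ z ∈ Metric.closedBall (0 : ℂ) r, ∀ s ∈ F, L z ≤ Real.log (‖z - s‖ / R) := by
    intro z hz s hs
    rw [hL]
    simp only
    rw [← Finset.add_sum_erase _ _ hs]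
    have : ∑ x ∈ F.erase s, Real.log (‖z - x‖ / R) ≤ 0 :=
      Finset.sum_nonpos fun x hx => hterm z hz x (Finset.mem_of_mem_erase hx)
    linarith
  have hL0 : ∀ z ∈ Metric.closedBall (0 : ℂ) r, L z ≤ 0 := fun z hz =>
    Finset.sum_nonpos fun x hx => hterm z hz x hx
  have hLh : ∀ z, z ∉ S → HarmonicAt L z := by
    intro z hz
    have h1 : ∀ s ∈ S, HarmonicAt (fun z : ℂ => Real.log (‖z - s‖ / R)) z := by
      intro s hs
      have hzs : z - s ≠ 0 := fun h => hz (by rw [sub_eq_zero.mp h]; exact hs)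
      have h2 : AnalyticAt ℂ (fun z : ℂ => z - s) z := analyticAt_id.sub analyticAt_const
      have h3 := (h2.harmonicAt_log_norm hzs).sub (harmonicAt_const (x := z) (Real.log R))
      refine (harmonicAt_congr_nhds ?_).mpr h3
      have h4 : ∀ᶠ w in 𝓝 z, w - s ≠ 0 := by
        have : ContinuousAt (fun w : ℂ => w - s) z := by fun_prop
        exact this.eventually_ne hzs
      filter_upwards [h4] with w hw
      simp only [Pi.sub_apply]
      rw [Real.log_div (norm_ne_zero_iff.mpr hw) hRpos.ne']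
    have h5 : ∀ G : Finset ℂ, (∀ s ∈ G, s ∈ S) →
        HarmonicAt (fun z => ∑ s ∈ G, Real.log (‖z - s‖ / R)) z := by
      intro G
      induction G using Finset.induction_on with
      | empty => intro _; simpa using harmonicAt_const (x := z) (0 : ℝ)
      | insert a G ha ih =>
        intro hG
        have h6 := (h1 a (hG a (by simp))).add (ih fun s hs => hG s (by simp [hs]))
        have h7 : (fun z => ∑ s ∈ insert a G, Real.log (‖z - s‖ / R)) =
            (fun z : ℂ => Real.log (‖z - a‖ / R)) + fun z => ∑ s ∈ G, Real.log (‖z - s‖ / R) := by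
          ext w
          simp [Finset.sum_insert ha]
        rw [h7]
        exact h6
    exact h5 F fun s hs => by simpa [hF] using hs
  set ε' : ℝ := u z₁ - (P z₁ + ε) with hε'
  have hε'pos : 0 < ε' := by rw [hε']; linarith
  set η : ℝ := ε' / (2 * (r ^ 2 - L z₁ + 1)) with hη
  have hz₁c : z₁ ∈ Metric.closedBall (0 : ℂ) r := Metric.ball_subset_closedBall hz₁
  have hden : 0 < r ^ 2 - L z₁ + 1 := by
    have := hL0 z₁ hz₁c
    nlinarith [sq_nonneg r]
  have hηpos : 0 < η := by positivity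
  have hηle : η * (r ^ 2 - L z₁) < ε' := by
    rw [hη]
    rw [div_mul_eq_mul_div, div_lt_iff₀ (by positivity)]
    nlinarith
  set W : ℂ → ℝ := fun z => u z - P z + η * Complex.normSq z + η * L z with hW
  have hW1 : ε + η * r ^ 2 < W z₁ := by
    have h1 : 0 ≤ η * Complex.normSq z₁ := mul_nonneg hηpos.le (Complex.normSq_nonneg _)
    simp only [hW]
    nlinarith
  -- an upper bound for the rest
  obtain ⟨M, hM⟩ : ∃ M, ∀ z ∈ Metric.closedBall (0 : ℂ) r,
      u z - P z + η * Complex.normSq z ≤ M := by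
    have hc : ContinuousOn (fun z => u z - P z + η * Complex.normSq z)
        (Metric.closedBall (0 : ℂ) r) :=
      (hu.sub hPc.continuousOn).add (continuous_const.mul Complex.continuous_normSq).continuousOn
    obtain ⟨z₀, -, hz₀⟩ := (isCompact_closedBall (0 : ℂ) r).exists_isMaxOn
      ⟨0, by simp [hr.le]⟩ hc
    exact ⟨_, fun z hz => hz₀ hz⟩
  set δ : ℝ := R * Real.exp ((W z₁ - M) / η - 1) with hδ
  have hδpos : 0 < δ := by positivity
  have hnear : ∀ z ∈ Metric.closedBall (0 : ℂ) r, z ∉ S → ∀ s ∈ S, ‖z - s‖ ≤ δ → W z < W z₁ := by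
    intro z hz hzS s hs hzs
    have hpos : 0 < ‖z - s‖ := norm_pos_iff.mpr fun h => hzS (by
      rw [sub_eq_zero.mp h]; exact hs)
    have h1 : L z ≤ Real.log (‖z - s‖ / R) := hLle z hz s (by simpa [hF] using hs)
    have h2 : Real.log (‖z - s‖ / R) ≤ (W z₁ - M) / η - 1 := by
      rw [← Real.log_exp ((W z₁ - M) / η - 1)]
      refine Real.log_le_log (by positivity) ?_
      rw [div_le_iff₀ hRpos]
      rw [hδ] at hzs
      linarith
    have h3 : η * L z ≤ η * ((W z₁ - M) / η - 1) :=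
      mul_le_mul_of_nonneg_left (h1.trans h2) hηpos.le
    have h4 : η * ((W z₁ - M) / η - 1) = W z₁ - M - η := by
      field_simp
    have h5 := hM z hz
    have h6 : W z = (u z - P z + η * Complex.normSq z) + η * L z := rfl
    rw [h6]
    linarith
  set K : Set ℂ := {z | z ∈ Metric.closedBall (0 : ℂ) r ∧ ∀ s ∈ S, δ ≤ ‖z - s‖} with hK
  have hKc : IsCompact K := by
    refine (isCompact_closedBall (0 : ℂ) r).of_isClosed_subset ?_ fun z hz => hz.1
    have : K = Metric.closedBall (0 : ℂ) r ∩ ⋂ s ∈ S, {z | δ ≤ ‖z - s‖} := by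
      ext z; simp [hK]
    rw [this]
    refine Metric.isClosed_closedBall.inter (isClosed_biInter fun s _ => ?_)
    exact isClosed_le continuous_const (by fun_prop)
  have hKS : ∀ z ∈ K, z ∉ S := by
    intro z hz hzS
    have := hz.2 z hzS
    simp at this
    linarith
  have hz₁K : z₁ ∈ K := by
    refine ⟨hz₁c, fun s hs => ?_⟩
    by_contra hlt
    push Not at hlt
    exact lt_irrefl _ (hnear z₁ hz₁c hz₁S s hs hlt.le)
  have hWc : ContinuousOn W K := by
    have h1 : ContinuousOn L K := fun z hz => ((hLh z (hKS z hz)).1.continuousAt).continuousWithinAt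
    exact (((hu.mono fun z hz => hz.1).sub hPc.continuousOn).add
      (continuous_const.mul Complex.continuous_normSq).continuousOn).add
      (continuousOn_const.mul h1)
  obtain ⟨z₂, hz₂K, hz₂⟩ := hKc.exists_isMaxOn ⟨z₁, hz₁K⟩ hWc
  have hge : W z₁ ≤ W z₂ := hz₂ hz₁K
  have hz₂S := hKS z₂ hz₂K
  have hmaxall : ∀ z ∈ Metric.closedBall (0 : ℂ) r, z ∉ S → W z ≤ W z₂ := by
    intro z hz hzS
    by_cases hzK : z ∈ K
    · exact hz₂ hzK
    · have : ∃ s ∈ S, ‖z - s‖ < δ := by
        by_contra hno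
        push Not at hno
        exact hzK ⟨hz, hno⟩
      obtain ⟨s, hs, hlt⟩ := this
      exact ((hnear z hz hzS s hs hlt.le).le).trans hge
  have hz₂b : z₂ ∈ Metric.ball (0 : ℂ) r := by
    rw [Metric.mem_ball, dist_zero_right]
    have h1 : ‖z₂‖ ≤ r := by simpa using hz₂K.1
    refine lt_of_le_of_ne h1 fun h2 => ?_
    have h3 := hb z₂ (by simpa using h2)
    have h4 := hL0 z₂ hz₂K.1
    have h5 : Complex.normSq z₂ = r ^ 2 := by rw [Complex.normSq_eq_norm_sq, h2]
    have h6 : W z₂ ≤ ε + η * r ^ 2 := by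
      simp only [hW]
      rw [h5]
      nlinarith
    linarith
  obtain ⟨q, hq1, hq2, hq3, hq4⟩ := h z₂ hz₂b hz₂S
  set G : ℂ → ℝ := (q - P) + (η • (fun z : ℂ => Complex.normSq z) + η • L) with hG
  have hGW : ∀ z, G z = q z - P z + η * Complex.normSq z + η * L z := by
    intro z
    simp [hG]
    ring
  have hmax : IsLocalMax G z₂ := by
    have h1 : ∀ᶠ z in 𝓝 z₂, z ∈ Metric.ball (0 : ℂ) r := Metric.isOpen_ball.mem_nhds hz₂b
    have h2 : ∀ᶠ z in 𝓝 z₂, z ∉ S := hS.isClosed.isOpen_compl.mem_nhds hz₂S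
    filter_upwards [h1, h2, hq3] with z hz1 hz2 hz3
    have h3 := hmaxall z (Metric.ball_subset_closedBall hz1) hz2
    rw [hGW, hGW, hq2]
    simp only [hW] at h3
    linarith
  have hL2 := hLh z₂ hz₂S
  have hc1 : ContDiffAt ℝ 2 (η • (fun z : ℂ => Complex.normSq z)) z₂ :=
    contDiff_normSq.contDiffAt.const_smul η
  have hc2 : ContDiffAt ℝ 2 (η • L) z₂ := hL2.1.const_smul η
  have hc3 : ContDiffAt ℝ 2 (q - P) z₂ := hq1.sub (hP z₂).1
  have hc12 : ContDiffAt ℝ 2 (η • (fun z : ℂ => Complex.normSq z) + η • L) z₂ := hc1.add hc2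
  have hcG : ContDiffAt ℝ 2 G z₂ := hc3.add hc12
  have hle := lapC_nonpos hcG hmax
  rw [lapC_eq hcG, hG, hc3.laplacian_add hc12, hc1.laplacian_add hc2,
    hq1.laplacian_sub (hP z₂).1, laplacian_smul _ contDiff_normSq.contDiffAt,
    laplacian_smul _ hL2.1, laplacian_normSq, (hP z₂).2.self_of_nhds, hL2.2.self_of_nhds,
    ← lapC_eq hq1] at hle
  simp at hle
  nlinarith

/-- continuous functions on a circle are approximated by harmonic functions on `ℂ` -/
theorem approx {u : ℂ → ℝ} {r : ℝ} (hr : 0 < r)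
    (hu : ContinuousOn u (Metric.sphere 0 r)) {ε : ℝ} (hε : 0 < ε) :
    ∃ P : ℂ → ℝ, (∀ z, HarmonicAt P z) ∧ ∀ z ∈ Metric.sphere (0 : ℂ) r, |P z - u z| ≤ ε := by
  haveI : Fact (0 < 2 * Real.pi) := ⟨by positivity⟩
  have hc0 : Continuous fun x : AddCircle (2 * Real.pi) => (r : ℂ) * (x.toCircle : ℂ) :=
    continuous_const.mul (continuous_subtype_val.comp AddCircle.continuous_toCircle)
  have hc : Continuous fun x : AddCircle (2 * Real.pi) => ((u (r * (x.toCircle : ℂ)) : ℝ) : ℂ) := by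
    refine Complex.continuous_ofReal.comp (hu.comp_continuous hc0 fun x => ?_)
    simp [abs_of_pos hr]
  set f : C(AddCircle (2 * Real.pi), ℂ) := ⟨_, hc⟩ with hf
  have h1 : f ∈ (Submodule.span ℂ (range (@fourier (2 * Real.pi)))).topologicalClosure := by
    rw [span_fourier_closure_eq_top]
    trivial
  have h2 : f ∈ closure ((Submodule.span ℂ (range (@fourier (2 * Real.pi))) :
      Set C(AddCircle (2 * Real.pi), ℂ))) := h1
  obtain ⟨g, hg, hgd⟩ := Metric.mem_closure_iff.mp h2 ε hε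
  have hrep : ∃ F₁ F₂ : ℂ → ℂ, Differentiable ℂ F₁ ∧ Differentiable ℂ F₂ ∧
      ∀ x : AddCircle (2 * Real.pi), g x = F₁ (x.toCircle : ℂ) +
        (starRingEnd ℂ) (F₂ (x.toCircle : ℂ)) := by
    refine Submodule.span_induction (p := fun g _ => ∃ F₁ F₂ : ℂ → ℂ, Differentiable ℂ F₁ ∧
      Differentiable ℂ F₂ ∧ ∀ x : AddCircle (2 * Real.pi), g x = F₁ (x.toCircle : ℂ) +
        (starRingEnd ℂ) (F₂ (x.toCircle : ℂ))) ?_ ?_ ?_ ?_ hg
    · rintro _ ⟨n, rfl⟩
      rcases Int.eq_nat_or_neg n with ⟨k, rfl | rfl⟩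
      · refine ⟨fun z => z ^ k, fun _ => 0, by fun_prop, by fun_prop, fun x => ?_⟩
        rw [fourier_apply, natCast_zsmul, AddCircle.toCircle_nsmul]
        simp
      · refine ⟨fun _ => 0, fun z => z ^ k, by fun_prop, by fun_prop, fun x => ?_⟩
        rw [fourier_apply, neg_zsmul, natCast_zsmul, AddCircle.toCircle_neg,
          AddCircle.toCircle_nsmul, Circle.coe_inv_eq_conj]
        simp
    · exact ⟨fun _ => 0, fun _ => 0, by fun_prop, by fun_prop, by simp⟩
    · rintro a b - - ⟨F₁, F₂, h1, h2, h3⟩ ⟨G₁, G₂, h4, h5, h6⟩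
      refine ⟨F₁ + G₁, F₂ + G₂, h1.add h4, h2.add h5, fun x => ?_⟩
      simp [h3, h6]
      ring
    · rintro c a - ⟨F₁, F₂, h1, h2, h3⟩
      refine ⟨fun z => c * F₁ z, fun z => (starRingEnd ℂ) c * F₂ z, h1.const_mul _,
        h2.const_mul _, fun x => ?_⟩
      simp [h3]
      ring
  obtain ⟨F₁, F₂, hF₁, hF₂, hrep⟩ := hrep
  refine ⟨fun z => (F₁ (z / r) + F₂ (z / r)).re, fun z => ?_, fun z hz => ?_⟩
  · have hd : Differentiable ℂ fun z : ℂ => F₁ (z / r) + F₂ (z / r) := by
      have h3 : Differentiable ℂ fun z : ℂ => z / r := differentiable_id.div_const _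
      exact (hF₁.comp h3).add (hF₂.comp h3)
    exact (hd.analyticAt z).harmonicAt_re
  · have hz' : ‖z‖ = r := by simpa using hz
    have h3 : ‖z / r‖ = 1 := by
      rw [norm_div, hz', Complex.norm_real, Real.norm_eq_abs, abs_of_pos hr, div_self hr.ne']
    obtain ⟨θ, hθ⟩ := (Complex.norm_eq_one_iff _).mp h3
    have h4 : ((AddCircle.toCircle (θ : AddCircle (2 * Real.pi)) : Circle) : ℂ) = z / r := by
      rw [← hθ, AddCircle.toCircle_apply_mk, Circle.coe_exp]
      congr 2
      push_cast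
      rw [div_self (by
        have := Real.pi_ne_zero
        norm_cast
        positivity), one_mul]
    have h5 := hrep (θ : AddCircle (2 * Real.pi))
    rw [h4] at h5
    have h6 : f (θ : AddCircle (2 * Real.pi)) = (u z : ℂ) := by
      rw [hf]
      simp only [ContinuousMap.coe_mk]
      rw [h4, mul_div_cancel₀ z (by exact_mod_cast hr.ne')]
    have h7 : ‖f (θ : AddCircle (2 * Real.pi)) - g (θ : AddCircle (2 * Real.pi))‖ ≤ ε := by
      rw [← dist_eq_norm]
      exact (ContinuousMap.dist_apply_le_dist _).trans hgd.le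
    rw [h5, h6] at h7
    have h8 := (Complex.abs_re_le_norm _).trans h7
    rw [abs_sub_comm]
    refine le_trans (le_of_eq ?_) h8
    simp

end Pool.Agent.KRFG.ViscAux

namespace Pool.Agent.KRFG

open ViscAux

theorem visc {u : ℂ → ℝ} {r : ℝ} (hr : 0 < r) (hu : ContinuousOn u (Metric.closedBall 0 r))
    {S : Set ℂ} (hS : S.Finite)
    (h : ∀ z ∈ Metric.ball (0 : ℂ) r, z ∉ S → ∃ q : ℂ → ℝ, ContDiffAt ℝ 2 q z ∧ q z = u z ∧
      (∀ᶠ w in 𝓝 z, q w ≤ u w) ∧ 0 ≤ lapC q z) : u 0 ≤ cavg u r := by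
  refine le_of_forall_pos_le_add fun ε hε => ?_
  obtain ⟨P, hP, hPu⟩ := approx hr (hu.mono Metric.sphere_subset_closedBall) (half_pos hε)
  have hPc : Continuous P := continuous_iff_continuousAt.mpr fun z => (hP z).1.continuousAt
  have h1 : ∀ z ∈ Metric.ball (0 : ℂ) r, z ∉ S → u z ≤ P z + ε / 2 := fun z hz hzS =>
    compare hu hS h hP (fun w hw => by
      have := abs_le.mp (hPu w hw)
      linarith [this.1]) hz hzS
  have h2 : u 0 ≤ P 0 + ε / 2 := by
    have h3 : Tendsto u (𝓝[≠] 0) (𝓝 (u 0)) := by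
      have : ContinuousAt u 0 := hu.continuousAt (Metric.closedBall_mem_nhds _ hr)
      exact this.tendsto.mono_left nhdsWithin_le_nhds
    have h4 : Tendsto (fun z => P z + ε / 2) (𝓝[≠] 0) (𝓝 (P 0 + ε / 2)) :=
      ((hPc.tendsto 0).mono_left nhdsWithin_le_nhds).add_const _
    refine le_of_tendsto_of_tendsto h3 h4 ?_
    have h5 : ∀ᶠ z in 𝓝 (0 : ℂ), z ∈ Metric.ball (0 : ℂ) r := Metric.ball_mem_nhds _ hr
    have h6 : ∀ᶠ z in 𝓝 (0 : ℂ), z ∉ S \ {0} :=
      (hS.subset sdiff_subset).isClosed.isOpen_compl.mem_nhds (by simp)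
    filter_upwards [nhdsWithin_le_nhds h5, nhdsWithin_le_nhds h6, self_mem_nhdsWithin]
      with z h7 h8 h9
    exact h1 z h7 fun h10 => h8 ⟨h10, h9⟩
  have h3 : P 0 = cavg P r := by
    have h4 := InnerProductSpace.HarmonicOnNhd.circleAverage_eq (f := P) (c := 0) (R := r) fun z _ => hP z
    rw [← h4, Real.circleAverage_def, cavg]
    simp [circleMap]
  have h4 : cavg P r ≤ cavg u r + ε / 2 := by
    have hmem : ∀ θ : ℝ, (r : ℂ) * Complex.exp (θ * Complex.I) ∈ Metric.sphere (0 : ℂ) r := by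
      intro θ
      simp [Complex.norm_exp_ofReal_mul_I, abs_of_pos hr]
    have hc0 : Continuous fun θ : ℝ => (r : ℂ) * Complex.exp (θ * Complex.I) := by fun_prop
    have hc1 : Continuous fun θ : ℝ => P ((r : ℂ) * Complex.exp (θ * Complex.I)) :=
      hPc.comp hc0
    have hc2 : Continuous fun θ : ℝ => u ((r : ℂ) * Complex.exp (θ * Complex.I)) :=
      (hu.mono Metric.sphere_subset_closedBall).comp_continuous hc0 hmem
    have h5 : ∫ θ in (0 : ℝ)..2 * Real.pi, P ((r : ℂ) * Complex.exp (θ * Complex.I)) ≤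
        ∫ θ in (0 : ℝ)..2 * Real.pi, (u ((r : ℂ) * Complex.exp (θ * Complex.I)) + ε / 2) := by
      refine intervalIntegral.integral_mono (by positivity) (hc1.intervalIntegrable _ _)
        ((hc2.add continuous_const).intervalIntegrable _ _) fun θ => ?_
      have := abs_le.mp (hPu _ (hmem θ))
      simp only
      linarith [this.2]
    rw [intervalIntegral.integral_add (hc2.intervalIntegrable _ _) (by simp)] at h5
    simp only [intervalIntegral.integral_const, sub_zero, smul_eq_mul] at h5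
    have hpi : (2 * Real.pi)⁻¹ * (2 * Real.pi) = 1 := inv_mul_cancel₀ (by positivity)
    unfold cavg
    calc (2 * Real.pi)⁻¹ * ∫ θ in (0 : ℝ)..2 * Real.pi, P ((r : ℂ) * Complex.exp (θ * Complex.I))
        ≤ (2 * Real.pi)⁻¹ * ((∫ θ in (0 : ℝ)..2 * Real.pi,
          u ((r : ℂ) * Complex.exp (θ * Complex.I))) + 2 * Real.pi * (ε / 2)) :=
          mul_le_mul_of_nonneg_left h5 (by positivity)
      _ = _ := by
          rw [mul_add, ← mul_assoc, hpi, one_mul]
  linarith

end Pool.Agent.KRFG
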