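import Pool.Agent.Work.MP_a2bf38_gt.K.PshCOf
import Pool.Agent.Work.MP_a2bf38_gt.K.Visc

/-!
# Continuous plurisubharmonic functions from touching functions
-/

open scoped ContDiff ENNReal ComplexOrder Topology
open Set MeasureTheory Filter Pool.Agent.ToricKRF Pool.Agent.ToricKRF.G Pool.Agent.KRFS
  Pool.Agent.KRFF

namespace Pool.Agent.KRFG

theorem pshC_of_touch {m : ℕ} {u : Cn m → ℝ} {V : Set (Cn m)} (hV : IsOpen V)
    (hu : ContinuousOn u V)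
    (h : ∀ z ∈ V, (∀ i, cc z i ≠ 0) → ∀ v : Cn m, ∃ q : ℂ → ℝ, ContDiffAt ℝ 2 q 0 ∧ q 0 = u z ∧
      (∀ᶠ ζ in 𝓝 (0 : ℂ), q ζ ≤ u (line z v ζ)) ∧ 0 ≤ lapC q 0) : PshC u V :=
  pshC_of_touch_of (fun _ _ hu' hS h' => visc one_pos hu' hS h') hV hu h

end Pool.Agent.KRFG
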