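import Pool.Agent.Work.MP_a2bf38_gt.K.Touch
import Pool.Agent.Work.MP_a2bf38_gt.K.PshC
import Pool.Agent.Work.MP_a2bf38_gt.K.HB

/-!
# The function on the base
-/

open scoped ContDiff ENNReal ComplexOrder Topology
open Set Filter Pool.Agent.ToricKRF Pool.Agent.ToricKRF.G Pool.Agent.KRFS Pool.Agent.KRFF

namespace Pool.Agent.KRFG

namespace BaseP

variable {m : ℕ}

theorem nsq_nonneg (v : Cn m) : 0 ≤ nsq v := by
  unfold nsq dotProduct
  exact add_nonneg (Finset.sum_nonneg fun i _ => mul_self_nonneg _)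
    (Finset.sum_nonneg fun i _ => mul_self_nonneg _)

theorem continuous_nsq : Continuous (nsq : Cn m → ℝ) := by
  unfold nsq dotProduct
  fun_prop

theorem contDiffAt_line {G : Cn m → ℝ} {S : Set (Cn m)} (hS : IsOpen S)
    (hG : ContDiffOn ℝ ∞ G S) {z : Cn m} (hz : z ∈ S) (v : Cn m) :
    ContDiffAt ℝ 2 (fun ζ => G (line z v ζ)) 0 := by
  have h1 : ContDiffAt ℝ ∞ G (line z v 0) := by
    rw [line_zero]
    exact hG.contDiffAt (hS.mem_nhds hz)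
  have h2 : ContDiffAt ℝ ∞ (fun ζ => G (line z v ζ)) 0 :=
    h1.comp (0 : ℂ) (contDiff_line z v).contDiffAt
  exact h2.of_le HB.two_le

theorem lapC_line' {G : Cn m → ℝ} {S : Set (Cn m)} (hS : IsOpen S)
    (hG : ContDiffOn ℝ ∞ G S) {z : Cn m} (hz : z ∈ S) (v : Cn m) :
    lapC (fun ζ => G (line z v ζ)) 0 = 4 * levz G v z := by
  have hU : IsOpen ((univ : Set ℝ) ×ˢ S) := isOpen_univ.prod hS
  have hf : ContDiffOn ℝ ∞ (fun q : ℝ × Cn m => G q.2) (univ ×ˢ S) :=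
    hG.comp contDiffOn_snd fun q hq => hq.2
  have hζ : ((0 : ℝ), line z v 0) ∈ (univ : Set ℝ) ×ˢ S := by
    rw [line_zero]
    exact ⟨mem_univ _, hz⟩
  have h1 := lapC_line hU hf (t := 0) (z := z) (v := v) (ζ := 0) hζ
  rw [line_zero, lev_snd hS hG hz] at h1
  exact h1

/-- the algebra of the estimate -/
theorem alg {k s δ C₃ c₀ A L nv C Q lq : ℝ} (hs : 1 / 2 ≤ s) (hδ : 0 ≤ δ)
    (hk : k = 1 - C₃ * δ) (hk0 : 0 ≤ k) (hk1 : k ≤ 1) (hC₃ : 0 ≤ C₃) (hA : 0 ≤ A)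
    (hC₃A : C₃ * c₀ = 2 * A) (hL : c₀ * nv ≤ L) (hnv : 0 ≤ nv)
    (hq : -(4 * s * L) - 4 * δ * (C * Q) ≤ lq) :
    0 ≤ k * (lq + δ * (4 * C * Q - 4 * A * nv)) + s * (4 * L) := by
  have h1 : -(4 * s * L) - 4 * δ * A * nv ≤ lq + δ * (4 * C * Q - 4 * A * nv) := by linarith
  have h2 := mul_le_mul_of_nonneg_left h1 hk0
  have hAn : 0 ≤ δ * (A * nv) := mul_nonneg hδ (mul_nonneg hA hnv)
  have h3 : k * (δ * (A * nv)) ≤ δ * (A * nv) := by nlinarith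
  have h4 : C₃ * (c₀ * nv) ≤ C₃ * L := mul_le_mul_of_nonneg_left hL hC₃
  have h5 : 2 * (A * nv) ≤ C₃ * L := by
    have : C₃ * (c₀ * nv) = 2 * (A * nv) := by rw [← mul_assoc, hC₃A]; ring
    linarith
  have h6 : δ * (2 * (A * nv)) ≤ δ * (C₃ * L) := mul_le_mul_of_nonneg_left h5 hδ
  have hs0 : 0 ≤ s := by linarith
  have h7 : s * (δ * (2 * (A * nv))) ≤ s * (δ * (C₃ * L)) := mul_le_mul_of_nonneg_left h6 hs0
  have h8 : 1 / 2 * (δ * (2 * (A * nv))) ≤ s * (δ * (2 * (A * nv))) :=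
    mul_le_mul_of_nonneg_right hs (by linarith)
  subst hk
  nlinarith

end BaseP

open BaseP

variable {n m : ℕ} {M Y W : Type} [TopologicalSpace M] [CompactSpace M] [T2Space M]
  [TopologicalSpace Y] [T2Space Y] [TopologicalSpace W] [T2Space W] {κ P ι : Type}
  [Finite P] [Fintype ι] {T : ℝ} (F : Mod n m M Y W κ P ι T)

theorem Mod.base_psh :
    ∃ C₁ A C₃ ε d₀ : ℝ, 0 ≤ C₁ ∧ 0 ≤ A ∧ 0 ≤ C₃ ∧ 0 < ε ∧ 0 < d₀ ∧
      (∀ y : Cn m, nsq y ≤ 1 → -A ≤ hB C₁ A ε y) ∧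
      (∀ y : Cn m, 9 ≤ nsq y → nsq y ≤ 16 → hB C₁ A ε y < -A) ∧
      ∀ t ∈ Ico 0 T, T - t < d₀ → C₃ * (1 - t / T) ≤ 1 / 2 ∧ ∀ j,
        PshC (fun y => (1 - C₃ * (1 - t / T)) * (F.Mx t ((F.b j).symm y) +
          (1 - t / T) * hB C₁ A ε y) + t / T * F.K j y) {y : Cn m | nsq y < 25} := by
  obtain ⟨C, ε, hC, hε, hε1, htouch⟩ := F.touch
  obtain ⟨c₀, hc₀, hcomp⟩ : ∃ c : ℝ, 0 < c ∧ ∀ j, ∀ y : Cn m, nsq y ≤ 25 →
      ∀ v, c * nsq v ≤ levz (F.K j) v y := by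
    obtain ⟨C', hC', h⟩ := HB.exists_lower F
    refine ⟨1 / C', by positivity, fun j y hy v => ?_⟩
    rw [one_div_mul_eq_div, div_le_iff₀ hC', mul_comm]
    exact h j y hy v
  have hC₁ : 0 ≤ C / ε ^ 2 := by positivity
  obtain ⟨A, hA, hA1, hA2⟩ : ∃ A : ℝ, 0 ≤ A ∧
      (∀ y : Cn m, nsq y ≤ 1 → -A ≤ hB (C / ε ^ 2) A ε y) ∧
      (∀ y : Cn m, 9 ≤ nsq y → nsq y ≤ 16 → hB (C / ε ^ 2) A ε y < -A) := by
    have h0 : 0 ≤ 2 * (m : ℝ) * (C / ε ^ 2) := by positivity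
    refine ⟨2 * (m : ℝ) * (C / ε ^ 2) + 1, by linarith, fun y hy => ?_, fun y h9 h16 => ?_⟩
    · exact HB.hB_lower hC₁ (by linarith) hy
    · exact HB.hB_upper hε hε1 hC₁ (by linarith) h9 h16
  have hC₁ε : C / ε ^ 2 * ε ^ 2 = C := by field_simp
  have hC₃ : 0 ≤ 2 * A / c₀ := by positivity
  have hC₃A : 2 * A / c₀ * c₀ = 2 * A := by field_simp
  generalize hC₃' : 2 * A / c₀ = C₃ at hC₃ hC₃A
  -- the constant `d₀`
  obtain ⟨d₀, hd₀, hd⟩ : ∃ d₀ : ℝ, 0 < d₀ ∧ ∀ t ∈ Ico 0 T, T - t < d₀ →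
      1 / 2 ≤ t / T ∧ 0 ≤ 1 - t / T ∧ C₃ * (1 - t / T) ≤ 1 / 2 := by
    rcases le_or_gt T 0 with hT | hT
    · exact ⟨1, one_pos, fun t ht _ => absurd (ht.1.trans_lt ht.2) (not_lt.2 hT)⟩
    · refine ⟨T / (2 * (C₃ + 1)), by positivity, fun t ht hlt => ?_⟩
      have h1 : 1 - t / T = (T - t) / T := by field_simp
      have h0 : 0 < T - t := by linarith [ht.2]
      have h2 : (T - t) / T < 1 / (2 * (C₃ + 1)) := by
        rw [div_lt_div_iff₀ hT (by positivity)]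
        rw [lt_div_iff₀ (by positivity)] at hlt
        linarith
      have h3 : (1 : ℝ) / (2 * (C₃ + 1)) ≤ 1 / 2 := by
        apply one_div_le_one_div_of_le <;> linarith
      have h4 : 0 ≤ (T - t) / T := by positivity
      refine ⟨by linarith [h1 ▸ h2.trans_le h3], h1 ▸ h4, ?_⟩
      rw [h1]
      calc C₃ * ((T - t) / T) ≤ C₃ * (1 / (2 * (C₃ + 1))) :=
            mul_le_mul_of_nonneg_left h2.le hC₃
        _ ≤ 1 / 2 := by
            rw [mul_one_div, div_le_div_iff₀ (by positivity) (by norm_num)]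
            linarith
  refine ⟨C / ε ^ 2, A, C₃, ε, d₀, hC₁, hA, hC₃, hε, hd₀, hA1, hA2, fun t ht hlt => ?_⟩
  obtain ⟨hs, hδ, hk⟩ := hd t ht hlt
  refine ⟨hk, fun j => ?_⟩
  have hsub : {y : Cn m | nsq y < 25} ⊆ (F.b j).target := fun y hy =>
    F.hol.target j (lt_trans hy (by norm_num : (25 : ℝ) < 100))
  have hopen : IsOpen {y : Cn m | nsq y < 25} :=
    isOpen_lt continuous_nsq continuous_const
  have hBc : Continuous (hB (m := m) (C / ε ^ 2) A ε) := HB.continuous_hB hε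
  refine pshC_of_touch hopen ?_ ?_
  · have h1 : ContinuousOn (fun y => F.Mx t ((F.b j).symm y)) {y : Cn m | nsq y < 25} :=
      (F.Mx_continuous ht).comp_continuousOn ((F.b j).continuousOn_symm.mono hsub)
    have h2 : ContinuousOn (F.K j) {y : Cn m | nsq y < 25} :=
      ((F.lim.smooth j).continuousOn).mono hsub
    exact (continuousOn_const.mul (h1.add (continuousOn_const.mul hBc.continuousOn))).add
      (continuousOn_const.mul h2)
  · intro z hz hz0 v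
    obtain ⟨q, hq, hq0, hqle, hlap⟩ := htouch t ht j z hz hz0 v
    obtain ⟨hh, hhl⟩ := HB.hB_line (C / ε ^ 2) A ε (y := z) (v := v) hz0
    have hKs := contDiffAt_line (F.b j).open_target (F.lim.smooth j) (hsub hz) v
    have hδh : ContDiffAt ℝ 2 (fun ζ => (1 - t / T) * hB (C / ε ^ 2) A ε (line z v ζ)) 0 :=
      contDiffAt_const.mul hh
    have hqh : ContDiffAt ℝ 2 (fun ζ => q ζ + (1 - t / T) * hB (C / ε ^ 2) A ε (line z v ζ)) 0 :=
      hq.add hδh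
    have hkqh : ContDiffAt ℝ 2 (fun ζ => (1 - C₃ * (1 - t / T)) *
        (q ζ + (1 - t / T) * hB (C / ε ^ 2) A ε (line z v ζ))) 0 := contDiffAt_const.mul hqh
    have hsK : ContDiffAt ℝ 2 (fun ζ => t / T * F.K j (line z v ζ)) 0 :=
      contDiffAt_const.mul hKs
    refine ⟨fun ζ => (1 - C₃ * (1 - t / T)) *
        (q ζ + (1 - t / T) * hB (C / ε ^ 2) A ε (line z v ζ)) + t / T * F.K j (line z v ζ),
      hkqh.add hsK, ?_, ?_, ?_⟩
    · simp only [line_zero, hq0]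
    · filter_upwards [hqle] with ζ hζ
      have h1 : 0 ≤ 1 - C₃ * (1 - t / T) := by linarith
      have h2 := mul_le_mul_of_nonneg_left
        (add_le_add_left hζ ((1 - t / T) * hB (C / ε ^ 2) A ε (line z v ζ))) h1
      linarith
    · rw [HB.lapC_add hkqh hsK, HB.lapC_const_mul _ hqh, HB.lapC_add hq hδh,
        HB.lapC_const_mul _ hh, HB.lapC_const_mul _ hKs, lapC_line' (F.b j).open_target (F.lim.smooth j) (hsub hz) v,
        hhl]
      have hnv : 0 ≤ nsq v := nsq_nonneg v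
      have e : 4 * (C / ε ^ 2) * ε ^ 2 = 4 * C := by rw [mul_assoc, hC₁ε]
      rw [e]
      refine alg hs hδ rfl (by linarith) ?_ hC₃ hA hC₃A (hcomp j z (le_of_lt hz) v) hnv hlap
      nlinarith [mul_nonneg hC₃ hδ]

end Pool.Agent.KRFG
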