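import Pool.Agent.Work.MP_a2bf38_gt.K.Setup

/-!
# Logarithmic coordinates of the fibres: periodicity, reachability and domains
-/

open scoped ContDiff ENNReal ComplexOrder Topology
open Set Pool.Agent.ToricKRF Pool.Agent.ToricKRF.G Pool.Agent.KRFS Pool.Agent.KRFF

namespace Pool.Agent.KRFG

namespace ER

theorem cc_ofC {n : ℕ} (z : Fin n → ℂ) (l : Fin n) : cc (ofC z) l = z l := by
  apply Complex.ext <;> simp [cc, ofC]

theorem cn_ext {n : ℕ} {x y : Cn n} (h : ∀ l, cc x l = cc y l) : x = y := by
  refine Prod.ext ?_ ?_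
  · funext l
    exact congrArg Complex.re (h l)
  · funext l
    exact congrArg Complex.im (h l)

theorem sq_norm_cc {n : ℕ} (x : Cn n) (l : Fin n) : ‖cc x l‖ ^ 2 = x.1 l ^ 2 + x.2 l ^ 2 := by
  rw [← Complex.normSq_eq_norm_sq, Complex.normSq_apply]
  simp only [cc]
  ring

theorem mem_cpd_iff {n : ℕ} {r : ℝ} (hr : 0 ≤ r) {x : Cn n} :
    x ∈ cpd r ↔ ∀ l, ‖cc x l‖ ≤ r := by
  constructor
  · intro h l
    have := h l
    rw [← sq_norm_cc] at this
    exact (pow_le_pow_iff_left₀ (norm_nonneg _) hr two_ne_zero).1 this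
  · intro h l
    rw [← sq_norm_cc]
    exact (pow_le_pow_iff_left₀ (norm_nonneg _) hr two_ne_zero).2 (h l)

theorem mem_opd_iff {n : ℕ} {r : ℝ} (hr : 0 ≤ r) {x : Cn n} :
    x ∈ opd r ↔ ∀ l, ‖cc x l‖ < r := by
  constructor
  · intro h l
    have := h l
    rw [← sq_norm_cc] at this
    exact (pow_lt_pow_iff_left₀ (norm_nonneg _) hr two_ne_zero).1 this
  · intro h l
    rw [← sq_norm_cc]
    exact (pow_lt_pow_iff_left₀ (norm_nonneg _) hr two_ne_zero).2 (h l)

section E

variable {n m : ℕ} {row : Fin n → Option (Fin m)} {piv : Fin m → Fin n}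

theorem Em_cc_none (q w : Cn n) {l : Fin n} (h : row l = none) :
    cc (Em row piv q w) l = cc q l + cc w l := by
  simp only [Em, cc_ofC]
  rw [h]

theorem Em_cc_piv (q w : Cn n) {i : Fin m} (h : row (piv i) = some i) :
    cc (Em row piv q w) (piv i) = cc q (piv i) *
      Complex.exp (-∑ l', if row l' = some i ∧ l' ≠ piv i then cc w l' else 0) := by
  simp only [Em, cc_ofC]
  rw [h]
  simp

theorem Em_cc_some (q w : Cn n) {l : Fin n} {i : Fin m} (h : row l = some i) (hl : l ≠ piv i) :
    cc (Em row piv q w) l = cc q l * Complex.exp (cc w l) := by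
  simp only [Em, cc_ofC]
  rw [h]
  simp [hl]

/-- a coordinate with a row is a pivot or not -/
theorem Em_congr {q w w' : Cn n} (hpiv : ∀ i, row (piv i) = some i)
    (h : ∀ l, (∀ i, l ≠ piv i) → cc w l = cc w' l) : Em row piv q w = Em row piv q w' := by
  refine cn_ext fun l => ?_
  rcases hr : row l with _ | i
  · rw [Em_cc_none _ _ hr, Em_cc_none _ _ hr, h l]
    intro i hi
    rw [hi, hpiv] at hr
    simp at hr
  · by_cases hl : l = piv i
    · subst hl
      rw [Em_cc_piv _ _ hr, Em_cc_piv _ _ hr]
      congr 3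
      refine Finset.sum_congr rfl fun l' _ => ?_
      split_ifs with h'
      · refine h l' fun i' hi' => ?_
        rw [hi', hpiv] at h'
        obtain ⟨h1, h2⟩ := h'
        simp only [Option.some.injEq] at h1
        exact h2 (by rw [h1])
      · rfl
    · rw [Em_cc_some _ _ hr hl, Em_cc_some _ _ hr hl, h l]
      intro i' hi'
      rw [hi', hpiv] at hr
      simp only [Option.some.injEq] at hr
      exact hl (by rw [hi', hr])

/-- periodicity in the imaginary directions of all coordinates with a row -/
theorem Em_period_of_ne_none (q : Cn n) (z : Cn n) {l : Fin n} (hl : row l ≠ none) :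
    Em row piv q (z.1, z.2 + Pi.single l (2 * Real.pi)) = Em row piv q z := by
  have hcc : ∀ l', cc ((z.1, z.2 + Pi.single l (2 * Real.pi)) : Cn n) l' =
      cc z l' + if l' = l then 2 * Real.pi * Complex.I else 0 := by
    intro l'
    by_cases h : l' = l
    · subst h
      apply Complex.ext <;> simp [cc]
    · apply Complex.ext <;> simp [cc, h]
  refine cn_ext fun k => ?_
  rcases hr : row k with _ | i
  · rw [Em_cc_none _ _ hr, Em_cc_none _ _ hr, hcc, if_neg, add_zero]
    rintro rfl
    exact hl hr
  · by_cases hk : k = piv i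
    · subst hk
      rw [Em_cc_piv _ _ hr, Em_cc_piv _ _ hr]
      congr 1
      by_cases hli : row l = some i ∧ l ≠ piv i
      · have : ∑ l', (if row l' = some i ∧ l' ≠ piv i then
            cc ((z.1, z.2 + Pi.single l (2 * Real.pi)) : Cn n) l' else 0) =
            (∑ l', if row l' = some i ∧ l' ≠ piv i then cc z l' else 0) +
              2 * Real.pi * Complex.I := by
          have : ∀ l', (if row l' = some i ∧ l' ≠ piv i then
            cc ((z.1, z.2 + Pi.single l (2 * Real.pi)) : Cn n) l' else 0) =
            (if row l' = some i ∧ l' ≠ piv i then cc z l' else 0) +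
              if l' = l then 2 * Real.pi * Complex.I else 0 := by
            intro l'
            rw [hcc]
            by_cases h' : l' = l
            · subst h'
              simp [hli]
            · simp [h']
          rw [Finset.sum_congr rfl fun l' _ => this l', Finset.sum_add_distrib]
          simp
        rw [this, neg_add, Complex.exp_add, Complex.exp_neg (2 * Real.pi * Complex.I),
          Complex.exp_two_pi_mul_I]
        simp
      · congr 2
        refine Finset.sum_congr rfl fun l' _ => ?_
        split_ifs with h'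
        · rw [hcc, if_neg, add_zero]
          rintro rfl
          exact hli h'
        · rfl
    · rw [Em_cc_some _ _ hr hk, Em_cc_some _ _ hr hk, hcc]
      split_ifs with h'
      · rw [Complex.exp_add, Complex.exp_two_pi_mul_I, mul_one]
      · rw [add_zero]

/-- the points with a given product of the coordinates of a row -/
theorem prow_split (hpiv : ∀ i, row (piv i) = some i) (x : Cn n) (i : Fin m) :
    prow row i x = cc x (piv i) *
      ∏ l, if row l = some i ∧ l ≠ piv i then cc x l else 1 := by
  unfold prow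
  rw [← Finset.mul_prod_erase _ _ (Finset.mem_univ (piv i)), if_pos (hpiv i)]
  congr 1
  rw [← Finset.mul_prod_erase Finset.univ (fun l => if row l = some i ∧ l ≠ piv i then cc x l else 1)
    (Finset.mem_univ (piv i)), if_neg (by simp), one_mul]
  refine Finset.prod_congr rfl fun l hl => ?_
  simp [Finset.ne_of_mem_erase hl]

theorem cc_ne_zero_of_prow {x : Cn n} {i : Fin m} (h : prow row i x ≠ 0) {l : Fin n}
    (hl : row l = some i) : cc x l ≠ 0 := by
  intro h0
  refine h (Finset.prod_eq_zero (Finset.mem_univ l) ?_)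
  rw [if_pos hl, h0]

/-- the coordinates are bounded below by the product -/
theorem norm_prow_le {x : Cn n} (hx : x ∈ cpd 2) {i : Fin m} {l : Fin n} (hl : row l = some i) :
    ‖prow row i x‖ ≤ ‖cc x l‖ * 2 ^ n := by
  have h2 := (mem_cpd_iff (by norm_num)).1 hx
  unfold prow
  rw [← Finset.mul_prod_erase _ _ (Finset.mem_univ l), if_pos hl, norm_mul, norm_prod]
  refine mul_le_mul_of_nonneg_left ?_ (norm_nonneg _)
  calc ∏ l' ∈ Finset.univ.erase l, ‖if row l' = some i then cc x l' else 1‖
      ≤ ∏ l' ∈ Finset.univ.erase l, (2 : ℝ) := by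
        refine Finset.prod_le_prod (fun _ _ => norm_nonneg _) fun l' _ => ?_
        split_ifs
        · exact h2 l'
        · simp
    _ = 2 ^ (Finset.univ.erase l).card := by simp
    _ ≤ 2 ^ n := by
        refine pow_le_pow_right₀ (by norm_num) ?_
        calc (Finset.univ.erase l).card ≤ (Finset.univ : Finset (Fin n)).card :=
              Finset.card_le_card (Finset.erase_subset _ _)
          _ = n := by simp

/-- the logarithms of the coordinates -/
theorem abs_log_cc_le {x : Cn n} (hx : x ∈ cpd 2) {i : Fin m} (h : prow row i x ≠ 0) {l : Fin n}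
    (hl : row l = some i) : |Real.log ‖cc x l‖| ≤ |Real.log ‖prow row i x‖| + (n + 1) := by
  have h2 := (mem_cpd_iff (by norm_num)).1 hx l
  have h0 : 0 < ‖cc x l‖ := norm_pos_iff.2 (cc_ne_zero_of_prow h hl)
  have hp : 0 < ‖prow row i x‖ := norm_pos_iff.2 h
  have hlog2 : Real.log 2 ≤ 1 := by
    have := Real.log_two_lt_d9
    linarith
  have hlog2' : 0 ≤ Real.log 2 := Real.log_nonneg (by norm_num)
  rw [abs_le]
  constructor
  · have h3 : Real.log ‖prow row i x‖ ≤ Real.log ‖cc x l‖ + n * Real.log 2 := by
      rw [← Real.log_pow, ← Real.log_mul h0.ne' (by positivity)]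
      exact Real.log_le_log hp (norm_prow_le hx hl)
    have h4 := neg_abs_le (Real.log ‖prow row i x‖)
    have h5 : (n : ℝ) * Real.log 2 ≤ n := by
      have : (0 : ℝ) ≤ n := Nat.cast_nonneg n
      nlinarith
    linarith
  · have h3 : Real.log ‖cc x l‖ ≤ Real.log 2 := Real.log_le_log h0 h2
    have h4 := abs_nonneg (Real.log ‖prow row i x‖)
    have : (0 : ℝ) ≤ n := Nat.cast_nonneg n
    linarith

end E

end ER

open ER

/-- **periodicity** -/
theorem Em_period {n m : ℕ} {row : Fin n → Option (Fin m)} {piv : Fin m → Fin n} {l : Fin n}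
    {i : Fin m} (hl : row l = some i) (_hnp : l ≠ piv i) (q w : Cn n) :
    Em row piv q (w.1, w.2 + Pi.single l (2 * Real.pi)) = Em row piv q w :=
  Em_period_of_ne_none q w (by rw [hl]; simp)

open Classical in
/-- **the points of the fibre are reached** -/
theorem reach (n m : ℕ) : ∃ C : ℝ, 1 ≤ C ∧ ∀ (row : Fin n → Option (Fin m))
    (piv : Fin m → Fin n), (∀ i, row (piv i) = some i) →
    ∀ p ∈ cpd (k := n) 2, ∀ q ∈ cpd (k := n) 2, (∀ i, prow row i q ≠ 0) →
    (∀ i, prow row i p = prow row i q) →
    ∃ w₁ : Cn n, Em row piv q w₁ = p ∧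
      (∀ l i, row l = some i → l ≠ piv i → |w₁.2 l| ≤ Real.pi ∧
        |w₁.1 l| ≤ C * (1 + ∑ i, |Real.log ‖prow row i q‖|)) ∧
      (∀ i, w₁.1 (piv i) = 0 ∧ w₁.2 (piv i) = 0) ∧
      (∀ l, row l = none → w₁.1 l = p.1 l - q.1 l ∧ w₁.2 l = p.2 l - q.2 l) := by
  refine ⟨2 * (n + 1), by have : (0 : ℝ) ≤ n := Nat.cast_nonneg n; linarith, ?_⟩
  intro row piv hpiv p hp q hq hq0 hpq
  have hp0 : ∀ i, prow row i p ≠ 0 := fun i => by rw [hpq i]; exact hq0 i
  set w₁ : Cn n := ofC fun l => match row l with
    | none => cc p l - cc q l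
    | some i => if l = piv i then 0 else Complex.log (cc p l / cc q l) with hw
  have hnone : ∀ l, row l = none → cc w₁ l = cc p l - cc q l := by
    intro l hl
    rw [hw, cc_ofC]
    simp only [hl]
  have hsome : ∀ l i, row l = some i → l ≠ piv i → cc w₁ l = Complex.log (cc p l / cc q l) := by
    intro l i hl hli
    rw [hw, cc_ofC]
    simp only [hl, if_neg hli]
  have hpv : ∀ i, cc w₁ (piv i) = 0 := by
    intro i
    rw [hw, cc_ofC]
    simp only [hpiv i, if_true]
  have hne : ∀ l i, row l = some i → cc p l ≠ 0 ∧ cc q l ≠ 0 := fun l i hl =>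
    ⟨cc_ne_zero_of_prow (hp0 i) hl, cc_ne_zero_of_prow (hq0 i) hl⟩
  have hexp : ∀ l i, row l = some i → l ≠ piv i → Complex.exp (cc w₁ l) = cc p l / cc q l := by
    intro l i hl hli
    rw [hsome l i hl hli, Complex.exp_log]
    exact div_ne_zero (hne l i hl).1 (hne l i hl).2
  refine ⟨w₁, ?_, ?_, ?_, ?_⟩
  · refine cn_ext fun l => ?_
    rcases hr : row l with _ | i
    · rw [Em_cc_none _ _ hr, hnone l hr]
      ring
    · obtain ⟨hpl, hql⟩ := hne l i hr
      by_cases hl : l = piv i
      · subst hl
        rw [Em_cc_piv _ _ hr, Complex.exp_neg, Complex.exp_sum]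
        have h1 : ∏ l', Complex.exp (if row l' = some i ∧ l' ≠ piv i then cc w₁ l' else 0) =
            (∏ l', if row l' = some i ∧ l' ≠ piv i then cc p l' else 1) /
              ∏ l', if row l' = some i ∧ l' ≠ piv i then cc q l' else 1 := by
          rw [← Finset.prod_div_distrib]
          refine Finset.prod_congr rfl fun l' _ => ?_
          split_ifs with h'
          · exact hexp l' i h'.1 h'.2
          · simp
        rw [h1]
        have h2 := hpq i
        rw [prow_split hpiv, prow_split hpiv] at h2
        have hPn : (∏ l', if row l' = some i ∧ l' ≠ piv i then cc p l' else 1) ≠ 0 := by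
          rw [Finset.prod_ne_zero_iff]
          intro l' _
          split_ifs with h'
          · exact (hne l' i h'.1).1
          · exact one_ne_zero
        rw [inv_div, mul_div_assoc', ← h2, mul_div_assoc, div_self hPn, mul_one]
      · rw [Em_cc_some _ _ hr hl, hexp l i hr hl]
        field_simp
  · intro l i hl hli
    obtain ⟨hpl, hql⟩ := hne l i hl
    have h := hsome l i hl hli
    constructor
    · have : w₁.2 l = (Complex.log (cc p l / cc q l)).im := by
        rw [← h]
        rfl
      rw [this, Complex.log_im]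
      exact Complex.abs_arg_le_pi _
    · have : w₁.1 l = (Complex.log (cc p l / cc q l)).re := by
        rw [← h]
        rfl
      rw [this, Complex.log_re, norm_div,
        Real.log_div (norm_ne_zero_iff.2 hpl) (norm_ne_zero_iff.2 hql)]
      have h1 := abs_log_cc_le hp (hp0 i) hl
      have h2 := abs_log_cc_le hq (hq0 i) hl
      rw [hpq i] at h1
      have h3 : |Real.log ‖prow row i q‖| ≤ ∑ i, |Real.log ‖prow row i q‖| :=
        Finset.single_le_sum (f := fun i => |Real.log ‖prow row i q‖|)
          (fun _ _ => abs_nonneg _) (Finset.mem_univ i)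
      have h4 : 0 ≤ ∑ i, |Real.log ‖prow row i q‖| := Finset.sum_nonneg fun _ _ => abs_nonneg _
      have hn : (0 : ℝ) ≤ n := Nat.cast_nonneg n
      calc |Real.log ‖cc p l‖ - Real.log ‖cc q l‖| ≤ |Real.log ‖cc p l‖| + |Real.log ‖cc q l‖| :=
            abs_sub _ _
        _ ≤ 2 * (∑ i, |Real.log ‖prow row i q‖| + (n + 1)) := by linarith
        _ ≤ 2 * (n + 1) * (1 + ∑ i, |Real.log ‖prow row i q‖|) := by nlinarith
  · intro i
    have := hpv i
    exact ⟨congrArg Complex.re this, congrArg Complex.im this⟩
  · intro l hl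
    have := hnone l hl
    exact ⟨congrArg Complex.re this, congrArg Complex.im this⟩

end Pool.Agent.KRFG
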