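import Pool.Agent.Work.MP_a2bf38_gt.K.Setup
import Pool.Agent.Work.MP_a2bf38_gt.I.NatFlow
import Pool.Agent.Work.MP_a2bf38_gt.I.Line
import Pool.Agent.Work.MP_a2bf38_gt.I.Sect

/-!
# Local sections over the base, and the charts of `W`
-/

open scoped ContDiff ENNReal ComplexOrder Topology
open Set Filter Pool.Agent.ToricKRF Pool.Agent.ToricKRF.G Pool.Agent.KRFS
  Pool.Agent.KRFF

namespace Pool.Agent.KRFG

namespace Touch

variable {n m : ℕ}

theorem cc_ofC (z : Fin n → ℂ) (l : Fin n) : cc (ofC z) l = z l := by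
  apply Complex.ext <;> simp [cc, ofC]

theorem ofC_cc (x : Cn n) : ofC (fun l => cc x l) = x := rfl

theorem nsq_eq (x : Cn n) : nsq x = ∑ l, Complex.normSq (cc x l) := by
  unfold nsq dotProduct
  rw [← Finset.sum_add_distrib]
  refine Finset.sum_congr rfl fun l _ => ?_
  rw [Complex.normSq_apply]
  rfl

/-- `ofC` as a continuous linear map -/
noncomputable def ofCL (n : ℕ) : (Fin n → ℂ) →L[ℝ] Cn n where
  toFun := ofC
  map_add' _ _ := rfl
  map_smul' c z := by
    refine Prod.ext ?_ ?_ <;> funext l <;> simp [ofC]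
  cont := by
    unfold ofC
    fun_prop

theorem holC_comp {h : ℂ → ℂ} {V : Set ℂ} (hV : IsOpen V) (hd : DifferentiableOn ℂ h V)
    {g : Cn n → ℂ} {S : Set (Cn n)} (hS : IsOpen S) (hg : NF.HolC g S) (hm : MapsTo g S V) :
    NF.HolC (fun z => h (g z)) S ∧
      ∀ z ∈ S, ∀ u, fderiv ℝ (fun z => h (g z)) z u = deriv h (g z) * fderiv ℝ g z u := by
  have key : ∀ z ∈ S, ∀ u, fderiv ℝ (fun z => h (g z)) z u = deriv h (g z) * fderiv ℝ g z u := by
    intro z hz u
    have h1 : HasDerivAt h (deriv h (g z)) (g z) :=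
      (hd.differentiableAt (hV.mem_nhds (hm hz))).hasDerivAt
    have h2 := h1.hasFDerivAt.restrictScalars ℝ
    have h3 := h2.comp z (NF.diffAt hS hg.1 hz).hasFDerivAt
    change fderiv ℝ (h ∘ g) z u = _
    rw [h3.fderiv]
    simp [mul_comm]
  refine ⟨⟨?_, fun z hz u => ?_⟩, key⟩
  · have h1 : ContDiffOn ℂ ∞ h V := hd.contDiffOn hV
    exact (h1.restrict_scalars ℝ).comp hg.1 hm
  · rw [key z hz, key z hz, hg.2 z hz]
    ring

theorem holOn_ofC {h : Fin n → Cn m → ℂ} {S : Set (Cn m)} (hS : IsOpen S)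
    (hh : ∀ l, NF.HolC (h l) S) : HolOn (fun z => ofC fun l => h l z) S ∧
      ∀ z ∈ S, ∀ u l, cc (fderiv ℝ (fun z => (ofC fun l => h l z : Cn n)) z u) l =
        fderiv ℝ (h l) z u := by
  have hf : ∀ z ∈ S, HasFDerivAt (fun z => (ofC fun l => h l z : Cn n))
      ((ofCL n).comp (ContinuousLinearMap.pi fun l => fderiv ℝ (h l) z)) z := by
    intro z hz
    have h1 : HasFDerivAt (fun z l => h l z) (ContinuousLinearMap.pi fun l => fderiv ℝ (h l) z) z :=
      hasFDerivAt_pi.2 fun l => (NF.diffAt hS (hh l).1 hz).hasFDerivAt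
    exact (ofCL n).hasFDerivAt.comp z h1
  have key : ∀ z ∈ S, ∀ u l, cc (fderiv ℝ (fun z => (ofC fun l => h l z : Cn n)) z u) l =
        fderiv ℝ (h l) z u := by
    intro z hz u l
    rw [(hf z hz).fderiv]
    change cc (ofC fun l => fderiv ℝ (h l) z u) l = _
    rw [cc_ofC]
  refine ⟨⟨?_, fun z hz u => ?_⟩, key⟩
  · have h1 : ContDiffOn ℝ ∞ (fun z l => h l z) S := contDiffOn_pi.2 fun l => (hh l).1
    exact (ofCL n).contDiff.comp_contDiffOn h1
  · rw [← ofC_cc (fderiv ℝ (fun z => (ofC fun l => h l z : Cn n)) z (J u)), ←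
      ofC_cc (J (fderiv ℝ (fun z => (ofC fun l => h l z : Cn n)) z u))]
    congr 1
    funext l
    rw [cc_J, key z hz, key z hz, (hh l).2 z hz]

/-! ### local sections -/

section Sec

variable (row : Fin n → Option (Fin m)) (pl : Fin m → Fin n) (N : Fin m → ℕ) (x : Cn n) (y : Cn m)

/-- the local section over the base -/
noncomputable def sec (y' : Cn m) : Cn n :=
  ofC fun l => cc x l * ∏ i, if l = pl i then (cc y' i / cc y i) ^ ((N i : ℂ)⁻¹) else 1

variable {row pl N x y}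

theorem pl_inj (hpl : ∀ i, row (pl i) = some i) {i i' : Fin m} (h : pl i = pl i') : i = i' := by
  have := hpl i
  rw [h, hpl i'] at this
  exact (Option.some.inj this).symm

theorem cc_sec_pl (hpl : ∀ i, row (pl i) = some i) (y' : Cn m) (i : Fin m) :
    cc (sec pl N x y y') (pl i) = cc x (pl i) * (cc y' i / cc y i) ^ ((N i : ℂ)⁻¹) := by
  rw [sec, cc_ofC, Finset.prod_eq_single i]
  · simp
  · intro i' _ hne
    rw [if_neg]
    intro h
    exact hne (pl_inj hpl h).symm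
  · simp

theorem cc_sec_ne {l : Fin n} (hl : ∀ i, l ≠ pl i) (y' : Cn m) :
    cc (sec pl N x y y') l = cc x l := by
  rw [sec, cc_ofC, Finset.prod_eq_one, mul_one]
  intro i _
  rw [if_neg (hl i)]

theorem prow_sec (hpl : ∀ i, row (pl i) = some i) (y' : Cn m) (i : Fin m) :
    prow row i (sec pl N x y y') = prow row i x * (cc y' i / cc y i) ^ ((N i : ℂ)⁻¹) := by
  unfold prow
  have h1 : ∀ l, (if row l = some i then cc (sec pl N x y y') l else 1) =
      (if row l = some i then cc x l else 1) *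
        (if l = pl i then (cc y' i / cc y i) ^ ((N i : ℂ)⁻¹) else 1) := by
    intro l
    by_cases hl : ∃ i', l = pl i'
    · obtain ⟨i', rfl⟩ := hl
      rw [cc_sec_pl hpl]
      by_cases hii : i' = i
      · subst hii
        rw [if_pos (hpl i'), if_pos (hpl i'), if_pos rfl]
      · rw [if_neg, if_neg, if_neg, mul_one]
        · exact fun h => hii (pl_inj hpl h)
        · rw [hpl i']
          exact fun h => hii (Option.some.inj h)
        · rw [hpl i']
          exact fun h => hii (Option.some.inj h)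
    · push Not at hl
      rw [cc_sec_ne hl, if_neg (hl i), mul_one]
  rw [Finset.prod_congr rfl fun l _ => h1 l, Finset.prod_mul_distrib, Finset.prod_ite_eq']
  simp

/-- the domain of the local section -/
def dS (y : Cn m) : Set (Cn m) := {y' | ∀ i, cc y' i / cc y i ∈ Complex.slitPlane}

theorem isOpen_dS (y : Cn m) : IsOpen (dS y) := by
  unfold dS
  rw [ofPred_forall]
  refine isOpen_iInter_of_finite fun i => ?_
  have hc : Continuous fun y' : Cn m => cc y' i / cc y i := by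
    have h1 : (fun y' : Cn m => cc y' i / cc y i) = fun y' => NF.ccL i y' / cc y i := by
      funext y'
      rw [NF.ccL_apply]
    rw [h1]
    exact (NF.ccL i).continuous.div_const _
  exact Complex.isOpen_slitPlane.preimage hc

theorem mem_dS (hy : ∀ i, cc y i ≠ 0) : y ∈ dS y := by
  intro i
  rw [div_self (hy i)]
  exact Complex.one_mem_slitPlane

theorem holC_cc (S : Set (Cn m)) (i : Fin m) : NF.HolC (fun y' : Cn m => cc y' i) S ∧
    ∀ z u : Cn m, fderiv ℝ (fun y' : Cn m => cc y' i) z u = cc u i := by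
  have h1 : (fun y' : Cn m => cc y' i) = fun y' => NF.ccL i y' := by
    funext y'
    rw [NF.ccL_apply]
  have h2 : ∀ z u : Cn m, fderiv ℝ (fun y' : Cn m => cc y' i) z u = cc u i := by
    intro z u
    rw [h1, (NF.ccL i).fderiv, NF.ccL_apply]
  refine ⟨⟨?_, fun z _ u => ?_⟩, h2⟩
  · rw [h1]
    exact (NF.ccL i).contDiff.contDiffOn
  · rw [h2, h2, cc_J]

/-- the root as a holomorphic function -/
theorem root (i : Fin m) :
    NF.HolC (fun y' : Cn m => (cc y' i / cc y i) ^ ((N i : ℂ)⁻¹)) (dS y) ∧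
      ∀ u : Cn m, (∀ i, cc y i ≠ 0) →
        fderiv ℝ (fun y' : Cn m => (cc y' i / cc y i) ^ ((N i : ℂ)⁻¹)) y u =
          (N i : ℂ)⁻¹ * (cc u i / cc y i) := by
  have hS := isOpen_dS y
  have hg1 : NF.HolC (fun y' : Cn m => cc y' i / cc y i) (dS y) := by
    have := (holC_cc (dS y) i).1.mul hS (NF.HolC.const (cc y i)⁻¹ (dS y))
    exact this
  have hg2 : ∀ z ∈ dS y, ∀ u, fderiv ℝ (fun y' : Cn m => cc y' i / cc y i) z u =
      cc u i / cc y i := by
    intro z hz u
    have h1 : HasFDerivAt (fun y' : Cn m => cc y' i) (fderiv ℝ (fun y' : Cn m => cc y' i) z) z :=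
      (NF.diffAt hS (holC_cc (dS y) i).1.1 hz).hasFDerivAt
    have h2 := (h1.mul_const (cc y i)⁻¹).fderiv
    have h3 : (fun y' : Cn m => cc y' i / cc y i) = fun y' => cc y' i * (cc y i)⁻¹ := rfl
    rw [h3, h2]
    simp only [smul_apply, (holC_cc (dS y) i).2, smul_eq_mul]
    rw [div_eq_mul_inv, mul_comm]
  have hd : DifferentiableOn ℂ (fun w : ℂ => w ^ ((N i : ℂ)⁻¹)) Complex.slitPlane := by
    intro w hw
    exact ((hasDerivAt_id w).cpow_const hw).differentiableAt.differentiableWithinAt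
  obtain ⟨h1, h2⟩ := holC_comp Complex.isOpen_slitPlane hd hS hg1 fun z hz => hz i
  refine ⟨h1, fun u hy => ?_⟩
  rw [h2 y (mem_dS hy) u, hg2 y (mem_dS hy) u, div_self (hy i)]
  have h3 : deriv (fun w : ℂ => w ^ ((N i : ℂ)⁻¹)) 1 = (N i : ℂ)⁻¹ := by
    have := ((hasDerivAt_id (1 : ℂ)).cpow_const (c := (N i : ℂ)⁻¹) Complex.one_mem_slitPlane).deriv
    simp only [id_eq] at this
    rw [this]
    simp
  rw [h3]

theorem sec_holOn : HolOn (sec pl N x y) (dS y) := by
  have hS := isOpen_dS y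
  refine (holOn_ofC hS fun l => ?_).1
  refine (NF.HolC.const (cc x l) (dS y)).mul hS (NF.HolC.prod _ hS fun i => ?_)
  by_cases h : l = pl i
  · simp only [h, if_true]
    exact (root i).1
  · simp only [h, if_false]
    exact NF.HolC.const 1 _

theorem sec_self (hy : ∀ i, cc y i ≠ 0) : sec pl N x y y = x := by
  have h1 : ∀ l, cc (sec pl N x y y) l = cc x l := by
    intro l
    rw [sec, cc_ofC, Finset.prod_eq_one, mul_one]
    intro i _
    rw [div_self (hy i), Complex.one_cpow]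
    simp
  rw [← ofC_cc (sec pl N x y y), ← ofC_cc x]
  congr 1
  funext l
  exact h1 l

theorem cc_fderiv (hy : ∀ i, cc y i ≠ 0) (u : Cn m) (l : Fin n) :
    cc (fderiv ℝ (sec pl N x y) y u) l =
      fderiv ℝ (fun y' => cc (sec pl N x y y') l) y u := by
  have hS := isOpen_dS y
  have h1 := (NF.diffAt hS (sec_holOn (pl := pl) (N := N) (x := x) (y := y)).1 (mem_dS hy)).hasFDerivAt
  have h2 : HasFDerivAt (fun y' => NF.ccL l (sec pl N x y y'))
      ((NF.ccL l).comp (fderiv ℝ (sec pl N x y) y)) y := (NF.ccL l).hasFDerivAt.comp y h1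
  have h3 : (fun y' => cc (sec pl N x y y') l) = fun y' => NF.ccL l (sec pl N x y y') := by
    funext y'
    rw [NF.ccL_apply]
  rw [h3, h2.fderiv, ContinuousLinearMap.comp_apply, NF.ccL_apply]

theorem cc_fderiv_pl (hpl : ∀ i, row (pl i) = some i) (hy : ∀ i, cc y i ≠ 0)
    (u : Cn m) (i : Fin m) : cc (fderiv ℝ (sec pl N x y) y u) (pl i) =
      cc x (pl i) * ((N i : ℂ)⁻¹ * (cc u i / cc y i)) := by
  rw [cc_fderiv hy]
  have h1 : (fun y' => cc (sec pl N x y y') (pl i)) = fun y' : Cn m =>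
      cc x (pl i) * (cc y' i / cc y i) ^ ((N i : ℂ)⁻¹) := by
    funext y'
    rw [cc_sec_pl hpl]
  obtain ⟨h2, h3⟩ := root (y := y) i
  have h4 := (NF.diffAt (isOpen_dS y) h2.1 (mem_dS hy)).hasFDerivAt
  rw [h1, (h4.const_mul (cc x (pl i))).fderiv, smul_apply, h3 u hy, smul_eq_mul]

theorem cc_fderiv_ne (hy : ∀ i, cc y i ≠ 0)
    (u : Cn m) {l : Fin n} (hl : ∀ i, l ≠ pl i) : cc (fderiv ℝ (sec pl N x y) y u) l = 0 := by
  rw [cc_fderiv hy]
  have h1 : (fun y' => cc (sec pl N x y y') l) = fun _ : Cn m => cc x l := by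
    funext y'
    rw [cc_sec_ne hl]
  rw [h1]
  simp

/-- the length of the derivative of the section -/
theorem nsq_fderiv_le (hpl : ∀ i, row (pl i) = some i) (hN : ∀ i, 0 < N i)
    (hy : ∀ i, cc y i ≠ 0) (u : Cn m) {B : Fin m → ℝ}
    (hB : ∀ i, Complex.normSq (cc x (pl i)) ≤ B i * Complex.normSq (cc y i)) :
    nsq (fderiv ℝ (sec pl N x y) y u) ≤ ∑ i, B i * Complex.normSq (cc u i) := by
  have hB0 : ∀ i, 0 ≤ B i := by
    intro i
    have h1 := hB i
    have h2 : 0 < Complex.normSq (cc y i) := Complex.normSq_pos.2 (hy i)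
    have h3 := Complex.normSq_nonneg (cc x (pl i))
    by_contra h
    push Not at h
    nlinarith
  have hterm : ∀ i, Complex.normSq (cc (fderiv ℝ (sec pl N x y) y u) (pl i)) ≤
      B i * Complex.normSq (cc u i) := by
    intro i
    rw [cc_fderiv_pl hpl hy, Complex.normSq_mul, Complex.normSq_mul, Complex.normSq_div]
    have h2 : 0 < Complex.normSq (cc y i) := Complex.normSq_pos.2 (hy i)
    have h3 : Complex.normSq ((N i : ℂ)⁻¹) ≤ 1 := by
      rw [Complex.normSq_inv, Complex.normSq_natCast]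
      refine inv_le_one_of_one_le₀ ?_
      have : (1 : ℝ) ≤ N i := by exact_mod_cast hN i
      nlinarith
    have h4 := Complex.normSq_nonneg (cc u i)
    have h5 := Complex.normSq_nonneg ((N i : ℂ)⁻¹)
    have h6 : Complex.normSq ((N i : ℂ)⁻¹) * (Complex.normSq (cc u i) / Complex.normSq (cc y i)) ≤
        Complex.normSq (cc u i) / Complex.normSq (cc y i) := mul_le_of_le_one_left (by positivity) h3
    calc _ ≤ B i * Complex.normSq (cc y i) *
          (Complex.normSq (cc u i) / Complex.normSq (cc y i)) :=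
          mul_le_mul (hB i) h6 (by positivity) (mul_nonneg (hB0 i) h2.le)
      _ = B i * Complex.normSq (cc u i) := by
          field_simp
  rw [nsq_eq]
  have hsum : ∀ l, Complex.normSq (cc (fderiv ℝ (sec pl N x y) y u) l) ≤
      ∑ i, if l = pl i then B i * Complex.normSq (cc u i) else 0 := by
    intro l
    have hnn : ∀ i ∈ Finset.univ, (0 : ℝ) ≤ if l = pl i then B i * Complex.normSq (cc u i) else 0 := by
      intro i _
      split_ifs
      · exact mul_nonneg (hB0 i) (Complex.normSq_nonneg _)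
      · exact le_rfl
    by_cases hl : ∃ i, l = pl i
    · obtain ⟨i, rfl⟩ := hl
      refine le_trans ?_ (Finset.single_le_sum hnn (Finset.mem_univ i))
      rw [if_pos rfl]
      exact hterm i
    · push Not at hl
      rw [cc_fderiv_ne hy u hl, map_zero]
      exact Finset.sum_nonneg hnn
  refine (Finset.sum_le_sum fun l _ => hsum l).trans ?_
  rw [Finset.sum_comm]
  refine Finset.sum_le_sum fun i _ => ?_
  rw [Finset.sum_ite_eq']
  simp

end Sec

theorem ext_cc {x x' : Cn n} (h : ∀ l, cc x l = cc x' l) : x = x' := by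
  rw [← ofC_cc x, ← ofC_cc x']
  congr 1
  funext l
  exact h l

theorem normSq_cc (x : Cn n) (l : Fin n) : Complex.normSq (cc x l) = x.1 l ^ 2 + x.2 l ^ 2 := by
  rw [Complex.normSq_apply, sq, sq]
  rfl

theorem norm_cc_le_one {x : Cn n} (hx : x ∈ cpd (k := n) 1) (l : Fin n) : ‖cc x l‖ ≤ 1 := by
  have h1 := hx l
  rw [← normSq_cc, Complex.normSq_eq_norm_sq] at h1
  nlinarith [norm_nonneg (cc x l)]

/-- the smallest coordinate of the row `i` -/
theorem pivot_bound {row : Fin n → Option (Fin m)} {x : Cn n} (hx : x ∈ cpd (k := n) 1)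
    {l₀ : Fin n} {i : Fin m} (hmin : ∀ l, row l = some i → ‖cc x l₀‖ ≤ ‖cc x l‖) {s : ℝ}
    (hs : 0 < s) {N D : ℕ} (hD : n * N ≤ D) (hD0 : D ≠ 0) {C₀ : ℝ} (hC₀ : (s ^ N)⁻¹ ≤ C₀) {w : ℂ}
    (hw : (s * prow row i x) ^ N = w) : Complex.normSq (cc x l₀) ≤
      (C₀ ^ 2) ^ ((D : ℝ)⁻¹) * Complex.normSq w ^ ((D : ℝ)⁻¹) := by
  set a : ℝ := ‖cc x l₀‖ with ha
  have ha0 : 0 ≤ a := norm_nonneg _
  have ha1 : a ≤ 1 := norm_cc_le_one hx l₀
  have h1 : a ^ n ≤ ‖prow row i x‖ := by
    unfold prow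
    rw [norm_prod]
    calc a ^ n = ∏ _l : Fin n, a := by simp
      _ ≤ ∏ l, ‖if row l = some i then cc x l else 1‖ := by
        refine Finset.prod_le_prod (fun _ _ => ha0) fun l _ => ?_
        split_ifs with h
        · exact hmin l h
        · rwa [norm_one]
  have h2 : ‖w‖ = s ^ N * ‖prow row i x‖ ^ N := by
    rw [← hw, norm_pow, norm_mul, Complex.norm_real, Real.norm_eq_abs, abs_of_pos hs, mul_pow]
  have hsN : 0 < s ^ N := pow_pos hs N
  have h3 : a ^ (n * N) ≤ C₀ * ‖w‖ := by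
    have e1 : a ^ (n * N) ≤ ‖prow row i x‖ ^ N := by
      rw [pow_mul]
      exact pow_le_pow_left₀ (by positivity) h1 N
    have e2 : ‖prow row i x‖ ^ N = (s ^ N)⁻¹ * ‖w‖ := by
      rw [h2]
      field_simp
    rw [e2] at e1
    exact e1.trans (mul_le_mul_of_nonneg_right hC₀ (norm_nonneg _))
  have h4 : a ^ D ≤ C₀ * ‖w‖ := (pow_le_pow_of_le_one ha0 ha1 hD).trans h3
  have h5 : (a ^ 2) ^ D ≤ C₀ ^ 2 * Complex.normSq w := by
    rw [← pow_mul, mul_comm 2 D, pow_mul, Complex.normSq_eq_norm_sq, ← mul_pow]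
    exact pow_le_pow_left₀ (by positivity) h4 2
  rw [Complex.normSq_eq_norm_sq (cc x l₀), ← ha, ← Real.mul_rpow (sq_nonneg _)
    (Complex.normSq_nonneg _), ← Real.pow_rpow_inv_natCast (sq_nonneg a) hD0]
  exact Real.rpow_le_rpow (by positivity) h5 (by positivity)

end Touch

open Touch

theorem Touch.phi_slice {n : ℕ} {M : Type} [TopologicalSpace M] {κ : Type}
    {T : ℝ} (F : Flow n M κ T) (c : κ) {t : ℝ} (ht : t ∈ Ico 0 T) :
    ContDiffOn ℝ ∞ (fun z => F.phi c (t, z)) (F.e c).target := by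
  obtain ⟨U, hU, hsub, hs⟩ := F.phi_isFun.smooth c
  exact hs.comp (contDiff_const.prodMk contDiff_id).contDiffOn fun z hz => hsub ⟨ht, hz⟩

theorem Touch.psi_slice {n : ℕ} {M : Type} [TopologicalSpace M] {κ : Type}
    {T : ℝ} (F : Flow n M κ T) (c : κ) {t : ℝ} (ht : t ∈ Ico 0 T) :
    ContDiffOn ℝ ∞ (fun z => F.ψ c (t, z)) (F.e c).target := by
  obtain ⟨U, hU, hsub, hs⟩ := F.krf.smooth c
  exact hs.comp (contDiff_const.prodMk contDiff_id).contDiffOn fun z hz => hsub ⟨ht, hz⟩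

section Mod

variable {n m : ℕ} {M Y W : Type} [TopologicalSpace M] [TopologicalSpace Y] [TopologicalSpace W]
  {κ P ι : Type} {T : ℝ} (F : Mod n m M Y W κ P ι T)

/-- the coordinates in `M` of the point `x` of the chart `c` of `W` -/
noncomputable def Mod.Hc (c : ι) (x : Cn n) : Cn n := F.e (F.al c) (F.π ((F.a c).symm x))

theorem Mod.Hc_holOn (c : ι) : HolOn (F.Hc c) (opd 10) := F.model.holo c

theorem Mod.mem_W {c : ι} {x : Cn n} (hx : x ∈ opd (k := n) 10) :
    (F.a c).symm x ∈ (F.a c).source :=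
  (F.a c).map_target (by rwa [F.model.target c])

theorem Mod.a_symm {c : ι} {x : Cn n} (hx : x ∈ opd (k := n) 10) : F.a c ((F.a c).symm x) = x :=
  (F.a c).right_inv (by rwa [F.model.target c])

theorem Mod.pi_mem {c : ι} {x : Cn n} (hx : x ∈ opd (k := n) 10) :
    F.π ((F.a c).symm x) ∈ (F.e (F.al c)).source := F.model.mem c _ (F.mem_W hx)

theorem Mod.Hc_mem {c : ι} {x : Cn n} (hx : x ∈ opd (k := n) 10) :
    F.Hc c x ∈ (F.e (F.al c)).target := (F.e (F.al c)).map_source (F.pi_mem hx)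

theorem Mod.Phi_Hc {c : ι} {x : Cn n} (hx : x ∈ opd (k := n) 10) {t : ℝ} (ht : t ∈ Ico 0 T) :
    F.Phi t (F.π ((F.a c).symm x)) = F.phi (F.al c) (t, F.Hc c x) :=
  F.toFlow.Phi_eq ht (F.pi_mem hx)

/-- the base coordinates in a chart of `W` -/
theorem Mod.base_eq {c : ι} {x : Cn n} (hx : x ∈ opd (k := n) 10) :
    F.f (F.π ((F.a c).symm x)) ∈ (F.b (F.pc c)).source ∧
      ∀ i, cc (F.b (F.pc c) (F.f (F.π ((F.a c).symm x)))) i =
        (F.s c i * prow (F.row c) i x) ^ F.N (F.pc c) i := by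
  have h1 := F.model.base ((F.a c).symm x)
  have h2 := F.model.lab_eq c _ (F.mem_W hx)
  rw [h2] at h1
  refine ⟨h1.1, fun i => ?_⟩
  rw [h1.2 i, F.model.mono c _ (F.mem_W hx) i, F.a_symm hx]

/-- `π^* ω(0)` is bounded in the charts of `W` -/
theorem Mod.omega_le [Finite ι] (hT : 0 < T) : ∃ C : ℝ, 0 ≤ C ∧ ∀ c, ∀ x ∈ cpd (k := n) 1,
    ∀ ξ, lev (F.ψ (F.al c)) (fderiv ℝ (F.Hc c) x ξ) (0, F.Hc c x) ≤ C * nsq ξ := by
  have h0 : (0 : ℝ) ∈ Ico 0 T := ⟨le_rfl, hT⟩
  have hsub : cpd (k := n) 1 ⊆ opd 10 := cpd_subset_opd (by norm_num) (by norm_num)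
  have hsm : ∀ c, ContDiffOn ℝ ∞ (fun x => F.ψ (F.al c) (0, F.Hc c x)) (opd 10) := fun c =>
    (Touch.psi_slice F.toFlow (F.al c) h0).comp (F.Hc_holOn c).1 fun x hx => F.Hc_mem hx
  have key : ∀ c, ∃ C : ℝ, 0 ≤ C ∧ ∀ x ∈ cpd (k := n) 1, ∀ ξ,
      levz (fun x => F.ψ (F.al c) (0, F.Hc c x)) ξ x ≤ C * nsq ξ := by
    intro c
    refine quad_le (isCompact_cpd 1) (fun x ξ => levz (fun x => F.ψ (F.al c) (0, F.Hc c x)) ξ x)
      (fun _ ξ => nsq ξ) ?_ ?_ ?_ ?_ ?_
    · exact (levz_continuousOn (isOpen_opd 10) (hsm c)).mono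
        (prod_mono hsub le_rfl)
    · refine Continuous.continuousOn ?_
      unfold nsq dotProduct
      fun_prop
    · intro x hx r ξ
      exact Bd.levz_smul (isOpen_opd 10) (hsm c) (hsub hx) r ξ
    · intro x hx r ξ
      simp only [nsq, Prod.smul_fst, Prod.smul_snd, dotProduct_smul, smul_dotProduct, smul_eq_mul]
      ring
    · intro x hx ξ hξ
      have h1 : 0 ≤ nsq ξ := by
        rw [nsq_eq]
        exact Finset.sum_nonneg fun l _ => Complex.normSq_nonneg _
      refine lt_of_le_of_ne h1 fun h => hξ ?_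
      rw [nsq_eq] at h
      refine ext_cc fun l => ?_
      have h2 := (Finset.sum_eq_zero_iff_of_nonneg fun l _ => Complex.normSq_nonneg _).1 h.symm l
        (Finset.mem_univ l)
      rw [Complex.normSq_eq_zero.1 h2]
      simp [cc, Complex.ext_iff]
  choose C hC hC' using key
  obtain ⟨B, hB⟩ := (Set.finite_range C).bddAbove
  refine ⟨max B 0, le_max_right _ _, fun c x hx ξ => ?_⟩
  have h1 := hC' c x hx ξ
  have hm := F.Hc_mem (c := c) (hsub hx)
  obtain ⟨U, hU, hsubU, hs⟩ := F.krf.smooth (F.al c)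
  have h2 : levz (fun x => F.ψ (F.al c) (0, F.Hc c x)) ξ x =
      levz (fun z => F.ψ (F.al c) (0, z)) (fderiv ℝ (F.Hc c) x ξ) (F.Hc c x) :=
    levz_comp (F.e (F.al c)).open_target (Touch.psi_slice F.toFlow (F.al c) h0) (isOpen_opd 10)
      (F.Hc_holOn c) (hsub hx) hm ξ
  have h3 : levz (fun z => F.ψ (F.al c) (0, z)) (fderiv ℝ (F.Hc c) x ξ) (F.Hc c x) =
      lev (F.ψ (F.al c)) (fderiv ℝ (F.Hc c) x ξ) (0, F.Hc c x) :=
    levz_slice hU hs (hsubU ⟨h0, hm⟩) _
  rw [h2, h3] at h1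
  have h4 : 0 ≤ nsq ξ := by
    rw [nsq_eq]
    exact Finset.sum_nonneg fun l _ => Complex.normSq_nonneg _
  exact h1.trans (mul_le_mul_of_nonneg_right ((hB ⟨c, rfl⟩).trans (le_max_left _ _)) h4)

end Mod

end Pool.Agent.KRFG
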