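import Pool.Agent.Work.MP_a2bf38_gt.K.Sup
import Pool.Agent.Work.MP_a2bf38_gt.K.EmReach
import Pool.Agent.Work.MP_a2bf38_gt.K.TouchA
import Pool.Agent.Work.MP_a2bf38_gt.I.Sect
import Pool.Agent.Work.MP_a2bf38_gt.I.GapA
import Pool.Agent.Work.MP_a2bf38_gt.I.NatHol

/-!
# `φ` along the fibres, in the charts of `W`
-/

open scoped ContDiff ENNReal ComplexOrder Topology
open Set Filter Pool.Agent.ToricKRF Pool.Agent.ToricKRF.G Pool.Agent.KRFS Pool.Agent.KRFF

namespace Pool.Agent.KRFG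

namespace Fb

theorem levz_congr {n : ℕ} {f g : Cn n → ℝ} {z : Cn n} (h : f =ᶠ[𝓝 z] g) (u : Cn n) :
    levz f u z = levz g u z := by
  have h2 : ∀ w, D w (D w f) z = D w (D w g) z := by
    intro w
    have h1 : D w f =ᶠ[𝓝 z] D w g := by
      filter_upwards [h.eventuallyEq_nhds] with x hx
      change fderiv ℝ f x w = fderiv ℝ g x w
      rw [hx.fderiv_eq]
    change fderiv ℝ (D w f) z w = fderiv ℝ (D w g) z w
    rw [h1.fderiv_eq]
  unfold levz
  rw [h2, h2]

theorem levz_const {n : ℕ} (a : ℝ) (u z : Cn n) : levz (fun _ : Cn n => a) u z = 0 := by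
  have h1 : ∀ w : Cn n, D w (fun _ : Cn n => a) = fun _ => 0 := by
    intro w
    funext x
    simp [D]
  have h2 : ∀ w : Cn n, D w (fun _ : Cn n => (0 : ℝ)) z = 0 := by
    intro w
    simp [D]
  unfold levz
  rw [h1, h1, h2, h2]
  norm_num

theorem nsq_nonneg {n : ℕ} (v : Cn n) : 0 ≤ nsq v := by
  simp only [nsq, dotProduct]
  exact add_nonneg (Finset.sum_nonneg fun i _ => mul_self_nonneg _)
    (Finset.sum_nonneg fun i _ => mul_self_nonneg _)

theorem nsq_pos {n : ℕ} {v : Cn n} (hv : v ≠ 0) : 0 < nsq v := by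
  refine lt_of_le_of_ne (nsq_nonneg v) fun h => hv ?_
  rw [Touch.nsq_eq] at h
  have h1 := (Finset.sum_eq_zero_iff_of_nonneg fun l _ => Complex.normSq_nonneg (cc v l)).1 h.symm
  refine ER.cn_ext fun l => ?_
  rw [Complex.normSq_eq_zero.1 (h1 l (Finset.mem_univ l))]
  apply Complex.ext <;> simp [cc]

theorem contDiff_nsq {n : ℕ} : ContDiff ℝ ∞ (nsq : Cn n → ℝ) := by
  unfold nsq dotProduct
  fun_prop

theorem lev_nonneg {n : ℕ} {M : Type} [TopologicalSpace M] {κ : Type} {T : ℝ} (F : Flow n M κ T)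
    {c : κ} {t : ℝ} (ht : t ∈ Ico 0 T) {z : Cn n} (hz : z ∈ (F.e c).target) (u : Cn n) :
    0 ≤ lev (F.ψ c) u (t, z) := by
  obtain ⟨U, hU, hsub, hψ⟩ := F.krf.smooth c
  by_cases hu : u = 0
  · subst hu
    have h0 : ∀ g : ℝ × Cn n → ℝ, D ((0 : ℝ), (0 : Cn n)) g (t, z) = 0 := fun g =>
      map_zero (fderiv ℝ g (t, z))
    have hJ : J (0 : Cn n) = 0 := by simp [J]
    simp only [lev]
    rw [hJ, h0]
    simp
  · exact (lev_pos hU hψ (hsub ⟨ht, hz⟩) (F.krf.pos c t ht z hz) hu).le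

section Em

variable {n m : ℕ} {row : Fin n → Option (Fin m)} {piv : Fin m → Fin n}

theorem prow_Em' (hpiv : ∀ i, row (piv i) = some i) (q w : Cn n) (i : Fin m) :
    prow row i (Em row piv q w) = prow row i q := by
  rw [ER.prow_split hpiv, ER.prow_split hpiv, ER.Em_cc_piv q w (hpiv i)]
  have h1 : ∏ l, (if row l = some i ∧ l ≠ piv i then cc (Em row piv q w) l else 1) =
      (∏ l, if row l = some i ∧ l ≠ piv i then cc q l else 1) *
        Complex.exp (∑ l, if row l = some i ∧ l ≠ piv i then cc w l else 0) := by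
    rw [Complex.exp_sum, ← Finset.prod_mul_distrib]
    refine Finset.prod_congr rfl fun l _ => ?_
    by_cases h : row l = some i ∧ l ≠ piv i
    · rw [if_pos h, if_pos h, if_pos h, ER.Em_cc_some q w h.1 h.2]
    · rw [if_neg h, if_neg h, if_neg h, Complex.exp_zero, mul_one]
  rw [h1, Complex.exp_neg]
  have h2 := Complex.exp_ne_zero (∑ l, if row l = some i ∧ l ≠ piv i then cc w l else 0)
  field_simp

theorem holC_exp {g : Cn n → ℂ} {S : Set (Cn n)} (hS : IsOpen S) (hg : NF.HolC g S) :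
    NF.HolC (fun z => Complex.exp (g z)) S :=
  (Touch.holC_comp isOpen_univ Complex.differentiable_exp.differentiableOn hS hg
    (mapsTo_univ _ _)).1

theorem Em_holOn' (q : Cn n) : HolOn (Em row piv q) univ := by
  classical
  have hid : HolOn (fun w : Cn n => w) univ := ⟨contDiff_id.contDiffOn, fun z _ u => by simp⟩
  have hc : ∀ l, NF.HolC (fun w : Cn n => cc w l) univ := fun l =>
    NF.holOn_cc isOpen_univ hid l
  unfold Em
  refine (Touch.holOn_ofC isOpen_univ fun l => ?_).1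
  rcases hr : row l with _ | i
  · simp only
    exact (NF.HolC.const _ _).add isOpen_univ (hc l)
  · simp only
    by_cases hl : l = piv i
    · simp only [if_pos hl]
      refine (NF.HolC.const _ _).mul isOpen_univ (holC_exp isOpen_univ ?_)
      have h1 : NF.HolC (fun w : Cn n => (-1 : ℂ) * ∑ l', if row l' = some i ∧ l' ≠ l then
          cc w l' else 0) univ := by
        refine (NF.HolC.const _ _).mul isOpen_univ (NF.HolC.sum _ isOpen_univ fun l' => ?_)
        by_cases h : row l' = some i ∧ l' ≠ l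
        · simp only [if_pos h]
          exact hc l'
        · simp only [if_neg h]
          exact NF.HolC.const _ _
      simpa only [neg_one_mul] using h1
    · simp only [if_neg hl]
      exact (NF.HolC.const _ _).mul isOpen_univ (holC_exp isOpen_univ (hc l))

end Em

end Fb

section

variable {n m : ℕ} {M Y W : Type} [TopologicalSpace M] [TopologicalSpace Y] [TopologicalSpace W]
  {κ P ι : Type} {T : ℝ} (F : Mod n m M Y W κ P ι T)

/-- `π` in the charts `a c` and `e (al c)` -/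
noncomputable def Mod.piC (c : ι) (x : Cn n) : Cn n := F.e (F.al c) (F.π ((F.a c).symm x))

theorem Mod.mem_src (c : ι) {x : Cn n} (hx : x ∈ opd 10) :
    F.π ((F.a c).symm x) ∈ (F.e (F.al c)).source :=
  F.model.mem c _ ((F.a c).map_target (by rw [F.model.target c]; exact hx))

theorem Mod.piC_mem (c : ι) {x : Cn n} (hx : x ∈ opd 10) : F.piC c x ∈ (F.e (F.al c)).target :=
  (F.e (F.al c)).map_source (F.mem_src c hx)

theorem Mod.symm_piC (c : ι) {x : Cn n} (hx : x ∈ opd 10) :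
    (F.e (F.al c)).symm (F.piC c x) = F.π ((F.a c).symm x) :=
  (F.e (F.al c)).left_inv (F.mem_src c hx)

theorem Mod.piC_hol (c : ι) : HolOn (F.piC c) (opd 10) := F.model.holo c

theorem Mod.Phi_piC {t : ℝ} (ht : t ∈ Ico 0 T) (c : ι) {x : Cn n} (hx : x ∈ opd 10) :
    F.Phi t (F.π ((F.a c).symm x)) = F.phi (F.al c) (t, F.piC c x) :=
  F.Phi_eq ht (F.mem_src c hx)

theorem Mod.phi_slice (c : κ) {t : ℝ} (ht : t ∈ Ico 0 T) :
    ContDiffOn ℝ ∞ (fun z => F.phi c (t, z)) (F.e c).target := by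
  obtain ⟨U, hU, hsub, hs⟩ := F.phi_isFun.smooth c
  exact hs.comp (contDiff_const.prodMk contDiff_id).contDiffOn fun z hz => hsub ⟨ht, hz⟩

theorem Mod.smooth_W' {t : ℝ} (ht : t ∈ Ico 0 T) (c : ι) :
    ContDiffOn ℝ ∞ (fun x => F.phi (F.al c) (t, F.piC c x)) (opd 10) :=
  (F.phi_slice (F.al c) ht).comp (F.piC_hol c).1 fun _ hx => F.piC_mem c hx

theorem Mod.smooth_W {t : ℝ} (ht : t ∈ Ico 0 T) (c : ι) :
    ContDiffOn ℝ ∞ (fun x => F.Phi t (F.π ((F.a c).symm x))) (opd 10) :=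
  (F.smooth_W' ht c).congr fun _ hx => F.Phi_piC ht c hx

/-- the pull-back of `ω(0)` to `W` is bounded in the charts -/
theorem Mod.pull_le (hT : 0 < T) (c : ι) : ∃ C : ℝ, 0 ≤ C ∧ ∀ x ∈ cpd (k := n) 9, ∀ v,
    lev (F.ψ (F.al c)) (fderiv ℝ (F.piC c) x v) (0, F.piC c x) ≤ C * nsq v := by
  have h0 : (0 : ℝ) ∈ Ico 0 T := ⟨le_rfl, hT⟩
  obtain ⟨U, hU, hsub, hs⟩ := F.krf.smooth (F.al c)
  have hsl : ContDiffOn ℝ ∞ (fun z => F.ψ (F.al c) (0, z)) (F.e (F.al c)).target :=
    hs.comp (contDiff_const.prodMk contDiff_id).contDiffOn fun z hz => hsub ⟨h0, hz⟩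
  have hcomp : ContDiffOn ℝ ∞ (fun x => F.ψ (F.al c) (0, F.piC c x)) (opd 10) :=
    hsl.comp (F.piC_hol c).1 fun _ hx => F.piC_mem c hx
  have h9 : (cpd 9 : Set (Cn n)) ⊆ opd 10 := cpd_subset_opd (by norm_num) (by norm_num)
  obtain ⟨C, hC, h⟩ := quad_le (isCompact_cpd (k := n) 9)
    (fun x v => levz (fun x => F.ψ (F.al c) (0, F.piC c x)) v x) (fun _ v => nsq v)
    ((levz_continuousOn (isOpen_opd 10) hcomp).mono (prod_mono h9 le_rfl))
    ((Fb.contDiff_nsq.continuous.comp continuous_snd).continuousOn)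
    (fun x hx r v => Bd.levz_smul (isOpen_opd 10) hcomp (h9 hx) r v)
    (fun x _ r v => by
      simp only [nsq, Prod.smul_fst, Prod.smul_snd, dotProduct_smul, smul_dotProduct, smul_eq_mul]
      ring)
    (fun x _ v hv => Fb.nsq_pos hv)
  refine ⟨C, hC, fun x hx v => ?_⟩
  have h1 := h x hx v
  have h2 := levz_comp (F.e (F.al c)).open_target hsl (isOpen_opd 10) (F.piC_hol c) (h9 hx)
    (F.piC_mem c (h9 hx)) v
  have h3 : levz (fun z => F.ψ (F.al c) (0, z)) (fderiv ℝ (F.piC c) x v) (F.piC c x) =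
      lev (F.ψ (F.al c)) (fderiv ℝ (F.piC c) x v) (0, F.piC c x) :=
    levz_slice hU hs (hsub ⟨h0, F.piC_mem c (h9 hx)⟩) _
  rw [← h3, ← h2]
  exact h1

theorem Mod.fib_psh [Fintype ι] : ∃ C : ℝ, 0 ≤ C ∧ ∀ t ∈ Ico 0 T, ∀ c, ∀ q ∈ opd (k := n) 9,
    ∀ M₀ : ℝ,
    ∀ piv : Fin m → Fin n, (∀ i, F.row c (piv i) = some i) → ∀ w,
    Em (F.row c) piv q w ∈ opd 9 → ∀ u,
    0 ≤ levz (fun w => F.Phi t (F.π ((F.a c).symm (Em (F.row c) piv q w))) - M₀ +
      C * (1 - t / T) * (nsq (Em (F.row c) piv q w) - 81 * n)) u w := by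
  by_cases hT : 0 < T
  swap
  · exact ⟨0, le_rfl, fun t ht => absurd (lt_of_le_of_lt ht.1 ht.2) hT⟩
  choose C' hC' h' using F.pull_le hT
  obtain ⟨B, hB⟩ := (Set.finite_range C').bddAbove
  set C : ℝ := max B 0 with hCdef
  refine ⟨C, le_max_right _ _, fun t ht c q hq M₀ piv hpiv w hw u => ?_⟩
  have hC0 : 0 ≤ C := le_max_right _ _
  set E : Cn n → Cn n := Em (F.row c) piv q with hE
  have hEh : HolOn E univ := Fb.Em_holOn' q
  have hEc : Continuous E := (continuousOn_univ.1 hEh.1.continuousOn)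
  set S : Set (Cn n) := E ⁻¹' opd 9 with hS
  have hSo : IsOpen S := (isOpen_opd 9).preimage hEc
  have hwS : w ∈ S := hw
  have h910 : (opd 9 : Set (Cn n)) ⊆ opd 10 := NT.opd_mono (by norm_num) (by norm_num)
  have hES : HolOn E S := NT.hol_mono hEh (subset_univ _)
  have hH : HolOn (fun w => F.piC c (E w)) S :=
    NT.hol_comp hSo (isOpen_opd 10) (F.piC_hol c) hES fun x hx => h910 hx
  have hzt : F.piC c (E w) ∈ (F.e (F.al c)).target := F.piC_mem c (h910 hw)
  set z : Cn n := F.piC c (E w) with hz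
  set V : Cn n := fderiv ℝ E w u with hV
  set X : Cn n := fderiv ℝ (F.piC c) (E w) V with hX
  have hXeq : fderiv ℝ (fun w => F.piC c (E w)) w u = X :=
    NT.fderiv_hol_comp hSo (isOpen_opd 10) (F.piC_hol c) hES hwS (h910 hw) u
  -- the function near `w`
  have hev : (fun w => F.Phi t (F.π ((F.a c).symm (E w))) - M₀ +
      C * (1 - t / T) * (nsq (E w) - 81 * n)) =ᶠ[𝓝 w]
      fun w => F.phi (F.al c) (t, F.piC c (E w)) + (-M₀ - C * (1 - t / T) * (81 * n) +
        C * (1 - t / T) * nsq (E w)) := by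
    filter_upwards [hSo.mem_nhds hwS] with x hx
    rw [F.Phi_piC ht c (h910 hx)]
    ring
  have hphi : ContDiffOn ℝ ∞ (fun w => F.phi (F.al c) (t, F.piC c (E w))) S :=
    (F.phi_slice (F.al c) ht).comp hH.1 fun x hx => F.piC_mem c (h910 hx)
  have hnsq : ContDiff ℝ ∞ (nsq : Cn n → ℝ) := Fb.contDiff_nsq
  have hnE : ContDiffOn ℝ ∞ (fun w => nsq (E w)) S := hnsq.comp_contDiffOn hES.1
  have d1 : ContDiffAt ℝ 2 (fun w => F.phi (F.al c) (t, F.piC c (E w))) w :=
    (hphi.contDiffAt (hSo.mem_nhds hwS)).of_le two_le_infty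
  have d2 : ContDiffAt ℝ 2 (fun w => nsq (E w)) w :=
    (hnE.contDiffAt (hSo.mem_nhds hwS)).of_le two_le_infty
  have d3 : ContDiffAt ℝ 2 (fun w => C * (1 - t / T) * nsq (E w)) w := contDiffAt_const.mul d2
  have d4 : ContDiffAt ℝ 2 (fun _ : Cn n => -M₀ - C * (1 - t / T) * (81 * n)) w :=
    contDiffAt_const
  have hconst : levz (fun _ : Cn n => -M₀ - C * (1 - t / T) * (81 * n)) u w = 0 :=
    Fb.levz_const _ _ _
  have e1 : levz (fun w => F.Phi t (F.π ((F.a c).symm (E w))) - M₀ +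
      C * (1 - t / T) * (nsq (E w) - 81 * n)) u w =
      levz (fun w => F.phi (F.al c) (t, F.piC c (E w))) u w +
        C * (1 - t / T) * levz (fun w => nsq (E w)) u w := by
    rw [Fb.levz_congr hev, Bd.levz_add d1 (d4.add d3), Bd.levz_add d4 d3, hconst,
      Bd.levz_const_mul _ d2]
    ring
  -- the Levi form of `φ`
  obtain ⟨U, hU, hsub, hs⟩ := F.phi_isFun.smooth (F.al c)
  have e2 : levz (fun w => F.phi (F.al c) (t, F.piC c (E w))) u w =
      lev (F.phi (F.al c)) X (t, z) := by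
    have h1 := levz_comp (F.e (F.al c)).open_target (F.phi_slice (F.al c) ht) hSo hH hwS hzt u
    rw [h1, hXeq]
    exact levz_slice hU hs (hsub ⟨ht, hzt⟩) X
  have e3 : levz (fun w => nsq (E w)) u w = nsq V := by
    rw [levz_comp isOpen_univ hnsq.contDiffOn hSo hES hwS (mem_univ _) u, Gap.levz_nsq']
  -- `θ` vanishes along the fibre
  obtain ⟨hsrc, -⟩ := F.base_chart c (h910 hw)
  have hθ : levz (F.Θ (F.al c)) X z = 0 := by
    have h1 := F.theta (F.al c) z hzt X
    rw [← h1]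
    have h2 : (F.e (F.al c)).symm z = F.π ((F.a c).symm (E w)) := F.symm_piC c (h910 hw)
    have h3 : F.f ((F.e (F.al c)).symm z) ∈ (F.b (F.pc c)).source := by
      rw [h2]
      exact hsrc
    rw [F.lim.eq (F.al c) (F.pc c) z hzt h3 X]
    set S' : Set (Cn n) := {z | z ∈ (F.e (F.al c)).target ∧
      F.f ((F.e (F.al c)).symm z) ∈ (F.b (F.pc c)).source} with hS'
    have hS'o : IsOpen S' := by
      have h4 : ContinuousOn (fun z => F.f ((F.e (F.al c)).symm z)) (F.e (F.al c)).target :=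
        F.hol.cont.comp_continuousOn (F.e (F.al c)).continuousOn_symm
      exact h4.isOpen_inter_preimage (F.e (F.al c)).open_target (F.b (F.pc c)).open_source
    have hK : ContDiffOn ℝ ∞ (fun z => F.K (F.pc c) (F.b (F.pc c) (F.f ((F.e (F.al c)).symm z))))
        S' :=
      (F.lim.smooth (F.pc c)).comp (F.hol.holo (F.al c) (F.pc c)).1
        fun x hx => (F.b (F.pc c)).map_source hx.2
    have h5 := levz_comp hS'o hK hSo hH hwS ⟨hzt, h3⟩ u
    rw [hXeq] at h5
    rw [← h5]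
    have h6 : (fun x => F.K (F.pc c) (F.b (F.pc c) (F.f ((F.e (F.al c)).symm (F.piC c (E x))))))
        =ᶠ[𝓝 w] fun _ => F.K (F.pc c)
          (ofC fun i => ((F.s c i : ℂ) * prow (F.row c) i q) ^ F.N (F.pc c) i) := by
      filter_upwards [hSo.mem_nhds hwS] with x hx
      rw [F.symm_piC c (h910 hx), (F.base_chart c (h910 hx)).2]
      congr 2
      funext i
      rw [hE, Fb.prow_Em' hpiv]
    rw [Fb.levz_congr h6]
    exact Fb.levz_const _ _ _
  have hE9 : E w ∈ cpd (k := n) 9 := fun i => (hw i).le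
  have h7 := h' c (E w) hE9 V
  have h8 : lev (F.ψ (F.al c)) X (0, z) ≤ C * nsq V := by
    exact h7.trans (mul_le_mul_of_nonneg_right ((hB ⟨c, rfl⟩).trans (le_max_left _ _))
      (Fb.nsq_nonneg V))
  have h9 : 0 ≤ lev (F.ψ (F.al c)) X (t, z) := Fb.lev_nonneg F.toFlow ht hzt X
  have h10 : 0 ≤ 1 - t / T := by
    rw [sub_nonneg, div_le_one hT]
    exact ht.2.le
  rw [e1, e2, e3, F.lev_phi ht hzt, hθ]
  have h11 := mul_le_mul_of_nonneg_left h8 h10
  nlinarith

end

end Pool.Agent.KRFG
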