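import Pool.Agent.Work.MP_a2bf38_gt.K.Setup
import Pool.Agent.Work.MP_a2bf38_gt.I.Overlap

/-!
# Uniform size of the overlaps of the charts of the models
-/

open scoped ContDiff ENNReal ComplexOrder Topology
open Set MeasureTheory Filter Pool.Agent.ToricKRF Pool.Agent.ToricKRF.G Pool.Agent.KRFS
  Pool.Agent.KRFF

namespace Pool.Agent.KRFG

namespace Ov

theorem dist_le_of_cpd {k : ℕ} {z z' : Cn k} {r : ℝ} (hr : 0 ≤ r) (h : z' - z ∈ cpd (k := k) r) :
    dist z' z ≤ r := by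
  have h1 : ∀ i, |z'.1 i - z.1 i| ≤ r := fun i =>
    abs_le_of_sq_le_sq (by
      have := h i
      have h2 : (z' - z).1 i = z'.1 i - z.1 i := rfl
      have h3 : (z' - z).2 i = z'.2 i - z.2 i := rfl
      rw [h2, h3] at this
      nlinarith [sq_nonneg (z'.2 i - z.2 i)]) hr
  have h2 : ∀ i, |z'.2 i - z.2 i| ≤ r := fun i =>
    abs_le_of_sq_le_sq (by
      have := h i
      have h2 : (z' - z).1 i = z'.1 i - z.1 i := rfl
      have h3 : (z' - z).2 i = z'.2 i - z.2 i := rfl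
      rw [h2, h3] at this
      nlinarith [sq_nonneg (z'.1 i - z.1 i)]) hr
  rw [Prod.dist_eq, max_le_iff, dist_pi_le_iff hr, dist_pi_le_iff hr]
  exact ⟨h1, h2⟩

end Ov

open Pool.Agent.KRFF.Ov

section Mod

variable {n m : ℕ} {M Y W : Type} [TopologicalSpace M] [CompactSpace M] [T2Space M]
  [TopologicalSpace Y] [T2Space Y] [TopologicalSpace W] [T2Space W] {κ P ι : Type}
  [Finite P] [Fintype ι] {T : ℝ} (F : Mod n m M Y W κ P ι T)

omit [CompactSpace M] [T2Space M] [T2Space Y] [Finite P] [Fintype ι] in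
theorem Mod.overlap_one (c c' : ι) : ∃ δ > 0, ∀ w,
    w ∈ (F.a c).source → w ∈ (F.a c').source → F.a c w ∈ cpd (3 / 2) →
    F.a c' w ∈ cpd (3 / 2) → ∀ x, ∀ r, 0 ≤ r → r < δ → x - F.a c w ∈ cpd (k := n) r →
    (F.a c).symm x ∈ (F.a c').source ∧ F.a c' ((F.a c).symm x) ∈ cpd 2 := by
  have h32 : (0 : ℝ) ≤ 3 / 2 := by norm_num
  have hsub10 : (cpd (3 / 2) : Set (Cn n)) ⊆ opd 10 := cpd_subset_opd h32 (by norm_num)
  have hcomp : ∀ c : ι, IsCompact ((F.a c).symm '' (cpd (3 / 2) : Set (Cn n))) := by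
    intro c
    refine (isCompact_cpd _).image_of_continuousOn ((F.a c).continuousOn_symm.mono ?_)
    rw [F.model.target c]
    exact hsub10
  have hsrc : ∀ c : ι, (F.a c).symm '' (cpd (3 / 2) : Set (Cn n)) ⊆ (F.a c).source := by
    rintro c _ ⟨z, hz, rfl⟩
    refine (F.a c).map_target ?_
    rw [F.model.target c]
    exact hsub10 hz
  have hK := (hcomp c).inter (hcomp c')
  have hZ : IsCompact (F.a c '' ((F.a c).symm '' (cpd (3 / 2) : Set (Cn n)) ∩
      (F.a c').symm '' (cpd (3 / 2) : Set (Cn n)))) :=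
    hK.image_of_continuousOn ((F.a c).continuousOn.mono (inter_subset_left.trans (hsrc c)))
  set O : Set (Cn n) := (F.a c).target ∩ (F.a c).symm ⁻¹'
    ((F.a c').source ∩ F.a c' ⁻¹' opd 2) with hO
  have hOo : IsOpen O := (F.a c).isOpen_inter_preimage_symm
    ((F.a c').isOpen_inter_preimage (isOpen_opd 2))
  have hsub : F.a c '' ((F.a c).symm '' (cpd (3 / 2) : Set (Cn n)) ∩
      (F.a c').symm '' (cpd (3 / 2) : Set (Cn n))) ⊆ O := by
    rintro _ ⟨w, ⟨hw, hw'⟩, rfl⟩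
    have h1 := hsrc c hw
    have h2 := hsrc c' hw'
    refine ⟨(F.a c).map_source h1, ?_⟩
    rw [mem_preimage, (F.a c).left_inv h1]
    refine ⟨h2, ?_⟩
    obtain ⟨z, hz, rfl⟩ := hw'
    have hzt : z ∈ (F.a c').target := by
      rw [F.model.target c']
      exact hsub10 hz
    rw [mem_preimage, (F.a c').right_inv hzt]
    exact cpd_subset_opd h32 (by norm_num) hz
  obtain ⟨δ, hδ, hδs⟩ := hZ.exists_thickening_subset_open hOo hsub
  refine ⟨δ, hδ, fun w hw hw' h1 h1' x r hr0 hr hx => ?_⟩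
  have h3 : F.a c w ∈ F.a c '' ((F.a c).symm '' (cpd (3 / 2) : Set (Cn n)) ∩
      (F.a c').symm '' (cpd (3 / 2) : Set (Cn n))) :=
    ⟨w, ⟨⟨F.a c w, h1, (F.a c).left_inv hw⟩, ⟨F.a c' w, h1', (F.a c').left_inv hw'⟩⟩, rfl⟩
  have h4 : x ∈ Metric.thickening δ (F.a c '' ((F.a c).symm '' (cpd (3 / 2) : Set (Cn n)) ∩
      (F.a c').symm '' (cpd (3 / 2) : Set (Cn n)))) :=
    Metric.mem_thickening_iff.2 ⟨F.a c w, h3, (Ov.dist_le_of_cpd hr0 hx).trans_lt hr⟩
  obtain ⟨-, h6, h7⟩ := hδs h4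
  exact ⟨h6, fun i => (h7 i).le⟩

omit [CompactSpace M] [T2Space M] [T2Space Y] [Finite P] in
/-- the radius of the overlaps -/
theorem Mod.overlap : ∃ r : ℝ, 0 < r ∧ ∀ c c' : ι, ∀ w,
    w ∈ (F.a c).source → w ∈ (F.a c').source → F.a c w ∈ cpd (3 / 2) →
    F.a c' w ∈ cpd (3 / 2) → ∀ x, x - F.a c w ∈ cpd (k := n) r →
    (F.a c).symm x ∈ (F.a c').source ∧ F.a c' ((F.a c).symm x) ∈ cpd 2 := by
  choose δ hδ h using fun q : ι × ι => F.overlap_one q.1 q.2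
  have hev : ∀ᶠ r in 𝓝[>] (0 : ℝ), (∀ q, r < δ q) ∧ 0 < r := by
    refine Filter.Eventually.and ?_ self_mem_nhdsWithin
    rw [eventually_all]
    intro q
    exact (eventually_lt_nhds (hδ q)).filter_mono nhdsWithin_le_nhds
  obtain ⟨r, hr, hr0⟩ := hev.exists
  exact ⟨r, hr0, fun c c' w h1 h2 h3 h4 x hx => h (c, c') w h1 h2 h3 h4 x r hr0.le (hr (c, c')) hx⟩

end Mod

end Pool.Agent.KRFG
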