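import Pool.Agent.Work.MP_a2bf38_gt.I.PshMean
import Pool.Agent.Work.MP_a2bf38_gt.K.Setup

/-!
# A chain of polydiscs
-/

open scoped ContDiff ENNReal ComplexOrder Topology
open Set MeasureTheory Filter Pool.Agent.ToricKRF Pool.Agent.ToricKRF.G Pool.Agent.KRFS
  Pool.Agent.KRFF

namespace Pool.Agent.KRFG

namespace Har

variable {n : ℕ}

theorem add_mem {a b : ℝ} (ha : 0 ≤ a) (hb : 0 ≤ b) {u v : Cn n} (hu : u ∈ cpd (k := n) a)
    (hv : v ∈ cpd (k := n) b) : u + v ∈ cpd (k := n) (a + b) := by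
  intro i
  have e : ∀ x y : ℝ, ‖(⟨x, y⟩ : ℂ)‖ ^ 2 = x ^ 2 + y ^ 2 := fun x y => by
    rw [← Complex.normSq_eq_norm_sq, Complex.normSq_mk]
    ring
  have h2 : ‖(⟨u.1 i, u.2 i⟩ : ℂ)‖ ≤ a := (abs_le_of_sq_le_sq' (by rw [e]; exact hu i) ha).2
  have h3 : ‖(⟨v.1 i, v.2 i⟩ : ℂ)‖ ≤ b := (abs_le_of_sq_le_sq' (by rw [e]; exact hv i) hb).2
  have h4 : (⟨(u + v).1 i, (u + v).2 i⟩ : ℂ) = ⟨u.1 i, u.2 i⟩ + ⟨v.1 i, v.2 i⟩ := by
    apply Complex.ext <;> simp
  rw [← e, h4]
  exact pow_le_pow_left₀ (norm_nonneg _) ((norm_add_le _ _).trans (add_le_add h2 h3)) 2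

theorem neg_mem {a : ℝ} {u : Cn n} (hu : u ∈ cpd (k := n) a) : -u ∈ cpd (k := n) a := by
  intro i
  have := hu i
  simpa using this

theorem mono {a b : ℝ} (ha : 0 ≤ a) (h : a ≤ b) {u : Cn n} (hu : u ∈ cpd (k := n) a) :
    u ∈ cpd (k := n) b := fun i => (hu i).trans (pow_le_pow_left₀ ha h 2)

theorem smul_mem_iff {ρ : ℝ} (hρ : 0 < ρ) {w : Cn n} :
    ρ • w ∈ cpd (k := n) ρ ↔ w ∈ cpd (k := n) 1 := by
  refine forall_congr' fun i => ?_
  have e : (ρ • w).1 i ^ 2 + (ρ • w).2 i ^ 2 = ρ ^ 2 * (w.1 i ^ 2 + w.2 i ^ 2) := by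
    simp only [Prod.smul_fst, Prod.smul_snd, Pi.smul_apply, smul_eq_mul]
    ring
  have h2 : 0 < ρ ^ 2 := by positivity
  rw [e, one_pow]
  constructor
  · intro h
    by_contra h3
    push Not at h3
    nlinarith
  · intro h
    nlinarith

/-- the closed polydisc of radius `r` around `x` -/
def pol (x : Cn n) (r : ℝ) : Set (Cn n) := {z | z - x ∈ cpd (k := n) r}

theorem isClosed_pol (x : Cn n) (r : ℝ) : IsClosed (pol x r) :=
  (isClosed_cpd r).preimage (continuous_id.sub continuous_const)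

theorem isCompact_pol (x : Cn n) (r : ℝ) : IsCompact (pol x r) := by
  have h : pol x r = (fun w => x + w) '' cpd (k := n) r := by
    ext z
    constructor
    · intro hz
      exact ⟨z - x, hz, by simp⟩
    · rintro ⟨w, hw, rfl⟩
      show x + w - x ∈ cpd r
      rwa [add_sub_cancel_left]
  rw [h]
  exact (isCompact_cpd r).image (continuous_const.add continuous_id)

theorem int_pol (x : Cn n) {ρ : ℝ} (hρ : 0 < ρ) (F : Cn n → ℝ) :
    ∫ z in pol x ρ, F z = ρ ^ (2 * n) * ∫ w in cpd (k := n) 1, F (x + ρ • w) := by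
  have h1 : ∫ z in pol x ρ, F z = ∫ w, (cpd (k := n) ρ).indicator (fun w => F (x + w)) w := by
    rw [← integral_indicator (isClosed_pol x ρ).measurableSet,
      ← integral_add_left_eq_self (μ := volume) _ x]
    refine integral_congr_ae (ae_of_all _ fun w => ?_)
    have h0 : x + w ∈ pol x ρ ↔ w ∈ cpd (k := n) ρ := by
      show x + w - x ∈ cpd (k := n) ρ ↔ _
      rw [add_sub_cancel_left]
    by_cases hw : w ∈ cpd (k := n) ρ
    · exact (indicator_of_mem (h0.2 hw) F).trans (indicator_of_mem hw fun w => F (x + w)).symm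
    · exact (indicator_of_notMem (fun h => hw (h0.1 h)) F).trans
        (indicator_of_notMem hw fun w => F (x + w)).symm
  have h2 := Measure.integral_comp_smul (volume : Measure (Cn n))
    ((cpd (k := n) ρ).indicator (fun w => F (x + w))) ρ
  have h3 : ∫ w, (cpd (k := n) ρ).indicator (fun w => F (x + w)) (ρ • w) =
      ∫ w in cpd (k := n) 1, F (x + ρ • w) := by
    rw [← integral_indicator (isClosed_cpd 1).measurableSet]
    refine integral_congr_ae (ae_of_all _ fun w => ?_)
    by_cases hw : w ∈ cpd (k := n) 1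
    · exact (indicator_of_mem ((smul_mem_iff hρ).2 hw) fun w => F (x + w)).trans
        (indicator_of_mem hw fun w => F (x + ρ • w)).symm
    · exact (indicator_of_notMem (fun h => hw ((smul_mem_iff hρ).1 h)) fun w => F (x + w)).trans
        (indicator_of_notMem hw fun w => F (x + ρ • w)).symm
  have h4 : Module.finrank ℝ (Cn n) = 2 * n := by
    rw [Module.finrank_prod, Module.finrank_fin_fun]
    ring
  rw [h3, h4, abs_of_pos (by positivity), smul_eq_mul] at h2
  rw [h1, h2, ← mul_assoc, mul_inv_cancel₀ (by positivity), one_mul]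

/-- the volume of the unit polydisc -/
noncomputable def v1 (n : ℕ) : ℝ := (volume (cpd (k := n) 1)).toReal

theorem v1_pos (n : ℕ) : 0 < v1 n :=
  ENNReal.toReal_pos (volume_cpd_pos zero_lt_one).ne' (volume_cpd_ne_top 1)

theorem vol_pol (x : Cn n) {ρ : ℝ} (hρ : 0 < ρ) : volume.real (pol x ρ) = ρ ^ (2 * n) * v1 n := by
  have h := int_pol x hρ (fun _ => (1 : ℝ))
  rw [setIntegral_const, setIntegral_const, smul_eq_mul, smul_eq_mul, mul_one, mul_one] at h
  exact h

theorem levz_translate (G : Cn n → ℝ) (x u w : Cn n) :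
    levz (fun w => G (x + w)) u w = levz G u (x + w) := by
  have h : ∀ (f : Cn n → ℝ) (v : Cn n), D v (fun w => f (x + w)) = fun w => D v f (x + w) := by
    intro f v
    funext w
    unfold D
    rw [fderiv_comp_add_left]
  unfold levz
  simp only [h]

/-- the sub-mean value inequality -/
theorem sub {G : Cn n → ℝ} {V : Set (Cn n)} (hG : ContDiffOn ℝ ∞ G V)
    (hpsh : ∀ z ∈ V, ∀ v, 0 ≤ levz G v z) {x : Cn n} {ρ R : ℝ} (hρ : 0 < ρ) (hR : ρ < R)
    (hV : ∀ z, z - x ∈ opd (k := n) R → z ∈ V) :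
    ∫ z in pol x ρ, -G z ≤ ρ ^ (2 * n) * v1 n * -G x := by
  have h1 : ∀ w ∈ opd (k := n) R, x + w ∈ V := fun w hw =>
    hV _ (by rwa [add_sub_cancel_left])
  have h2 := psh_submean (k := n) (G := fun w => G (x + w)) (R := R) (a := 0) (ρ := ρ) (z := 0)
    (hG.comp (contDiff_const.add contDiff_id).contDiffOn h1)
    (fun w hw u => by rw [levz_translate]; exact hpsh _ (h1 w hw) u) le_rfl hρ
    (by linarith) (fun i => by simp)
  simp only [add_zero, zero_add] at h2
  rw [int_pol x hρ, integral_neg]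
  have h3 : 0 ≤ ρ ^ (2 * n) := by positivity
  have h4 : (volume (cpd (k := n) 1)).toReal = v1 n := rfl
  rw [h4] at h2
  nlinarith

end Har

open Har

theorem harnack (n : ℕ) : ∃ C : ℝ, 1 ≤ C ∧ ∀ (G : Cn n → ℝ) (V : Set (Cn n)) (r L : ℝ) (N : ℕ)
    (u : ℕ → Cn n), IsOpen V → ContDiffOn ℝ ∞ G V → (∀ z ∈ V, G z ≤ 0) →
    (∀ z ∈ V, ∀ v, 0 ≤ levz G v z) → 0 < r →
    (∀ i ≤ N, ∀ z, z - u i ∈ cpd (k := n) (3 * r) → z ∈ V) →
    (∀ i < N, u (i + 1) - u i ∈ cpd (k := n) (r / 2)) → -L ≤ G (u 0) →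
    ∫ z in {z | z - u N ∈ cpd (k := n) r}, -G z ≤ C ^ (N + 1) * L * r ^ (2 * n) := by
  refine ⟨max (16 ^ n) (v1 n), (one_le_pow₀ (by norm_num)).trans (le_max_left _ _), ?_⟩
  intro G V r L N u hV hG hneg hpsh hr hball hstep hL
  set C := max ((16 : ℝ) ^ n) (v1 n) with hC
  have hC0 : 0 < C := lt_of_lt_of_le (by positivity) (le_max_left _ _)
  have hself : ∀ i ≤ N, u i ∈ V := fun i hi => hball i hi _ (by
    rw [sub_self]; intro j; simp; positivity)
  have hL0 : 0 ≤ L := by linarith [hneg _ (hself 0 (Nat.zero_le N))]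
  have hcont : ∀ i ≤ N, ∀ x ρ, pol x ρ ⊆ V → IntegrableOn (fun z => -G z) (pol x ρ) :=
    fun i hi x ρ hs => ((hG.continuousOn.mono hs).neg).integrableOn_compact (isCompact_pol x ρ)
  have key : ∀ i ≤ N, ∫ z in pol (u i) r, -G z ≤ C ^ (i + 1) * L * r ^ (2 * n) := by
    intro i
    induction i with
    | zero =>
      intro hi
      have h1 := sub hG hpsh (x := u 0) (ρ := r) (R := 3 * r) hr (by linarith)
        (fun z hz => hball 0 hi z fun i => (hz i).le)
      refine h1.trans ?_
      have h2 : v1 n ≤ C := le_max_right _ _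
      have h3 : 0 < v1 n := v1_pos n
      have h4 : (0 : ℝ) < r ^ (2 * n) := by positivity
      have h5 : v1 n * -G (u 0) ≤ C * L := by
        have : -G (u 0) ≤ L := by linarith
        have h6 : 0 ≤ -G (u 0) := by linarith [hneg _ (hself 0 hi)]
        nlinarith
      calc r ^ (2 * n) * v1 n * -G (u 0) = r ^ (2 * n) * (v1 n * -G (u 0)) := by ring
        _ ≤ r ^ (2 * n) * (C * L) := mul_le_mul_of_nonneg_left h5 h4.le
        _ = C ^ (0 + 1) * L * r ^ (2 * n) := by ring
    | succ i ih =>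
      intro hi
      have hi' : i ≤ N := by omega
      have h0 := ih hi'
      have hsub1 : pol (u i) r ⊆ V := fun z hz => hball i hi' z (mono hr.le (by linarith) hz)
      have hsub2 : pol (u i) (r / 2) ⊆ pol (u i) r := fun z hz =>
        mono (by positivity) (by linarith) hz
      have hvol := vol_pol (u i) (ρ := r / 2) (by positivity)
      have hvpos : 0 < volume.real (pol (u i) (r / 2)) := by
        rw [hvol]; exact mul_pos (by positivity) (v1_pos n)
      have hint := hcont i hi' (u i) (r / 2) (hsub2.trans hsub1)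
      obtain ⟨x, hx, hxG⟩ := exists_le_setAverage (μ := volume) (s := pol (u i) (r / 2))
        (f := fun z => -G z) (fun h => by rw [Measure.real, h] at hvpos; simp at hvpos)
        (isCompact_pol _ _).measure_lt_top.ne hint
      rw [setAverage_eq, smul_eq_mul] at hxG
      have h1 : ∫ z in pol (u i) (r / 2), -G z ≤ ∫ z in pol (u i) r, -G z :=
        setIntegral_mono_set (hcont i hi' (u i) r hsub1)
          ((ae_restrict_iff' (isClosed_pol _ _).measurableSet).2 (ae_of_all _ fun z hz => by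
            have := hneg z (hsub1 hz)
            simpa using this)) hsub2.eventuallyLE
      -- the sub-mean value at `x`
      have hsub3 : ∀ z, z - x ∈ opd (k := n) (5 / 2 * r) → z ∈ V := fun z hz => by
        refine hball i hi' z ?_
        have h2 : z - u i = (z - x) + (x - u i) := by abel
        rw [h2]
        have h3 := add_mem (n := n) (a := 5 / 2 * r) (b := r / 2) (by positivity) (by positivity)
          (fun i => (hz i).le) hx
        rwa [show 5 / 2 * r + r / 2 = 3 * r by ring] at h3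
      have h2 := sub hG hpsh (x := x) (ρ := 2 * r) (R := 5 / 2 * r) (by positivity)
        (by linarith) hsub3
      have hsub4 : pol (u (i + 1)) r ⊆ pol x (2 * r) := fun z hz => by
        have h3 : z - x = (z - u (i + 1)) + ((u (i + 1) - u i) + -(x - u i)) := by abel
        show z - x ∈ cpd (2 * r)
        rw [h3]
        have h4 := add_mem (n := n) (a := r) (b := r / 2 + r / 2) hr.le (by positivity) hz
          (add_mem (by positivity) (by positivity) (hstep i (by omega)) (neg_mem hx))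
        rwa [show r + (r / 2 + r / 2) = 2 * r by ring] at h4
      have hsub5 : pol x (2 * r) ⊆ V := fun z hz => hsub3 z
        fun j => (hz j).trans_lt (by nlinarith)
      have h3 : ∫ z in pol (u (i + 1)) r, -G z ≤ ∫ z in pol x (2 * r), -G z :=
        setIntegral_mono_set (hcont i hi' x (2 * r) hsub5)
          ((ae_restrict_iff' (isClosed_pol _ _).measurableSet).2 (ae_of_all _ fun z hz => by
            have := hneg z (hsub5 hz)
            simpa using this)) hsub4.eventuallyLE
      refine h3.trans (h2.trans ?_)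
      have h5 : -G x * ((r / 2) ^ (2 * n) * v1 n) ≤ ∫ z in pol (u i) (r / 2), -G z := by
        rw [hvol] at hxG
        have h6 : 0 < (r / 2) ^ (2 * n) * v1 n := mul_pos (by positivity) (v1_pos n)
        rw [inv_mul_eq_div, le_div_iff₀ h6] at hxG
        exact hxG
      have h6 : (2 * r) ^ (2 * n) = 16 ^ n * (r / 2) ^ (2 * n) := by
        rw [pow_mul, pow_mul, ← mul_pow]
        congr 1
        ring
      have h7 : (2 * r) ^ (2 * n) * v1 n * -G x =
          16 ^ n * (-G x * ((r / 2) ^ (2 * n) * v1 n)) := by rw [h6]; ring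
      rw [h7]
      have h8 : (16 : ℝ) ^ n ≤ C := le_max_left _ _
      have h9 : 0 ≤ -G x * ((r / 2) ^ (2 * n) * v1 n) := by
        have := hneg x (hsub1 (hsub2 hx))
        exact mul_nonneg (by linarith) (mul_pos (by positivity) (v1_pos n)).le
      calc (16 : ℝ) ^ n * (-G x * ((r / 2) ^ (2 * n) * v1 n))
          ≤ C * (-G x * ((r / 2) ^ (2 * n) * v1 n)) := mul_le_mul_of_nonneg_right h8 h9
        _ ≤ C * (C ^ (i + 1) * L * r ^ (2 * n)) :=
            mul_le_mul_of_nonneg_left (h5.trans (h1.trans h0)) hC0.le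
        _ = C ^ (i + 1 + 1) * L * r ^ (2 * n) := by ring
  exact key N le_rfl

end Pool.Agent.KRFG
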