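import Pool.Agent.Work.MP_a2bf38_gt.K.Setup
import Pool.Agent.Work.MP_a2bf38_gt.H.BoundCalc

/-!
# The convexity of torus averages

The average of a plurisubharmonic function over the tori `Re z = x`, `0 ≤ Im z_l ≤ 2π` is a convex
function of `x`.
-/

open scoped ContDiff ENNReal ComplexOrder Topology
open Set MeasureTheory Filter Pool.Agent.ToricKRF Pool.Agent.ToricKRF.G Pool.Agent.KRFS
  Pool.Agent.KRFF

namespace Pool.Agent.KRFG

namespace Torus

/-- Three points of a function of one variable: the Green function of the interval. -/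
theorem tent {f f' f'' : ℝ → ℝ} {s : ℝ} (hs : 0 < s)
    (h1 : ∀ r ∈ Icc 0 (1 + s), HasDerivAt f (f' r) r)
    (h2 : ∀ r ∈ Icc 0 (1 + s), HasDerivAt f' (f'' r) r)
    (h3 : ContinuousOn f'' (Icc 0 (1 + s))) :
    ∫ r in Icc 0 (1 + s), min (s * r) (1 + s - r) * f'' r =
      s * f 0 + f (1 + s) - (1 + s) * f 1 := by
  have hs1 : (0 : ℝ) ≤ 1 + s := by linarith
  have hw : ContinuousOn (fun r => min (s * r) (1 + s - r) * f'' r) (Icc 0 (1 + s)) :=
    (Continuous.continuousOn (by fun_prop)).mul h3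
  have i1 : IntervalIntegrable (fun r => min (s * r) (1 + s - r) * f'' r) volume 0 1 := by
    refine (hw.mono ?_).intervalIntegrable_of_Icc zero_le_one
    exact Icc_subset_Icc le_rfl (by linarith)
  have i2 : IntervalIntegrable (fun r => min (s * r) (1 + s - r) * f'' r) volume 1 (1 + s) := by
    refine (hw.mono ?_).intervalIntegrable_of_Icc (by linarith)
    exact Icc_subset_Icc zero_le_one le_rfl
  rw [integral_Icc_eq_integral_Ioc, ← intervalIntegral.integral_of_le hs1,
    ← intervalIntegral.integral_add_adjacent_intervals i1 i2]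
  have e1 : ∫ r in (0 : ℝ)..1, min (s * r) (1 + s - r) * f'' r =
      s * (1 * f' 1 - f 1) - s * (0 * f' 0 - f 0) := by
    have h : ∀ r ∈ uIcc (0 : ℝ) 1, HasDerivAt (fun r => s * (r * f' r - f r))
        (min (s * r) (1 + s - r) * f'' r) r := by
      intro r hr
      rw [uIcc_of_le zero_le_one] at hr
      have hr' : r ∈ Icc 0 (1 + s) := ⟨hr.1, by linarith [hr.2]⟩
      have e : min (s * r) (1 + s - r) = s * r := by
        apply min_eq_left
        nlinarith [hr.1, hr.2]
      rw [e]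
      have h5 := (((hasDerivAt_id r).mul (h2 r hr')).sub (h1 r hr')).const_mul s
      refine h5.congr_deriv ?_
      simp only [id]
      ring
    rw [intervalIntegral.integral_eq_sub_of_hasDerivAt h i1]
  have e2 : ∫ r in (1 : ℝ)..(1 + s), min (s * r) (1 + s - r) * f'' r =
      ((1 + s - (1 + s)) * f' (1 + s) + f (1 + s)) - ((1 + s - 1) * f' 1 + f 1) := by
    have h : ∀ r ∈ uIcc (1 : ℝ) (1 + s), HasDerivAt (fun r => (1 + s - r) * f' r + f r)
        (min (s * r) (1 + s - r) * f'' r) r := by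
      intro r hr
      rw [uIcc_of_le (by linarith)] at hr
      have hr' : r ∈ Icc 0 (1 + s) := ⟨by linarith [hr.1], hr.2⟩
      have e : min (s * r) (1 + s - r) = 1 + s - r := by
        apply min_eq_right
        nlinarith [hr.1, hr.2]
      rw [e]
      have h5 := ((((hasDerivAt_id r).const_sub (1 + s)).mul (h2 r hr'))).add (h1 r hr')
      refine h5.congr_deriv ?_
      simp only [id]
      ring
    rw [intervalIntegral.integral_eq_sub_of_hasDerivAt h i2]
  rw [e1, e2]
  ring

/-- The integral of a derivative in the directions of the periods vanishes. -/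
theorem div_zero {k : ℕ} {a b : Fin (k + 1) → ℝ} (hab : a ≤ b) (d : Fin (k + 1) → ℝ)
    {h : (Fin (k + 1) → ℝ) → ℝ} {U : Set (Fin (k + 1) → ℝ)} (hU : IsOpen U) (hsub : Icc a b ⊆ U)
    (hh : ContDiffOn ℝ 1 h U)
    (hper : ∀ l, d l ≠ 0 → ∀ y ∈ Icc a b, y l = a l →
      h (y + Pi.single l (b l - a l)) = h y) :
    ∫ y in Icc a b, fderiv ℝ h y d = 0 := by
  have hd : ∀ y ∈ U, HasFDerivAt h (fderiv ℝ h y) y := fun y hy =>
    ((hh.differentiableOn (by norm_num)).differentiableAt (hU.mem_nhds hy)).hasFDerivAt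
  have hc : ContinuousOn (fun y => fderiv ℝ h y) U := hh.continuousOn_fderiv_of_isOpen hU le_rfl
  have e0 : ∀ y, ∑ i, (d i • fderiv ℝ h y) (Pi.single i 1) = fderiv ℝ h y d := by
    intro y
    have h7 : d = ∑ i, d i • (Pi.single i (1 : ℝ) : Fin (k + 1) → ℝ) := by
      funext j
      simp [Finset.sum_apply, Pi.single_apply]
    conv_rhs => rw [h7]
    rw [map_sum]
    refine Finset.sum_congr rfl fun i _ => ?_
    rw [map_smul]
    rfl
  have key := integral_divergence_of_hasFDerivAt_off_countable' a b hab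
    (fun i y => d i * h y) (fun i y => d i • fderiv ℝ h y) ∅ countable_empty
    (fun i => (continuousOn_const.mul (hh.continuousOn.mono hsub)))
    (fun y hy i => by
      have hy' : y ∈ U := hsub ⟨fun j => (hy.1 j (mem_univ j)).1.le,
        fun j => (hy.1 j (mem_univ j)).2.le⟩
      exact (hd y hy').const_mul (d i))
    (by
      have : ContinuousOn (fun y => fderiv ℝ h y d) (Icc a b) :=
        (hc.mono hsub).clm_apply continuousOn_const
      refine (this.integrableOn_compact isCompact_Icc).congr_fun (fun y _ => ?_)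
        measurableSet_Icc
      exact (e0 y).symm)
  have e1 : ∫ y in Icc a b, fderiv ℝ h y d =
      ∫ y in Icc a b, ∑ i, (d i • fderiv ℝ h y) (Pi.single i 1) := by
    refine setIntegral_congr_fun measurableSet_Icc fun y _ => ?_
    exact (e0 y).symm
  rw [e1, key]
  refine Finset.sum_eq_zero fun i _ => ?_
  rw [sub_eq_zero]
  refine setIntegral_congr_fun measurableSet_Icc fun x hx => ?_
  rcases eq_or_ne (d i) 0 with h0 | h0
  · simp [h0]
  · have hy : i.insertNth (a i) x ∈ Icc a b := by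
      rw [Fin.insertNth_mem_Icc]
      exact ⟨⟨le_rfl, hab i⟩, hx⟩
    have h6 := hper i h0 _ hy (by simp)
    change d i * h (i.insertNth (b i) x) = d i * h (i.insertNth (a i) x)
    rw [← h6]
    congr 2
    funext j
    rcases eq_or_ne j i with rfl | hj
    · simp
    · obtain ⟨j', rfl⟩ := Fin.exists_succAbove_eq hj
      simp

theorem div_zero' {n : ℕ} {a b : Fin n → ℝ} (hab : a ≤ b) (d : Fin n → ℝ)
    {h : (Fin n → ℝ) → ℝ} {U : Set (Fin n → ℝ)} (hU : IsOpen U) (hsub : Icc a b ⊆ U)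
    (hh : ContDiffOn ℝ 1 h U)
    (hper : ∀ l, d l ≠ 0 → ∀ y ∈ Icc a b, y l = a l →
      h (y + Pi.single l (b l - a l)) = h y) :
    ∫ y in Icc a b, fderiv ℝ h y d = 0 := by
  cases n with
  | zero =>
    have : d = 0 := Subsingleton.elim _ _
    rw [this]
    simp only [map_zero, integral_zero]
  | succ k => exact div_zero hab d hU hsub hh hper

section

variable {n : ℕ} {G : Cn n → ℝ} {V : Set (Cn n)}

theorem contDiffOn_fderiv (hV : IsOpen V) (hG : ContDiffOn ℝ ∞ G V) :
    ContDiffOn ℝ ∞ (fderiv ℝ G) V :=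
  ((contDiffOn_infty_iff_fderiv_of_isOpen hV).1 hG).2

theorem hasFDerivAt_of (hV : IsOpen V) {E : Type*} [NormedAddCommGroup E] [NormedSpace ℝ E]
    {H : Cn n → E} (hH : ContDiffOn ℝ ∞ H V) {z : Cn n} (hz : z ∈ V) :
    HasFDerivAt H (fderiv ℝ H z) z :=
  ((hH.differentiableOn (by simp)).differentiableAt (hV.mem_nhds hz)).hasFDerivAt

/-- The derivative of a function with a period is periodic. -/
theorem fderiv_period (hV : IsOpen V) {c z : Cn n} (hper : ∀ w ∈ V, w + c ∈ V → G (w + c) = G w)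
    (hz : z ∈ V) (hzc : z + c ∈ V) : fderiv ℝ G (z + c) = fderiv ℝ G z := by
  rw [← fderiv_comp_add_right]
  refine Filter.EventuallyEq.fderiv_eq ?_
  have h1 : ∀ᶠ w in 𝓝 z, w ∈ V := hV.mem_nhds hz
  have h2 : ∀ᶠ w in 𝓝 z, w + c ∈ V := by
    have hc : ContinuousAt (fun w : Cn n => w + c) z := by fun_prop
    exact hc.eventually_mem (hV.mem_nhds hzc)
  filter_upwards [h1, h2] with w hw1 hw2
  exact hper w hw1 hw2

/-- The imaginary part of the Laplacian has mean zero over the torus. -/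
theorem mean_im (hV : IsOpen V) (hG : ContDiffOn ℝ ∞ G V) (I : Set (Fin n))
    (hper : ∀ z ∈ V, ∀ l ∈ I,
      (z.1, z.2 + Pi.single l (2 * Real.pi)) ∈ V → G (z.1, z.2 + Pi.single l (2 * Real.pi)) = G z)
    {α' β' : Fin n → ℝ} (hαβ' : α' ≤ β')
    (hI : ∀ l ∈ I, β' l = α' l + 2 * Real.pi) {d : Fin n → ℝ} (hd : ∀ l ∉ I, d l = 0)
    {x : Fin n → ℝ} (hx : ∀ y ∈ Icc α' β', (x, y) ∈ V) :
    ∫ y in Icc α' β', fderiv ℝ (fderiv ℝ G) (x, y) (0, d) (0, d) = 0 := by
  have hU : IsOpen {y : Fin n → ℝ | (x, y) ∈ V} :=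
    hV.preimage (continuous_const.prodMk continuous_id)
  have hG1 := contDiffOn_fderiv hV hG
  have hh : ContDiffOn ℝ ∞ (fun y : Fin n → ℝ => fderiv ℝ G (x, y) (0, d)) {y | (x, y) ∈ V} := by
    refine ContDiffOn.clm_apply ?_ contDiffOn_const
    exact hG1.comp (contDiff_const.prodMk contDiff_id).contDiffOn fun y hy => hy
  have key := div_zero' hαβ' d hU hx (hh.of_le (by simp)) (by
    intro l hl y hy hyl
    have hlI : l ∈ I := by
      by_contra h
      exact hl (hd l h)
    have e1 : β' l - α' l = 2 * Real.pi := by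
      rw [hI l hlI]
      ring
    rw [e1]
    have e2 : ((x, y + Pi.single l (2 * Real.pi)) : Cn n) =
        (x, y) + (0, Pi.single l (2 * Real.pi)) := by
      simp
    have hy2 : y + Pi.single l (2 * Real.pi) ∈ Icc α' β' := by
      constructor
      · intro j
        rcases eq_or_ne j l with rfl | hj
        · have := hy.1 j
          have := Real.pi_pos
          simp only [Pi.add_apply, Pi.single_eq_same]
          linarith
        · simpa [hj] using hy.1 j
      · intro j
        rcases eq_or_ne j l with rfl | hj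
        · simp only [Pi.add_apply, Pi.single_eq_same]
          rw [hyl, hI j hlI]
        · simpa [hj] using hy.2 j
    have h3 : fderiv ℝ G ((x, y) + (0, Pi.single l (2 * Real.pi))) = fderiv ℝ G (x, y) := by
      refine fderiv_period hV ?_ (hx y hy) ?_
      · intro w hw hwc
        have e3 : w + ((0 : Fin n → ℝ), (Pi.single l (2 * Real.pi) : Fin n → ℝ)) =
            (w.1, w.2 + Pi.single l (2 * Real.pi)) := by
          ext <;> simp
        rw [e3] at hwc ⊢
        exact hper w hw l hlI hwc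
      · rw [← e2]
        exact hx _ hy2
    rw [e2, h3])
  rw [← key]
  refine setIntegral_congr_fun measurableSet_Icc fun y hy => ?_
  have h4 : HasFDerivAt (fun y : Fin n → ℝ => ((x, y) : Cn n))
      (ContinuousLinearMap.inr ℝ (Fin n → ℝ) (Fin n → ℝ)) y := hasFDerivAt_prodMk_right x y
  have h5 := (hasFDerivAt_of hV hG1 (hx y hy)).comp y h4
  have h6 := h5.clm_apply (hasFDerivAt_const ((0, d) : Cn n) y)
  have h7 : fderiv ℝ (fun y : Fin n → ℝ => fderiv ℝ G (x, y) (0, d)) y d =
      fderiv ℝ (fderiv ℝ G) (x, y) (0, d) (0, d) := by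
    have h8 := h6.fderiv
    have h9 : (fun y : Fin n → ℝ => (fderiv ℝ G ∘ fun y => (x, y)) y ((0, d) : Cn n)) =
      fun y => fderiv ℝ G (x, y) (0, d) := rfl
    rw [h9] at h8
    rw [h8]
    simp
  exact h7.symm

/-- The mean of the second derivative of a psh function in a real direction is nonnegative. -/
theorem mean_nonneg (hV : IsOpen V) (hG : ContDiffOn ℝ ∞ G V)
    (hpsh : ∀ z ∈ V, ∀ u, 0 ≤ levz G u z) (I : Set (Fin n))
    (hper : ∀ z ∈ V, ∀ l ∈ I,
      (z.1, z.2 + Pi.single l (2 * Real.pi)) ∈ V → G (z.1, z.2 + Pi.single l (2 * Real.pi)) = G z)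
    {α β α' β' : Fin n → ℝ} (hαβ' : α' ≤ β')
    (hI : ∀ l ∈ I, β' l = α' l + 2 * Real.pi) {d : Fin n → ℝ} (hd : ∀ l ∉ I, d l = 0)
    {r : ℝ} (hsub : ∀ z ∈ Icc α β ×ˢ Icc α' β', (z.1 + r • d, z.2) ∈ V) :
    0 ≤ ∫ z in Icc α β ×ˢ Icc α' β',
      fderiv ℝ (fderiv ℝ G) (z.1 + r • d, z.2) (d, 0) (d, 0) := by
  have hB : IsCompact (Icc α β ×ˢ Icc α' β') := isCompact_Icc.prod isCompact_Icc
  have hBm : MeasurableSet (Icc α β ×ˢ Icc α' β') := measurableSet_Icc.prod measurableSet_Icc
  have hG2 := contDiffOn_fderiv hV hG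
  have hG3 : ContinuousOn (fderiv ℝ (fderiv ℝ G)) V :=
    (hG2.of_le (by simp)).continuousOn_fderiv_of_isOpen hV le_rfl
  have hmap : ContinuousOn (fun z : Cn n => ((z.1 + r • d, z.2) : Cn n))
      (Icc α β ×ˢ Icc α' β') := Continuous.continuousOn (by fun_prop)
  have hc : ∀ u : Cn n, IntegrableOn (fun z : Cn n =>
      fderiv ℝ (fderiv ℝ G) (z.1 + r • d, z.2) u u) (Icc α β ×ˢ Icc α' β') := by
    intro u
    refine ContinuousOn.integrableOn_compact hB ?_
    exact ((hG3.comp hmap hsub).clm_apply continuousOn_const).clm_apply continuousOn_const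
  have h0 : ∫ z in Icc α β ×ˢ Icc α' β',
      fderiv ℝ (fderiv ℝ G) (z.1 + r • d, z.2) (0, d) (0, d) = 0 := by
    rw [Measure.volume_eq_prod, setIntegral_prod _ (by
      rw [← Measure.volume_eq_prod]
      exact hc (0, d))]
    rw [setIntegral_congr_fun measurableSet_Icc (g := fun _ => (0 : ℝ))]
    · simp
    · intro x hx
      exact mean_im hV hG I hper hαβ' hI hd (x := x + r • d) fun y hy => hsub (x, y) ⟨hx, hy⟩
  have h1 : ∫ z in Icc α β ×ˢ Icc α' β',
      -fderiv ℝ (fderiv ℝ G) (z.1 + r • d, z.2) (0, d) (0, d) ≤ ∫ z in Icc α β ×ˢ Icc α' β',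
      fderiv ℝ (fderiv ℝ G) (z.1 + r • d, z.2) (d, 0) (d, 0) := by
    refine setIntegral_mono_on (hc (0, d)).neg (hc (d, 0)) hBm fun z hz => ?_
    have h2 := hpsh _ (hsub z hz) (d, 0)
    rw [Bd.levz_eq_hess hV hG (hsub z hz)] at h2
    have h3 : J ((d, 0) : Cn n) = (0, d) := by
      simp [J]
    rw [h3] at h2
    linarith
  rw [integral_neg, h0, neg_zero] at h1
  exact h1

end

end Torus

set_option linter.unusedVariables false in
open Torus in
/-- **Convexity of torus averages.** -/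
theorem torus_convex {n : ℕ} {G : Cn n → ℝ} {V : Set (Cn n)} (hV : IsOpen V)
    (hG : ContDiffOn ℝ ∞ G V) (hneg : ∀ z ∈ V, G z ≤ 0) (hpsh : ∀ z ∈ V, ∀ u, 0 ≤ levz G u z)
    (I : Set (Fin n)) (hper : ∀ z ∈ V, ∀ l ∈ I,
      (z.1, z.2 + Pi.single l (2 * Real.pi)) ∈ V → G (z.1, z.2 + Pi.single l (2 * Real.pi)) = G z)
    {α β α' β' : Fin n → ℝ} (hαβ : α ≤ β) (hαβ' : α' ≤ β')
    (hI : ∀ l ∈ I, β' l = α' l + 2 * Real.pi) {d : Fin n → ℝ} (hd : ∀ l ∉ I, d l = 0)
    {s : ℝ} (hs : 0 < s)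
    (hsub : ∀ r ∈ Icc 0 (1 + s), ∀ z ∈ Icc α β ×ˢ Icc α' β', (z.1 + r • d, z.2) ∈ V) :
    ∫ z in Icc α β ×ˢ Icc α' β', -G z ≤
      (1 + s) / s * ∫ z in Icc α β ×ˢ Icc α' β', -G (z.1 + d, z.2) := by
  have hB : IsCompact (Icc α β ×ˢ Icc α' β') := isCompact_Icc.prod isCompact_Icc
  have hBm : MeasurableSet (Icc α β ×ˢ Icc α' β') := measurableSet_Icc.prod measurableSet_Icc
  have hG2 := contDiffOn_fderiv hV hG
  have hG3 : ContinuousOn (fderiv ℝ (fderiv ℝ G)) V :=
    (hG2.of_le (by simp)).continuousOn_fderiv_of_isOpen hV le_rfl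
  set K : Set ℝ := Icc 0 (1 + s) with hK
  set B : Set (Cn n) := Icc α β ×ˢ Icc α' β' with hBdef
  have hint : ∀ r ∈ K, IntegrableOn (fun z : Cn n => G (z.1 + r • d, z.2)) B := by
    intro r hr
    refine ContinuousOn.integrableOn_compact hB ?_
    exact hG.continuousOn.comp (Continuous.continuousOn (by fun_prop)) (hsub r hr)
  -- the pointwise formula
  have hpt : ∀ z ∈ B, ∫ r in K, min (s * r) (1 + s - r) *
      fderiv ℝ (fderiv ℝ G) (z.1 + r • d, z.2) (d, 0) (d, 0) =
      s * G z + G (z.1 + (1 + s) • d, z.2) - (1 + s) * G (z.1 + d, z.2) := by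
    intro z hz
    have hline : ∀ r : ℝ, HasDerivAt (fun r : ℝ => ((z.1 + r • d, z.2) : Cn n)) (d, 0) r := by
      intro r
      have h1 : HasDerivAt (fun r : ℝ => z.1 + r • d) d r := by
        have := ((hasDerivAt_id r).smul_const d).const_add z.1
        simpa using this
      exact h1.prodMk (hasDerivAt_const r z.2)
    have h1 : ∀ r ∈ K, HasDerivAt (fun r : ℝ => G (z.1 + r • d, z.2))
        (fderiv ℝ G (z.1 + r • d, z.2) (d, 0)) r := fun r hr =>
      (hasFDerivAt_of hV hG (hsub r hr z hz)).comp_hasDerivAt r (hline r)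
    have h2 : ∀ r ∈ K, HasDerivAt (fun r : ℝ => fderiv ℝ G (z.1 + r • d, z.2) (d, 0))
        (fderiv ℝ (fderiv ℝ G) (z.1 + r • d, z.2) (d, 0) (d, 0)) r := by
      intro r hr
      have h3 := (hasFDerivAt_of hV hG2 (hsub r hr z hz)).comp_hasDerivAt r (hline r)
      have h4 := h3.clm_apply (hasDerivAt_const r ((d, 0) : Cn n))
      simpa using h4
    have h3 : ContinuousOn (fun r : ℝ =>
        fderiv ℝ (fderiv ℝ G) (z.1 + r • d, z.2) (d, 0) (d, 0)) K := by
      refine ((hG3.comp (Continuous.continuousOn (by fun_prop)) fun r hr =>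
        hsub r hr z hz).clm_apply continuousOn_const).clm_apply continuousOn_const
    have h4 := tent hs h1 h2 h3
    rw [hK, h4]
    simp
  -- Fubini
  have hfub : IntegrableOn (Function.uncurry fun (z : Cn n) (r : ℝ) => min (s * r) (1 + s - r) *
      fderiv ℝ (fderiv ℝ G) (z.1 + r • d, z.2) (d, 0) (d, 0)) (B ×ˢ K) := by
    refine ContinuousOn.integrableOn_compact (hB.prod isCompact_Icc) ?_
    refine ContinuousOn.mul (Continuous.continuousOn (by fun_prop)) ?_
    refine ((hG3.comp (f := fun p : Cn n × ℝ => ((p.1.1 + p.2 • d, p.1.2) : Cn n))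
      (Continuous.continuousOn (by fun_prop)) fun p hp => hsub p.2 hp.2 p.1 hp.1).clm_apply
        continuousOn_const).clm_apply continuousOn_const
  have hswap : ∫ z in B, ∫ r in K, min (s * r) (1 + s - r) *
      fderiv ℝ (fderiv ℝ G) (z.1 + r • d, z.2) (d, 0) (d, 0) =
      ∫ r in K, ∫ z in B, min (s * r) (1 + s - r) *
      fderiv ℝ (fderiv ℝ G) (z.1 + r • d, z.2) (d, 0) (d, 0) := by
    refine integral_integral_swap ?_
    rw [Measure.prod_restrict, ← Measure.volume_eq_prod]
    exact hfub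
  have hpos : 0 ≤ ∫ z in B, ∫ r in K, min (s * r) (1 + s - r) *
      fderiv ℝ (fderiv ℝ G) (z.1 + r • d, z.2) (d, 0) (d, 0) := by
    rw [hswap]
    refine setIntegral_nonneg measurableSet_Icc fun r hr => ?_
    rw [integral_const_mul]
    refine mul_nonneg (le_min (mul_nonneg hs.le hr.1) (by linarith [hr.2])) ?_
    exact mean_nonneg hV hG hpsh I hper hαβ' hI hd fun z hz => hsub r hr z hz
  have hz0 : (0 : ℝ) ∈ K := ⟨le_rfl, by linarith⟩
  have hz1 : (1 : ℝ) ∈ K := ⟨zero_le_one, by linarith⟩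
  have hz2 : (1 + s : ℝ) ∈ K := ⟨by linarith, le_rfl⟩
  have i0 : IntegrableOn G B := by
    have := hint 0 hz0
    simpa using this
  have i1 : IntegrableOn (fun z : Cn n => G (z.1 + d, z.2)) B := by
    have := hint 1 hz1
    simpa using this
  have i2 := hint (1 + s) hz2
  have hneg2 : ∫ z in B, G (z.1 + (1 + s) • d, z.2) ≤ 0 :=
    setIntegral_nonpos hBm fun z hz => hneg _ (hsub (1 + s) hz2 z hz)
  have hsum : ∫ z in B, ∫ r in K, min (s * r) (1 + s - r) *
      fderiv ℝ (fderiv ℝ G) (z.1 + r • d, z.2) (d, 0) (d, 0) =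
      s * (∫ z in B, G z) + (∫ z in B, G (z.1 + (1 + s) • d, z.2)) -
        (1 + s) * ∫ z in B, G (z.1 + d, z.2) := by
    rw [setIntegral_congr_fun hBm hpt, integral_sub, integral_add, integral_const_mul,
      integral_const_mul]
    · exact i0.const_mul s
    · exact i2
    · exact (i0.const_mul s).add i2
    · exact i1.const_mul (1 + s)
  rw [hsum] at hpos
  rw [integral_neg, integral_neg, div_mul_eq_mul_div, le_div_iff₀ hs]
  nlinarith

end Pool.Agent.KRFG
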