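import Pool.Agent.Work.MP_a2bf38_gt.K.PropCore
import Pool.Agent.Work.MP_a2bf38_gt.K.Fib
import Pool.Agent.Work.MP_a2bf38_gt.K.EmReach
import Pool.Agent.Work.MP_a2bf38_gt.K.Torus
import Pool.Agent.Work.MP_a2bf38_gt.K.Harnack

/-!
# Propagation of a lower bound along a fibre
-/

open scoped ContDiff ENNReal ComplexOrder Topology
open Set MeasureTheory Filter Pool.Agent.ToricKRF Pool.Agent.ToricKRF.G Pool.Agent.KRFS
  Pool.Agent.KRFF

namespace Pool.Agent.KRFG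

variable {n m : ℕ}

/-- **propagation of a lower bound along a fibre** -/
theorem propagate (row : Fin n → Option (Fin m)) {piv : Fin m → Fin n}
    (hpiv : ∀ i, row (piv i) = some i) :
    ∃ C r : ℝ, 0 < C ∧ 0 < r ∧ r ≤ 1 ∧
      (∀ q ∈ cpd (k := n) 2, ∀ w ∈ cpd (k := n) r, Em row piv q w ∈ opd 9) ∧
      ∀ (g : Cn n → ℝ) (p q : Cn n) (L : ℝ), ContDiffOn ℝ ∞ g (opd 9) →
      p ∈ cpd 2 → q ∈ cpd 2 → (∀ i, prow row i q ≠ 0) → (∀ i, prow row i p = prow row i q) →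
      (∀ x ∈ opd (k := n) 9, (∀ i, prow row i x = prow row i q) → g x ≤ 0) →
      (∀ w, Em row piv q w ∈ opd 9 → ∀ u, 0 ≤ levz (fun w => g (Em row piv q w)) u w) →
      -L ≤ g p →
      ∫ w in cpd (k := n) r, -g (Em row piv q w) ≤
        C * (1 + ∑ i, |Real.log ‖prow row i q‖|) * L := by
  obtain ⟨C, hC, hreach⟩ := reach n m
  refine Prp.core row hpiv (fun q => contDiffOn_univ.1 (Fb.Em_holOn' q).1)
    (fun q w i => Fb.prow_Em' hpiv q w i)
    (fun hl hnp q w => Em_period hl hnp q w)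
    ⟨C, hC, fun p hp q hq h0 h1 => hreach row piv hpiv p hp q hq h0 h1⟩
    (fun hV hG hneg hpsh I hper => ?_) (harnack n)
  intro α β α' β' h1 h2 h3 d h4 s h5 h6
  exact torus_convex hV hG hneg hpsh I hper h1 h2 h3 h4 h5 h6

end Pool.Agent.KRFG
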