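import Pool.Agent.Work.MP_a2bf38_gt.K.Setup
import Pool.Agent.Work.MP_a2bf38_gt.I.FBound
import Pool.Agent.Work.MP_a2bf38_gt.I.Overlap
import Mathlib.Analysis.Complex.OpenMapping

/-!
# The maximum over the fibres is continuous
-/

open scoped ContDiff ENNReal ComplexOrder Topology
open Set Filter Pool.Agent.ToricKRF Pool.Agent.ToricKRF.G Pool.Agent.KRFS Pool.Agent.KRFF

namespace Pool.Agent.KRFG

namespace Sup

/-- `ζ ↦ (s ∏ (x_l + ζ))^N` is open at `0` -/
theorem one_open {n : ℕ} (R : Finset (Fin n)) (hR : R.Nonempty) {s : ℂ} (hs : s ≠ 0) {N : ℕ}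
    (hN : 0 < N) (x : Fin n → ℂ) :
    𝓝 ((s * ∏ l ∈ R, x l) ^ N) ≤ map (fun ζ : ℂ => (s * ∏ l ∈ R, (x l + ζ)) ^ N) (𝓝 0) := by
  set p : Polynomial ℂ :=
    (Polynomial.C s * ∏ l ∈ R, (Polynomial.X + Polynomial.C (x l))) ^ N with hp
  have hev : ∀ ζ, p.eval ζ = (s * ∏ l ∈ R, (x l + ζ)) ^ N := by
    intro ζ
    rw [hp, Polynomial.eval_pow, Polynomial.eval_mul, Polynomial.eval_C, Polynomial.eval_prod]
    congr 2
    refine Finset.prod_congr rfl fun l _ => ?_
    rw [Polynomial.eval_add, Polynomial.eval_X, Polynomial.eval_C, add_comm]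
  have hdeg : p.natDegree = N * R.card := by
    rw [hp, Polynomial.natDegree_pow, Polynomial.natDegree_C_mul hs,
      Polynomial.natDegree_prod_of_monic _ _ fun l _ => Polynomial.monic_X_add_C _]
    simp
  have han : AnalyticAt ℂ (fun ζ => p.eval ζ) 0 := by
    have h1 : Differentiable ℂ (fun ζ => p.eval ζ) := p.differentiable
    exact h1.analyticAt 0
  rcases han.eventually_constant_or_nhds_le_map_nhds_aux with h | h
  · exfalso
    have h1 : {ζ : ℂ | p.eval ζ = p.eval 0}.Infinite := by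
      have h2 : {ζ : ℂ | p.eval ζ = p.eval 0} ∈ 𝓝 (0 : ℂ) := h
      exact infinite_of_mem_nhds _ h2
    have h3 : p = Polynomial.C (p.eval 0) := by
      refine Polynomial.eq_of_infinite_eval_eq _ _ ?_
      simpa only [Polynomial.eval_C] using h1
    have h4 : p.natDegree = 0 := by
      rw [h3]
      exact Polynomial.natDegree_C _
    rw [hdeg] at h4
    have h5 : 0 < N * R.card := Nat.mul_pos hN (Finset.card_pos.2 hR)
    omega
  · simp only [hev, add_zero] at h
    exact h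

variable {n m : ℕ} (row : Fin n → Option (Fin m))

/-- move the coordinates of the row `i` by `ζ i` -/
noncomputable def shift (x : Cn n) (ζ : Fin m → ℂ) : Cn n :=
  ofC fun l => cc x l + ((row l).elim 0 ζ)

theorem cc_ofC {n : ℕ} (z : Fin n → ℂ) (l : Fin n) : cc (ofC z) l = z l := rfl

theorem ofC_cc {n : ℕ} (x : Cn n) : ofC (cc x) = x := rfl

theorem shift_zero (x : Cn n) : shift row x 0 = x := by
  have h : (fun l => cc x l + ((row l).elim 0 (0 : Fin m → ℂ))) = cc x := by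
    funext l
    cases row l <;> simp
  unfold shift
  rw [h, ofC_cc]

theorem continuous_ofC {n : ℕ} : Continuous (ofC : (Fin n → ℂ) → Cn n) := by
  unfold ofC
  fun_prop

theorem shift_continuous (x : Cn n) : Continuous (shift row x) := by
  refine continuous_ofC.comp (continuous_pi fun l => ?_)
  refine continuous_const.add ?_
  cases row l with
  | none => exact continuous_const
  | some i => exact continuous_apply i

theorem prow_shift (x : Cn n) (ζ : Fin m → ℂ) (i : Fin m) :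
    prow row i (shift row x ζ) =
      ∏ l ∈ Finset.univ.filter (fun l => row l = some i), (cc x l + ζ i) := by
  unfold prow
  rw [Finset.prod_filter]
  refine Finset.prod_congr rfl fun l _ => ?_
  by_cases h : row l = some i
  · simp [h, shift, cc_ofC]
  · simp [h]

/-- the map `x ↦ (s_i ∏ x_l)^N_i` is open -/
theorem prow_open (hrow : ∀ i, ∃ l, row l = some i) {s : Fin m → ℂ} (hs : ∀ i, s i ≠ 0)
    {N : Fin m → ℕ} (hN : ∀ i, 0 < N i) (x : Cn n) :
    𝓝 (ofC fun i => (s i * prow row i x) ^ N i) ≤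
      map (fun x => ofC fun i => (s i * prow row i x) ^ N i) (𝓝 x) := by
  set R : Fin m → Finset (Fin n) := fun i => Finset.univ.filter (fun l => row l = some i) with hR
  have h1 : ∀ i, 𝓝 ((s i * prow row i x) ^ N i) ≤
      map (fun ζ : ℂ => (s i * ∏ l ∈ R i, (cc x l + ζ)) ^ N i) (𝓝 0) := by
    intro i
    have h2 : prow row i x = ∏ l ∈ R i, cc x l := by
      have h3 := prow_shift row x 0 i
      rw [shift_zero] at h3
      simpa using h3
    rw [h2]
    refine one_open (R i) ?_ (hs i) (hN i) _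
    obtain ⟨l, hl⟩ := hrow i
    exact ⟨l, by simp [hR, hl]⟩
  intro U hU
  have h3 : {ζ : Fin m → ℂ | (ofC fun i => (s i * ∏ l ∈ R i, (cc x l + ζ i)) ^ N i) ∈ U} ∈
      𝓝 (0 : Fin m → ℂ) := by
    have h4 := (shift_continuous row x).continuousAt (x := 0)
    rw [ContinuousAt, shift_zero] at h4
    have h5 := h4 hU
    rw [mem_map] at h5
    filter_upwards [h5] with ζ hζ
    have h6 : (ofC fun i => (s i * prow row i (shift row x ζ)) ^ N i) ∈ U := hζ
    simpa only [prow_shift] using h6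
  rw [nhds_pi, Filter.mem_pi] at h3
  obtain ⟨I, hI, t, ht, hsub⟩ := h3
  have h4 : (univ : Set (Fin m)).pi
      (fun i => (fun ζ : ℂ => (s i * ∏ l ∈ R i, (cc x l + ζ)) ^ N i) '' t i) ∈
      𝓝 (fun i => (s i * prow row i x) ^ N i) :=
    set_pi_mem_nhds finite_univ fun i _ => h1 i (image_mem_map (ht i))
  have h5 : Continuous fun y : Cn m => cc y := by
    have h6 : (fun y : Cn m => cc y) = fun y l => ((y.1 l : ℂ) + (y.2 l : ℂ) * Complex.I) := by
      funext y l
      apply Complex.ext <;> simp [cc]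
    rw [h6]
    fun_prop
  have h6 := h5.continuousAt (x := ofC fun i => (s i * prow row i x) ^ N i)
  have h7 : {y : Cn m | cc y ∈ (univ : Set (Fin m)).pi
      (fun i => (fun ζ : ℂ => (s i * ∏ l ∈ R i, (cc x l + ζ)) ^ N i) '' t i)} ∈
      𝓝 (ofC fun i => (s i * prow row i x) ^ N i) := h6 h4
  filter_upwards [h7] with y hy
  choose ζ hζt hζ using fun i => hy i (mem_univ i)
  have h8 := hsub (a := ζ) (fun i _ => hζt i)
  have h9 : (ofC fun i => (s i * ∏ l ∈ R i, (cc x l + ζ i)) ^ N i) = y := by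
    have h10 : (fun i => (s i * ∏ l ∈ R i, (cc x l + ζ i)) ^ N i) = cc y := funext hζ
    rw [h10, ofC_cc]
  have h11 : (ofC fun i => (s i * ∏ l ∈ R i, (cc x l + ζ i)) ^ N i) ∈ U := h8
  rwa [h9] at h11

end Sup

section

variable {n m : ℕ} {M Y W : Type} [TopologicalSpace M] [TopologicalSpace Y] [TopologicalSpace W]
  {κ P ι : Type} {T : ℝ} (F : Mod n m M Y W κ P ι T)

/-- lifting of a point of `M` to the core of a chart of `W` -/
theorem Mod.lift_core (p : M) {j : P} (hj : F.f p ∈ (F.b j).source)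
    (h25 : nsq (F.b j (F.f p)) ≤ 25) :
    ∃ w c, F.lab w = j ∧ F.π w = p ∧ w ∈ (F.a c).source ∧ F.a c w ∈ cpd 1 ∧ F.pc c = j := by
  choose t ht using fun i => IsAlgClosed.exists_pow_nat_eq (cc (F.b j (F.f p)) i)
    (F.model.N_pos j i)
  obtain ⟨w, hw1, hw2, hw3⟩ := F.model.onto j p hj h25 (ofC t) ht
  obtain ⟨c, hc1, hc2⟩ := F.model.cover w (by rw [hw1, hw3]; exact h25)
  exact ⟨w, c, hw1, hw3, hc1, hc2, by rw [← F.model.lab_eq c w hc1, hw1]⟩

/-- `π` in the charts of `W` is continuous -/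
theorem Mod.pi_continuousOn (c : ι) : ContinuousOn (fun x => F.π ((F.a c).symm x)) (opd 10) := by
  have h1 : ContinuousOn (fun x => F.e (F.al c) (F.π ((F.a c).symm x))) (opd 10) :=
    (F.model.holo c).1.continuousOn
  have h2 : ∀ x ∈ opd (k := n) 10, F.π ((F.a c).symm x) ∈ (F.e (F.al c)).source := fun x hx =>
    F.model.mem c _ ((F.a c).map_target (by rw [F.model.target c]; exact hx))
  have h3 := (F.e (F.al c)).continuousOn_symm.comp h1
    (fun x hx => (F.e (F.al c)).map_source (h2 x hx))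
  exact h3.congr fun x hx => ((F.e (F.al c)).left_inv (h2 x hx)).symm

/-- the base coordinates of the points of a chart of `W` -/
theorem Mod.base_chart (c : ι) {x : Cn n} (hx : x ∈ opd 10) :
    F.f (F.π ((F.a c).symm x)) ∈ (F.b (F.pc c)).source ∧
    F.b (F.pc c) (F.f (F.π ((F.a c).symm x))) =
      ofC fun i => ((F.s c i : ℂ) * prow (F.row c) i x) ^ F.N (F.pc c) i := by
  have hx' : x ∈ (F.a c).target := by rw [F.model.target c]; exact hx
  have hw := (F.a c).map_target hx'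
  have h1 := F.model.base ((F.a c).symm x)
  rw [F.model.lab_eq c _ hw] at h1
  refine ⟨h1.1, ?_⟩
  have h2 : cc (F.b (F.pc c) (F.f (F.π ((F.a c).symm x)))) =
      fun i => ((F.s c i : ℂ) * prow (F.row c) i x) ^ F.N (F.pc c) i := by
    funext i
    rw [h1.2 i, F.model.mono c _ hw i, (F.a c).right_inv hx']
  rw [← h2, Sup.ofC_cc]

theorem Mod.f_isOpenMap : IsOpenMap F.f := by
  rw [isOpenMap_iff_nhds_le]
  intro p
  obtain ⟨j, hj, hj1⟩ := F.hol.cover (F.f p)
  obtain ⟨w, c, hw1, hw2, hc1, hc2, hpc⟩ := F.lift_core p hj (by linarith)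
  set x₀ := F.a c w with hx₀
  have hx₀t : x₀ ∈ opd (k := n) 10 := Ov.cpd_subset_opd (by norm_num) (by norm_num) hc2
  have hnh : opd (k := n) 10 ∈ 𝓝 x₀ := (Ov.isOpen_opd 10).mem_nhds hx₀t
  have hw : (F.a c).symm x₀ = w := (F.a c).left_inv hc1
  have h1 : ContinuousAt (fun x => F.π ((F.a c).symm x)) x₀ :=
    (F.pi_continuousOn c).continuousAt hnh
  have h2 : map (fun x => F.π ((F.a c).symm x)) (𝓝 x₀) ≤ 𝓝 p := by
    have h3 := h1
    rw [ContinuousAt, hw, hw2] at h3
    exact h3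
  set G : Cn n → Cn m := fun x => ofC fun i => ((F.s c i : ℂ) * prow (F.row c) i x) ^
    F.N (F.pc c) i with hG
  have h3 : F.f ∘ (fun x => F.π ((F.a c).symm x)) =ᶠ[𝓝 x₀] (F.b (F.pc c)).symm ∘ G := by
    filter_upwards [hnh] with x hx
    obtain ⟨h4, h5⟩ := F.base_chart c hx
    rw [Function.comp_apply, Function.comp_apply, hG]
    simp only
    rw [← h5, (F.b (F.pc c)).left_inv h4]
  have h4 : F.b (F.pc c) (F.f p) = G x₀ := by
    have h5 := (F.base_chart c hx₀t).2
    rw [hw, hw2] at h5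
    exact h5
  have hjs : F.f p ∈ (F.b (F.pc c)).source := by rw [hpc]; exact hj
  have h5 : 𝓝 (G x₀) ≤ map G (𝓝 x₀) :=
    Sup.prow_open (F.row c) (F.model.row_ne c)
      (fun i => Complex.ofReal_ne_zero.2 (F.model.s_pos c i).ne') (F.model.N_pos (F.pc c)) x₀
  calc 𝓝 (F.f p) = map (F.b (F.pc c)).symm (𝓝 (F.b (F.pc c) (F.f p))) :=
        ((F.b (F.pc c)).symm_map_nhds_eq hjs).symm
    _ = map (F.b (F.pc c)).symm (𝓝 (G x₀)) := by rw [h4]
    _ ≤ map (F.b (F.pc c)).symm (map G (𝓝 x₀)) := map_mono h5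
    _ = map ((F.b (F.pc c)).symm ∘ G) (𝓝 x₀) := map_map
    _ = map (F.f ∘ (fun x => F.π ((F.a c).symm x))) (𝓝 x₀) := map_congr h3.symm
    _ = map F.f (map (fun x => F.π ((F.a c).symm x)) (𝓝 x₀)) := map_map.symm
    _ ≤ map F.f (𝓝 p) := map_mono h2

theorem Mod.Phi_continuous {t : ℝ} (ht : t ∈ Ico 0 T) : Continuous (F.Phi t) := by
  rw [← continuousOn_univ]
  exact ContinuousOn.comp (f := fun p : M => (t, p)) F.toFlow.Phi_continuousOn
    (by fun_prop) fun p _ => ⟨ht, mem_univ _⟩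

end

section

variable {n m : ℕ} {M Y W : Type} [TopologicalSpace M] [CompactSpace M]
  [TopologicalSpace Y] [T2Space Y] [TopologicalSpace W] {κ P ι : Type} {T : ℝ}
  (F : Mod n m M Y W κ P ι T)

theorem Mod.Mx_spec {t : ℝ} (ht : t ∈ Ico 0 T) (y : Y) :
    (∃ p, F.f p = y ∧ F.Phi t p = F.Mx t y) ∧ ∀ p, F.f p = y → F.Phi t p ≤ F.Mx t y := by
  have hc : IsCompact (F.f ⁻¹' {y}) := (isClosed_singleton.preimage F.hol.cont).isCompact
  have hne : (F.f ⁻¹' {y}).Nonempty := F.hol.surj y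
  obtain ⟨p, hp, hp2⟩ := hc.exists_isMaxOn hne (F.Phi_continuous ht).continuousOn
  have hG : IsGreatest (F.Phi t '' (F.f ⁻¹' {y})) (F.Phi t p) :=
    ⟨mem_image_of_mem _ hp, by
      rintro _ ⟨q, hq, rfl⟩
      exact hp2 hq⟩
  have h1 : F.Mx t y = F.Phi t p := hG.csSup_eq
  exact ⟨⟨p, hp, h1.symm⟩, fun q hq => by rw [h1]; exact hp2 hq⟩

theorem Mod.Mx_continuous {t : ℝ} (ht : t ∈ Ico 0 T) : Continuous (F.Mx t) := by
  rw [OrderTopology.continuous_iff]
  intro a
  constructor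
  · have h1 : F.Mx t ⁻¹' Ioi a = F.f '' (F.Phi t ⁻¹' Ioi a) := by
      ext y
      constructor
      · intro hy
        obtain ⟨p, hp, hp2⟩ := (F.Mx_spec ht y).1
        exact ⟨p, by rw [mem_preimage, hp2]; exact hy, hp⟩
      · rintro ⟨p, hp, rfl⟩
        exact lt_of_lt_of_le hp ((F.Mx_spec ht (F.f p)).2 p rfl)
    rw [h1]
    exact F.f_isOpenMap _ (isOpen_Ioi.preimage (F.Phi_continuous ht))
  · have h1 : F.Mx t ⁻¹' Iio a = (F.f '' (F.Phi t ⁻¹' Ici a))ᶜ := by
      ext y
      constructor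
      · rintro hy ⟨p, hp, rfl⟩
        exact absurd (lt_of_le_of_lt ((F.Mx_spec ht (F.f p)).2 p rfl) hy) (not_lt.2 hp)
      · intro hy
        by_contra hn
        obtain ⟨p, hp, hp2⟩ := (F.Mx_spec ht y).1
        have hn' : a ≤ F.Mx t y := not_lt.1 hn
        exact hy ⟨p, by rw [mem_preimage, hp2]; exact hn', hp⟩
    rw [h1]
    exact (((isClosed_Ici.preimage (F.Phi_continuous ht)).isCompact.image
      F.hol.cont).isClosed).isOpen_compl

end

end Pool.Agent.KRFG
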