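import Pool.Agent.Work.MP_a2bf38_gt.K.ChainOf
import Pool.Agent.Work.MP_a2bf38_gt.K.Prop
import Pool.Agent.Work.MP_a2bf38_gt.K.Fib
import Pool.Agent.Work.MP_a2bf38_gt.K.Sup
import Pool.Agent.Work.MP_a2bf38_gt.K.Overlap

/-!
# The integral of the gap along the fibres (helper20)
-/

open scoped ContDiff ENNReal ComplexOrder Topology
open Set MeasureTheory Filter Pool.Agent.ToricKRF Pool.Agent.ToricKRF.G Pool.Agent.KRFS
  Pool.Agent.KRFF

namespace Pool.Agent.KRFG

namespace Chn

variable {n m : ℕ} {row : Fin n → Option (Fin m)} {piv : Fin m → Fin n}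

theorem Em_continuous' : Continuous fun p : Cn n × Cn n => Em row piv p.1 p.2 := by
  have hcc : ∀ l, Continuous fun p : Cn n × Cn n => cc (Em row piv p.1 p.2) l := fun l => by
    cases h : row l with
    | none =>
      simp only [Prp.cc_Em_none h]
      exact ((Prp.continuous_cc l).comp continuous_fst).add
        ((Prp.continuous_cc l).comp continuous_snd)
    | some i =>
      by_cases hl : l = piv i
      · subst hl
        simp only [Prp.cc_Em_piv h]
        refine ((Prp.continuous_cc _).comp continuous_fst).mul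
          (Complex.continuous_exp.comp (Continuous.neg (continuous_finsetSum _ fun l' _ => ?_)))
        split_ifs
        · exact (Prp.continuous_cc l').comp continuous_snd
        · exact continuous_const
      · simp only [Prp.cc_Em_np h hl]
        exact ((Prp.continuous_cc l).comp continuous_fst).mul
          (Complex.continuous_exp.comp ((Prp.continuous_cc l).comp continuous_snd))
  exact (continuous_pi fun l => Complex.continuous_re.comp (hcc l)).prodMk
    (continuous_pi fun l => Complex.continuous_im.comp (hcc l))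

theorem Em_close' (row : Fin n → Option (Fin m)) (piv : Fin m → Fin n) :
    ∃ C : ℝ, 0 < C ∧ ∀ q ∈ cpd (k := n) 9, ∀ r ∈ Icc (0 : ℝ) 1, ∀ w ∈ cpd (k := n) r,
      Em row piv q w - q ∈ cpd (k := n) (C * r) := by
  refine ⟨9 * n * Real.exp n + 1, by positivity, fun q hq r hr w hw =>
    Prp.mem_cpd_of fun l => ?_⟩
  rw [Prp.cc_sub]
  have hq' := Prp.norm_cc_le (by norm_num) hq l
  have hw' := Prp.norm_cc_le hr.1 hw
  have hn : (1 : ℝ) ≤ n := by
    have : 1 ≤ n := l.pos
    exact_mod_cast this
  have hr0 := hr.1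
  have key : ∀ z : ℂ, ‖z‖ ≤ n * r →
      ‖cc q l * Complex.exp z - cc q l‖ ≤ (9 * n * Real.exp n + 1) * r := by
    intro z hz
    have h1 : ‖Complex.exp z - 1‖ ≤ ‖z‖ * Real.exp ‖z‖ := by
      have := Complex.norm_exp_sub_sum_le_norm_mul_exp z 1
      simpa using this
    have h2 : ‖z‖ ≤ n := hz.trans (by nlinarith [hr.2])
    have h3 : cc q l * Complex.exp z - cc q l = cc q l * (Complex.exp z - 1) := by ring
    rw [h3, norm_mul]
    calc ‖cc q l‖ * ‖Complex.exp z - 1‖ ≤ 9 * ((n * r) * Real.exp n) := by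
          refine mul_le_mul hq' (h1.trans ?_) (norm_nonneg _) (by norm_num)
          exact mul_le_mul hz (Real.exp_le_exp.2 h2) (Real.exp_pos _).le (by positivity)
      _ ≤ (9 * n * Real.exp n + 1) * r := by nlinarith
  cases h : row l with
  | none =>
    rw [Prp.cc_Em_none h, add_sub_cancel_left]
    refine (hw' l).trans (le_mul_of_one_le_left hr0 ?_)
    have : 0 ≤ 9 * (n : ℝ) * Real.exp n := by positivity
    linarith
  | some i =>
    by_cases hl : l = piv i
    · subst hl
      rw [Prp.cc_Em_piv h]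
      refine key _ ?_
      rw [norm_neg]
      refine (norm_sum_le _ _).trans ?_
      calc ∑ l' : Fin n, ‖(if row l' = some i ∧ l' ≠ piv i then cc w l' else 0 : ℂ)‖
          ≤ ∑ _l' : Fin n, r := by
            refine Finset.sum_le_sum fun l' _ => ?_
            split_ifs
            · exact hw' l'
            · simpa using hr0
        _ = n * r := by simp
    · rw [Prp.cc_Em_np h hl]
      exact key _ ((hw' l).trans (by nlinarith))

end Chn

variable {n m : ℕ} {M Y W : Type} [TopologicalSpace M] [CompactSpace M]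
  [TopologicalSpace Y] [T2Space Y] [TopologicalSpace W] [T2Space W] {κ P ι : Type}
  [Fintype ι] {T : ℝ} (F : Mod n m M Y W κ P ι T)

/-- **the integral of the gap along the fibres** -/
theorem Mod.chain : ∃ (C r : ℝ) (B : ℕ), 1 ≤ C ∧ 0 < r ∧ r ≤ 1 ∧ ∀ t ∈ Ico 0 T, ∀ c,
    ∀ piv : Fin m → Fin n, (∀ i, F.row c (piv i) = some i) →
    ∀ q ∈ cpd (k := n) (3 / 2), (∀ i, prow (F.row c) i q ≠ 0) → nsq (F.yc c q) ≤ 20 →
    (∀ w ∈ cpd (k := n) r, Em (F.row c) piv q w ∈ opd 9) ∧
    ∫ w in cpd (k := n) r, -F.gc t c (Em (F.row c) piv q w) ≤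
      C * (T - t) * (1 + ∑ i, |Real.log ‖prow (F.row c) i q‖|) ^ B :=
  F.chain_of (fun _ _ h q w i => Fb.prow_Em' h q w i) (fun _ _ => Chn.Em_continuous')
    (fun row piv => Chn.Em_close' row piv) (fun row _ h => propagate row h)
    (fun _ ht y => F.Mx_spec ht y) F.fib_psh (fun _ ht c => F.smooth_W ht c) F.overlap

end Pool.Agent.KRFG
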