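import Pool.Agent.Work.MP_a2bf38_gt.K.Setup
import Pool.Agent.Work.MP_a2bf38_gt.I.Level
import Pool.Agent.Work.MP_a2bf38_gt.I.PshBase

/-!
# A chain of charts along a fibre (helper20)
-/

open scoped ContDiff ENNReal ComplexOrder Topology
open Set MeasureTheory Filter Pool.Agent.ToricKRF Pool.Agent.ToricKRF.G Pool.Agent.KRFS
  Pool.Agent.KRFF

namespace Pool.Agent.KRFG

namespace Chn

section Basic

variable {n m : ℕ}

theorem cpd_mono {a b : ℝ} (h0 : 0 ≤ a) (h : a ≤ b) : cpd (k := n) a ⊆ cpd b := fun x hx i =>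
  (hx i).trans (by nlinarith)

theorem nsq_le {r : ℝ} {x : Cn n} (hx : x ∈ opd r) : nsq x ≤ r ^ 2 * n := by
  unfold nsq dotProduct
  rw [← Finset.sum_add_distrib]
  calc ∑ i, (x.1 i * x.1 i + x.2 i * x.2 i) ≤ ∑ _i : Fin n, r ^ 2 :=
        Finset.sum_le_sum fun i _ => by nlinarith [hx i]
    _ = r ^ 2 * n := by simp [mul_comm]

theorem nsq_nonneg (x : Cn n) : 0 ≤ nsq x := by
  unfold nsq dotProduct
  exact add_nonneg (Finset.sum_nonneg fun i _ => mul_self_nonneg _)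
    (Finset.sum_nonneg fun i _ => mul_self_nonneg _)

theorem contDiff_nsq : ContDiff ℝ ∞ (nsq (n := n)) := by
  unfold nsq dotProduct
  fun_prop

theorem cc_ext {z z' : Cn n} (h : ∀ i, cc z i = cc z' i) : z = z' :=
  Prod.ext (funext fun i => congrArg Complex.re (h i)) (funext fun i => congrArg Complex.im (h i))

theorem exists_lb {α : Type*} [Finite α] (f : α → ℝ) (hf : ∀ a, 0 < f a) :
    ∃ r, 0 < r ∧ r ≤ 1 ∧ ∀ a, r ≤ f a := by
  cases isEmpty_or_nonempty α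
  · exact ⟨1, one_pos, le_rfl, fun a => isEmptyElim a⟩
  · obtain ⟨a, ha⟩ := Finite.exists_min f
    exact ⟨min 1 (f a), lt_min one_pos (hf a), min_le_left _ _,
      fun b => (min_le_right _ _).trans (ha b)⟩

theorem exists_ub {α : Type*} [Finite α] (f : α → ℝ) : ∃ C, 1 ≤ C ∧ ∀ a, f a ≤ C := by
  obtain ⟨C, hC⟩ := (Set.finite_range f).bddAbove
  exact ⟨max 1 C, le_max_left _ _, fun a => (hC (mem_range_self a)).trans (le_max_right _ _)⟩

/-- the conclusion of `propagate`, with the constants `C`, `r` -/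
def PropOK (row : Fin n → Option (Fin m)) (piv : Fin m → Fin n) (C r : ℝ) : Prop :=
  (∀ q ∈ cpd (k := n) 2, ∀ w ∈ cpd (k := n) r, Em row piv q w ∈ opd 9) ∧
  ∀ (g : Cn n → ℝ) (p q : Cn n) (L : ℝ), ContDiffOn ℝ ∞ g (opd 9) →
    p ∈ cpd 2 → q ∈ cpd 2 → (∀ i, prow row i q ≠ 0) → (∀ i, prow row i p = prow row i q) →
    (∀ x ∈ opd (k := n) 9, (∀ i, prow row i x = prow row i q) → g x ≤ 0) →
    (∀ w, Em row piv q w ∈ opd 9 → ∀ u, 0 ≤ levz (fun w => g (Em row piv q w)) u w) →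
    -L ≤ g p →
    ∫ w in cpd (k := n) r, -g (Em row piv q w) ≤
      C * (1 + ∑ i, |Real.log ‖prow row i q‖|) * L

variable {row : Fin n → Option (Fin m)} {piv : Fin m → Fin n}

theorem integrableOn_Em (hEc : Continuous fun p : Cn n × Cn n => Em row piv p.1 p.2)
    {g : Cn n → ℝ} (hg : ContinuousOn g (opd 9)) {q : Cn n} {r : ℝ}
    (h : ∀ w ∈ cpd (k := n) r, Em row piv q w ∈ opd 9) :
    IntegrableOn (fun w => -g (Em row piv q w)) (cpd r) volume := by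
  have h1 : ContinuousOn (fun w => -g (Em row piv q w)) (cpd r) :=
    (hg.comp (hEc.comp (Continuous.prodMk_right q)).continuousOn h).neg
  exact h1.integrableOn_compact (isCompact_cpd r)

theorem PropOK.mono (hprow : ∀ q w i, prow row i (Em row piv q w) = prow row i q)
    (hEc : Continuous fun p : Cn n × Cn n => Em row piv p.1 p.2) {C r C' r' : ℝ}
    (h : PropOK row piv C r) (hC : C ≤ C') (hr : 0 ≤ r') (hr' : r' ≤ r) :
    PropOK row piv C' r' := by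
  refine ⟨fun q hq w hw => h.1 q hq w (cpd_mono hr hr' hw),
    fun g p q L hg hp hq h0 hpq hneg hpsh hL => ?_⟩
  have hL0 : 0 ≤ L := by
    have := hneg p (cpd_subset_opd (by norm_num) (by norm_num) hp) hpq
    linarith
  have h1 := h.2 g p q L hg hp hq h0 hpq hneg hpsh hL
  have h2 : ∫ w in cpd (k := n) r', -g (Em row piv q w) ≤
      ∫ w in cpd (k := n) r, -g (Em row piv q w) := by
    refine setIntegral_mono_set (integrableOn_Em hEc hg.continuousOn (h.1 q hq)) ?_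
      (cpd_mono hr hr').eventuallyLE
    refine (ae_restrict_iff' (isCompact_cpd r).measurableSet).2 (.of_forall fun w hw => ?_)
    have := hneg _ (h.1 q hq w hw) fun i => hprow q w i
    simpa using this
  refine h2.trans (h1.trans ?_)
  have h3 : 0 ≤ ∑ i, |Real.log ‖prow row i q‖| := Finset.sum_nonneg fun _ _ => abs_nonneg _
  gcongr

end Basic

variable {n m : ℕ} {M Y W : Type} [TopologicalSpace M]
  [TopologicalSpace Y] [TopologicalSpace W] {κ P ι : Type} {T : ℝ} (F : Mod n m M Y W κ P ι T)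

theorem fib_eq {w w' : W} (h1 : F.lab w = F.lab w') (h2 : F.τ w = F.τ w') :
    F.f (F.π w) = F.f (F.π w') := by
  have hb := F.model.base w
  have hb' := F.model.base w'
  rw [h1, h2] at hb
  refine (F.b (F.lab w')).injOn hb.1 hb'.1 (cc_ext fun i => ?_)
  rw [hb.2 i, hb'.2 i]

theorem mem_target {c : ι} {x : Cn n} (hx : x ∈ opd (k := n) 10) : x ∈ (F.a c).target := by
  rw [F.model.target c]
  exact hx

theorem lab_symm {c : ι} {x : Cn n} (hx : x ∈ opd (k := n) 10) :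
    F.lab ((F.a c).symm x) = F.pc c :=
  F.model.lab_eq c _ ((F.a c).map_target (mem_target F hx))

theorem tau_symm {c : ι} {x : Cn n} (hx : x ∈ opd (k := n) 10) (i : Fin m) :
    cc (F.τ ((F.a c).symm x)) i = F.s c i * prow (F.row c) i x := by
  have := F.model.mono c _ ((F.a c).map_target (mem_target F hx)) i
  rwa [(F.a c).right_inv (mem_target F hx)] at this

theorem tau_eq_iff {c : ι} {x x' : Cn n} (hx : x ∈ opd (k := n) 10) (hx' : x' ∈ opd (k := n) 10) :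
    F.τ ((F.a c).symm x) = F.τ ((F.a c).symm x') ↔
      ∀ i, prow (F.row c) i x = prow (F.row c) i x' := by
  constructor
  · intro h i
    have h1 := tau_symm F (c := c) hx i
    rw [h, tau_symm F hx' i] at h1
    exact (mul_left_cancel₀ (Complex.ofReal_ne_zero.2 (F.model.s_pos c i).ne') h1).symm
  · intro h
    exact cc_ext fun i => by rw [tau_symm F hx i, tau_symm F hx' i, h i]

/-- `φ - M₀ + C (1 - t/T) (|x|² - 81 n)` in the chart `c` of `W` -/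
noncomputable def gtl (C t M₀ : ℝ) (c : ι) (x : Cn n) : ℝ :=
  F.Phi t (F.π ((F.a c).symm x)) - M₀ + C * (1 - t / T) * (nsq x - 81 * n)

/-- the inputs, with their constants -/
structure Inp (piv : ι → Fin m → Fin n) (C₄ C r r₁ ρ : ℝ) : Prop where
  C₄0 : 0 ≤ C₄
  C1 : 1 ≤ C
  r₁0 : 0 < r₁
  r₁r : r₁ ≤ r
  spec : ∀ t ∈ Ico 0 T, ∀ y, (∃ p, F.f p = y ∧ F.Phi t p = F.Mx t y) ∧
    ∀ p, F.f p = y → F.Phi t p ≤ F.Mx t y
  hpiv : ∀ c i, F.row c (piv c i) = some i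
  prow_Em : ∀ (c : ι) (piv' : Fin m → Fin n), (∀ i, F.row c (piv' i) = some i) → ∀ q w i,
    prow (F.row c) i (Em (F.row c) piv' q w) = prow (F.row c) i q
  cont : ∀ (c : ι) (piv' : Fin m → Fin n),
    Continuous fun p : Cn n × Cn n => Em (F.row c) piv' p.1 p.2
  prop : ∀ (c : ι) (piv' : Fin m → Fin n), (∀ i, F.row c (piv' i) = some i) →
    PropOK (F.row c) piv' C r
  close : ∀ c, ∀ q ∈ cpd (k := n) 9, ∀ w ∈ cpd (k := n) r₁,
    Em (F.row c) (piv c) q w - q ∈ cpd (k := n) ρ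
  overlap : ∀ c c' : ι, ∀ w, w ∈ (F.a c).source → w ∈ (F.a c').source →
    F.a c w ∈ cpd (3 / 2) → F.a c' w ∈ cpd (3 / 2) → ∀ x, x - F.a c w ∈ cpd (k := n) ρ →
    (F.a c).symm x ∈ (F.a c').source ∧ F.a c' ((F.a c).symm x) ∈ cpd 2
  fib : ∀ t ∈ Ico 0 T, ∀ c, ∀ q ∈ opd (k := n) 9, ∀ M₀ : ℝ,
    ∀ piv' : Fin m → Fin n, (∀ i, F.row c (piv' i) = some i) → ∀ w,
    Em (F.row c) piv' q w ∈ opd 9 → ∀ u,
    0 ≤ levz (fun w => F.Phi t (F.π ((F.a c).symm (Em (F.row c) piv' q w))) - M₀ +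
      C₄ * (1 - t / T) * (nsq (Em (F.row c) piv' q w) - 81 * n)) u w
  smooth : ∀ t ∈ Ico 0 T, ∀ c,
    ContDiffOn ℝ ∞ (fun x => F.Phi t (F.π ((F.a c).symm x))) (opd 10)

variable {F} {piv : ι → Fin m → Fin n} {C₄ C r r₁ ρ : ℝ}

theorem opd_mono {a b : ℝ} (h0 : 0 ≤ a) (h : a ≤ b) : opd (k := n) a ⊆ opd b := fun x hx i =>
  (hx i).trans_le (by nlinarith)

theorem opd9 {x : Cn n} (hx : x ∈ opd (k := n) 9) : x ∈ opd (k := n) 10 :=
  opd_mono (by norm_num) (by norm_num) hx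

theorem cpd2_9 {x : Cn n} (hx : x ∈ cpd (k := n) 2) : x ∈ opd (k := n) 9 :=
  cpd_subset_opd (by norm_num) (by norm_num) hx

theorem one_sub_nonneg {t : ℝ} (ht : t ∈ Ico 0 T) : 0 ≤ 1 - t / T := by
  have hT : 0 < T := ht.1.trans_lt ht.2
  have : t / T ≤ 1 := (div_le_one hT).2 ht.2.le
  linarith

theorem Inp.contDiffOn_gtl (H : Inp F piv C₄ C r r₁ ρ) {t : ℝ} (ht : t ∈ Ico 0 T) (M₀ : ℝ)
    (c : ι) : ContDiffOn ℝ ∞ (gtl F C₄ t M₀ c) (opd 9) := by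
  unfold gtl
  have h1 := (H.smooth t ht c).mono fun x hx => opd9 hx
  exact (h1.sub contDiffOn_const).add
    (contDiffOn_const.mul (contDiff_nsq.contDiffOn.sub contDiffOn_const))

theorem Inp.gtl_le (H : Inp F piv C₄ C r r₁ ρ) {t : ℝ} (ht : t ∈ Ico 0 T) {M₀ : ℝ}
    {c : ι} {x : Cn n} (hx : x ∈ opd (k := n) 9) :
    gtl F C₄ t M₀ c x ≤ F.Phi t (F.π ((F.a c).symm x)) - M₀ := by
  unfold gtl
  have h1 := nsq_le hx
  have h2 := mul_nonneg H.C₄0 (one_sub_nonneg ht)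
  have h3 : C₄ * (1 - t / T) * (nsq x - 81 * n) ≤ 0 :=
    mul_nonpos_of_nonneg_of_nonpos h2 (by linarith)
  linarith

theorem Inp.gtl_nonpos (H : Inp F piv C₄ C r r₁ ρ) {t : ℝ} (ht : t ∈ Ico 0 T) {y : Y}
    {c : ι} {x : Cn n} (hx : x ∈ opd (k := n) 9) (hy : F.f (F.π ((F.a c).symm x)) = y) :
    gtl F C₄ t (F.Mx t y) c x ≤ 0 := by
  have h1 := H.gtl_le ht (M₀ := F.Mx t y) (c := c) hx
  have h2 := (H.spec t ht y).2 _ hy
  linarith

/-- propagation in a chart -/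
theorem Inp.reach (H : Inp F piv C₄ C r r₁ ρ) {t : ℝ} (ht : t ∈ Ico 0 T) {y : Y} {c : ι}
    {piv' : Fin m → Fin n} (hpiv' : ∀ i, F.row c (piv' i) = some i) {p q : Cn n}
    (hp : p ∈ cpd (k := n) 2) (hq : q ∈ cpd (k := n) 2) (hy : F.f (F.π ((F.a c).symm q)) = y)
    (h0 : ∀ i, prow (F.row c) i q ≠ 0) (hpq : ∀ i, prow (F.row c) i p = prow (F.row c) i q)
    {L : ℝ} (hL : -L ≤ gtl F C₄ t (F.Mx t y) c p) :
    ∫ w in cpd (k := n) r, -gtl F C₄ t (F.Mx t y) c (Em (F.row c) piv' q w) ≤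
      C * (1 + ∑ i, |Real.log ‖prow (F.row c) i q‖|) * L := by
  refine (H.prop c piv' hpiv').2 (gtl F C₄ t (F.Mx t y) c) p q L (H.contDiffOn_gtl ht _ c) hp hq h0
    hpq (fun x hx hxq => H.gtl_nonpos ht hx ?_)
    (fun w hw u => H.fib t ht c q (cpd2_9 hq) (F.Mx t y) piv' hpiv' w hw u) hL
  rw [← hy]
  exact fib_eq F ((lab_symm F (opd9 hx)).trans (lab_symm F (opd9 (cpd2_9 hq))).symm)
    ((tau_eq_iff F (opd9 hx) (opd9 (cpd2_9 hq))).2 hxq)

/-- the chart `c` contains a point of the fibre `τ = τ₀` with `g ≥ -L` -/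
def Lev (F : Mod n m M Y W κ P ι T) (C₄ t M₀ : ℝ) (j : P) (τ₀ : Cn m) (L : ℝ) (c : ι) : Prop :=
  F.pc c = j ∧ ∃ x ∈ cpd (k := n) 2, F.τ ((F.a c).symm x) = τ₀ ∧ -L ≤ gtl F C₄ t M₀ c x

theorem Lev.mono {t M₀ : ℝ} {j : P} {τ₀ : Cn m} {L L' : ℝ} {c : ι}
    (h : Lev F C₄ t M₀ j τ₀ L c) (hL : L ≤ L') : Lev F C₄ t M₀ j τ₀ L' c := by
  obtain ⟨h1, x, hx, h2, h3⟩ := h
  exact ⟨h1, x, hx, h2, by linarith⟩

/-- from one chart to another -/
theorem Inp.step (H : Inp F piv C₄ C r r₁ ρ) {t : ℝ} (ht : t ∈ Ico 0 T) {w₀ : W} {c c' : ι}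
    (hw : w₀ ∈ (F.a c).source) (hw' : w₀ ∈ (F.a c').source) (ha : F.a c w₀ ∈ cpd (3 / 2))
    (ha' : F.a c' w₀ ∈ cpd (3 / 2)) (hτ : ∀ i, cc (F.τ w₀) i ≠ 0) {L : ℝ}
    (hL : Lev F C₄ t (F.Mx t (F.f (F.π w₀))) (F.lab w₀) (F.τ w₀) L c) :
    Lev F C₄ t (F.Mx t (F.f (F.π w₀))) (F.lab w₀) (F.τ w₀)
      (C * (1 + ∑ i, |Real.log ‖prow (F.row c) i (F.a c w₀)‖|) * L /
        (volume (cpd (k := n) r₁)).toReal + C₄ * (1 - t / T) * (81 * n)) c' := by
  obtain ⟨-, p, hp, hpτ, hpL⟩ := hL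
  set q : Cn n := F.a c w₀ with hq
  have hq2 : q ∈ cpd (k := n) 2 := cpd_mono (by norm_num) (by norm_num) ha
  have hqs : (F.a c).symm q = w₀ := (F.a c).left_inv hw
  have hq0 : ∀ i, prow (F.row c) i q ≠ 0 := fun i h => by
    have h1 := F.model.mono c w₀ hw i
    rw [← hq, h, mul_zero] at h1
    exact hτ i h1
  have hpq : ∀ i, prow (F.row c) i p = prow (F.row c) i q :=
    (tau_eq_iff F (opd9 (cpd2_9 hp)) (opd9 (cpd2_9 hq2))).1 (by rw [hpτ, hqs])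
  set M₀ : ℝ := F.Mx t (F.f (F.π w₀)) with hM₀
  have h1 := H.reach ht (H.hpiv c) hp hq2 (y := F.f (F.π w₀)) (by rw [hqs]) hq0 hpq hpL
  rw [← hM₀] at h1
  have hr₁ := H.r₁0.le
  have hE9 : ∀ w ∈ cpd (k := n) r, Em (F.row c) (piv c) q w ∈ opd 9 :=
    (H.prop c (piv c) (H.hpiv c)).1 q hq2
  have hfib : ∀ w ∈ cpd (k := n) r, F.f (F.π ((F.a c).symm (Em (F.row c) (piv c) q w))) =
      F.f (F.π w₀) := fun w hw => by
    rw [← hqs]
    refine fib_eq F ((lab_symm F (opd9 (hE9 w hw))).trans (lab_symm F (opd9 (cpd2_9 hq2))).symm)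
      ((tau_eq_iff F (opd9 (hE9 w hw)) (opd9 (cpd2_9 hq2))).2
        fun i => H.prow_Em c (piv c) (H.hpiv c) q w i)
  have hneg : ∀ w ∈ cpd (k := n) r, gtl F C₄ t M₀ c (Em (F.row c) (piv c) q w) ≤ 0 :=
    fun w hw => H.gtl_nonpos ht (hE9 w hw) (hfib w hw)
  have hint : IntegrableOn (fun w => -gtl F C₄ t M₀ c (Em (F.row c) (piv c) q w))
      (cpd (k := n) r) volume :=
    integrableOn_Em (H.cont c (piv c)) (H.contDiffOn_gtl ht M₀ c).continuousOn hE9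
  have hsub : cpd (k := n) r₁ ⊆ cpd r := cpd_mono hr₁ H.r₁r
  have h2 : ∫ w in cpd (k := n) r₁, -gtl F C₄ t M₀ c (Em (F.row c) (piv c) q w) ≤
      ∫ w in cpd (k := n) r, -gtl F C₄ t M₀ c (Em (F.row c) (piv c) q w) := by
    refine setIntegral_mono_set hint ?_ hsub.eventuallyLE
    refine (ae_restrict_iff' (isCompact_cpd r).measurableSet).2 (.of_forall fun w hw => ?_)
    simpa using hneg w hw
  have hV0 : volume (cpd (k := n) r₁) ≠ 0 := (volume_cpd_pos H.r₁0).ne'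
  have hV : 0 < (volume (cpd (k := n) r₁)).toReal :=
    ENNReal.toReal_pos hV0 (volume_cpd_ne_top r₁)
  obtain ⟨w, hwr, hw1⟩ := exists_le_setAverage hV0 (volume_cpd_ne_top r₁) (hint.mono_set hsub)
  rw [setAverage_eq, measureReal_def, smul_eq_mul] at hw1
  have h3 : -gtl F C₄ t M₀ c (Em (F.row c) (piv c) q w) ≤
      C * (1 + ∑ i, |Real.log ‖prow (F.row c) i q‖|) * L /
        (volume (cpd (k := n) r₁)).toReal := by
    refine hw1.trans ?_
    rw [div_eq_inv_mul]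
    exact mul_le_mul_of_nonneg_left (h2.trans h1) (inv_nonneg.2 hV.le)
  set x₁ : Cn n := Em (F.row c) (piv c) q w with hx₁
  have hx₁9 : x₁ ∈ opd (k := n) 9 := hE9 w (hsub hwr)
  have hclose : x₁ - q ∈ cpd (k := n) ρ :=
    H.close c q (cpd_mono (by norm_num) (by norm_num) hq2) w hwr
  obtain ⟨h4, h5⟩ := H.overlap c c' w₀ hw hw' ha ha' x₁ hclose
  have h6 : (F.a c').symm (F.a c' ((F.a c).symm x₁)) = (F.a c).symm x₁ := (F.a c').left_inv h4
  refine ⟨(F.model.lab_eq c' w₀ hw').symm, F.a c' ((F.a c).symm x₁), h5, ?_, ?_⟩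
  · rw [h6, ← hqs]
    exact (tau_eq_iff F (opd9 hx₁9) (opd9 (cpd2_9 hq2))).2
      fun i => H.prow_Em c (piv c) (H.hpiv c) q w i
  · have h7 := H.gtl_le ht (M₀ := M₀) (c := c) hx₁9
    have h8 : gtl F C₄ t M₀ c' (F.a c' ((F.a c).symm x₁)) =
        F.Phi t (F.π ((F.a c).symm x₁)) - M₀ +
          C₄ * (1 - t / T) * (nsq (F.a c' ((F.a c).symm x₁)) - 81 * n) := by
      unfold gtl
      rw [h6]
    have h9 := nsq_nonneg (F.a c' ((F.a c).symm x₁))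
    have h10 := mul_nonneg H.C₄0 (one_sub_nonneg ht)
    have h11 : 0 ≤ C₄ * (1 - t / T) * nsq (F.a c' ((F.a c).symm x₁)) := mul_nonneg h10 h9
    rw [h8]
    nlinarith

/-- logarithms of the coordinates of `τ` in different charts -/
theorem log_prow {c : ι} {x : Cn n} (hx : x ∈ opd (k := n) 10)
    (h0 : ∀ i, prow (F.row c) i x ≠ 0) (i : Fin m) :
    Real.log ‖cc (F.τ ((F.a c).symm x)) i‖ =
      Real.log (F.s c i) + Real.log ‖prow (F.row c) i x‖ := by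
  rw [tau_symm F hx i, norm_mul, Complex.norm_real, Real.norm_eq_abs,
    abs_of_pos (F.model.s_pos c i),
    Real.log_mul (F.model.s_pos c i).ne' (norm_ne_zero_iff.2 (h0 i))]

theorem log_le {D₁ : ℝ} (hD₁ : 1 ≤ D₁) {c : ι} (hs : ∑ i, |Real.log (F.s c i)| ≤ D₁ - 1)
    {x : Cn n} (hx : x ∈ opd (k := n) 10) (h0 : ∀ i, prow (F.row c) i x ≠ 0) :
    (1 + ∑ i, |Real.log ‖prow (F.row c) i x‖| ≤
      D₁ * (1 + ∑ i, |Real.log ‖cc (F.τ ((F.a c).symm x)) i‖|)) ∧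
    (1 + ∑ i, |Real.log ‖cc (F.τ ((F.a c).symm x)) i‖| ≤
      D₁ * (1 + ∑ i, |Real.log ‖prow (F.row c) i x‖|)) := by
  have h1 : ∑ i, |Real.log ‖prow (F.row c) i x‖| ≤
      ∑ i, |Real.log ‖cc (F.τ ((F.a c).symm x)) i‖| + ∑ i, |Real.log (F.s c i)| := by
    rw [← Finset.sum_add_distrib]
    refine Finset.sum_le_sum fun i _ => ?_
    rw [log_prow hx h0 i]
    calc |Real.log ‖prow (F.row c) i x‖| =
        |(Real.log (F.s c i) + Real.log ‖prow (F.row c) i x‖) - Real.log (F.s c i)| := by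
          congr 1; ring
      _ ≤ _ := abs_sub _ _
  have h2 : ∑ i, |Real.log ‖cc (F.τ ((F.a c).symm x)) i‖| ≤
      ∑ i, |Real.log ‖prow (F.row c) i x‖| + ∑ i, |Real.log (F.s c i)| := by
    rw [← Finset.sum_add_distrib]
    refine Finset.sum_le_sum fun i _ => ?_
    rw [log_prow hx h0 i, add_comm]
    exact abs_add_le _ _
  have h3 : 0 ≤ ∑ i, |Real.log ‖prow (F.row c) i x‖| := Finset.sum_nonneg fun _ _ => abs_nonneg _
  have h4 : 0 ≤ ∑ i, |Real.log ‖cc (F.τ ((F.a c).symm x)) i‖| :=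
    Finset.sum_nonneg fun _ _ => abs_nonneg _
  constructor <;> nlinarith

theorem isClosed_core [T2Space W] (c : ι) {a : ℝ} (h0 : 0 ≤ a) (h : a < 10) :
    IsClosed {w | w ∈ (F.a c).source ∧ F.a c w ∈ cpd (k := n) a} := by
  have h1 : {w | w ∈ (F.a c).source ∧ F.a c w ∈ cpd (k := n) a} = (F.a c).symm '' cpd a := by
    ext w
    constructor
    · rintro ⟨hw, hw1⟩
      exact ⟨_, hw1, (F.a c).left_inv hw⟩
    · rintro ⟨x, hx, rfl⟩
      have hx' := mem_target F (c := c) (cpd_subset_opd h0 h hx)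
      exact ⟨(F.a c).map_target hx', by rw [(F.a c).right_inv hx']; exact hx⟩
  rw [h1]
  refine ((isCompact_cpd a).image_of_continuousOn ((F.a c).continuousOn_symm.mono ?_)).isClosed
  exact fun x hx => mem_target F (cpd_subset_opd h0 h hx)

/-- every chart which meets the fibre contains a point of the fibre with `g ≥ - L` -/
theorem Inp.level [T2Space W] [Finite ι] (H : Inp F piv C₄ C r r₁ ρ) {D₁ : ℝ} (hD₁ : 1 ≤ D₁)
    (hs : ∀ c, ∑ i, |Real.log (F.s c i)| ≤ D₁ - 1) {t : ℝ} (ht : t ∈ Ico 0 T) {w₀ : W}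
    (h25 : nsq (F.b (F.lab w₀) (F.f (F.π w₀))) ≤ 25) (hτ : ∀ i, cc (F.τ w₀) i ≠ 0) {A L₀ : ℝ}
    (hA : C * (D₁ * (1 + ∑ i, |Real.log ‖cc (F.τ w₀) i‖|)) /
      (volume (cpd (k := n) r₁)).toReal + 1 ≤ A)
    (hL₀ : C₄ * (1 - t / T) * (81 * n) ≤ L₀) {w : W} (hlab : F.lab w = F.lab w₀)
    (hτw : F.τ w = F.τ w₀) {c : ι} (hwc : w ∈ (F.a c).source) (hwc1 : F.a c w ∈ cpd (3 / 2)) :
    Lev F C₄ t (F.Mx t (F.f (F.π w₀))) (F.lab w₀) (F.τ w₀) (A ^ (Nat.card ι + 1) * L₀) c := by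
  have hV0 : volume (cpd (k := n) r₁) ≠ 0 := (volume_cpd_pos H.r₁0).ne'
  have hV : 0 < (volume (cpd (k := n) r₁)).toReal :=
    ENNReal.toReal_pos hV0 (volume_cpd_ne_top r₁)
  have hC0 : 0 ≤ C := zero_le_one.trans H.C1
  have hlog0 : 0 ≤ ∑ i, |Real.log ‖cc (F.τ w₀) i‖| := Finset.sum_nonneg fun _ _ => abs_nonneg _
  have hA0 : 0 ≤ C * (D₁ * (1 + ∑ i, |Real.log ‖cc (F.τ w₀) i‖|)) /
      (volume (cpd (k := n) r₁)).toReal := by positivity
  have hA1 : 1 ≤ A := by linarith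
  have hL₀0 : 0 ≤ L₀ := by
    refine le_trans ?_ hL₀
    have := mul_nonneg H.C₄0 (one_sub_nonneg ht)
    positivity
  -- one step
  have hstep : ∀ (k : ℕ) (c c' : ι) (w : W), F.lab w = F.lab w₀ → F.τ w = F.τ w₀ →
      w ∈ (F.a c).source → w ∈ (F.a c').source → F.a c w ∈ cpd (3 / 2) →
      F.a c' w ∈ cpd (3 / 2) →
      Lev F C₄ t (F.Mx t (F.f (F.π w₀))) (F.lab w₀) (F.τ w₀) (A ^ k * L₀) c →
      Lev F C₄ t (F.Mx t (F.f (F.π w₀))) (F.lab w₀) (F.τ w₀) (A ^ (k + 1) * L₀) c' := by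
    intro k c c' w hlab hτw hw hw' ha ha' hL
    have hfib : F.f (F.π w) = F.f (F.π w₀) := fib_eq F hlab hτw
    rw [← hfib, ← hlab, ← hτw] at hL ⊢
    have h1 := H.step ht hw hw' ha ha' (by rw [hτw]; exact hτ) hL
    refine h1.mono ?_
    have hq10 : F.a c w ∈ opd (k := n) 10 := cpd_subset_opd (by norm_num) (by norm_num) ha
    have hq0 : ∀ i, prow (F.row c) i (F.a c w) ≠ 0 := fun i h => by
      have h1 := F.model.mono c w hw i
      rw [h, mul_zero, hτw] at h1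
      exact hτ i h1
    have h2 := (log_le hD₁ (hs c) hq10 hq0).1
    rw [(F.a c).left_inv hw, hτw] at h2
    have hAk : 1 ≤ A ^ k := one_le_pow₀ hA1
    have hAL : 0 ≤ A ^ k * L₀ := by positivity
    calc C * (1 + ∑ i, |Real.log ‖prow (F.row c) i (F.a c w)‖|) * (A ^ k * L₀) /
          (volume (cpd (k := n) r₁)).toReal + C₄ * (1 - t / T) * (81 * n)
        ≤ C * (D₁ * (1 + ∑ i, |Real.log ‖cc (F.τ w₀) i‖|)) * (A ^ k * L₀) /
          (volume (cpd (k := n) r₁)).toReal + A ^ k * L₀ := by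
          refine add_le_add ?_ (hL₀.trans (le_mul_of_one_le_left hL₀0 hAk))
          gcongr
      _ = (C * (D₁ * (1 + ∑ i, |Real.log ‖cc (F.τ w₀) i‖|)) /
          (volume (cpd (k := n) r₁)).toReal + 1) * (A ^ k * L₀) := by ring
      _ ≤ A * (A ^ k * L₀) := mul_le_mul_of_nonneg_right hA hAL
      _ = A ^ (k + 1) * L₀ := by ring
  -- the start
  obtain ⟨p, hp, hpM⟩ := (H.spec t ht (F.f (F.π w₀))).1
  obtain ⟨w₁, hw₁, hw₁τ, hw₁p⟩ := F.model.onto (F.lab w₀) p (by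
      rw [hp]; exact (F.model.base w₀).1) (by rw [hp]; exact h25) (F.τ w₀) (fun i => by
      rw [hp]; exact ((F.model.base w₀).2 i).symm)
  have hcov : ∀ w, F.lab w = F.lab w₀ → F.τ w = F.τ w₀ →
      ∃ c, w ∈ (F.a c).source ∧ F.a c w ∈ cpd 1 := fun w h1 h2 =>
    F.model.cover w (by rw [fib_eq F h1 h2, h1]; exact h25)
  obtain ⟨c₀, hc₀, hc₀1⟩ := hcov w₁ hw₁ hw₁τ
  have hG0 : Lev F C₄ t (F.Mx t (F.f (F.π w₀))) (F.lab w₀) (F.τ w₀) (A ^ 0 * L₀) c₀ := by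
    refine ⟨(F.model.lab_eq c₀ w₁ hc₀).symm.trans hw₁, F.a c₀ w₁,
      cpd_mono (by norm_num) (by norm_num) hc₀1, by rw [(F.a c₀).left_inv hc₀, hw₁τ], ?_⟩
    unfold gtl
    rw [(F.a c₀).left_inv hc₀, hw₁p, hpM, pow_zero, one_mul]
    have h10 := mul_nonneg H.C₄0 (one_sub_nonneg ht)
    have h11 : 0 ≤ C₄ * (1 - t / T) * nsq (F.a c₀ w₁) := mul_nonneg h10 (nsq_nonneg _)
    nlinarith
  -- the chain
  have hS := F.model.connected (F.lab w₀) (F.τ w₀) hτ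
  have key := level_of_cover hS (fun c => {w | w ∈ (F.a c).source ∧ F.a c w ∈ cpd (k := n) 1})
    (fun c => isClosed_core c (by norm_num) (by norm_num))
    (fun w hw => by
      obtain ⟨c, hc⟩ := hcov w hw.1 hw.2
      exact mem_iUnion.2 ⟨c, hc⟩)
    (fun k c => Lev F C₄ t (F.Mx t (F.f (F.π w₀))) (F.lab w₀) (F.τ w₀) (A ^ k * L₀) c) c₀
    ⟨w₁, ⟨hw₁, hw₁τ⟩, hc₀, hc₀1⟩ hG0
    (fun k c h => h.mono (by
      rw [pow_succ]
      have hAk : 0 ≤ A ^ k := by positivity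
      nlinarith [mul_nonneg hAk hL₀0]))
    (fun k c c' h hne => by
      obtain ⟨w, ⟨hwl, hwτ⟩, ⟨hwc, hwc1⟩, hwc', hwc1'⟩ := hne
      exact hstep k c c' w hwl hwτ hwc hwc' (cpd_mono (by norm_num) (by norm_num) hwc1)
        (cpd_mono (by norm_num) (by norm_num) hwc1') h)
  obtain ⟨c₁, hc₁, hc₁1⟩ := hcov w hlab hτw
  have h1 := key c₁ ⟨w, ⟨hlab, hτw⟩, hc₁, hc₁1⟩
  exact hstep _ c₁ c w hlab hτw hc₁ hwc (cpd_mono (by norm_num) (by norm_num) hc₁1) hwc1 h1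

/-- the final estimate -/
theorem Inp.final [T2Space W] [Finite ι] (H : Inp F piv C₄ C r r₁ ρ) {D₁ : ℝ} (hD₁ : 1 ≤ D₁)
    (hs : ∀ c, ∑ i, |Real.log (F.s c i)| ≤ D₁ - 1) {t : ℝ} (ht : t ∈ Ico 0 T) (c : ι)
    {piv' : Fin m → Fin n} (hpiv' : ∀ i, F.row c (piv' i) = some i) {q : Cn n}
    (hq : q ∈ cpd (k := n) (3 / 2)) (hq0 : ∀ i, prow (F.row c) i q ≠ 0)
    (hy : nsq (F.yc c q) ≤ 25) :
    ∫ w in cpd (k := n) r, -F.gc t c (Em (F.row c) piv' q w) ≤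
      C * (((C * D₁ / (volume (cpd (k := n) r₁)).toReal + 1) * D₁) ^ (Nat.card ι + 1)) *
        (C₄ * 81 * n / T) * (T - t) *
        (1 + ∑ i, |Real.log ‖prow (F.row c) i q‖|) ^ (Nat.card ι + 2) := by
  have hT : 0 < T := ht.1.trans_lt ht.2
  have hV0 : volume (cpd (k := n) r₁) ≠ 0 := (volume_cpd_pos H.r₁0).ne'
  have hV : 0 < (volume (cpd (k := n) r₁)).toReal :=
    ENNReal.toReal_pos hV0 (volume_cpd_ne_top r₁)
  have hC0 : 0 ≤ C := zero_le_one.trans H.C1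
  have hq2 : q ∈ cpd (k := n) 2 := cpd_mono (by norm_num) (by norm_num) hq
  have hq10 : q ∈ opd (k := n) 10 := opd9 (cpd2_9 hq2)
  have hqt := mem_target F (c := c) hq10
  set w₀ : W := (F.a c).symm q with hw₀
  have hw₀s : w₀ ∈ (F.a c).source := (F.a c).map_target hqt
  have haw : F.a c w₀ = q := (F.a c).right_inv hqt
  have hlab : F.lab w₀ = F.pc c := lab_symm F hq10
  have hτ : ∀ i, cc (F.τ w₀) i ≠ 0 := fun i => by
    rw [hw₀, tau_symm F hq10 i]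
    exact mul_ne_zero (Complex.ofReal_ne_zero.2 (F.model.s_pos c i).ne') (hq0 i)
  have h25 : nsq (F.b (F.lab w₀) (F.f (F.π w₀))) ≤ 25 := by
    rw [hlab]
    exact hy
  set R₀ : ℝ := 1 + ∑ i, |Real.log ‖cc (F.τ w₀) i‖| with hR₀
  set R : ℝ := 1 + ∑ i, |Real.log ‖prow (F.row c) i q‖| with hR
  have hR₀1 : 1 ≤ R₀ := by
    have : 0 ≤ ∑ i, |Real.log ‖cc (F.τ w₀) i‖| := Finset.sum_nonneg fun _ _ => abs_nonneg _
    linarith
  have hR1 : 1 ≤ R := by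
    have : 0 ≤ ∑ i, |Real.log ‖prow (F.row c) i q‖| := Finset.sum_nonneg fun _ _ => abs_nonneg _
    linarith
  have hR₀R : R₀ ≤ D₁ * R := (log_le hD₁ (hs c) hq10 hq0).2
  set A : ℝ := (C * D₁ / (volume (cpd (k := n) r₁)).toReal + 1) * R₀ with hAdef
  have hCV : 0 ≤ C * D₁ / (volume (cpd (k := n) r₁)).toReal := by positivity
  have hA : C * (D₁ * R₀) / (volume (cpd (k := n) r₁)).toReal + 1 ≤ A := by
    rw [hAdef, add_mul, one_mul]
    refine add_le_add (le_of_eq (by ring)) hR₀1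
  set L₀ : ℝ := C₄ * (1 - t / T) * (81 * n) with hL₀
  have hL₀0 : 0 ≤ L₀ := by
    have := mul_nonneg H.C₄0 (one_sub_nonneg ht)
    positivity
  obtain ⟨-, x, hx, hxτ, hxL⟩ := H.level hD₁ hs ht h25 hτ hA le_rfl rfl rfl hw₀s
    (by rw [haw]; exact hq)
  have hpq : ∀ i, prow (F.row c) i x = prow (F.row c) i q :=
    (tau_eq_iff F (opd9 (cpd2_9 hx)) hq10).1 hxτ
  have h1 := H.reach ht hpiv' hx hq2 (y := F.f (F.π w₀)) rfl hq0 hpq hxL
  rw [← hR] at h1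
  set M₀ : ℝ := F.Mx t (F.f (F.π w₀)) with hM₀
  have hE9 : ∀ w ∈ cpd (k := n) r, Em (F.row c) piv' q w ∈ opd 9 := (H.prop c piv' hpiv').1 q hq2
  have hfib : ∀ w ∈ cpd (k := n) r, F.f (F.π ((F.a c).symm (Em (F.row c) piv' q w))) =
      F.f (F.π w₀) := fun w hw =>
    fib_eq F ((lab_symm F (opd9 (hE9 w hw))).trans (lab_symm F hq10).symm)
      ((tau_eq_iff F (opd9 (hE9 w hw)) hq10).2 fun i => H.prow_Em c piv' hpiv' q w i)
  have hle : ∀ w ∈ cpd (k := n) r, -F.gc t c (Em (F.row c) piv' q w) ≤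
      -gtl F C₄ t M₀ c (Em (F.row c) piv' q w) := fun w hw => by
    have h2 := H.gtl_le ht (M₀ := M₀) (c := c) (hE9 w hw)
    unfold Mod.gc
    rw [hfib w hw]
    linarith
  have hint : IntegrableOn (fun w => -gtl F C₄ t M₀ c (Em (F.row c) piv' q w))
      (cpd (k := n) r) volume :=
    integrableOn_Em (H.cont c piv') (H.contDiffOn_gtl ht M₀ c).continuousOn hE9
  have hint2 : IntegrableOn (fun w => -F.gc t c (Em (F.row c) piv' q w))
      (cpd (k := n) r) volume := by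
    have h3 : IntegrableOn (fun w => -(fun x => F.Phi t (F.π ((F.a c).symm x)) - M₀)
        (Em (F.row c) piv' q w)) (cpd (k := n) r) volume :=
      integrableOn_Em (H.cont c piv') (((H.smooth t ht c).continuousOn.mono
        fun x hx => opd9 hx).sub continuousOn_const) hE9
    refine h3.congr_fun (fun w hw => ?_) (isCompact_cpd r).measurableSet
    simp only [Mod.gc]
    rw [hfib w hw]
  have h4 : ∫ w in cpd (k := n) r, -F.gc t c (Em (F.row c) piv' q w) ≤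
      ∫ w in cpd (k := n) r, -gtl F C₄ t M₀ c (Em (F.row c) piv' q w) :=
    setIntegral_mono_on hint2 hint (isCompact_cpd r).measurableSet hle
  refine h4.trans (h1.trans ?_)
  have hA0 : 0 ≤ A := by positivity
  have hAle : A ≤ (C * D₁ / (volume (cpd (k := n) r₁)).toReal + 1) * D₁ * R := by
    rw [hAdef, mul_assoc _ D₁ R]
    exact mul_le_mul_of_nonneg_left hR₀R (by linarith)
  have hL₀eq : L₀ = C₄ * 81 * n / T * (T - t) := by
    rw [hL₀]
    field_simp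
  calc C * R * (A ^ (Nat.card ι + 1) * L₀)
      ≤ C * R * (((C * D₁ / (volume (cpd (k := n) r₁)).toReal + 1) * D₁ * R) ^
        (Nat.card ι + 1) * L₀) := by gcongr
    _ = _ := by
      rw [hL₀eq, mul_pow _ R]
      ring

end Chn

/-- the chain of charts, from the other modules -/
theorem Mod.chain_of {n m : ℕ} {M Y W : Type} [TopologicalSpace M]
    [TopologicalSpace Y] [TopologicalSpace W] [T2Space W] {κ P ι : Type}
    [Fintype ι] {T : ℝ} (F : Mod n m M Y W κ P ι T)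
    (hprow : ∀ (row : Fin n → Option (Fin m)) (piv : Fin m → Fin n),
      (∀ i, row (piv i) = some i) → ∀ (q w : Cn n) (i : Fin m),
      prow row i (Em row piv q w) = prow row i q)
    (hcont : ∀ (row : Fin n → Option (Fin m)) (piv : Fin m → Fin n),
      Continuous fun p : Cn n × Cn n => Em row piv p.1 p.2)
    (hclose : ∀ (row : Fin n → Option (Fin m)) (piv : Fin m → Fin n),
      ∃ C : ℝ, 0 < C ∧ ∀ q ∈ cpd (k := n) 9, ∀ r ∈ Icc (0 : ℝ) 1, ∀ w ∈ cpd (k := n) r,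
        Em row piv q w - q ∈ cpd (k := n) (C * r))
    (hprop : ∀ (row : Fin n → Option (Fin m)) (piv : Fin m → Fin n),
      (∀ i, row (piv i) = some i) →
      ∃ C r : ℝ, 0 < C ∧ 0 < r ∧ r ≤ 1 ∧
      (∀ q ∈ cpd (k := n) 2, ∀ w ∈ cpd (k := n) r, Em row piv q w ∈ opd 9) ∧
      ∀ (g : Cn n → ℝ) (p q : Cn n) (L : ℝ), ContDiffOn ℝ ∞ g (opd 9) →
      p ∈ cpd 2 → q ∈ cpd 2 → (∀ i, prow row i q ≠ 0) → (∀ i, prow row i p = prow row i q) →
      (∀ x ∈ opd (k := n) 9, (∀ i, prow row i x = prow row i q) → g x ≤ 0) →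
      (∀ w, Em row piv q w ∈ opd 9 → ∀ u, 0 ≤ levz (fun w => g (Em row piv q w)) u w) →
      -L ≤ g p →
      ∫ w in cpd (k := n) r, -g (Em row piv q w) ≤
        C * (1 + ∑ i, |Real.log ‖prow row i q‖|) * L)
    (hspec : ∀ t ∈ Ico 0 T, ∀ y : Y, (∃ p, F.f p = y ∧ F.Phi t p = F.Mx t y) ∧
      ∀ p, F.f p = y → F.Phi t p ≤ F.Mx t y)
    (hfib : ∃ C : ℝ, 0 ≤ C ∧ ∀ t ∈ Ico 0 T, ∀ c, ∀ q ∈ opd (k := n) 9, ∀ M₀ : ℝ,
      ∀ piv : Fin m → Fin n, (∀ i, F.row c (piv i) = some i) → ∀ w,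
      Em (F.row c) piv q w ∈ opd 9 → ∀ u,
      0 ≤ levz (fun w => F.Phi t (F.π ((F.a c).symm (Em (F.row c) piv q w))) - M₀ +
        C * (1 - t / T) * (nsq (Em (F.row c) piv q w) - 81 * n)) u w)
    (hsmooth : ∀ t ∈ Ico 0 T, ∀ c : ι,
      ContDiffOn ℝ ∞ (fun x => F.Phi t (F.π ((F.a c).symm x))) (opd 10))
    (hover : ∃ r : ℝ, 0 < r ∧ ∀ c c' : ι, ∀ w,
      w ∈ (F.a c).source → w ∈ (F.a c').source → F.a c w ∈ cpd (3 / 2) →
      F.a c' w ∈ cpd (3 / 2) → ∀ x, x - F.a c w ∈ cpd (k := n) r →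
      (F.a c).symm x ∈ (F.a c').source ∧ F.a c' ((F.a c).symm x) ∈ cpd 2) :
    ∃ (C r : ℝ) (B : ℕ), 1 ≤ C ∧ 0 < r ∧ r ≤ 1 ∧ ∀ t ∈ Ico 0 T, ∀ c,
    ∀ piv : Fin m → Fin n, (∀ i, F.row c (piv i) = some i) →
    ∀ q ∈ cpd (k := n) (3 / 2), (∀ i, prow (F.row c) i q ≠ 0) → nsq (F.yc c q) ≤ 20 →
    (∀ w ∈ cpd (k := n) r, Em (F.row c) piv q w ∈ opd 9) ∧
    ∫ w in cpd (k := n) r, -F.gc t c (Em (F.row c) piv q w) ≤
      C * (T - t) * (1 + ∑ i, |Real.log ‖prow (F.row c) i q‖|) ^ B := by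
  obtain ⟨C₄, hC₄, hfib⟩ := hfib
  obtain ⟨ρ, hρ, hover⟩ := hover
  -- pivots
  have hex : ∀ c : ι, ∃ piv : Fin m → Fin n, ∀ i, F.row c (piv i) = some i := fun c => by
    choose piv hpiv using F.model.row_ne c
    exact ⟨piv, hpiv⟩
  choose piv hpiv using hex
  -- uniform constants for `propagate`
  choose Cp rp hCp hrp hrp1 hPE hPI using
    fun a : {a : ι × (Fin m → Fin n) // ∀ i, F.row a.1 (a.2 i) = some i} =>
      hprop (F.row a.1.1) a.1.2 a.2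
  obtain ⟨C, hC1, hC⟩ := Chn.exists_ub Cp
  obtain ⟨r, hr0, hr1, hr⟩ := Chn.exists_lb rp hrp
  have hprop' : ∀ (c : ι) (piv' : Fin m → Fin n), (∀ i, F.row c (piv' i) = some i) →
      Chn.PropOK (F.row c) piv' C r := fun c piv' hpiv' => by
    have h : Chn.PropOK (F.row c) piv' (Cp ⟨(c, piv'), hpiv'⟩) (rp ⟨(c, piv'), hpiv'⟩) :=
      ⟨hPE ⟨(c, piv'), hpiv'⟩, hPI ⟨(c, piv'), hpiv'⟩⟩
    exact h.mono (hprow (F.row c) piv' hpiv') (hcont (F.row c) piv') (hC _) hr0.le (hr _)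
  -- the small radius
  choose Cc hCc hclo using fun c : ι => hclose (F.row c) (piv c)
  obtain ⟨Cm, hCm1, hCm⟩ := Chn.exists_ub Cc
  have hCm0 : 0 < Cm := zero_lt_one.trans_le hCm1
  set r₁ : ℝ := min r (ρ / Cm) with hr₁
  have hr₁0 : 0 < r₁ := lt_min hr0 (div_pos hρ hCm0)
  have hr₁r : r₁ ≤ r := min_le_left _ _
  have H : Chn.Inp F piv C₄ C r r₁ ρ :=
    { C₄0 := hC₄
      C1 := hC1
      r₁0 := hr₁0
      r₁r := hr₁r
      spec := hspec
      hpiv := hpiv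
      prow_Em := fun c piv' hpiv' => hprow (F.row c) piv' hpiv'
      cont := fun c piv' => hcont (F.row c) piv'
      prop := hprop'
      close := fun c q hq w hw => by
        refine Chn.cpd_mono (mul_nonneg (hCc c).le hr₁0.le) ?_
          (hclo c q hq r₁ ⟨hr₁0.le, hr₁r.trans hr1⟩ w hw)
        calc Cc c * r₁ ≤ Cm * (ρ / Cm) :=
              mul_le_mul (hCm c) (min_le_right _ _) hr₁0.le hCm0.le
          _ = ρ := by field_simp
      overlap := hover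
      fib := hfib
      smooth := hsmooth }
  obtain ⟨D₁, hD₁1, hD₁⟩ := Chn.exists_ub fun c : ι => ∑ i, |Real.log (F.s c i)| + 1
  refine ⟨max 1 (C * (((C * D₁ / (volume (cpd (k := n) r₁)).toReal + 1) * D₁) ^
    (Nat.card ι + 1)) * (C₄ * 81 * n / T)), r, Nat.card ι + 2, le_max_left _ _, hr0, hr1,
    fun t ht c piv' hpiv' q hq hq0 hy => ?_⟩
  refine ⟨(hprop' c piv' hpiv').1 q (Chn.cpd_mono (by norm_num) (by norm_num) hq), ?_⟩
  refine (H.final hD₁1 (fun c => by linarith [hD₁ c]) ht c hpiv' hq hq0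
    (hy.trans (by norm_num))).trans ?_
  have h1 : 0 < T - t := by linarith [ht.2]
  have h2 : 0 ≤ ∑ i, |Real.log ‖prow (F.row c) i q‖| := Finset.sum_nonneg fun _ _ => abs_nonneg _
  gcongr
  exact le_max_right _ _

end Pool.Agent.KRFG
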