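import Pool.Agent.Work.MP_a2bf38_gt.K.DropOf
import Pool.Agent.Work.MP_a2bf38_gt.I.GapB

/-!
# The contact set: a finite cover, and the estimate on a ball
-/

open scoped ContDiff ENNReal ComplexOrder Topology
open Set MeasureTheory Filter Pool.Agent.ToricKRF Pool.Agent.ToricKRF.G Pool.Agent.KRFS
  Pool.Agent.KRFF

namespace Pool.Agent.KRFG

namespace Ct

theorem nsq_add_le {n : ℕ} (a b : Cn n) : nsq (a + b) ≤ 2 * nsq a + 2 * nsq b := by
  rw [Gap.nsq_eq, Gap.nsq_eq, Gap.nsq_eq, Finset.mul_sum, Finset.mul_sum,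
    ← Finset.sum_add_distrib]
  refine Finset.sum_le_sum fun i _ => ?_
  simp only [Prod.fst_add, Prod.snd_add, Pi.add_apply]
  nlinarith [sq_nonneg (a.1 i - b.1 i), sq_nonneg (a.2 i - b.2 i)]

/-- a ball of radius `r` around a point of the ball of radius `r` -/
theorem ball_in {n : ℕ} {x y z : Cn n} {r : ℝ} (h1 : nsq (y - x) ≤ r ^ 2)
    (h2 : nsq (z - y) ≤ r ^ 2) : nsq (z - x) ≤ (2 * r) ^ 2 := by
  have h3 := nsq_add_le (z - y) (y - x)
  rw [sub_add_sub_cancel] at h3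
  nlinarith

/-- a finite cover by coordinate balls, such that the balls of twice the radius are in given
neighbourhoods of their centres -/
theorem exists_balls {n : ℕ} {M : Type} [TopologicalSpace M] [CompactSpace M] {κ : Type}
    {e : κ → OpenPartialHomeomorph M (Cn n)} (hcov : ∀ p, ∃ c, p ∈ (e c).source)
    {G : M → Set M} (hG : ∀ x, G x ∈ 𝓝 x) :
    ∃ (I : Finset M) (c : M → κ) (r : M → ℝ), (∀ x, x ∈ (e (c x)).source) ∧
      (∀ x, 0 < r x ∧ ∀ z, nsq (z - e (c x) x) ≤ (2 * r x) ^ 2 →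
        z ∈ (e (c x)).target ∧ (e (c x)).symm z ∈ G x) ∧
      ∀ p, ∃ x ∈ I, p ∈ (e (c x)).source ∧ nsq (e (c x) p - e (c x) x) ≤ r x ^ 2 := by
  choose c hc using hcov
  have h1 : ∀ x, ∃ r > 0, ∀ z, nsq (z - e (c x) x) ≤ (2 * r) ^ 2 →
      z ∈ (e (c x)).target ∧ (e (c x)).symm z ∈ G x := by
    intro x
    have hS : {z | z ∈ (e (c x)).target ∧ (e (c x)).symm z ∈ G x} ∈ 𝓝 (e (c x) x) := by
      have h2 := (e (c x)).map_source (hc x)
      have h3 := (e (c x)).continuousAt_symm h2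
      rw [ContinuousAt, (e (c x)).left_inv (hc x)] at h3
      filter_upwards [(e (c x)).open_target.mem_nhds h2, h3 (hG x)] with z hz hz'
      exact ⟨hz, hz'⟩
    obtain ⟨r, hr, -, hsub⟩ := exists_ball hS
    refine ⟨r / 2, by positivity, fun z hz => hsub ?_⟩
    have h4 : 2 * (r / 2) = r := by ring
    rw [h4] at hz
    exact hz
  choose r hr hr' using h1
  have h2 : ∀ x, {p | p ∈ (e (c x)).source ∧ nsq (e (c x) p - e (c x) x) ≤ r x ^ 2} ∈ 𝓝 x := by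
    intro x
    have h3 := (e (c x)).continuousAt (hc x)
    have h4 : ContinuousAt (fun p => nsq (e (c x) p - e (c x) x)) x :=
      ContinuousAt.comp (f := fun p => e (c x) p - e (c x) x) (g := nsq)
        Gap.contDiff_nsq'.continuous.continuousAt (h3.sub continuousAt_const)
    have h5 : nsq (e (c x) x - e (c x) x) < r x ^ 2 := by
      rw [sub_self, Gap.nsq_zero]
      have := hr x
      positivity
    filter_upwards [(e (c x)).open_source.mem_nhds (hc x), h4.eventually_lt_const h5] with p hp hp'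
    exact ⟨hp, hp'.le⟩
  obtain ⟨I, -, hI⟩ := isCompact_univ.elim_nhds_subcover _ fun x _ => h2 x
  refine ⟨I, c, r, hc, fun x => ⟨hr x, hr' x⟩, fun p => ?_⟩
  have h3 := hI (mem_univ p)
  rw [mem_iUnion₂] at h3
  obtain ⟨x, hx, h4, h5⟩ := h3
  exact ⟨x, hx, h4, h5⟩

end Ct

section Mod

variable {n m : ℕ} {M Y W : Type} [TopologicalSpace M] [TopologicalSpace Y]
  [TopologicalSpace W] {κ P ι : Type} {T : ℝ} (F : Mod n m M Y W κ P ι T)

theorem Mod.det_le {c : κ} {t : ℝ} (ht : t ∈ Ico 0 T) {z : Cn n} (hz : z ∈ (F.e c).target)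
    {Cd C : ℝ} (hd : F.dphi c (t, z) ≤ Cd) (hΩ : F.Ω c z ≤ C) :
    (cHess (F.ψ c) (t, z)).det.re ≤ C * Real.exp Cd := by
  have h1 := Gap.det_pos' F.toFlow ht hz
  have h2 := F.vol.pos c z hz
  have h3 : Real.log (cHess (F.ψ c) (t, z)).det.re ≤ Real.log (F.Ω c z) + Cd := by
    have : F.dphi c (t, z) = Real.log (cHess (F.ψ c) (t, z)).det.re - Real.log (F.Ω c z) := rfl
    linarith
  have h4 := Real.exp_le_exp.2 h3
  rw [Real.exp_log h1, Real.exp_add, Real.exp_log h2] at h4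
  exact h4.trans (mul_le_mul_of_nonneg_right hΩ (Real.exp_pos _).le)

/-- the estimate on a ball -/
theorem Mod.contact_ball {Ca : ℝ} (hCa : 0 < Ca)
    (habp : ∀ (v : Cn n → ℝ) (f : ℝ × Cn n → ℝ) (t : ℝ)
      (V : Set (Cn n)) (U : Set (ℝ × Cn n)) (z₀ : Cn n) (r ε D₁ : ℝ),
      IsOpen V → ContDiffOn ℝ ∞ v V → IsOpen U → ContDiffOn ℝ ∞ f U → 0 < r → 0 < ε →
      {z | nsq (z - z₀) ≤ r ^ 2} ⊆ V →
      (∀ z, nsq (z - z₀) ≤ r ^ 2 → (t, z) ∈ U ∧ (cHess f (t, z)).PosDef ∧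
        (cHess f (t, z)).det.re ≤ D₁ ∧ ∀ u, levz v u z ≤ lev f u (t, z)) →
      (∀ z, nsq (z - z₀) = r ^ 2 → v z₀ + ε ≤ v z) →
      ENNReal.ofReal ((ε / r) ^ (2 * n)) ≤ ENNReal.ofReal (Ca * D₁ ^ 2) *
        volume {z | nsq (z - z₀) ≤ r ^ 2 ∧ v z ≤ v z₀ + ε})
    {t : ℝ} (ht : t ∈ Ico 0 T) {c : κ} {j : P} {z₀ : Cn n} {r C₁ D₁ : ℝ} (hr : 0 < r)
    (hC₁ : 0 < C₁) (hD₁ : 0 < D₁) {G : Cn m → ℝ}
    (hG : ∀ ε > 0, ∃ (u' : Cn m → ℝ) (V' : Set (Cn m)), IsOpen V' ∧ {y | nsq y ≤ 16} ⊆ V' ∧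
      ContDiffOn ℝ ∞ u' V' ∧ (∀ z ∈ V', ∀ v, 0 ≤ levz u' v z) ∧
      ∀ z ∈ V', |u' z - (G z + t / T * F.K j z)| ≤ ε)
    (hball : ∀ z, nsq (z - z₀) ≤ r ^ 2 → z ∈ (F.e c).target ∧
      F.f ((F.e c).symm z) ∈ (F.b j).source ∧ nsq (F.b j (F.f ((F.e c).symm z))) < 16 ∧
      (∀ u, nsq u ≤ C₁ * lev (F.ψ c) u (0, z)) ∧ (cHess (F.ψ c) (t, z)).det.re ≤ D₁)
    (hmin : ∀ z, nsq (z - z₀) ≤ r ^ 2 →
      F.Phi t ((F.e c).symm z₀) - G (F.b j (F.f ((F.e c).symm z₀))) ≤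
        F.Phi t ((F.e c).symm z) - G (F.b j (F.f ((F.e c).symm z)))) :
    ∃ S ⊆ {z | nsq (z - z₀) ≤ r ^ 2}, MeasurableSet S ∧
      ENNReal.ofReal (((1 - t / T) * r / (2 * C₁)) ^ (2 * n) / (Ca * D₁ ^ 2)) ≤ volume S ∧
      ∀ z ∈ S, F.Phi t ((F.e c).symm z) - G (F.b j (F.f ((F.e c).symm z))) ≤
        F.Phi t ((F.e c).symm z₀) - G (F.b j (F.f ((F.e c).symm z₀))) +
          (1 - t / T) / C₁ * r ^ 2 := by
  have hT : 0 < T := ht.1.trans_lt ht.2
  have h0T : (0 : ℝ) ∈ Ico 0 T := ⟨le_rfl, hT⟩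
  have hd0 : 0 < 1 - t / T := by
    rw [sub_pos, div_lt_one hT]
    exact ht.2
  set y : Cn n → Cn m := fun z => F.b j (F.f ((F.e c).symm z)) with hydef
  set S₀ : Set (Cn n) := {z | z ∈ (F.e c).target ∧ F.f ((F.e c).symm z) ∈ (F.b j).source} with hS₀
  have hfs : ContinuousOn (fun z => F.f ((F.e c).symm z)) (F.e c).target :=
    F.hol.cont.comp_continuousOn (F.e c).continuousOn_symm
  have hS₀o : IsOpen S₀ := hfs.isOpen_inter_preimage (F.e c).open_target (F.b j).open_source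
  have hyhol : HolOn y S₀ := F.hol.holo c j
  have hycont : ContinuousOn y S₀ := hyhol.1.continuousOn
  have hyS : ContDiffOn ℝ ∞ y S₀ := hyhol.1
  set Λ : ℝ := (1 - t / T) / C₁ with hΛ
  have hΛ0 : 0 < Λ := by positivity
  set ε : ℝ := Λ * r ^ 2 / 2 with hε
  set δ : ℝ := Λ * r ^ 2 / 4 with hδ
  have hε0 : 0 < ε := by positivity
  have hδ0 : 0 < δ := by positivity
  obtain ⟨u', V', hV', hsubV, hu', hpsh, hclose⟩ := hG δ hδ0
  set B : Set (Cn n) := {z | nsq (z - z₀) ≤ r ^ 2} with hB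
  have hz₀B : z₀ ∈ B := by
    simp only [hB, mem_ofPred_eq, sub_self, Gap.nsq_zero]
    positivity
  have hBS : ∀ z ∈ B, z ∈ S₀ := fun z hz => ⟨(hball z hz).1, (hball z hz).2.1⟩
  have hBy : ∀ z ∈ B, nsq (y z) < 16 := fun z hz => (hball z hz).2.2.1
  set S₁ : Set (Cn n) := S₀ ∩ y ⁻¹' V' with hS₁
  have hS₁o : IsOpen S₁ := hycont.isOpen_inter_preimage hS₀o hV'
  have hBS₁ : B ⊆ S₁ := fun z hz => ⟨hBS z hz, hsubV (hBy z hz).le⟩
  obtain ⟨Uφ, hUφ, hUφs, hφ⟩ := F.toFlow.phi_isFun.smooth c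
  have hSφ : ContDiffOn ℝ ∞ (fun z => F.phi c (t, z)) S₁ :=
    hφ.comp (contDiff_const.prodMk contDiff_id).contDiffOn fun z hz => hUφs ⟨ht, hz.1.1⟩
  have hSK : ContDiffOn ℝ ∞ (fun z => F.K j (y z)) S₁ :=
    ((F.lim.smooth j).comp hyS fun z hz => (F.b j).map_source hz.2).mono inter_subset_left
  have hu'y : ContDiffOn ℝ ∞ (fun z => u' (y z)) S₁ :=
    hu'.comp (hyS.mono inter_subset_left) fun z hz => hz.2
  have hSn : ContDiffOn ℝ ∞ (fun z => nsq (z - z₀)) S₁ :=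
    (Gap.contDiff_nsq'.comp (contDiff_id.sub contDiff_const)).contDiffOn
  set v : Cn n → ℝ := fun z => F.phi c (t, z) + t / T * F.K j (y z) - u' (y z) +
    Λ * nsq (z - z₀) with hv
  have hvs : ContDiffOn ℝ ∞ v S₁ :=
    ((hSφ.add (contDiffOn_const.mul hSK)).sub hu'y).add (contDiffOn_const.mul hSn)
  have hPhi : ∀ z ∈ B, F.Phi t ((F.e c).symm z) = F.phi c (t, z) := fun z hz => by
    rw [F.toFlow.Phi_eq ht ((F.e c).map_target (hBS z hz).1), (F.e c).right_inv (hBS z hz).1]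
  -- comparison of `v`
  have hvle : ∀ z ∈ B, v z ≤ F.Phi t ((F.e c).symm z) - G (y z) + δ + Λ * nsq (z - z₀) := by
    intro z hz
    have h1 := (abs_le.1 (hclose (y z) (hsubV (hBy z hz).le))).1
    rw [hPhi z hz]
    simp only [hv]
    linarith
  have hlev : ∀ z ∈ B, F.Phi t ((F.e c).symm z) - G (y z) - δ + Λ * nsq (z - z₀) ≤ v z := by
    intro z hz
    have h1 := (abs_le.1 (hclose (y z) (hsubV (hBy z hz).le))).2
    rw [hPhi z hz]
    simp only [hv]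
    linarith
  have hv0 : v z₀ ≤ F.Phi t ((F.e c).symm z₀) - G (y z₀) + δ := by
    have h1 := hvle z₀ hz₀B
    rw [sub_self, Gap.nsq_zero] at h1
    linarith
  obtain ⟨U, hU, hUsub, hψU⟩ := F.krf.smooth c
  have hABP := habp v (F.ψ c) t S₁ U z₀ r ε D₁ hS₁o hvs hU hψU hr hε0 hBS₁
    (by
      intro z hz
      have hzS₁ := hBS₁ hz
      have hzt := hzS₁.1.1
      obtain ⟨-, -, -, g1, g2⟩ := hball z hz
      refine ⟨hUsub ⟨ht, hzt⟩, F.krf.pos c t ht z hzt, g2, fun u => ?_⟩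
      have hn : S₁ ∈ 𝓝 z := hS₁o.mem_nhds hzS₁
      have a1 : ContDiffAt ℝ 2 (fun z => F.phi c (t, z)) z :=
        (hSφ.contDiffAt hn).of_le two_le_infty
      have a2 : ContDiffAt ℝ 2 (fun z => F.K j (y z)) z := (hSK.contDiffAt hn).of_le two_le_infty
      have a3 : ContDiffAt ℝ 2 (fun z => u' (y z)) z := (hu'y.contDiffAt hn).of_le two_le_infty
      have a5 : ContDiffAt ℝ 2 (fun z => nsq (z - z₀)) z := (hSn.contDiffAt hn).of_le two_le_infty
      have a2' : ContDiffAt ℝ 2 (fun z => t / T * F.K j (y z)) z := contDiffAt_const.mul a2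
      have a5' : ContDiffAt ℝ 2 (fun z => Λ * nsq (z - z₀)) z := contDiffAt_const.mul a5
      have e0 : levz v u z = levz (fun z => F.phi c (t, z)) u z +
          t / T * levz (fun z => F.K j (y z)) u z - levz (fun z => u' (y z)) u z +
          Λ * nsq u := by
        rw [hv, Bd.levz_add ((a1.add a2').sub a3) a5', Bd.levz_sub (a1.add a2') a3,
          Bd.levz_add a1 a2', Bd.levz_const_mul _ a2, Bd.levz_const_mul _ a5, Gap.levz_nsq]
      rw [e0, levz_slice hUφ hφ (hUφs ⟨ht, hzt⟩), F.toFlow.lev_phi ht hzt]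
      have e1 : levz (fun z => F.K j (y z)) u z = levz (F.Θ c) u z := by
        rw [← F.theta c z hzt u]
        exact (F.lim.eq c j z hzt hzS₁.1.2 u).symm
      have e2 : 0 ≤ levz (fun z => u' (y z)) u z := by
        rw [levz_comp hV' hu' hS₀o hyhol hzS₁.1 hzS₁.2]
        exact hpsh _ hzS₁.2 _
      have e3 : Λ * nsq u ≤ (1 - t / T) * lev (F.ψ c) u (0, z) := by
        have g5 := g1 u
        rw [hΛ, div_mul_eq_mul_div, div_le_iff₀ hC₁]
        calc (1 - t / T) * nsq u ≤ (1 - t / T) * (C₁ * lev (F.ψ c) u (0, z)) :=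
              mul_le_mul_of_nonneg_left g5 hd0.le
          _ = (1 - t / T) * lev (F.ψ c) u (0, z) * C₁ := by ring
      rw [e1]
      linarith)
    (by
      intro z hz
      have h1 := hlev z hz.le
      have h2 := hmin z hz.le
      rw [hz] at h1
      have h3 : ε + 2 * δ = Λ * r ^ 2 := by
        rw [hε, hδ]
        ring
      linarith)
  refine ⟨{z | nsq (z - z₀) ≤ r ^ 2 ∧ v z ≤ v z₀ + ε}, fun z hz => hz.1, ?_, ?_, ?_⟩
  · have hBcl : IsClosed B := isClosed_le (continuous_nsq_sub z₀) continuous_const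
    have hvc : ContinuousOn v B := hvs.continuousOn.mono hBS₁
    have h1 : IsClosed (B ∩ v ⁻¹' Iic (v z₀ + ε)) :=
      hvc.preimage_isClosed_of_isClosed hBcl isClosed_Iic
    exact h1.measurableSet
  · have hpos : 0 < Ca * D₁ ^ 2 := by positivity
    have h1 : ε / r = (1 - t / T) * r / (2 * C₁) := by
      rw [hε, hΛ]
      field_simp
    rw [h1] at hABP
    rw [ENNReal.ofReal_div_of_pos hpos]
    exact ENNReal.div_le_of_le_mul' hABP
  · intro z hz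
    have h1 := hlev z hz.1
    have h2 := hz.2
    have h3 : ε + 2 * δ = Λ * r ^ 2 := by
      rw [hε, hδ]
      ring
    have h4 : 0 ≤ Λ * nsq (z - z₀) := mul_nonneg hΛ0.le (Gap.nsq_nonneg _)
    linarith

end Mod

end Pool.Agent.KRFG
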