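import Pool.Agent.Work.MP_a2bf38_gt.K.ContactA

/-!
# The contact set
-/

open scoped ContDiff ENNReal ComplexOrder Topology
open Set MeasureTheory Filter Pool.Agent.ToricKRF Pool.Agent.ToricKRF.G Pool.Agent.KRFS
  Pool.Agent.KRFF

namespace Pool.Agent.KRFG

section Mod

variable {n m : ℕ} {M Y W : Type} [TopologicalSpace M] [CompactSpace M] [T2Space M]
  [TopologicalSpace Y] [T2Space Y] [TopologicalSpace W] [T2Space W] {κ P ι : Type}
  [Finite P] [Fintype ι] {T : ℝ} (F : Mod n m M Y W κ P ι T)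

/-- the part of `M` over the open ball of radius `4` of the chart `j` -/
def Mod.inner (j : P) : Set M := {x | F.f x ∈ (F.b j).source ∧ nsq (F.b j (F.f x)) < 16}

/-- the part of `M` over the closed ball of radius `3` of the chart `j` -/
def Mod.core (j : P) : Set M := {x | F.f x ∈ (F.b j).source ∧ nsq (F.b j (F.f x)) ≤ 9}

omit [CompactSpace M] [T2Space M] [T2Space Y] [T2Space W] [Finite P] [Fintype ι] in
theorem Mod.isOpen_inner (j : P) : IsOpen (F.inner j) := by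
  have h1 : ContinuousOn (fun y => nsq (F.b j y)) (F.b j).source :=
    continuous_nsq0.comp_continuousOn (F.b j).continuousOn
  have h2 : IsOpen ((F.b j).source ∩ (fun y => nsq (F.b j y)) ⁻¹' Iio 16) :=
    h1.isOpen_inter_preimage (F.b j).open_source isOpen_Iio
  exact h2.preimage F.hol.cont

omit [CompactSpace M] [T2Space M] [T2Space W] [Finite P] [Fintype ι] in
theorem Mod.isClosed_core (j : P) : IsClosed (F.core j) := by
  have h0 : IsCompact {y : Cn m | nsq y ≤ 9} := by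
    have := isCompact_nsq_sub (n := m) 0 (r := 3) (by norm_num)
    simp only [sub_zero] at this
    norm_num at this
    exact this
  have h1 : {y : Cn m | nsq y ≤ 9} ⊆ (F.b j).target := fun y hy =>
    F.hol.target j (show nsq y < 100 from lt_of_le_of_lt (show nsq y ≤ 9 from hy) (by norm_num))
  have h2 : IsCompact ((F.b j).symm '' {y : Cn m | nsq y ≤ 9}) :=
    h0.image_of_continuousOn ((F.b j).continuousOn_symm.mono h1)
  have h3 : F.core j = F.f ⁻¹' ((F.b j).symm '' {y : Cn m | nsq y ≤ 9}) := by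
    ext x
    constructor
    · rintro ⟨hx, hx'⟩
      exact ⟨_, hx', (F.b j).left_inv hx⟩
    · rintro ⟨y, hy, hyx⟩
      refine ⟨?_, ?_⟩
      · rw [← hyx]
        exact (F.b j).map_target (h1 hy)
      · rw [← hyx, (F.b j).right_inv (h1 hy)]
        exact hy
  rw [h3]
  exact h2.isClosed.preimage F.hol.cont

omit [CompactSpace M] [T2Space M] [T2Space W] [Fintype ι] in
/-- neighbourhoods which do not leave the charts -/
theorem Mod.exists_nhds (x : M) : ∃ G ∈ 𝓝 x, ∀ j, (x ∈ F.inner j → G ⊆ F.inner j) ∧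
    (x ∉ F.inner j → ∀ p ∈ G, p ∉ F.core j) := by
  classical
  refine ⟨⋂ j, if x ∈ F.inner j then F.inner j else (F.core j)ᶜ, ?_, fun j => ⟨?_, ?_⟩⟩
  · rw [iInter_mem]
    intro j
    split_ifs with h
    · exact (F.isOpen_inner j).mem_nhds h
    · refine (F.isClosed_core j).isOpen_compl.mem_nhds fun h1 => h ⟨h1.1, ?_⟩
      have h2 : nsq (F.b j (F.f x)) ≤ 9 := h1.2
      linarith
  · intro h p hp
    have h1 := mem_iInter.1 hp j
    rwa [if_pos h] at h1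
  · intro h p hp
    have h1 := mem_iInter.1 hp j
    rwa [if_neg h] at h1

omit [T2Space M] [T2Space W] [Fintype ι] in
/-- **The contact set**, from `base_psh` -/
theorem Mod.contact_of
    (hbase : ∃ C₁ A C₃ ε d₀ : ℝ, 0 ≤ C₁ ∧ 0 ≤ A ∧ 0 ≤ C₃ ∧ 0 < ε ∧ 0 < d₀ ∧
      (∀ y : Cn m, nsq y ≤ 1 → -A ≤ hB C₁ A ε y) ∧
      (∀ y : Cn m, 9 ≤ nsq y → nsq y ≤ 16 → hB C₁ A ε y < -A) ∧
      ∀ t ∈ Ico 0 T, T - t < d₀ → C₃ * (1 - t / T) ≤ 1 / 2 ∧ ∀ j,
        PshC (fun y => (1 - C₃ * (1 - t / T)) * (F.Mx t ((F.b j).symm y) +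
          (1 - t / T) * hB C₁ A ε y) + t / T * F.K j y) {y : Cn m | nsq y < 25}) :
    ∃ (c C d₀ : ℝ) (A : κ → Set (Cn n)), 0 < c ∧ 0 ≤ C ∧ 0 < d₀ ∧
    {c | (A c).Nonempty}.Finite ∧ (∀ c, IsCompact (A c) ∧ A c ⊆ (F.e c).target) ∧
    ∀ t ∈ Ico 0 T, T - t < d₀ → ∀ H : ℝ, (∃ p, F.Phi t p ≤ F.Mx t (F.f p) - H) →
      ∃ c', ∃ S ⊆ A c', MeasurableSet S ∧ ENNReal.ofReal (c * (T - t) ^ (2 * n)) ≤ volume S ∧
        ∀ z ∈ S, F.Phi t ((F.e c').symm z) ≤
          F.Mx t (F.f ((F.e c').symm z)) - H + C * (T - t) := by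
  classical
  by_cases hT : 0 < T
  swap
  · refine ⟨1, 0, 1, fun _ => ∅, one_pos, le_rfl, one_pos, by simp, fun c => ⟨isCompact_empty,
      empty_subset _⟩, fun t ht => absurd (lt_of_le_of_lt ht.1 ht.2) hT⟩
  obtain ⟨C₁, A, C₃, ε, d₀, hC₁, hA, hC₃, hε, hd₀, hA1, hA2, hpsh⟩ := hbase
  obtain ⟨Bh, hBh, hBh'⟩ := hB_bound (m := m) C₁ A hε
  obtain ⟨Cφ, hCφ, hφ⟩ := F.toFlow.Phi_bound
  obtain ⟨Cd, hCd, hd⟩ := F.toFlow.dphi_le
  obtain ⟨Ca, hCa, habp⟩ := abp n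
  choose G hG hG' using F.exists_nhds
  obtain ⟨I, ch, r, hsrc, hr, hcov⟩ := Ct.exists_balls F.atlas.cover hG
  set K : M → Set (Cn n) := fun x => {z | nsq (z - F.e (ch x) x) ≤ (2 * r x) ^ 2} with hK
  have hKc : ∀ x, IsCompact (K x) := fun x => isCompact_nsq_sub _ (by have := (hr x).1; positivity)
  have hKt : ∀ x, K x ⊆ (F.e (ch x)).target := fun x z hz => ((hr x).2 z hz).1
  -- the constants
  obtain ⟨E, hE, hE'⟩ : ∃ E : ℝ, 0 < E ∧ ∀ x : I, (∀ z ∈ K x.1,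
      (∀ u, nsq u ≤ E * lev (F.ψ (ch x.1)) u (0, z)) ∧ F.Ω (ch x.1) z ≤ E) ∧
      1 ≤ E * r x.1 ∧ r x.1 ^ 2 ≤ E := by
    refine Gap.exists_finite (Q := fun (x : I) E => (∀ z ∈ K x.1,
      (∀ u, nsq u ≤ E * lev (F.ψ (ch x.1)) u (0, z)) ∧ F.Ω (ch x.1) z ≤ E) ∧
      1 ≤ E * r x.1 ∧ r x.1 ^ 2 ≤ E) (fun x => ?_) ?_
    · obtain ⟨E, hE, h⟩ := Gap.exists_const_on F.toFlow hT (ch x.1) (hKc x.1) (hKt x.1)
      have hr0 := (hr x.1).1
      refine ⟨max E (max (r x.1)⁻¹ (r x.1 ^ 2)), fun z hz => ⟨fun u => ?_, ?_⟩, ?_, ?_⟩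
      · exact ((h z hz).1 u).trans (mul_le_mul_of_nonneg_right (le_max_left _ _)
          (Gap.lev_psi_nonneg F.toFlow ⟨le_rfl, hT⟩ (hKt x.1 hz) u))
      · exact (h z hz).2.2.trans (le_max_left _ _)
      · have h1 : (r x.1)⁻¹ ≤ max E (max (r x.1)⁻¹ (r x.1 ^ 2)) :=
          (le_max_left _ _).trans (le_max_right _ _)
        calc (1 : ℝ) = (r x.1)⁻¹ * r x.1 := (inv_mul_cancel₀ hr0.ne').symm
          _ ≤ _ := mul_le_mul_of_nonneg_right h1 hr0.le
      · exact (le_max_right _ _).trans (le_max_right _ _)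
    · intro x E E' hEE' h
      have hr0 := (hr x.1).1
      refine ⟨fun z hz => ⟨fun u => ?_, ?_⟩, ?_, ?_⟩
      · exact ((h.1 z hz).1 u).trans (mul_le_mul_of_nonneg_right hEE'
          (Gap.lev_psi_nonneg F.toFlow ⟨le_rfl, hT⟩ (hKt x.1 hz) u))
      · exact (h.1 z hz).2.trans hEE'
      · exact h.2.1.trans (mul_le_mul_of_nonneg_right hEE' hr0.le)
      · exact h.2.2.trans hEE'
  set D₁ : ℝ := E * Real.exp Cd with hD₁
  have hD₁0 : 0 < D₁ := by positivity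
  refine ⟨(1 / (2 * T * E ^ 2)) ^ (2 * n) / (Ca * D₁ ^ 2),
    (2 * (C₃ * Cφ) + A + Bh + 1) / T, d₀,
    fun c => ⋃ x ∈ I.filter (fun x => ch x = c), K x, by positivity, by positivity, hd₀,
    ?_, ?_, ?_⟩
  · refine (I.image ch).finite_toSet.subset ?_
    rintro c ⟨z, hz⟩
    rw [mem_iUnion₂] at hz
    obtain ⟨x, hx, -⟩ := hz
    rw [Finset.mem_filter] at hx
    simp only [Finset.coe_image, mem_image, Finset.mem_coe]
    exact ⟨x, hx⟩
  · intro c
    refine ⟨Finset.isCompact_biUnion _ fun x _ => hKc x, iUnion₂_subset fun x hx => ?_⟩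
    rw [Finset.mem_filter] at hx
    rw [← hx.2]
    exact hKt x
  intro t ht htd H hex
  obtain ⟨p, hp⟩ := hex
  obtain ⟨hκ, hpshj⟩ := hpsh t ht htd
  have hx0 : 0 < T - t := by linarith [ht.2]
  set d : ℝ := 1 - t / T with hd_def
  have hd1 : d = (T - t) / T := by
    rw [hd_def, sub_div, div_self hT.ne']
  have hd0 : 0 < d := by
    rw [hd1]
    positivity
  have hd1' : d ≤ 1 := by
    have : 0 ≤ t / T := div_nonneg ht.1 hT.le
    linarith
  set a : ℝ := 1 - C₃ * d with ha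
  have ha0 : 0 < a := by linarith
  have ha1 : a ≤ 1 := by
    have : 0 ≤ C₃ * d := by positivity
    linarith
  set V : P → M → ℝ := fun j x => F.Phi t x - a * (F.Mx t (F.f x) + d * hB C₁ A ε (F.b j (F.f x)))
    with hV
  have hVc : ∀ j, ContinuousOn (V j) (F.over j) := by
    intro j
    have e2 : ContinuousOn (fun q : M => F.b j (F.f q)) (F.over j) :=
      (F.b j).continuousOn.comp F.hol.cont.continuousOn fun q hq => hq.1
    exact (F.Phi_continuous ht).continuousOn.sub (continuousOn_const.mul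
      (((F.Mx_continuous ht).comp F.hol.cont).continuousOn.add
        (continuousOn_const.mul ((continuous_hB hε).comp_continuousOn e2))))
  -- the minimum
  obtain ⟨j₀, x₀, hx₀, hmin⟩ : ∃ j, ∃ x ∈ F.over j, ∀ j', ∀ x' ∈ F.over j', V j x ≤ V j' x' := by
    have : Nonempty M := ⟨p⟩
    obtain ⟨j, hj, hj1⟩ := F.hol.cover (F.f p)
    set S : Set P := {j | (F.over j).Nonempty} with hS
    have hSn : S.Nonempty := ⟨j, p, hj, by
      have : nsq (F.b j (F.f p)) ≤ 1 := hj1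
      linarith⟩
    have h3 : ∀ j ∈ S, ∃ q ∈ F.over j, ∀ q' ∈ F.over j, V j q ≤ V j q' := by
      intro j hj
      obtain ⟨q, hq, hq'⟩ := (F.isCompact_over j).exists_isMinOn hj (hVc j)
      exact ⟨q, hq, fun q' h => hq' h⟩
    choose! w hw hw' using h3
    obtain ⟨j, hj, hjm⟩ := S.exists_min_image (fun j => V j (w j)) (Set.toFinite S) hSn
    refine ⟨j, w j, hw j hj, fun j' q' hq' => ?_⟩
    have hj' : j' ∈ S := ⟨q', hq'⟩
    exact (hjm j' hj').trans (hw' j' hj' q' hq')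
  have hMx : ∀ y, |F.Mx t y| ≤ Cφ := by
    intro y
    obtain ⟨q, -, hq⟩ := (F.Mx_spec ht y).1
    rw [← hq]
    exact hφ t ht q
  -- the minimum is in the core
  have hcore : x₀ ∈ F.core j₀ := by
    refine ⟨hx₀.1, ?_⟩
    by_contra h9
    have h9' : 9 < nsq (F.b j₀ (F.f x₀)) := not_le.1 h9
    obtain ⟨j₁, hj₁, hj₁'⟩ := F.hol.cover (F.f x₀)
    have h1 := hmin j₁ x₀ ⟨hj₁, by linarith⟩
    have h2 := hA1 _ hj₁'
    have h3 := hA2 _ h9'.le hx₀.2
    simp only [hV] at h1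
    have h4 : a * (d * hB C₁ A ε (F.b j₀ (F.f x₀))) < a * (d * hB C₁ A ε (F.b j₁ (F.f x₀))) :=
      mul_lt_mul_of_pos_left (mul_lt_mul_of_pos_left (h3.trans_le h2) hd0) ha0
    have h5 : ∀ s : ℝ, a * (F.Mx t (F.f x₀) + s) = a * F.Mx t (F.f x₀) + a * s :=
      fun s => by ring
    rw [h5, h5] at h1
    linarith
  -- the value of the minimum
  have hval : V j₀ x₀ ≤ -H + C₃ * d * Cφ + d * A := by
    obtain ⟨j₁, hj₁, hj₁'⟩ := F.hol.cover (F.f p)
    have h1 := hmin j₁ p ⟨hj₁, by linarith⟩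
    have h2 := hA1 _ hj₁'
    have h3 := (abs_le.1 (hMx (F.f p))).2
    have h4 : C₃ * d * F.Mx t (F.f p) ≤ C₃ * d * Cφ :=
      mul_le_mul_of_nonneg_left h3 (by positivity)
    have h5 : a * (d * -A) ≤ a * (d * hB C₁ A ε (F.b j₁ (F.f p))) :=
      mul_le_mul_of_nonneg_left (mul_le_mul_of_nonneg_left h2 hd0.le) ha0.le
    have h6 : a * (d * A) ≤ 1 * (d * A) := mul_le_mul_of_nonneg_right ha1 (by positivity)
    refine h1.trans ?_
    have h7 : V j₁ p = F.Phi t p - F.Mx t (F.f p) + C₃ * d * F.Mx t (F.f p) -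
        a * (d * hB C₁ A ε (F.b j₁ (F.f p))) := by
      simp only [hV]
      rw [ha]
      ring
    rw [h7]
    linarith
  -- the ball
  obtain ⟨x, hxI, hxs, hxr⟩ := hcov x₀
  obtain ⟨hE1, hE2, hE3⟩ := hE' ⟨x, hxI⟩
  simp only at hE1 hE2 hE3
  have hrx := (hr x).1
  set c' := ch x with hc'
  set z₀ := F.e c' x₀ with hz₀
  have hsz₀ : (F.e c').symm z₀ = x₀ := (F.e c').left_inv hxs
  have hx₀G : x₀ ∈ G x := by
    have h1 := ((hr x).2 z₀ (by nlinarith)).2
    rwa [hsz₀] at h1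
  have hxin : x ∈ F.inner j₀ := by
    by_contra h
    exact (hG' x j₀).2 h x₀ hx₀G hcore
  have hsubK : ∀ z, nsq (z - z₀) ≤ r x ^ 2 → z ∈ K x := fun z hz => Ct.ball_in hxr hz
  have hin : ∀ z, nsq (z - z₀) ≤ r x ^ 2 → (F.e c').symm z ∈ F.inner j₀ := fun z hz =>
    (hG' x j₀).1 hxin ((hr x).2 z (hsubK z hz)).2
  set N : Cn m → ℝ := fun y => a * (F.Mx t ((F.b j₀).symm y) + d * hB C₁ A ε y) with hN
  have hNV : ∀ q, F.f q ∈ (F.b j₀).source → F.Phi t q - N (F.b j₀ (F.f q)) = V j₀ q := by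
    intro q hq
    simp only [hN, hV]
    rw [(F.b j₀).left_inv hq]
  obtain ⟨S, hSsub, hSm, hSv, hSle⟩ := F.contact_ball hCa habp ht (c := c') (j := j₀) (z₀ := z₀)
    hrx hE hD₁0 (G := N)
    (by
      intro δ hδ
      obtain ⟨u', V', h1, h2, -, h3, h4, h5⟩ := pshC_mollify (u := fun y => N y + t / T * F.K j₀ y)
        (V := {y : Cn m | nsq y < 25}) (A := {y : Cn m | nsq y ≤ 16})
        (isOpen_lt continuous_nsq0 continuous_const) (hpshj j₀) isCompact_ball4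
        (fun y hy => by
          have : nsq y ≤ 16 := hy
          change nsq y < 25
          linarith) hδ
      exact ⟨u', V', h1, h2, h3, h4, h5⟩)
    (by
      intro z hz
      have hzK := hsubK z hz
      have hzt := hKt x hzK
      exact ⟨hzt, (hin z hz).1, (hin z hz).2, (hE1 z hzK).1,
        F.det_le ht hzt (hd c' t ht z hzt) (hE1 z hzK).2⟩)
    (by
      intro z hz
      rw [hsz₀, hNV _ hx₀.1, hNV _ (hin z hz).1]
      exact hmin j₀ _ ⟨(hin z hz).1, (hin z hz).2.le⟩)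
  refine ⟨c', S, fun z hz => ?_, hSm, le_trans (ENNReal.ofReal_le_ofReal ?_) hSv, fun z hz => ?_⟩
  · rw [mem_iUnion₂]
    exact ⟨x, Finset.mem_filter.2 ⟨hxI, rfl⟩, hsubK z (hSsub hz)⟩
  · rw [div_mul_eq_mul_div, ← mul_pow]
    refine div_le_div_of_nonneg_right ?_ (by positivity)
    refine pow_le_pow_left₀ (by positivity) ?_ _
    change 1 / (2 * T * E ^ 2) * (T - t) ≤ d * r x / (2 * E)
    rw [hd1, div_mul_eq_mul_div, div_mul_eq_mul_div, div_div, one_mul,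
      div_le_div_iff₀ (by positivity) (by positivity)]
    have h1 : (T - t) * (T * (2 * E)) * 1 ≤ (T - t) * (T * (2 * E)) * (E * r x) :=
      mul_le_mul_of_nonneg_left hE2 (by positivity)
    nlinarith
  · have hzB := hSsub hz
    have h1 := hSle z hz
    rw [hsz₀, hNV _ hx₀.1, hNV _ (hin z hzB).1] at h1
    have h2 : d / E * r x ^ 2 ≤ d := by
      rw [div_mul_eq_mul_div, div_le_iff₀ hE]
      exact mul_le_mul_of_nonneg_left hE3 hd0.le
    set q := (F.e c').symm z with hq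
    have h3 := (abs_le.1 (hMx (F.f q))).1
    have h4 : C₃ * d * -Cφ ≤ C₃ * d * F.Mx t (F.f q) :=
      mul_le_mul_of_nonneg_left h3 (by positivity)
    have h5 : hB C₁ A ε (F.b j₀ (F.f q)) ≤ Bh :=
      (abs_le.1 (hBh' _ (hin z hzB).2.le)).2
    have h6 : a * (d * hB C₁ A ε (F.b j₀ (F.f q))) ≤ a * (d * Bh) :=
      mul_le_mul_of_nonneg_left (mul_le_mul_of_nonneg_left h5 hd0.le) ha0.le
    have h7 : a * (d * Bh) ≤ 1 * (d * Bh) := mul_le_mul_of_nonneg_right ha1 (by positivity)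
    have h8 : V j₀ q = F.Phi t q - F.Mx t (F.f q) + C₃ * d * F.Mx t (F.f q) -
        a * (d * hB C₁ A ε (F.b j₀ (F.f q))) := by
      simp only [hV]
      rw [ha]
      ring
    rw [h8] at h1
    have h9 : (2 * (C₃ * Cφ) + A + Bh + 1) / T * (T - t) =
        (2 * (C₃ * Cφ) + A + Bh + 1) * d := by
      rw [hd1]
      ring
    rw [h9]
    linarith

end Mod

end Pool.Agent.KRFG
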