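import Pool.Agent.Work.MP_a2bf38_gt.K.DecayB

/-!
# The set of the points of the total space where `φ` is small has small measure (helper52)
-/

open scoped ContDiff ENNReal ComplexOrder Topology NNReal
open Set MeasureTheory Filter Pool.Agent.ToricKRF Pool.Agent.ToricKRF.G Pool.Agent.KRFS
  Pool.Agent.KRFF

namespace Pool.Agent.KRFG

namespace Decay

theorem sq_norm_cc {k : ℕ} (u : Cn k) (l : Fin k) : ‖cc u l‖ ^ 2 = u.1 l ^ 2 + u.2 l ^ 2 := by
  rw [Complex.sq_norm]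
  simp only [cc, Complex.normSq_mk]
  ring

theorem mem_cpd_iff {k : ℕ} {u : Cn k} {r : ℝ} (hr : 0 ≤ r) :
    u ∈ cpd (k := k) r ↔ ∀ l, ‖cc u l‖ ≤ r := by
  constructor
  · intro h l
    have := h l
    rw [← sq_norm_cc] at this
    exact le_of_sq_le_sq this hr
  · intro h l
    rw [← sq_norm_cc]
    exact pow_le_pow_left₀ (norm_nonneg _) (h l) 2

theorem norm_prow {n m : ℕ} (row : Fin n → Option (Fin m)) (i : Fin m) {x : Cn n} {δ : ℝ}
    (hδ : δ ∈ Ioc (0 : ℝ) 1) (h1 : ∀ l, ‖cc x l‖ ≤ 1) (h2 : ∀ l, δ ≤ ‖cc x l‖) :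
    δ ^ n ≤ ‖prow row i x‖ ∧ ‖prow row i x‖ ≤ 1 := by
  unfold prow
  rw [norm_prod]
  constructor
  · calc δ ^ n = ∏ _l : Fin n, δ := by simp
      _ ≤ ∏ l, ‖if row l = some i then cc x l else 1‖ := by
        refine Finset.prod_le_prod (fun _ _ => hδ.1.le) fun l _ => ?_
        split_ifs
        · exact h2 l
        · rw [norm_one]
          exact hδ.2
  · refine Finset.prod_le_one (fun _ _ => norm_nonneg _) fun l _ => ?_
    split_ifs
    · exact h1 l
    · rw [norm_one]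

variable {n m : ℕ} {M Y W : Type} [TopologicalSpace M] [CompactSpace M] [T2Space M]
  [TopologicalSpace Y] [T2Space Y] [TopologicalSpace W] [T2Space W] {κ P ι : Type}
  [Finite P] [Fintype ι] {T : ℝ} (F : Mod n m M Y W κ P ι T)

theorem small_c {η : ℝ} (hη : 0 < η) (c : ι) : ∃ d₀ > 0, ∀ t ∈ Ico 0 T, T - t < d₀ →
    volume {x : Cn n | x ∈ cpd 1 ∧ nsq (F.yc c x) ≤ 16 ∧ F.gc t c x < -√(T - t)} ≤
      ENNReal.ofReal (η * (T - t) ^ (2 * n)) := by
  classical
  choose piv hpiv using F.model.row_ne c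
  obtain ⟨K, r₀, B, hK, hr₀, hr₀1, hslice⟩ := slice F
  obtain ⟨Ce, hCe, hclose⟩ := Chn.Em_close' (F.row c) piv
  obtain ⟨C₄, hC₄, hcoord⟩ := volume_small_coord n
  -- the radius
  set r : ℝ := min (min r₀ (1 / (n + 1))) (1 / (2 * Ce)) with hr
  have hr0 : 0 < r := by positivity
  have hrr₀ : r ≤ r₀ := (min_le_left _ _).trans (min_le_left _ _)
  have hrn : (n + 1) * r ≤ 1 := by
    have : r ≤ 1 / (n + 1) := (min_le_left _ _).trans (min_le_right _ _)
    calc ((n : ℝ) + 1) * r ≤ (n + 1) * (1 / (n + 1)) :=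
          mul_le_mul_of_nonneg_left this (by positivity)
      _ = 1 := by field_simp
  have hrC : Ce * r ≤ 1 / 2 := by
    have : r ≤ 1 / (2 * Ce) := min_le_right _ _
    calc Ce * r ≤ Ce * (1 / (2 * Ce)) := mul_le_mul_of_nonneg_left this hCe.le
      _ = 1 / 2 := by field_simp
  have hE : ∀ q ∈ cpd (k := n) 1, ∀ w ∈ cpd (k := n) r, Em (F.row c) piv q w ∈ cpd (3 / 2) := by
    intro q hq w hw
    have h1 := hclose q (cpd_sub_cpd (by norm_num) (by norm_num) hq) r ⟨hr0.le, by linarith⟩ w hw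
    rw [mem_cpd_iff (by norm_num)]
    intro l
    have h2 := (mem_cpd_iff (by norm_num)).1 hq l
    have h3 := (mem_cpd_iff (by positivity)).1 h1 l
    have h4 : cc (Em (F.row c) piv q w) l = cc q l + cc (Em (F.row c) piv q w - q) l := by
      apply Complex.ext <;> simp [cc]
    rw [h4]
    have h5 := norm_add_le (cc q l) (cc (Em (F.row c) piv q w - q) l)
    linarith
  -- the constants
  obtain ⟨d₁, hd₁, hnum⟩ := numbers K (m * n * (n + 1)) (2 * n + 1) hK (by positivity)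
    (by positivity) B n
  set V : ℝ≥0∞ := 6 ^ (2 * n) * volume (cpd (k := n) (3 / 2)) / volume (cpd (k := n) r) with hV
  have hvpos : volume (cpd (k := n) r) ≠ 0 := by
    have h1 : opd (k := n) r ⊆ cpd r := fun u hu i => (hu i).le
    have hinv := haar n
    have h2 : 0 < volume (opd (k := n) r) :=
      (isOpen_opd r).measure_pos volume ⟨0, fun i => by simpa using pow_pos hr0 2⟩
    exact (h2.trans_le (measure_mono h1)).ne'
  have hvtop : volume (cpd (k := n) r) ≠ ⊤ := volume_cpd_ne_top r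
  have hVtop : V ≠ ⊤ := by
    rw [hV]
    refine ENNReal.div_ne_top (ENNReal.mul_ne_top (by finiteness) (volume_cpd_ne_top _)) hvpos
  set v : ℝ := V.toReal with hv
  have hv0 : 0 ≤ v := ENNReal.toReal_nonneg
  refine ⟨min d₁ (η / (2 * (C₄ + v + 1))), lt_min hd₁.1 (by positivity), fun t ht htd => ?_⟩
  set d : ℝ := T - t with hd
  have hd0 : 0 < d := by
    rw [hd]
    linarith [ht.2]
  have hdd₁ : d < d₁ := lt_of_lt_of_le htd (min_le_left _ _)
  have hd1 : d < 1 := lt_of_lt_of_le hdd₁ hd₁.2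
  have hdη : d < η / (2 * (C₄ + v + 1)) := lt_of_lt_of_le htd (min_le_right _ _)
  have hdη' : d * (C₄ + v + 1) ≤ η / 2 := by
    have h1 : d * (2 * (C₄ + v + 1)) < η := (lt_div_iff₀ (by positivity)).1 hdη
    linarith
  have hsq : 0 < √d := Real.sqrt_pos.2 hd0
  set δ : ℝ := d ^ (n + 1) with hδ
  have hδ0 : 0 < δ := by positivity
  have hδ1 : δ ≤ 1 := pow_le_one₀ hd0.le hd1.le
  set ρ : ℝ := d ^ (2 * n + 1) with hρ
  have hρ0 : 0 < ρ := by positivity
  have hρ1 : ρ ≤ 1 := pow_le_one₀ hd0.le hd1.le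
  have hlogδ : Real.log (1 / δ) = (n + 1) * Real.log (1 / d) := by
    rw [hδ, one_div, one_div, ← inv_pow, Real.log_pow]
    push_cast
    ring
  have hlogρ : Real.log (1 / ρ) = (2 * n + 1) * Real.log (1 / d) := by
    rw [hρ, one_div, one_div, ← inv_pow, Real.log_pow]
    push_cast
    ring
  have hlogd : 0 ≤ Real.log (1 / d) := Real.log_nonneg (by
    rw [le_div_iff₀ hd0]
    linarith)
  -- the two sets
  set S₁ : Set (Cn n) := {x | x ∈ cpd 1 ∧ ∃ l, x.1 l ^ 2 + x.2 l ^ 2 < δ ^ 2} with hS₁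
  set S₂ : Set (Cn n) := {x | x ∈ cpd 1 ∧ (∀ l, δ ^ 2 ≤ x.1 l ^ 2 + x.2 l ^ 2) ∧
    nsq (F.yc c x) ≤ 16 ∧ F.gc t c x < -√d} with hS₂
  have hcover : {x : Cn n | x ∈ cpd 1 ∧ nsq (F.yc c x) ≤ 16 ∧ F.gc t c x < -√d} ⊆ S₁ ∪ S₂ := by
    rintro x ⟨h1, h2, h3⟩
    by_cases h4 : ∃ l, x.1 l ^ 2 + x.2 l ^ 2 < δ ^ 2
    · exact Or.inl ⟨h1, h4⟩
    · push Not at h4
      exact Or.inr ⟨h1, h4, h2, h3⟩
  have hv₁ : volume S₁ ≤ ENNReal.ofReal (C₄ * δ ^ 2) := hcoord δ ⟨hδ0, hδ1⟩
  -- measurability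
  have h110 : cpd (k := n) 1 ⊆ opd 10 := cpd_sub_opd (by norm_num) (by norm_num)
  have hclosed : IsClosed (cpd (k := n) 1) := (isCompact_cpd 1).isClosed
  have hmeas : MeasurableSet S₂ := by
    have e1 : S₂ = ((cpd 1 ∩ (fun x => nsq (F.yc c x)) ⁻¹' Iic 16) ∩
        {x : Cn n | ∀ l, δ ^ 2 ≤ x.1 l ^ 2 + x.2 l ^ 2}) \
          (cpd 1 ∩ (F.gc t c) ⁻¹' Ici (-√d)) := by
      ext x
      constructor
      · rintro ⟨h1, h2, h3, h4⟩
        exact ⟨⟨⟨h1, h3⟩, h2⟩, fun h => absurd h.2 (not_le.2 h4)⟩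
      · rintro ⟨⟨⟨h1, h3⟩, h2⟩, h4⟩
        exact ⟨h1, h2, h3, not_le.1 fun h => h4 ⟨h1, h⟩⟩
    rw [e1]
    refine MeasurableSet.diff (MeasurableSet.inter ?_ ?_) ?_
    · refine (ContinuousOn.preimage_isClosed_of_isClosed ?_ hclosed isClosed_Iic).measurableSet
      exact contDiff_nsq.continuous.comp_continuousOn ((cont_yc F c).mono h110)
    · have : {x : Cn n | ∀ l, δ ^ 2 ≤ x.1 l ^ 2 + x.2 l ^ 2} =
          ⋂ l, {x : Cn n | δ ^ 2 ≤ x.1 l ^ 2 + x.2 l ^ 2} := by
        ext x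
        simp
      rw [this]
      refine (isClosed_iInter fun l => isClosed_le continuous_const ?_).measurableSet
      fun_prop
    · exact (ContinuousOn.preimage_isClosed_of_isClosed ((cont_gc F ht c).mono h110) hclosed
        isClosed_Ici).measurableSet
  -- the slices
  have hsl : ∀ q ∈ cpd (k := n) (3 / 2),
      volume {w : Cn n | w ∈ cpd r ∧ Em (F.row c) piv q w ∈ S₂} ≤ ENNReal.ofReal ρ := by
    intro q hq
    by_cases hne : ∃ w₀, w₀ ∈ cpd (k := n) r ∧ Em (F.row c) piv q w₀ ∈ S₂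
    swap
    · have : {w : Cn n | w ∈ cpd r ∧ Em (F.row c) piv q w ∈ S₂} = ∅ := by
        ext w
        simp only [mem_setOf_eq, mem_empty_iff_false, iff_false]
        exact fun h => hne ⟨w, h⟩
      rw [this, measure_empty]
      exact zero_le
    obtain ⟨w₀, hw₀, hx1, hx2, hx3, -⟩ := hne
    set x₀ := Em (F.row c) piv q w₀ with hx₀
    have hpr : ∀ i, prow (F.row c) i q = prow (F.row c) i x₀ := fun i => (Fb.prow_Em' hpiv q w₀ i).symm
    have hn1 : ∀ l, ‖cc x₀ l‖ ≤ 1 := (mem_cpd_iff zero_le_one).1 hx1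
    have hn2 : ∀ l, δ ≤ ‖cc x₀ l‖ := by
      intro l
      have := hx2 l
      rw [← sq_norm_cc] at this
      exact le_of_sq_le_sq this (norm_nonneg _)
    have hnp := fun i => norm_prow (F.row c) i ⟨hδ0, hδ1⟩ hn1 hn2
    have hq10 : q ∈ opd (k := n) 10 := cpd_sub_opd (by norm_num) (by norm_num) hq
    have hx10 : x₀ ∈ opd (k := n) 10 := h110 hx1
    have hyc : F.yc c q = F.yc c x₀ := by
      unfold Mod.yc
      rw [base_eq F hq10 hx10 hpr]
    have hsum : ∑ i, |Real.log ‖prow (F.row c) i q‖| ≤ m * n * (n + 1) * Real.log (1 / d) := by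
      calc ∑ i, |Real.log ‖prow (F.row c) i q‖| ≤ ∑ _i : Fin m, (n * ((n + 1) * Real.log (1 / d))) := by
            refine Finset.sum_le_sum fun i _ => ?_
            rw [hpr i, ← hlogδ]
            obtain ⟨h1, h2⟩ := hnp i
            have hpos : 0 < ‖prow (F.row c) i x₀‖ := lt_of_lt_of_le (by positivity) h1
            rw [abs_of_nonpos (Real.log_nonpos hpos.le h2)]
            have h3 : Real.log (δ ^ n) ≤ Real.log ‖prow (F.row c) i x₀‖ :=
              Real.log_le_log (by positivity) h1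
            rw [Real.log_pow] at h3
            rw [one_div, Real.log_inv]
            linarith
        _ = m * n * (n + 1) * Real.log (1 / d) := by
            rw [Finset.sum_const, Finset.card_univ, Fintype.card_fin, nsmul_eq_mul]
            ring
    have h1 := hslice t ht c piv hpiv q hq (by
      intro i
      rw [hpr i]
      have h2 := (hnp i).1
      have h3 : 0 < δ ^ n := by positivity
      exact norm_pos_iff.1 (lt_of_lt_of_le h3 h2)) (by
      rw [hyc]
      linarith) (m * n * (n + 1) * Real.log (1 / d)) hsum ρ ⟨hρ0, hρ1⟩ (√d) hsq (by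
      rw [hlogρ]
      exact hnum d ⟨hd0, hdd₁⟩)
    refine (measure_mono ?_).trans h1
    rintro w ⟨hw, -, -, -, hw5⟩
    exact ⟨cpd_sub_cpd hr0.le hrr₀ hw, hw5⟩
  have hav := volume_le_average (F.row c) piv Chn.Em_continuous' hr0 hrn hE hmeas
    (fun x hx => hx.1) hsl
  have hv₂ : volume S₂ ≤ ENNReal.ofReal (v * ρ) := by
    have h1 : volume S₂ ≤ V * ENNReal.ofReal ρ := by
      have h2 : volume S₂ ≤ (6 ^ (2 * n) * (volume (cpd (k := n) (3 / 2)) * ENNReal.ofReal ρ)) /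
          volume (cpd (k := n) r) := by
        rw [ENNReal.le_div_iff_mul_le (Or.inl hvpos) (Or.inl hvtop), mul_comm]
        exact hav
      refine h2.trans (le_of_eq ?_)
      rw [hV, ENNReal.div_eq_inv_mul, ENNReal.div_eq_inv_mul]
      ring
    rw [ENNReal.ofReal_mul hv0, hv, ENNReal.ofReal_toReal hVtop]
    exact h1
  calc volume {x : Cn n | x ∈ cpd 1 ∧ nsq (F.yc c x) ≤ 16 ∧ F.gc t c x < -√d}
      ≤ volume S₁ + volume S₂ := (measure_mono hcover).trans (measure_union_le _ _)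
    _ ≤ ENNReal.ofReal (C₄ * δ ^ 2) + ENNReal.ofReal (v * ρ) := add_le_add hv₁ hv₂
    _ = ENNReal.ofReal (C₄ * δ ^ 2 + v * ρ) := (ENNReal.ofReal_add (by positivity)
        (by positivity)).symm
    _ ≤ ENNReal.ofReal (η * d ^ (2 * n)) := by
        apply ENNReal.ofReal_le_ofReal
        have e1 : δ ^ 2 = d ^ (2 * n) * d * d := by
          rw [hδ]
          ring
        have e2 : ρ = d ^ (2 * n) * d := by
          rw [hρ]
          ring
        rw [e1, e2]
        have h1 : 0 ≤ d ^ (2 * n) := by positivity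
        have h2 : C₄ * (d * d) ≤ C₄ * d := mul_le_mul_of_nonneg_left (by nlinarith) hC₄
        calc C₄ * (d ^ (2 * n) * d * d) + v * (d ^ (2 * n) * d)
            = d ^ (2 * n) * (C₄ * (d * d) + v * d) := by ring
          _ ≤ d ^ (2 * n) * η := by
              apply mul_le_mul_of_nonneg_left _ h1
              nlinarith
          _ = η * d ^ (2 * n) := by ring

end Decay

variable {n m : ℕ} {M Y W : Type} [TopologicalSpace M] [CompactSpace M] [T2Space M]
  [TopologicalSpace Y] [T2Space Y] [TopologicalSpace W] [T2Space W] {κ P ι : Type}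
  [Finite P] [Fintype ι] {T : ℝ} (F : Mod n m M Y W κ P ι T)

theorem Mod.small {η : ℝ} (hη : 0 < η) : ∃ d₀ > 0, ∀ t ∈ Ico 0 T, T - t < d₀ → ∀ c,
    volume {x : Cn n | x ∈ cpd 1 ∧ nsq (F.yc c x) ≤ 16 ∧ F.gc t c x < -√(T - t)} ≤
      ENNReal.ofReal (η * (T - t) ^ (2 * n)) := by
  choose d hd h using fun c => Decay.small_c F hη c
  have h1 : ∀ᶠ x in 𝓝[>] (0 : ℝ), ∀ c, x ∈ Ioo 0 (d c) :=
    eventually_all.2 fun c => Ioo_mem_nhdsGT (hd c)
  obtain ⟨x, hx, hx0⟩ := (h1.and self_mem_nhdsWithin).exists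
  exact ⟨x, hx0, fun t ht htx c => h c t ht (htx.trans (hx c).2)⟩

end Pool.Agent.KRFG
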