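import Pool.Agent.Work.MP_a2bf38_gt.K.Setup
import Pool.Agent.Work.MP_a2bf38_gt.I.Split

/-!
# The decay on the total space: measure theory (helper52)
-/

open scoped ContDiff ENNReal ComplexOrder Topology NNReal
open Set MeasureTheory Filter Pool.Agent.ToricKRF Pool.Agent.ToricKRF.G Pool.Agent.KRFS
  Pool.Agent.KRFF

namespace Pool.Agent.KRFG.Decay

variable {n m : ℕ}

/-! ### The maps `x ↦ E(x, w)` -/

theorem cc_ofC (z : Fin n → ℂ) (l : Fin n) : cc (ofC z) l = z l := Complex.ext rfl rfl

theorem cc_ext {u v : Cn n} (h : ∀ l, cc u l = cc v l) : u = v := by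
  refine Prod.ext ?_ ?_ <;> funext l
  · exact congrArg Complex.re (h l)
  · exact congrArg Complex.im (h l)

open Classical in
/-- the factors of the diagonal map -/
noncomputable def fac (row : Fin n → Option (Fin m)) (piv : Fin m → Fin n) (w : Cn n)
    (l : Fin n) : ℂ :=
  match row l with
  | none => 1
  | some i => if l = piv i then Complex.exp (-∑ l', if row l' = some i ∧ l' ≠ l then cc w l' else 0)
      else Complex.exp (cc w l)

/-- the translation -/
noncomputable def tra (row : Fin n → Option (Fin m)) (w : Cn n) (l : Fin n) : ℂ :=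
  match row l with
  | none => cc w l
  | some _ => 0

theorem cc_Em (row : Fin n → Option (Fin m)) (piv : Fin m → Fin n) (q w : Cn n) (l : Fin n) :
    cc (Em row piv q w) l = cc q l * fac row piv w l + tra row w l := by
  unfold Em
  rw [cc_ofC]
  unfold fac tra
  cases h : row l with
  | none => simp
  | some i =>
    simp only [add_zero]
    split_ifs <;> rfl

theorem cc_neg (w : Cn n) (l : Fin n) : cc (-w) l = -cc w l := Complex.ext rfl rfl

theorem Em_inv (row : Fin n → Option (Fin m)) (piv : Fin m → Fin n) (q w : Cn n) :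
    Em row piv (Em row piv q (-w)) w = q := by
  apply cc_ext
  intro l
  rw [cc_Em, cc_Em]
  unfold fac tra
  cases h : row l with
  | none =>
    simp only [cc_neg]
    ring
  | some i =>
    simp only [add_zero]
    by_cases hl : l = piv i
    · rw [if_pos hl, if_pos hl, mul_assoc, ← Complex.exp_add]
      have : (-∑ l', if row l' = some i ∧ l' ≠ l then cc (-w) l' else 0) +
          (-∑ l', if row l' = some i ∧ l' ≠ l then cc w l' else 0) = 0 := by
        rw [← neg_add, ← Finset.sum_add_distrib]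
        rw [Finset.sum_eq_zero, neg_zero]
        intro l' _
        split_ifs
        · rw [cc_neg]
          ring
        · simp
      rw [this, Complex.exp_zero, mul_one]
    · rw [if_neg hl, if_neg hl, mul_assoc, ← Complex.exp_add, cc_neg, neg_add_cancel,
        Complex.exp_zero, mul_one]

theorem abs_fst_le {r : ℝ} (hr : 0 ≤ r) {w : Cn n} (hw : w ∈ cpd (k := n) r) (l : Fin n) :
    |w.1 l| ≤ r := by
  refine abs_le_of_sq_le_sq ?_ hr
  have := hw l
  nlinarith [sq_nonneg (w.2 l)]

theorem abs_snd_le {r : ℝ} (hr : 0 ≤ r) {w : Cn n} (hw : w ∈ cpd (k := n) r) (l : Fin n) :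
    |w.2 l| ≤ r := by
  refine abs_le_of_sq_le_sq ?_ hr
  have := hw l
  nlinarith [sq_nonneg (w.1 l)]

theorem fac_le (row : Fin n → Option (Fin m)) (piv : Fin m → Fin n) {r : ℝ} (hr : 0 ≤ r)
    (hnr : (n + 1) * r ≤ 1) {w : Cn n} (hw : w ∈ cpd (k := n) r) (l : Fin n) :
    ‖fac row piv w l‖ ≤ 3 := by
  have hexp : ∀ z : ℂ, |z.re| ≤ 1 → ‖Complex.exp z‖ ≤ 3 := by
    intro z hz
    rw [Complex.norm_exp]
    calc Real.exp z.re ≤ Real.exp 1 := Real.exp_le_exp.2 ((le_abs_self _).trans hz)
      _ ≤ 3 := by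
        have := Real.exp_one_lt_d9
        linarith
  have hr1 : r ≤ 1 := by nlinarith [(Nat.cast_nonneg n : (0 : ℝ) ≤ n)]
  have hn : (n : ℝ) * r ≤ 1 := by linarith
  unfold fac
  cases h : row l with
  | none => simp
  | some i =>
    simp only
    split_ifs with hl
    · apply hexp
      rw [Complex.neg_re, abs_neg, Complex.re_sum]
      calc |∑ l', (if row l' = some i ∧ l' ≠ l then cc w l' else 0).re|
          ≤ ∑ l' : Fin n, |(if row l' = some i ∧ l' ≠ l then cc w l' else 0).re| :=
            Finset.abs_sum_le_sum_abs _ _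
        _ ≤ ∑ _l' : Fin n, r := by
            refine Finset.sum_le_sum fun l' _ => ?_
            split_ifs
            · exact abs_fst_le hr hw l'
            · simpa using hr
        _ = n * r := by simp
        _ ≤ 1 := hn
    · apply hexp
      exact (abs_fst_le hr hw l).trans hr1

theorem lipschitz_Em (row : Fin n → Option (Fin m)) (piv : Fin m → Fin n) {r : ℝ} (hr : 0 ≤ r)
    (hnr : (n + 1) * r ≤ 1) {w : Cn n} (hw : w ∈ cpd (k := n) r) :
    LipschitzWith 6 (fun x : Cn n => Em row piv x w) := by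
  apply LipschitzWith.of_dist_le_mul
  intro x y
  have hK : ((6 : ℝ≥0) : ℝ) = 6 := rfl
  rw [hK]
  have hd : 0 ≤ dist x y := dist_nonneg
  have key : ∀ l, ‖cc (Em row piv x w) l - cc (Em row piv y w) l‖ ≤ 6 * dist x y := by
    intro l
    rw [cc_Em, cc_Em]
    have e : cc x l * fac row piv w l + tra row w l - (cc y l * fac row piv w l + tra row w l) =
        (cc x l - cc y l) * fac row piv w l := by ring
    rw [e, norm_mul]
    have h1 : ‖cc x l - cc y l‖ ≤ 2 * dist x y := by
      have h2 := Complex.norm_le_abs_re_add_abs_im (cc x l - cc y l)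
      have h3 : |(cc x l - cc y l).re| ≤ dist x y := by
        have : |(cc x l - cc y l).re| = dist (x.1 l) (y.1 l) := by
          rw [Real.dist_eq]
          rfl
        rw [this]
        exact (dist_le_pi_dist x.1 y.1 l).trans (le_max_left _ _)
      have h4 : |(cc x l - cc y l).im| ≤ dist x y := by
        have : |(cc x l - cc y l).im| = dist (x.2 l) (y.2 l) := by
          rw [Real.dist_eq]
          rfl
        rw [this]
        exact (dist_le_pi_dist x.2 y.2 l).trans (le_max_right _ _)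
      linarith
    calc ‖cc x l - cc y l‖ * ‖fac row piv w l‖ ≤ (2 * dist x y) * 3 :=
          mul_le_mul h1 (fac_le row piv hr hnr hw l) (norm_nonneg _) (by positivity)
      _ = 6 * dist x y := by ring
  rw [Prod.dist_eq]
  refine max_le ((dist_pi_le_iff (by positivity)).2 fun l => ?_)
    ((dist_pi_le_iff (by positivity)).2 fun l => ?_)
  · rw [Real.dist_eq]
    exact (Complex.abs_re_le_norm _).trans (key l)
  · rw [Real.dist_eq]
    exact (Complex.abs_im_le_norm _).trans (key l)

theorem haar (k : ℕ) : (volume : Measure (Cn k)).IsAddHaarMeasure :=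
  Measure.prod.instIsAddHaarMeasure (G := Fin k → ℝ) (H := Fin k → ℝ) volume volume

theorem volume_image_le {f : Cn n → Cn n} {K : ℝ≥0} (hf : LipschitzWith K f) (S : Set (Cn n)) :
    volume (f '' S) ≤ (K : ℝ≥0∞) ^ (2 * n) * volume S := by
  have hfr : Module.finrank ℝ (Cn n) = 2 * n := by
    rw [Module.finrank_prod, Module.finrank_fin_fun]
    ring
  have hinv := haar n
  have h1 := hf.hausdorffMeasure_image_le (d := (Module.finrank ℝ (Cn n) : ℝ)) (by positivity) S
  obtain ⟨c, h2⟩ : ∃ c : ℝ≥0, (volume : Measure (Cn n)) =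
      c • (μH[(Module.finrank ℝ (Cn n) : ℝ)] : Measure (Cn n)) :=
    ⟨_, Measure.isAddLeftInvariant_eq_smul _ _⟩
  rw [h2, Measure.smul_apply, Measure.smul_apply]
  have h3 : (K : ℝ≥0∞) ^ (Module.finrank ℝ (Cn n) : ℝ) = (K : ℝ≥0∞) ^ (2 * n) := by
    rw [hfr]
    exact ENNReal.rpow_natCast _ _
  rw [h3] at h1
  rw [ENNReal.smul_def, ENNReal.smul_def, smul_eq_mul, smul_eq_mul, mul_left_comm]
  gcongr

/-- averaging over the maps `x ↦ E(x, w)` -/
theorem volume_le_average (row : Fin n → Option (Fin m)) (piv : Fin m → Fin n)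
    (hcont : Continuous fun p : Cn n × Cn n => Em row piv p.1 p.2) {r : ℝ} (hr : 0 < r)
    (hnr : (n + 1) * r ≤ 1)
    (hE : ∀ q ∈ cpd (k := n) 1, ∀ w ∈ cpd (k := n) r, Em row piv q w ∈ cpd (3 / 2))
    {B : Set (Cn n)} (hB : MeasurableSet B) (hB1 : B ⊆ cpd 1) {α : ℝ≥0∞}
    (h : ∀ q ∈ cpd (k := n) (3 / 2), volume {w : Cn n | w ∈ cpd r ∧ Em row piv q w ∈ B} ≤ α) :
    volume (cpd (k := n) r) * volume B ≤
      6 ^ (2 * n) * (volume (cpd (k := n) (3 / 2)) * α) := by
  set S : Set (Cn n × Cn n) := {p | p.1 ∈ cpd (k := n) (3 / 2) ∧ p.2 ∈ cpd (k := n) r ∧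
    Em row piv p.1 p.2 ∈ B} with hS
  have hSm : MeasurableSet S := by
    refine MeasurableSet.inter ?_ (MeasurableSet.inter ?_ ?_)
    · exact measurable_fst (isCompact_cpd _).isClosed.measurableSet
    · exact measurable_snd (isCompact_cpd _).isClosed.measurableSet
    · exact hcont.measurable hB
  have h1 : (volume.prod volume) S ≤ volume (cpd (k := n) (3 / 2)) * α := by
    rw [Measure.prod_apply hSm]
    calc ∫⁻ x, volume (Prod.mk x ⁻¹' S) ≤ ∫⁻ x, (cpd (k := n) (3 / 2)).indicator (fun _ => α) x := by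
          refine lintegral_mono fun x => ?_
          by_cases hx : x ∈ cpd (k := n) (3 / 2)
          · rw [indicator_of_mem hx]
            refine (measure_mono ?_).trans (h x hx)
            intro w hw
            exact ⟨hw.2.1, hw.2.2⟩
          · rw [indicator_of_notMem hx]
            have : Prod.mk x ⁻¹' S = ∅ := by
              ext w
              simp only [mem_preimage, mem_empty_iff_false, iff_false]
              exact fun hw => hx hw.1
            rw [this, measure_empty]
      _ = volume (cpd (k := n) (3 / 2)) * α := by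
          rw [lintegral_indicator (isCompact_cpd _).isClosed.measurableSet, lintegral_const,
            Measure.restrict_apply_univ, mul_comm]
  have h2 : volume (cpd (k := n) r) * volume B ≤ 6 ^ (2 * n) * (volume.prod volume) S := by
    rw [Measure.prod_apply_symm hSm]
    calc volume (cpd (k := n) r) * volume B
        = ∫⁻ w, (cpd (k := n) r).indicator (fun _ => volume B) w := by
          rw [lintegral_indicator (isCompact_cpd _).isClosed.measurableSet, lintegral_const,
            Measure.restrict_apply_univ, mul_comm]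
      _ ≤ ∫⁻ w, 6 ^ (2 * n) * volume ((fun x => (x, w)) ⁻¹' S) := by
          refine lintegral_mono fun w => ?_
          by_cases hw : w ∈ cpd (k := n) r
          · rw [indicator_of_mem hw]
            have h3 := volume_image_le (lipschitz_Em row piv hr.le hnr hw)
              ((fun x => (x, w)) ⁻¹' S)
            refine (measure_mono ?_).trans h3
            intro x hx
            have hnw : -w ∈ cpd (k := n) r := by
              intro l
              have := hw l
              simpa using this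
            refine ⟨Em row piv x (-w), ⟨hE x (hB1 hx) _ hnw, hw, ?_⟩, Em_inv row piv x w⟩
            rw [Em_inv]
            exact hx
          · rw [indicator_of_notMem hw]
            exact zero_le
      _ = 6 ^ (2 * n) * ∫⁻ w, volume ((fun x => (x, w)) ⁻¹' S) := by
          rw [lintegral_const_mul' _ _ (by finiteness)]
  exact h2.trans (mul_le_mul_right h1 _)

/-- the points with a small coordinate -/
theorem volume_small_coord (n : ℕ) : ∃ C : ℝ, 0 ≤ C ∧ ∀ δ ∈ Ioc (0 : ℝ) 1,
    volume {x : Cn n | x ∈ cpd 1 ∧ ∃ l, x.1 l ^ 2 + x.2 l ^ 2 < δ ^ 2} ≤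
      ENNReal.ofReal (C * δ ^ 2) := by
  refine ⟨n * 4 ^ (n + 1), by positivity, fun δ hδ => ?_⟩
  classical
  have hsub : {x : Cn n | x ∈ cpd 1 ∧ ∃ l, x.1 l ^ 2 + x.2 l ^ 2 < δ ^ 2} ⊆
      ⋃ l : Fin n, (Icc (fun j => if j = l then -δ else -1 : Fin n → ℝ)
        (fun j => if j = l then δ else 1)) ×ˢ (Icc (fun j => if j = l then -δ else -1 : Fin n → ℝ)
        (fun j => if j = l then δ else 1)) := by
    rintro x ⟨hx, l, hl⟩
    refine mem_iUnion.2 ⟨l, ?_⟩
    have h1 : |x.1 l| ≤ δ := abs_le_of_sq_le_sq (by nlinarith [sq_nonneg (x.2 l)]) hδ.1.le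
    have h2 : |x.2 l| ≤ δ := abs_le_of_sq_le_sq (by nlinarith [sq_nonneg (x.1 l)]) hδ.1.le
    have h3 := abs_fst_le zero_le_one hx
    have h4 := abs_snd_le zero_le_one hx
    refine ⟨⟨fun j => ?_, fun j => ?_⟩, ⟨fun j => ?_, fun j => ?_⟩⟩ <;> simp only <;>
      split_ifs with hj
    · subst hj; exact (abs_le.1 h1).1
    · exact (abs_le.1 (h3 j)).1
    · subst hj; exact (abs_le.1 h1).2
    · exact (abs_le.1 (h3 j)).2
    · subst hj; exact (abs_le.1 h2).1
    · exact (abs_le.1 (h4 j)).1
    · subst hj; exact (abs_le.1 h2).2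
    · exact (abs_le.1 (h4 j)).2
  have hvol : ∀ l : Fin n, volume (Icc (fun j => if j = l then -δ else -1 : Fin n → ℝ)
        (fun j => if j = l then δ else 1)) ≤ ENNReal.ofReal (2 ^ (n + 1) * δ) := by
    intro l
    rw [Real.volume_Icc_pi]
    have hpr : ∏ i : Fin n, ENNReal.ofReal ((if i = l then δ else 1) - (if i = l then -δ else -1)) =
        ENNReal.ofReal (∏ i : Fin n, ((if i = l then δ else 1) - (if i = l then -δ else -1))) := by
      rw [ENNReal.ofReal_prod_of_nonneg]
      intro i _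
      split_ifs
      · linarith [hδ.1]
      · norm_num
    rw [hpr]
    apply ENNReal.ofReal_le_ofReal
    have h5 : ∀ i : Fin n, ((if i = l then δ else 1) - (if i = l then -δ else -1)) =
        2 * (if i = l then δ else 1) := by
      intro i
      split_ifs <;> ring
    simp only [h5]
    rw [Finset.prod_mul_distrib, Finset.prod_ite_eq' Finset.univ l (fun _ => δ)]
    simp only [Finset.mem_univ, if_true, Finset.prod_const, Finset.card_univ, Fintype.card_fin]
    have h6 : (2 : ℝ) ^ n ≤ 2 ^ (n + 1) := pow_le_pow_right₀ (by norm_num) (by omega)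
    exact mul_le_mul_of_nonneg_right h6 hδ.1.le
  calc volume {x : Cn n | x ∈ cpd 1 ∧ ∃ l, x.1 l ^ 2 + x.2 l ^ 2 < δ ^ 2}
      ≤ ∑ l : Fin n, volume ((Icc (fun j => if j = l then -δ else -1 : Fin n → ℝ)
        (fun j => if j = l then δ else 1)) ×ˢ (Icc (fun j => if j = l then -δ else -1 : Fin n → ℝ)
        (fun j => if j = l then δ else 1))) :=
        (measure_mono hsub).trans (measure_iUnion_fintype_le _ _)
    _ ≤ ∑ _l : Fin n, ENNReal.ofReal (4 ^ (n + 1) * δ ^ 2) := by
        refine Finset.sum_le_sum fun l _ => ?_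
        rw [Measure.volume_eq_prod, Measure.prod_prod]
        calc _ ≤ ENNReal.ofReal (2 ^ (n + 1) * δ) * ENNReal.ofReal (2 ^ (n + 1) * δ) :=
              mul_le_mul' (hvol l) (hvol l)
          _ = ENNReal.ofReal (4 ^ (n + 1) * δ ^ 2) := by
              have hd0 := hδ.1.le
              rw [← ENNReal.ofReal_mul (by positivity)]
              congr 1
              have : (4 : ℝ) ^ (n + 1) = 2 ^ (n + 1) * 2 ^ (n + 1) := by
                rw [← mul_pow]
                norm_num
              rw [this]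
              ring
    _ = ENNReal.ofReal (n * 4 ^ (n + 1) * δ ^ 2) := by
        rw [Finset.sum_const, Finset.card_univ, Fintype.card_fin, nsmul_eq_mul,
          ← ENNReal.ofReal_natCast, ← ENNReal.ofReal_mul (by positivity)]
        congr 1
        ring

/-- the numbers -/
theorem numbers (K a b : ℝ) (hK : 0 ≤ K) (ha : 0 ≤ a) (hb : 0 ≤ b) (A B : ℕ) :
    ∃ d₀ ∈ Ioc (0 : ℝ) 1, ∀ d ∈ Ioo (0 : ℝ) d₀,
      K * (d * (1 + a * Real.log (1 / d)) ^ A) * (1 + b * Real.log (1 / d)) ^ B ≤ √d := by
  set c := max a b with hc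
  have hc0 : 0 ≤ c := le_max_of_le_left ha
  set k := A + B with hk
  set ε : ℝ := 1 / (4 * (k + 1)) with hε
  have hε0 : 0 < ε := by positivity
  set C : ℝ := K * (1 + c / ε) ^ k with hC
  have hC0 : 0 ≤ C := by positivity
  refine ⟨min 1 ((1 / (C + 1)) ^ 4), ⟨lt_min one_pos (by positivity), min_le_left _ _⟩, ?_⟩
  intro d hd
  have hd0 : 0 < d := hd.1
  have hd1 : d < 1 := lt_of_lt_of_le hd.2 (min_le_left _ _)
  have hdC : d < (1 / (C + 1)) ^ 4 := lt_of_lt_of_le hd.2 (min_le_right _ _)
  have hx1 : 1 ≤ 1 / d := by rw [le_div_iff₀ hd0]; linarith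
  have hlog0 : 0 ≤ Real.log (1 / d) := Real.log_nonneg hx1
  have hlog := Real.log_le_rpow_div (x := 1 / d) (by positivity) hε0
  have hp1 : 1 ≤ (1 / d) ^ ε := Real.one_le_rpow hx1 hε0.le
  have hfac : ∀ a' : ℝ, 0 ≤ a' → a' ≤ c → 1 + a' * Real.log (1 / d) ≤ (1 + c / ε) * (1 / d) ^ ε := by
    intro a' ha' hac
    calc 1 + a' * Real.log (1 / d) ≤ (1 / d) ^ ε + c * ((1 / d) ^ ε / ε) :=
          add_le_add hp1 (mul_le_mul hac hlog hlog0 hc0)
      _ = (1 + c / ε) * (1 / d) ^ ε := by ring
  have hA : (1 + a * Real.log (1 / d)) ^ A ≤ ((1 + c / ε) * (1 / d) ^ ε) ^ A :=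
    pow_le_pow_left₀ (by positivity) (hfac a ha (le_max_left _ _)) _
  have hB : (1 + b * Real.log (1 / d)) ^ B ≤ ((1 + c / ε) * (1 / d) ^ ε) ^ B :=
    pow_le_pow_left₀ (by positivity) (hfac b hb (le_max_right _ _)) _
  have hpk : ((1 / d) ^ ε) ^ k ≤ (1 / d) ^ (1 / 4 : ℝ) := by
    rw [← Real.rpow_natCast, ← Real.rpow_mul (by positivity)]
    apply Real.rpow_le_rpow_of_exponent_le hx1
    rw [hε]
    rw [div_mul_eq_mul_div, one_mul, div_le_div_iff₀ (by positivity) (by norm_num)]
    linarith
  have hq : C * (1 / d) ^ (1 / 4 : ℝ) * d ≤ √d := by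
    have e1 : d = d ^ (1 / 4 : ℝ) * (d ^ (1 / 4 : ℝ) * √d) := by
      rw [Real.sqrt_eq_rpow, ← Real.rpow_add hd0, ← Real.rpow_add hd0]
      norm_num
    have e2 : (1 / d) ^ (1 / 4 : ℝ) * d ^ (1 / 4 : ℝ) = 1 := by
      rw [← Real.mul_rpow (by positivity) hd0.le, one_div, inv_mul_cancel₀ hd0.ne', Real.one_rpow]
    have e3 : C * d ^ (1 / 4 : ℝ) ≤ 1 := by
      have h7 : d ^ (1 / 4 : ℝ) ≤ ((1 / (C + 1)) ^ 4) ^ (1 / 4 : ℝ) :=
        Real.rpow_le_rpow hd0.le hdC.le (by norm_num)
      have h8 : ((1 / (C + 1)) ^ 4) ^ (1 / 4 : ℝ) = 1 / (C + 1) := by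
        rw [← Real.rpow_natCast, ← Real.rpow_mul (by positivity)]
        norm_num
      rw [h8] at h7
      calc C * d ^ (1 / 4 : ℝ) ≤ C * (1 / (C + 1)) := mul_le_mul_of_nonneg_left h7 hC0
        _ ≤ 1 := by
          rw [mul_one_div, div_le_one (by positivity)]
          linarith
    calc C * (1 / d) ^ (1 / 4 : ℝ) * d
        = ((1 / d) ^ (1 / 4 : ℝ) * d ^ (1 / 4 : ℝ)) * (C * d ^ (1 / 4 : ℝ)) * √d := by
          nth_rewrite 2 [e1]
          ring
      _ ≤ 1 * 1 * √d := by
          rw [e2]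
          exact mul_le_mul_of_nonneg_right (mul_le_mul_of_nonneg_left e3 zero_le_one)
            (Real.sqrt_nonneg _)
      _ = √d := by ring
  calc K * (d * (1 + a * Real.log (1 / d)) ^ A) * (1 + b * Real.log (1 / d)) ^ B
      ≤ K * (d * ((1 + c / ε) * (1 / d) ^ ε) ^ A) * ((1 + c / ε) * (1 / d) ^ ε) ^ B := by
        gcongr
    _ = K * (1 + c / ε) ^ k * ((1 / d) ^ ε) ^ k * d := by
        rw [hk, pow_add, pow_add, mul_pow, mul_pow]
        ring
    _ ≤ K * (1 + c / ε) ^ k * (1 / d) ^ (1 / 4 : ℝ) * d := by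
        gcongr
    _ ≤ √d := hq

end Pool.Agent.KRFG.Decay
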