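import Pool.Agent.Work.MP_a2bf38_gt.K.DecayA
import Pool.Agent.Work.MP_a2bf38_gt.K.Chain
import Pool.Agent.Work.MP_a2bf38_gt.I.PshDecay

/-!
# The decay on the total space: continuity and one slice (helper52)
-/

open scoped ContDiff ENNReal ComplexOrder Topology NNReal Pointwise
open Set MeasureTheory Filter Pool.Agent.ToricKRF Pool.Agent.ToricKRF.G Pool.Agent.KRFS
  Pool.Agent.KRFF

namespace Pool.Agent.KRFG.Decay

section

variable {k : ℕ}

theorem isOpen_opd (r : ℝ) : IsOpen (opd (k := k) r) := by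
  have : (opd r : Set (Cn k)) = ⋂ i, {u | u.1 i ^ 2 + u.2 i ^ 2 < r ^ 2} := by
    ext u
    simp [opd]
  rw [this]
  refine isOpen_iInter_of_finite fun i => isOpen_lt ?_ continuous_const
  fun_prop

theorem cpd_sub_opd {a b : ℝ} (ha : 0 ≤ a) (h : a < b) : cpd (k := k) a ⊆ opd b := by
  intro u hu i
  have := hu i
  nlinarith

theorem cpd_sub_cpd {a b : ℝ} (ha : 0 ≤ a) (h : a ≤ b) : cpd (k := k) a ⊆ cpd b := by
  intro u hu i
  have := hu i
  nlinarith

theorem nsq_le_of_opd {u : Cn k} (hu : u ∈ opd (k := k) 9) : nsq u ≤ 81 * k := by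
  have : nsq u = ∑ i, (u.1 i ^ 2 + u.2 i ^ 2) := by
    simp only [nsq, dotProduct, Finset.sum_add_distrib, pow_two]
  rw [this]
  calc ∑ i, (u.1 i ^ 2 + u.2 i ^ 2) ≤ ∑ _i : Fin k, (81 : ℝ) := by
        refine Finset.sum_le_sum fun i _ => ?_
        have := hu i
        linarith
    _ = 81 * k := by simp [mul_comm]

theorem nsq_nonneg (u : Cn k) : 0 ≤ nsq u := by
  have : nsq u = ∑ i, (u.1 i ^ 2 + u.2 i ^ 2) := by
    simp only [nsq, dotProduct, Finset.sum_add_distrib, pow_two]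
  rw [this]
  positivity

theorem contDiff_nsq : ContDiff ℝ ∞ (nsq : Cn k → ℝ) := by
  have : (nsq : Cn k → ℝ) = fun u => ∑ i, (u.1 i ^ 2 + u.2 i ^ 2) := by
    funext u
    simp only [nsq, dotProduct, Finset.sum_add_distrib, pow_two]
  rw [this]
  fun_prop

end

variable {n m : ℕ} {M Y W : Type} [TopologicalSpace M] [CompactSpace M] [T2Space M]
  [TopologicalSpace Y] [T2Space Y] [TopologicalSpace W] [T2Space W] {κ P ι : Type}
  [Finite P] [Fintype ι] {T : ℝ} (F : Mod n m M Y W κ P ι T)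

include F in
theorem mem_source {c : ι} {x : Cn n} (hx : x ∈ opd (k := n) 10) :
    (F.a c).symm x ∈ (F.a c).source :=
  (F.a c).map_target (by rw [F.model.target c]; exact hx)

theorem cont_pi (c : ι) : ContinuousOn (fun x => F.π ((F.a c).symm x)) (opd (k := n) 10) := by
  have h1 : ContinuousOn (fun x => F.e (F.al c) (F.π ((F.a c).symm x))) (opd (k := n) 10) :=
    (F.model.holo c).1.continuousOn
  have h2 : ContinuousOn (fun x => (F.e (F.al c)).symm
      (F.e (F.al c) (F.π ((F.a c).symm x)))) (opd (k := n) 10) :=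
    (F.e (F.al c)).continuousOn_symm.comp h1 fun x hx =>
      (F.e (F.al c)).map_source (F.model.mem c _ (mem_source F hx))
  refine h2.congr fun x hx => ?_
  exact ((F.e (F.al c)).left_inv (F.model.mem c _ (mem_source F hx))).symm

theorem cont_f (c : ι) : ContinuousOn (fun x => F.f (F.π ((F.a c).symm x))) (opd (k := n) 10) :=
  F.hol.cont.comp_continuousOn (cont_pi F c)

theorem mem_base {c : ι} {x : Cn n} (hx : x ∈ opd (k := n) 10) :
    F.f (F.π ((F.a c).symm x)) ∈ (F.b (F.pc c)).source := by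
  have h := (F.model.base ((F.a c).symm x)).1
  rwa [F.model.lab_eq c _ (mem_source F hx)] at h

theorem cont_yc (c : ι) : ContinuousOn (F.yc c) (opd (k := n) 10) :=
  (F.b (F.pc c)).continuousOn.comp (cont_f F c) fun _ hx => mem_base F hx

theorem cont_gc {t : ℝ} (ht : t ∈ Ico 0 T) (c : ι) : ContinuousOn (F.gc t c) (opd (k := n) 10) :=
  (F.smooth_W ht c).continuousOn.sub ((F.Mx_continuous ht).comp_continuousOn (cont_f F c))

theorem gc_nonpos {t : ℝ} (ht : t ∈ Ico 0 T) (c : ι) (x : Cn n) : F.gc t c x ≤ 0 :=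
  sub_nonpos.2 ((F.Mx_spec ht _).2 _ rfl)

/-- the base point depends only on the products -/
theorem base_eq {c : ι} {x x' : Cn n} (hx : x ∈ opd (k := n) 10) (hx' : x' ∈ opd (k := n) 10)
    (h : ∀ i, prow (F.row c) i x = prow (F.row c) i x') :
    F.f (F.π ((F.a c).symm x)) = F.f (F.π ((F.a c).symm x')) := by
  have key : ∀ y : Cn n, y ∈ opd (k := n) 10 → ∀ i,
      cc (F.b (F.pc c) (F.f (F.π ((F.a c).symm y)))) i =
        (F.s c i * prow (F.row c) i y) ^ F.N (F.pc c) i := by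
    intro y hy i
    have h1 := (F.model.base ((F.a c).symm y)).2 i
    rw [F.model.lab_eq c _ (mem_source F hy)] at h1
    rw [h1, F.model.mono c _ (mem_source F hy) i, (F.a c).right_inv (by
      rw [F.model.target c]
      exact hy)]
  apply (F.b (F.pc c)).injOn (mem_base F hx) (mem_base F hx')
  apply cc_ext
  intro i
  rw [key x hx, key x' hx', h]

theorem holOn_smul (r : ℝ) : HolOn (fun z : Cn n => r • z) univ := by
  refine ⟨by fun_prop, fun z _ u => ?_⟩
  have h : HasFDerivAt (fun z : Cn n => r • z) (r • ContinuousLinearMap.id ℝ (Cn n)) z :=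
    (hasFDerivAt_id z).const_smul r
  rw [h.fderiv]
  simp [J_smul]

/-- the decay in one fibre -/
theorem slice : ∃ (K r : ℝ) (B : ℕ), 0 ≤ K ∧ 0 < r ∧ r ≤ 1 ∧ ∀ t ∈ Ico 0 T, ∀ c,
    ∀ piv : Fin m → Fin n, (∀ i, F.row c (piv i) = some i) →
    ∀ q ∈ cpd (k := n) (3 / 2), (∀ i, prow (F.row c) i q ≠ 0) → nsq (F.yc c q) ≤ 20 →
    ∀ Λ : ℝ, ∑ i, |Real.log ‖prow (F.row c) i q‖| ≤ Λ → ∀ ρ ∈ Ioc (0 : ℝ) 1, ∀ N > 0,
      K * ((T - t) * (1 + Λ) ^ B) * (1 + Real.log (1 / ρ)) ^ n ≤ N →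
      volume {w : Cn n | w ∈ cpd r ∧ F.gc t c (Em (F.row c) piv q w) < -N} ≤
        ENNReal.ofReal ρ := by
  obtain ⟨C, r, B, hC, hr, hr1, hch⟩ := F.chain
  obtain ⟨Cf, hCf, hfib⟩ := F.fib_psh
  obtain ⟨Cd, hCd, hdec⟩ := psh_decay_of_integral n
  have hvr : volume (cpd (k := n) r) ≠ ⊤ := volume_cpd_ne_top r
  set v : ℝ := (volume (cpd (k := n) r)).toReal with hv
  have hv0 : 0 ≤ v := ENNReal.toReal_nonneg
  set K₁ : ℝ := (5 / r) ^ (2 * n) * (C + Cf * (81 * n) * v / T) with hK₁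
  by_cases hT : 0 < T
  swap
  · exact ⟨0, 1, 0, le_rfl, one_pos, le_rfl, fun t ht => absurd (lt_of_le_of_lt ht.1 ht.2) hT⟩
  have hK₁0 : 0 ≤ K₁ := by positivity
  refine ⟨Cd * K₁, 2 * r / 5, B, by positivity, by positivity, by linarith, ?_⟩
  intro t ht c piv hpiv q hq hne hyc Λ hΛ ρ hρ N hN hcond
  obtain ⟨hE9, hint⟩ := hch t ht c piv hpiv q hq hne hyc
  have hTt : 0 < T - t := by linarith [ht.2]
  have hd0 : 0 ≤ 1 - t / T := by
    rw [sub_nonneg, div_le_one hT]
    exact ht.2.le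
  have hd1 : 1 - t / T = (T - t) / T := by field_simp
  have hΛ0 : 0 ≤ Λ := le_trans (Finset.sum_nonneg fun i _ => abs_nonneg _) hΛ
  have hq10 : q ∈ opd (k := n) 10 := cpd_sub_opd (by norm_num) (by norm_num) hq
  -- the function in the logarithmic coordinates
  set E : Cn n → Cn n := fun w => Em (F.row c) piv q w with hE
  have hEhol : HolOn E univ := Fb.Em_holOn' q
  set M₀ : ℝ := F.Mx t (F.f (F.π ((F.a c).symm q))) with hM₀
  set G : Cn n → ℝ := fun w => F.Phi t (F.π ((F.a c).symm (E w))) - M₀ +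
    Cf * (1 - t / T) * (nsq (E w) - 81 * n) with hG
  have h910 : ∀ x ∈ opd (k := n) 9, x ∈ opd (k := n) 10 := by
    intro x hx i
    have := hx i
    nlinarith
  have hgc : ∀ w, E w ∈ opd (k := n) 9 → F.gc t c (E w) =
      F.Phi t (F.π ((F.a c).symm (E w))) - M₀ := by
    intro w hw
    unfold Mod.gc
    rw [base_eq F (h910 _ hw) hq10 fun i => Fb.prow_Em' hpiv q w i]
  have hGle : ∀ w, E w ∈ opd (k := n) 9 → G w ≤ F.gc t c (E w) := by
    intro w hw
    rw [hgc w hw]
    have h1 := nsq_le_of_opd hw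
    have h2 : Cf * (1 - t / T) * (nsq (E w) - 81 * n) ≤ 0 :=
      mul_nonpos_of_nonneg_of_nonpos (by positivity) (by linarith)
    simp only [hG]
    linarith
  have hS9 : IsOpen (E ⁻¹' opd (k := n) 9) := by
    have : Continuous E := continuousOn_univ.1 hEhol.1.continuousOn
    exact (isOpen_opd 9).preimage this
  have hGs : ContDiffOn ℝ ∞ G (E ⁻¹' opd (k := n) 9) := by
    have h1 : ContDiffOn ℝ ∞ (fun w => F.Phi t (F.π ((F.a c).symm (E w))))
        (E ⁻¹' opd (k := n) 9) :=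
      (F.smooth_W ht c).comp (hEhol.1.mono (subset_univ _)) fun w hw => h910 _ hw
    have h2 : ContDiffOn ℝ ∞ (fun w => nsq (E w)) (E ⁻¹' opd (k := n) 9) :=
      contDiff_nsq.comp_contDiffOn (hEhol.1.mono (subset_univ _))
    exact (h1.sub contDiffOn_const).add (contDiffOn_const.mul (h2.sub contDiffOn_const))
  -- rescaling
  set lam : ℝ := r / 5 with hlam
  have hlam0 : 0 < lam := by positivity
  have hscale : ∀ z ∈ opd (k := n) 5, lam • z ∈ cpd (k := n) r := by
    intro z hz i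
    have h1 := hz i
    have h2 : (lam • z).1 i = lam * z.1 i := rfl
    have h3 : (lam • z).2 i = lam * z.2 i := rfl
    rw [h2, h3]
    have h4 : (lam * z.1 i) ^ 2 + (lam * z.2 i) ^ 2 = lam ^ 2 * (z.1 i ^ 2 + z.2 i ^ 2) := by ring
    rw [h4]
    have h5 : r ^ 2 = lam ^ 2 * 5 ^ 2 := by
      rw [hlam]
      ring
    rw [h5]
    exact mul_le_mul_of_nonneg_left h1.le (by positivity)
  set h : Cn n → ℝ := fun z => G (lam • z) with hh
  have hhs : ContDiffOn ℝ ∞ h (opd 5) :=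
    hGs.comp (g := G) (f := fun z : Cn n => lam • z) (by fun_prop)
      fun z hz => hE9 _ (hscale z hz)
  have hhneg : ∀ z ∈ opd (k := n) 5, h z ≤ 0 := fun z hz =>
    (hGle _ (hE9 _ (hscale z hz))).trans (gc_nonpos F ht c _)
  have hhpsh : ∀ z ∈ opd (k := n) 5, ∀ u, 0 ≤ levz h u z := by
    intro z hz u
    have h1 : levz h u z = levz G (fderiv ℝ (fun z : Cn n => lam • z) z u) (lam • z) :=
      levz_comp hS9 hGs isOpen_univ (holOn_smul lam) (mem_univ z) (hE9 _ (hscale z hz)) u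
    rw [h1]
    exact hfib t ht c q (by
      intro i
      have := hq i
      nlinarith) M₀ piv hpiv _ (hE9 _ (hscale z hz)) _
  -- the integral
  have hcpdr : IsCompact (cpd (k := n) r) := isCompact_cpd r
  have hGint : IntegrableOn (fun w => -G w) (cpd (k := n) r) :=
    (hGs.continuousOn.mono fun w hw => hE9 w hw).neg.integrableOn_compact hcpdr
  have hgcint : IntegrableOn (fun w => -F.gc t c (E w)) (cpd (k := n) r) := by
    refine ContinuousOn.integrableOn_compact hcpdr ?_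
    refine ((cont_gc F ht c).comp (hEhol.1.continuousOn.mono (subset_univ _)) ?_).neg
    intro w hw
    exact h910 _ (hE9 w hw)
  have hI1 : ∫ w in cpd (k := n) r, -G w ≤ (T - t) * (1 + Λ) ^ B * (C + Cf * (81 * n) * v / T) := by
    have hle : ∫ w in cpd (k := n) r, -G w ≤
        ∫ w in cpd (k := n) r, (-F.gc t c (E w) + Cf * (1 - t / T) * (81 * n)) := by
      refine setIntegral_mono_on hGint (hgcint.add (integrableOn_const hvr))
        hcpdr.isClosed.measurableSet ?_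
      intro w hw
      rw [hgc w (hE9 w hw)]
      have h1 := nsq_nonneg (E w)
      have h2 : 0 ≤ Cf * (1 - t / T) * nsq (E w) := by positivity
      simp only [hG]
      nlinarith
    rw [integral_add hgcint (integrableOn_const hvr), setIntegral_const, smul_eq_mul] at hle
    have hvreal : volume.real (cpd (k := n) r) = v := rfl
    rw [hvreal] at hle
    have h3 : (1 + ∑ i, |Real.log ‖prow (F.row c) i q‖|) ^ B ≤ (1 + Λ) ^ B :=
      pow_le_pow_left₀ (by positivity) (by linarith) _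
    have h4 : (1 : ℝ) ≤ (1 + Λ) ^ B := one_le_pow₀ (by linarith)
    have h5 : C * (T - t) * (1 + ∑ i, |Real.log ‖prow (F.row c) i q‖|) ^ B ≤
        C * (T - t) * (1 + Λ) ^ B := mul_le_mul_of_nonneg_left h3 (by positivity)
    have h6 : v * (Cf * (1 - t / T) * (81 * n)) ≤
        (T - t) * (1 + Λ) ^ B * (Cf * (81 * n) * v / T) := by
      rw [hd1]
      have h7 : v * (Cf * ((T - t) / T) * (81 * n)) = (T - t) * (Cf * (81 * n) * v / T) := by
        field_simp
      rw [h7]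
      have h8 : 0 ≤ (T - t) * (Cf * (81 * n) * v / T) := by positivity
      calc (T - t) * (Cf * (81 * n) * v / T)
          = (T - t) * (Cf * (81 * n) * v / T) * 1 := by ring
        _ ≤ (T - t) * (Cf * (81 * n) * v / T) * (1 + Λ) ^ B := mul_le_mul_of_nonneg_left h4 h8
        _ = (T - t) * (1 + Λ) ^ B * (Cf * (81 * n) * v / T) := by ring
    have h9 := hint.trans h5
    calc ∫ w in cpd (k := n) r, -G w ≤ _ := hle
      _ ≤ C * (T - t) * (1 + Λ) ^ B + (T - t) * (1 + Λ) ^ B * (Cf * (81 * n) * v / T) :=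
          add_le_add h9 h6
      _ = (T - t) * (1 + Λ) ^ B * (C + Cf * (81 * n) * v / T) := by ring
  have hinv := haar n
  have hfr : Module.finrank ℝ (Cn n) = 2 * n := by
    rw [Module.finrank_prod, Module.finrank_fin_fun]
    ring
  have hI2 : ∫ z in cpd (k := n) (9 / 2), -h z ≤ K₁ * ((T - t) * (1 + Λ) ^ B) := by
    have h1 := Measure.setIntegral_comp_smul (volume : Measure (Cn n)) (fun w => -G w)
      (R := lam) (cpd (k := n) (9 / 2)) hlam0.ne'
    have h2 : ∫ z in cpd (k := n) (9 / 2), -h z = ∫ x in cpd (k := n) (9 / 2),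
        (fun w => -G w) (lam • x) := rfl
    rw [h2, h1, hfr, smul_eq_mul]
    have h3 : |(lam ^ (2 * n))⁻¹| = (5 / r) ^ (2 * n) := by
      rw [abs_of_pos (by positivity), ← inv_pow, hlam, inv_div]
    rw [h3]
    have hsub : lam • cpd (k := n) (9 / 2) ⊆ cpd (k := n) r := by
      rintro _ ⟨z, hz, rfl⟩
      exact hscale z (cpd_sub_opd (by norm_num) (by norm_num) hz)
    have h4 : ∫ x in lam • cpd (k := n) (9 / 2), -G x ≤ ∫ w in cpd (k := n) r, -G w := by
      refine setIntegral_mono_set hGint ?_ hsub.eventuallyLE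
      refine (ae_restrict_iff' hcpdr.isClosed.measurableSet).2 (ae_of_all _ fun w hw => ?_)
      have h5 := (hGle _ (hE9 w hw)).trans (gc_nonpos F ht c _)
      simp only [Pi.zero_apply]
      linarith
    calc (5 / r) ^ (2 * n) * ∫ x in lam • cpd (k := n) (9 / 2), -G x
        ≤ (5 / r) ^ (2 * n) * ((T - t) * (1 + Λ) ^ B * (C + Cf * (81 * n) * v / T)) :=
          mul_le_mul_of_nonneg_left (h4.trans hI1) (by positivity)
      _ = K₁ * ((T - t) * (1 + Λ) ^ B) := by
          rw [hK₁]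
          ring
  -- the decay
  have hlogρ : 0 ≤ Real.log (1 / ρ) := Real.log_nonneg (by
    rw [le_div_iff₀ hρ.1]
    linarith [hρ.2])
  have hL0 : 0 ≤ K₁ * ((T - t) * (1 + Λ) ^ B) := by positivity
  have hdec' := hdec h (K₁ * ((T - t) * (1 + Λ) ^ B)) hhs hhneg hhpsh hI2 ρ hρ N hN (by
    calc Cd * (K₁ * ((T - t) * (1 + Λ) ^ B)) * (1 + Real.log (1 / ρ)) ^ n
        = Cd * K₁ * ((T - t) * (1 + Λ) ^ B) * (1 + Real.log (1 / ρ)) ^ n := by ring
      _ ≤ N := hcond)
  have hCL : Cd * (K₁ * ((T - t) * (1 + Λ) ^ B)) ≤ N := by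
    have h1 : (1 : ℝ) ≤ (1 + Real.log (1 / ρ)) ^ n := one_le_pow₀ (by linarith)
    calc Cd * (K₁ * ((T - t) * (1 + Λ) ^ B))
        = Cd * K₁ * ((T - t) * (1 + Λ) ^ B) * 1 := by ring
      _ ≤ Cd * K₁ * ((T - t) * (1 + Λ) ^ B) * (1 + Real.log (1 / ρ)) ^ n :=
          mul_le_mul_of_nonneg_left h1 (by positivity)
      _ ≤ N := hcond
  have hsub2 : {w : Cn n | w ∈ cpd (2 * r / 5) ∧ F.gc t c (E w) < -N} ⊆
      lam • {z : Cn n | z ∈ cpd 2 ∧ h z < -N} := by
    rintro w ⟨hw1, hw2⟩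
    refine ⟨lam⁻¹ • w, ⟨?_, ?_⟩, by simp [smul_smul, mul_inv_cancel₀ hlam0.ne']⟩
    · intro i
      have h1 := hw1 i
      have h2 : (lam⁻¹ • w).1 i = lam⁻¹ * w.1 i := rfl
      have h3 : (lam⁻¹ • w).2 i = lam⁻¹ * w.2 i := rfl
      rw [h2, h3]
      have h4 : (lam⁻¹ * w.1 i) ^ 2 + (lam⁻¹ * w.2 i) ^ 2 =
          (lam⁻¹) ^ 2 * (w.1 i ^ 2 + w.2 i ^ 2) := by ring
      rw [h4]
      have h5 : (2 : ℝ) ^ 2 = (lam⁻¹) ^ 2 * (2 * r / 5) ^ 2 := by
        rw [hlam]
        field_simp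
      rw [h5]
      exact mul_le_mul_of_nonneg_left h1 (by positivity)
    · have h1 : lam • lam⁻¹ • w = w := by simp [smul_smul, mul_inv_cancel₀ hlam0.ne']
      simp only [hh]
      rw [h1]
      have hwr : w ∈ cpd (k := n) r := cpd_sub_cpd (by positivity) (by linarith) hw1
      exact lt_of_le_of_lt (hGle _ (hE9 w hwr)) hw2
  calc volume {w : Cn n | w ∈ cpd (2 * r / 5) ∧ F.gc t c (E w) < -N}
      ≤ volume (lam • {z : Cn n | z ∈ cpd 2 ∧ h z < -N}) := measure_mono hsub2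
    _ = ENNReal.ofReal |lam ^ (2 * n)| * volume {z : Cn n | z ∈ cpd 2 ∧ h z < -N} := by
        rw [Measure.addHaar_smul, hfr]
    _ ≤ 1 * ENNReal.ofReal (Cd * (K₁ * ((T - t) * (1 + Λ) ^ B)) * ρ / N) := by
        refine mul_le_mul' ?_ hdec'
        rw [abs_of_pos (by positivity), ← ENNReal.ofReal_one]
        apply ENNReal.ofReal_le_ofReal
        apply pow_le_one₀ hlam0.le
        rw [hlam]
        linarith
    _ ≤ ENNReal.ofReal ρ := by
        rw [one_mul]
        apply ENNReal.ofReal_le_ofReal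
        rw [div_le_iff₀ hN, mul_comm ρ N]
        exact mul_le_mul_of_nonneg_right hCL hρ.1.le

end Pool.Agent.KRFG.Decay
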