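import Pool.Agent.Work.MP_a2bf38_gt.I.Defs
import Pool.Agent.Work.MP_a2bf38_gt.G.Herm

/-!
# Fibrations with singular fibres

`f : M → Y` is a holomorphic map from a compact complex manifold of dimension `n` onto a complex
manifold of dimension `m`.  Over the coordinate balls `b j` of `Y` there are semistable models of
`f`: after the base change `y_i = t_i ^ N_i`, `f` becomes a map `τ` on a space `W` which is given in
the charts of `W` by products of disjoint sets of coordinates.
-/

open scoped ContDiff ENNReal ComplexOrder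
open Set Pool.Agent.ToricKRF Pool.Agent.ToricKRF.G Pool.Agent.KRFS Pool.Agent.KRFF

namespace Pool.Agent.KRFG

/-- `f : M → Y` is holomorphic and onto; the charts `b j` of `Y` contain the ball of radius `10` in
their target, and the closed unit balls cover `Y`. -/
structure IsHolMap {M Y : Type} [TopologicalSpace M] [TopologicalSpace Y] {n m : ℕ} {κ P : Type}
    (e : κ → OpenPartialHomeomorph M (Cn n)) (b : P → OpenPartialHomeomorph Y (Cn m))
    (f : M → Y) : Prop where
  cont : Continuous f
  surj : Function.Surjective f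
  holo : ∀ c j, HolOn (fun z => b j (f ((e c).symm z)))
    {z | z ∈ (e c).target ∧ f ((e c).symm z) ∈ (b j).source}
  target : ∀ j, {y | nsq y < 100} ⊆ (b j).target
  cover : ∀ y, ∃ j, y ∈ (b j).source ∧ nsq (b j y) ≤ 1

/-- The product of the coordinates `x_l` with `row l = i`. -/
noncomputable def prow {n m : ℕ} (row : Fin n → Option (Fin m)) (i : Fin m) (x : Cn n) : ℂ :=
  ∏ l, if row l = some i then cc x l else 1

/-- Semistable models of `f` over the balls `nsq y ≤ 25` of the charts `b j`: a space `W`, the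
disjoint union of the parts `lab w = j`, with maps `π : W → M` and `τ : W → ℂ^m` such that
`b j (f (π w))_i = τ(w)_i ^ N_i`.  The points of the fibre of `f` over `y` lift to `τ = t` for every
`t` with `t ^ N = y`, and `τ = t` is connected.  In the charts `a c` of `W`, with the polydisc of
radius `10` as target, `π` is holomorphic, with values in the chart `e (al c)`, and `τ_i` is a
positive constant times the product of the coordinates `x_l` with `row c l = i`. -/
structure IsModel {M Y W : Type} [TopologicalSpace M] [TopologicalSpace Y] [TopologicalSpace W]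
    {n m : ℕ} {κ P ι : Type} (e : κ → OpenPartialHomeomorph M (Cn n))
    (b : P → OpenPartialHomeomorph Y (Cn m)) (f : M → Y) (a : ι → OpenPartialHomeomorph W (Cn n))
    (al : ι → κ) (lab : W → P) (π : W → M) (τ : W → Cn m) (N : P → Fin m → ℕ)
    (pc : ι → P) (s : ι → Fin m → ℝ) (row : ι → Fin n → Option (Fin m)) : Prop where
  base : ∀ w, f (π w) ∈ (b (lab w)).source ∧
    ∀ i, cc (b (lab w) (f (π w))) i = cc (τ w) i ^ N (lab w) i
  N_pos : ∀ j i, 0 < N j i
  target : ∀ c, (a c).target = opd 10
  lab_eq : ∀ c, ∀ w ∈ (a c).source, lab w = pc c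
  s_pos : ∀ c i, 0 < s c i
  row_ne : ∀ c i, ∃ l, row c l = some i
  mono : ∀ c, ∀ w ∈ (a c).source, ∀ i, cc (τ w) i = s c i * prow (row c) i (a c w)
  mem : ∀ c, ∀ w ∈ (a c).source, π w ∈ (e (al c)).source
  holo : ∀ c, HolOn (fun x => e (al c) (π ((a c).symm x))) (opd 10)
  cover : ∀ w, nsq (b (lab w) (f (π w))) ≤ 25 → ∃ c, w ∈ (a c).source ∧ a c w ∈ cpd 1
  onto : ∀ j p, f p ∈ (b j).source → nsq (b j (f p)) ≤ 25 → ∀ t : Cn m,
    (∀ i, cc t i ^ N j i = cc (b j (f p)) i) → ∃ w, lab w = j ∧ τ w = t ∧ π w = p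
  connected : ∀ j t, (∀ i, cc t i ≠ 0) → IsPreconnected {w | lab w = j ∧ τ w = t}

/-- The limit class `[ω(0)] - 2πT c_1(M)` is the pull-back of the Kähler class of `Y` with the local
potentials `K j`: there is a volume form `Ω` on `M` with
`ω(0) + T i ∂ ∂bar log Ω = i ∂ ∂bar (K ∘ f)`. -/
structure IsLimit {M Y : Type} [TopologicalSpace M] [TopologicalSpace Y] {n m : ℕ} {κ P : Type}
    (e : κ → OpenPartialHomeomorph M (Cn n)) (b : P → OpenPartialHomeomorph Y (Cn m)) (f : M → Y)
    (T : ℝ) (ψ : κ → ℝ × Cn n → ℝ) (Ω : κ → Cn n → ℝ) (K : P → Cn m → ℝ) : Prop where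
  volume : IsVolume e ψ Ω
  smooth : ∀ j, ContDiffOn ℝ ∞ (K j) (b j).target
  psh : ∀ j, ∀ y ∈ (b j).target, ∀ u, u ≠ 0 → 0 < levz (K j) u y
  eq : ∀ c j, ∀ z ∈ (e c).target, f ((e c).symm z) ∈ (b j).source → ∀ u,
    lev (ψ c) u (0, z) + T * levz (fun z => Real.log (Ω c z)) u z =
      levz (fun z => K j (b j (f ((e c).symm z)))) u z

end Pool.Agent.KRFG
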