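import Pool.Agent.Work.MP_a2bf38_gt.K.DropLocal
import Pool.Agent.Work.MP_a2bf38_gt.K.Mollify
import Pool.Agent.Work.MP_a2bf38_gt.K.Sup
import Pool.Agent.Work.MP_a2bf38_gt.I.ABP2

/-!
# The drop estimate for fibrations with semistable models
-/

open scoped ContDiff ENNReal ComplexOrder Topology
open Set MeasureTheory Filter Pool.Agent.ToricKRF Pool.Agent.ToricKRF.G Pool.Agent.KRFS
  Pool.Agent.KRFF

namespace Pool.Agent.KRFG

section hB

variable {m : ℕ} {C₁ A ε : ℝ}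

theorem isCompact_ball4 : IsCompact {y : Cn m | nsq y ≤ 16} := by
  have := isCompact_nsq_sub (n := m) 0 (r := 4) (by norm_num)
  simp only [sub_zero] at this
  norm_num at this
  exact this

theorem continuous_nsq0 : Continuous fun y : Cn m => nsq y := by
  have := continuous_nsq_sub (n := m) 0
  simpa using this

theorem continuous_hB (hε : 0 < ε) : Continuous (hB (m := m) C₁ A ε) := by
  unfold hB
  refine (continuous_const.mul (continuous_finsetSum _ fun i _ => ?_)).sub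
    (continuous_const.mul continuous_nsq0)
  exact (by fun_prop : Continuous fun y : Cn m => (y.1 i) ^ 2 + (y.2 i) ^ 2).rpow_const
    fun _ => Or.inr hε.le

theorem hB_bound (C₁ A : ℝ) (hε : 0 < ε) : ∃ B : ℝ, 0 ≤ B ∧ ∀ y : Cn m, nsq y ≤ 16 →
    |hB (m := m) C₁ A ε y| ≤ B := by
  obtain ⟨B, hB'⟩ := (isCompact_ball4 (m := m)).exists_bound_of_continuousOn
    (continuous_hB (m := m) (C₁ := C₁) (A := A) hε).continuousOn
  refine ⟨max B 0, le_max_right _ _, fun y hy => (hB' y hy).trans (le_max_left _ _)⟩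

end hB

section Mod

variable {n m : ℕ} {M Y W : Type} [TopologicalSpace M] [CompactSpace M] [T2Space M]
  [TopologicalSpace Y] [T2Space Y] [TopologicalSpace W] [T2Space W] {κ P ι : Type}
  [Finite P] [Fintype ι] {T : ℝ} (F : Mod n m M Y W κ P ι T)

/-- the part of `M` over the closed ball of radius `4` of the chart `j` -/
def Mod.over (j : P) : Set M := {x | F.f x ∈ (F.b j).source ∧ nsq (F.b j (F.f x)) ≤ 16}

omit [T2Space M] [T2Space W] [Finite P] [Fintype ι] in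
theorem Mod.isCompact_over (j : P) : IsCompact (F.over j) := by
  have h1 : {y : Cn m | nsq y ≤ 16} ⊆ (F.b j).target := fun y hy =>
    F.hol.target j (show nsq y < 100 from lt_of_le_of_lt (show nsq y ≤ 16 from hy) (by norm_num))
  have h2 : IsCompact ((F.b j).symm '' {y : Cn m | nsq y ≤ 16}) :=
    isCompact_ball4.image_of_continuousOn ((F.b j).continuousOn_symm.mono h1)
  have h3 : F.over j = F.f ⁻¹' ((F.b j).symm '' {y : Cn m | nsq y ≤ 16}) := by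
    ext x
    constructor
    · rintro ⟨hx, hx'⟩
      exact ⟨_, hx', (F.b j).left_inv hx⟩
    · rintro ⟨y, hy, hyx⟩
      refine ⟨?_, ?_⟩
      · rw [← hyx]
        exact (F.b j).map_target (h1 hy)
      · rw [← hyx, (F.b j).right_inv (h1 hy)]
        exact hy
  rw [h3]
  exact (h2.isClosed.preimage F.hol.cont).isCompact

/-- **The minimum principle**: the function `φ(s) - G_j + barr` has its minimum over `j`, `x` and
`s ∈ [t₀, t]` at the time `t₀`. -/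
theorem Mod.drop_step {C₁ : ℝ}
    (h1 : ∀ c, ∀ t ∈ Ico 0 T, ∀ z ∈ (F.e c).target,
      (∀ u, 1 / 2 * (1 - t / T) * lev (F.ψ c) u (0, z) ≤ lev (F.ψ c) u (t, z)) →
      n * Real.log (1 - t / T) - C₁ ≤ F.dphi c (t, z))
    {t₀ t a d A : ℝ} {h : Cn m → ℝ} (ht₀ : t₀ ∈ Ico 0 T) (ht : t ∈ Ico t₀ T)
    (ha : 0 < a) (hd : 0 < d) (hc : Continuous h) (hA : ∀ y : Cn m, nsq y ≤ 1 → -A ≤ h y)
    (hA' : ∀ y : Cn m, 9 ≤ nsq y → nsq y ≤ 16 → h y < -A)
    (hG : ∀ j, PshC (fun y => a * (F.Mx t₀ ((F.b j).symm y) + d * h y) + t₀ / T * F.K j y)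
      {y : Cn m | nsq y < 25}) {B : ℝ}
    (hB : ∀ j, ∀ x, F.f x ∈ (F.b j).source → nsq (F.b j (F.f x)) ≤ 16 →
      B ≤ F.Phi t₀ x - a * (F.Mx t₀ (F.f x) + d * h (F.b j (F.f x)))) (j : P) (p : M)
    (hp : F.f p ∈ (F.b j).source) (hp' : nsq (F.b j (F.f p)) ≤ 16) :
    B ≤ F.Phi t p - a * (F.Mx t₀ (F.f p) + d * h (F.b j (F.f p))) + barr n T C₁ t₀ t := by
  have hT : 0 < T := ht₀.1.trans_lt ht₀.2
  have hsub : ∀ s ∈ Icc t₀ t, s ∈ Ico 0 T := fun s hs => ⟨ht₀.1.trans hs.1, hs.2.trans_lt ht.2⟩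
  set G : P → Cn m → ℝ := fun j y => a * (F.Mx t₀ ((F.b j).symm y) + d * h y) with hGdef
  set V : P → ℝ × M → ℝ := fun j q =>
    F.Phi q.1 q.2 - G j (F.b j (F.f q.2)) + barr n T C₁ t₀ q.1 with hV
  have hGV : ∀ j x, F.f x ∈ (F.b j).source →
      G j (F.b j (F.f x)) = a * (F.Mx t₀ (F.f x) + d * h (F.b j (F.f x))) := by
    intro j x hx
    simp only [hGdef]
    rw [(F.b j).left_inv hx]
  -- continuity
  have hVc : ∀ j, ContinuousOn (V j) (Icc t₀ t ×ˢ F.over j) := by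
    intro j
    have e1 : ContinuousOn (fun q : ℝ × M => F.Phi q.1 q.2) (Icc t₀ t ×ˢ F.over j) :=
      F.toFlow.Phi_continuousOn.mono fun q hq => ⟨hsub _ hq.1, mem_univ _⟩
    have e2 : ContinuousOn (fun q : ℝ × M => F.b j (F.f q.2)) (Icc t₀ t ×ˢ F.over j) :=
      (F.b j).continuousOn.comp (F.hol.cont.comp continuous_snd).continuousOn
        fun q hq => hq.2.1
    have e3 : ContinuousOn (fun q : ℝ × M => a * (F.Mx t₀ (F.f q.2) + d * h (F.b j (F.f q.2))))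
        (Icc t₀ t ×ˢ F.over j) :=
      continuousOn_const.mul ((((F.Mx_continuous ht₀).comp
        (F.hol.cont.comp continuous_snd)).continuousOn).add
          (continuousOn_const.mul (hc.comp_continuousOn e2)))
    have e4 : ContinuousOn (fun q : ℝ × M => barr n T C₁ t₀ q.1) (Icc t₀ t ×ˢ F.over j) := by
      have e5 : ContinuousOn (barr n T C₁ t₀) (Icc t₀ t) := fun s hs =>
        (hasDerivAt_barr n hT (hsub s hs).2).continuousAt.continuousWithinAt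
      exact e5.comp continuousOn_fst fun q hq => hq.1
    refine ((e1.sub e3).add e4).congr fun q hq => ?_
    simp only [hV]
    rw [hGV j q.2 hq.2.1]
    rfl
  -- reduction to `V`
  suffices hmain : ∀ j, ∀ q ∈ Icc t₀ t ×ˢ F.over j, B ≤ V j q by
    have h2 := hmain j (t, p) ⟨⟨ht.1, le_rfl⟩, hp, hp'⟩
    simp only [hV] at h2
    rwa [hGV j p hp] at h2
  -- the minimum over the time `t₀` and over all times
  have key : ∀ I : Set ℝ, IsCompact I → I ⊆ Icc t₀ t → t₀ ∈ I → ∃ j, ∃ q ∈ I ×ˢ F.over j,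
      ∀ j', ∀ q' ∈ I ×ˢ F.over j', V j q ≤ V j' q' := by
    intro I hI hIs hI0
    have : Nonempty (ℝ × M) := ⟨(t₀, p)⟩
    set S : Set P := {j | (F.over j).Nonempty} with hS
    have hSn : S.Nonempty := ⟨j, p, hp, hp'⟩
    have h3 : ∀ j ∈ S, ∃ q ∈ I ×ˢ F.over j, ∀ q' ∈ I ×ˢ F.over j, V j q ≤ V j q' := by
      intro j hj
      obtain ⟨x, hx⟩ := hj
      obtain ⟨q, hq, hq'⟩ := (hI.prod (F.isCompact_over j)).exists_isMinOn ⟨(t₀, x), hI0, hx⟩
        ((hVc j).mono (prod_mono hIs Subset.rfl))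
      exact ⟨q, hq, fun q' h => hq' h⟩
    choose! w hw hw' using h3
    obtain ⟨j, hj, hjm⟩ := S.exists_min_image (fun j => V j (w j)) (Set.toFinite S) hSn
    refine ⟨j, w j, hw j hj, fun j' q' hq' => ?_⟩
    have hj' : j' ∈ S := ⟨q'.2, hq'.2⟩
    exact (hjm j' hj').trans (hw' j' hj' q' hq')
  obtain ⟨j₁, ⟨s₀, x₀⟩, ⟨hs₀, hx₀⟩, hm⟩ := key (Icc t₀ t) isCompact_Icc Subset.rfl ⟨le_rfl, ht.1⟩
  obtain ⟨j₂, ⟨s₂, x₂⟩, ⟨hs₂, hx₂⟩, hm₀⟩ := key {t₀} isCompact_singleton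
    (singleton_subset_iff.2 ⟨le_rfl, ht.1⟩) rfl
  have hs₂' : s₂ = t₀ := hs₂
  subst hs₂'
  have hB₂ : B ≤ V j₂ (s₂, x₂) := by
    simp only [hV]
    rw [hGV j₂ x₂ hx₂.1, barr_self, add_zero]
    exact hB j₂ x₂ hx₂.1 hx₂.2
  intro j' q' hq'
  refine le_trans ?_ (hm j' q' hq')
  by_contra hlt
  rw [not_le] at hlt
  have hδ : 0 < V j₂ (s₂, x₂) - V j₁ (s₀, x₀) := by linarith
  have hs₀I : s₀ ∈ Icc s₂ t := hs₀
  -- the minimum is not at the time `t₀`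
  have hs : s₂ < s₀ := by
    refine lt_of_le_of_ne hs₀I.1 fun h => ?_
    subst h
    have := hm₀ j₁ (s₂, x₀) ⟨rfl, hx₀⟩
    linarith
  -- the minimum is over the interior of the ball
  have hx9 : nsq (F.b j₁ (F.f x₀)) < 9 := by
    by_contra h9
    rw [not_lt] at h9
    obtain ⟨j₃, hj₃, hj₃'⟩ := F.hol.cover (F.f x₀)
    have h4 := hm j₃ (s₀, x₀) ⟨hs₀, hj₃, hj₃'.trans (by norm_num)⟩
    simp only [hV] at h4
    rw [hGV j₁ x₀ hx₀.1, hGV j₃ x₀ hj₃] at h4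
    have h5 := hA _ hj₃'
    have h6 := hA' _ h9 hx₀.2
    have h7 : d * h (F.b j₁ (F.f x₀)) < d * h (F.b j₃ (F.f x₀)) :=
      mul_lt_mul_of_pos_left (by linarith) hd
    have h8 := mul_lt_mul_of_pos_left
      (add_lt_add_right h7 (F.Mx s₂ (F.f x₀))) ha
    linarith
  have ho : IsOpen {y : Cn m | nsq y < 25} := isOpen_lt continuous_nsq0 continuous_const
  refine F.drop_local h1 ht₀ ⟨hs, hs₀I.2.trans_lt ht.2⟩ hδ hx₀.1
    (hx9.trans (by norm_num)) (G := G j₁) (fun η hη => ?_) ?_ ?_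
  · obtain ⟨u', V', hV'o, hV's, -, hu', hlev, hcl⟩ := pshC_mollify ho (hG j₁) isCompact_ball4
      (fun y hy => show nsq y < 25 from lt_of_le_of_lt (show nsq y ≤ 16 from hy) (by norm_num)) hη
    exact ⟨u', V', hV'o, hV's, hu', hlev, hcl⟩
  · intro s hsI x hx hx'
    exact hm j₁ (s, x) ⟨⟨hsI.1, hsI.2.trans hs₀I.2⟩, hx, hx'⟩
  · intro x hx hx'
    have h4 := hm₀ j₁ (s₂, x) ⟨rfl, hx, hx'⟩
    simp only [hV, barr_self, add_zero] at h4 ⊢
    linarith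

/-- **The drop estimate**: `φ(t₀) - φ(t) ≤ C (T - t₀)^(1/2)` for `t ≥ t₀`. -/
theorem Mod.drop_of
    (hgap : ∃ C : ℝ, 0 ≤ C ∧ ∀ t ∈ Ico 0 T, ∀ p, F.Mx t (F.f p) - F.Phi t p ≤ C * √(T - t))
    (hbase : ∃ C₁ A C₃ ε d₀ : ℝ, 0 ≤ C₁ ∧ 0 ≤ A ∧ 0 ≤ C₃ ∧ 0 < ε ∧ 0 < d₀ ∧
      (∀ y : Cn m, nsq y ≤ 1 → -A ≤ hB C₁ A ε y) ∧
      (∀ y : Cn m, 9 ≤ nsq y → nsq y ≤ 16 → hB C₁ A ε y < -A) ∧
      ∀ t ∈ Ico 0 T, T - t < d₀ → C₃ * (1 - t / T) ≤ 1 / 2 ∧ ∀ j,
        PshC (fun y => (1 - C₃ * (1 - t / T)) * (F.Mx t ((F.b j).symm y) +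
          (1 - t / T) * hB C₁ A ε y) + t / T * F.K j y) {y : Cn m | nsq y < 25}) :
    F.toFlow.Drop (1 / 2) := by
  rcases le_or_gt T 0 with hT | hT
  · exact ⟨0, le_rfl, fun t₀ ht₀ => absurd (ht₀.1.trans_lt ht₀.2) (not_lt.2 hT)⟩
  obtain ⟨C₁, hC₁, h1⟩ := Flow.dphi_ge_half F.toFlow
  obtain ⟨C₂, hC₂, h2⟩ := F.toFlow.Phi_bound
  obtain ⟨C₃, hC₃, h3⟩ := hgap
  obtain ⟨D₁, A, D₃, ε, δ, hD₁, hA, hD₃, hε, hδ0, hA1, hA9, hbase⟩ := hbase
  obtain ⟨B, hB0, hBd⟩ := hB_bound (m := m) D₁ A hε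
  have hsδ : 0 < √δ := Real.sqrt_pos.2 hδ0
  have hsT : 0 < √T := Real.sqrt_pos.2 hT
  set K₁ : ℝ := C₃ + 2 * C₂ * (D₃ / √T) + 2 * B / √T +
    ((C₁ + 1 + n) * √T + 2 * n * √T) with hK₁
  have hK₁0 : 0 ≤ K₁ := by positivity
  refine ⟨K₁ + 2 * C₂ / √δ, by positivity, fun t₀ ht₀ t ht p => ?_⟩
  rw [← Real.sqrt_eq_rpow]
  have hs0 : 0 ≤ √(T - t₀) := Real.sqrt_nonneg _
  have ht' : t ∈ Ico 0 T := ⟨ht₀.1.trans ht.1, ht.2⟩
  have hb1 := abs_le.1 (h2 t₀ ht₀ p)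
  have hb2 := abs_le.1 (h2 t ht' p)
  have hTt : 0 < T - t₀ := sub_pos.2 ht₀.2
  have hMx : ∀ y, |F.Mx t₀ y| ≤ C₂ := by
    intro y
    obtain ⟨⟨x, -, hx⟩, -⟩ := F.Mx_spec ht₀ y
    rw [← hx]
    exact h2 t₀ ht₀ x
  rcases lt_or_ge (T - t₀) δ with hc | hc
  · -- the good case
    obtain ⟨hq1, hpsh⟩ := hbase t₀ ht₀ hc
    have e1 : (1 - t₀ / T) = (T - t₀) / T := by field_simp
    have hd : 0 < 1 - t₀ / T := by
      rw [e1]
      positivity
    have hds : (1 - t₀ / T) ≤ √(T - t₀) / √T := by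
      rw [e1, div_le_div_iff₀ hT hsT]
      have h7 : √(T - t₀) * √(T - t₀) = T - t₀ := Real.mul_self_sqrt hTt.le
      have h8 : √T * √T = T := Real.mul_self_sqrt hT.le
      have h9 : √(T - t₀) ≤ √T := Real.sqrt_le_sqrt (by linarith [ht₀.1])
      calc (T - t₀) * √T = √(T - t₀) * (√(T - t₀) * √T) := by rw [← mul_assoc, h7]
        _ ≤ √(T - t₀) * (√T * √T) :=
          mul_le_mul_of_nonneg_left (mul_le_mul_of_nonneg_right h9 hsT.le) hs0
        _ = √(T - t₀) * T := by rw [h8]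
    set d : ℝ := 1 - t₀ / T with hdd
    set q : ℝ := D₃ * d with hq
    have hq0 : 0 ≤ q := by positivity
    have hqs : q ≤ D₃ / √T * √(T - t₀) := by
      calc q ≤ D₃ * (√(T - t₀) / √T) := mul_le_mul_of_nonneg_left hds hD₃
        _ = _ := by ring
    have ha : 0 < 1 - q := by linarith
    have hdB : d * B ≤ B / √T * √(T - t₀) := by
      calc d * B ≤ √(T - t₀) / √T * B := mul_le_mul_of_nonneg_right hds hB0
        _ = _ := by ring
    -- estimate of `q * Mx`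
    have hqM : ∀ y, |q * F.Mx t₀ y| ≤ D₃ / √T * √(T - t₀) * C₂ := by
      intro y
      rw [abs_mul, abs_of_nonneg hq0]
      exact mul_le_mul hqs (hMx y) (abs_nonneg _) (by positivity)
    have hdh : ∀ y : Cn m, nsq y ≤ 16 → |(1 - q) * (d * hB D₁ A ε y)| ≤ B / √T * √(T - t₀) := by
      intro y hy
      rw [abs_mul, abs_of_pos ha, abs_mul, abs_of_pos hd]
      calc (1 - q) * (d * |hB D₁ A ε y|) ≤ 1 * (d * B) :=
            mul_le_mul (by linarith) (mul_le_mul_of_nonneg_left (hBd y hy) hd.le) (by positivity)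
              (by norm_num)
        _ = d * B := one_mul _
        _ ≤ _ := hdB
    obtain ⟨j, hj, hj'⟩ := F.hol.cover (F.f p)
    have hj16 : nsq (F.b j (F.f p)) ≤ 16 := hj'.trans (by norm_num)
    have h10 := F.drop_step (a := 1 - q) (d := d) (A := A) (h := hB D₁ A ε)
      (B := -(C₃ * √(T - t₀)) - D₃ / √T * √(T - t₀) * C₂ - B / √T * √(T - t₀))
      h1 ht₀ ht ha hd (continuous_hB hε) hA1 hA9 hpsh (by
      intro j x hx hx16
      have h11 := h3 t₀ ht₀ x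
      have h12 := (abs_le.1 (hqM (F.f x))).1
      have h13 := (abs_le.1 (hdh _ hx16)).2
      have h14 : (1 - q) * (F.Mx t₀ (F.f x) + d * hB D₁ A ε (F.b j (F.f x))) =
        F.Mx t₀ (F.f x) - q * F.Mx t₀ (F.f x) + (1 - q) * (d * hB D₁ A ε (F.b j (F.f x))) := by
        ring
      rw [h14]
      linarith) j p hj hj16
    have h11 := (abs_le.1 (hqM (F.f p))).2
    have h12 := (abs_le.1 (hdh _ hj16)).1
    have h13 := (F.Mx_spec ht₀ (F.f p)).2 p rfl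
    have h14 := barr_le n (t₀ := t₀) (t := t) hT hC₁ ht₀.1 ht.1 ht.2
    have h15 : (1 - q) * (F.Mx t₀ (F.f p) + d * hB D₁ A ε (F.b j (F.f p))) =
        F.Mx t₀ (F.f p) - q * F.Mx t₀ (F.f p) + (1 - q) * (d * hB D₁ A ε (F.b j (F.f p))) := by
        ring
    rw [h15] at h10
    have h17 : 0 ≤ 2 * C₂ / √δ * √(T - t₀) := by positivity
    have h18 : K₁ * √(T - t₀) = C₃ * √(T - t₀) + 2 * (D₃ / √T * √(T - t₀) * C₂) +
        2 * (B / √T * √(T - t₀)) + ((C₁ + 1 + n) * √T + 2 * n * √T) * √(T - t₀) := by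
      rw [hK₁]
      ring
    rw [add_mul, h18]
    linarith
  · -- the trivial case
    have h4 : √δ ≤ √(T - t₀) := Real.sqrt_le_sqrt hc
    have h5 : 2 * C₂ ≤ 2 * C₂ / √δ * √(T - t₀) := by
      rw [div_mul_eq_mul_div, le_div_iff₀ hsδ]
      exact mul_le_mul_of_nonneg_left h4 (by positivity)
    have h6 : 0 ≤ K₁ * √(T - t₀) := by positivity
    rw [add_mul]
    linarith

end Mod

end Pool.Agent.KRFG
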