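import Pool.Agent.Work.MP_a2bf38_gt.K.Setup
import Pool.Agent.Work.MP_a2bf38_gt.I.FBound

/-!
# The gap, from the contact set and the decay of the volumes (helper33)
-/

open scoped ContDiff ENNReal ComplexOrder Topology
open Set MeasureTheory Filter Pool.Agent.ToricKRF Pool.Agent.ToricKRF.G Pool.Agent.KRFS
  Pool.Agent.KRFF

namespace Pool.Agent.KRFG

section root

/-- roots of the coordinates -/
theorem exists_root {m : ℕ} (N : Fin m → ℕ) (hN : ∀ i, 0 < N i) (y : Cn m) :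
    ∃ t : Cn m, ∀ i, cc t i ^ N i = cc y i := by
  have h : ∀ i, ∃ z : ℂ, z ^ N i = cc y i := fun i => IsAlgClosed.exists_pow_nat_eq _ (hN i)
  choose z hz using h
  refine ⟨ofC z, fun i => ?_⟩
  have h1 : cc (ofC z) i = z i := by
    unfold cc ofC
    apply Complex.ext <;> simp
  rw [h1, hz]

end root

variable {n m : ℕ} {M Y W : Type} [TopologicalSpace M] [CompactSpace M]
  [TopologicalSpace Y] [TopologicalSpace W] {κ P ι : Type}
  [Fintype ι] {T : ℝ} (F : Mod n m M Y W κ P ι T)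

/-- every point of `M` lifts to the core of a chart of `W` -/
theorem Mod.exists_lift (p : M) : ∃ (c : ι) (x : Cn n), x ∈ cpd (k := n) 1 ∧
    F.π ((F.a c).symm x) = p ∧ nsq (F.yc c x) ≤ 1 := by
  obtain ⟨j, hj, hj1⟩ := F.hol.cover (F.f p)
  obtain ⟨t, ht⟩ := exists_root (F.N j) (F.model.N_pos j) (F.b j (F.f p))
  obtain ⟨w, hw, -, hwp⟩ := F.model.onto j p hj (hj1.trans (by norm_num)) t ht
  subst hw
  obtain ⟨c, hc, hc1⟩ := F.model.cover w (by rw [hwp]; exact hj1.trans (by norm_num))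
  refine ⟨c, F.a c w, hc1, ?_, ?_⟩
  · rw [(F.a c).left_inv hc, hwp]
  · unfold Mod.yc
    rw [(F.a c).left_inv hc, hwp, ← F.model.lab_eq c w hc]
    exact hj1

theorem Mod.gap_of
    (hspec : ∀ t ∈ Ico 0 T, ∀ y : Y, ∃ p, F.f p = y ∧ F.Phi t p = F.Mx t y)
    (hcontact : ∃ (c C d₀ : ℝ) (A : κ → Set (Cn n)), 0 < c ∧ 0 ≤ C ∧ 0 < d₀ ∧
      {c | (A c).Nonempty}.Finite ∧ (∀ c, IsCompact (A c) ∧ A c ⊆ (F.e c).target) ∧
      ∀ t ∈ Ico 0 T, T - t < d₀ → ∀ H : ℝ, (∃ p, F.Phi t p ≤ F.Mx t (F.f p) - H) →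
        ∃ c', ∃ S ⊆ A c', MeasurableSet S ∧ ENNReal.ofReal (c * (T - t) ^ (2 * n)) ≤ volume S ∧
          ∀ z ∈ S, F.Phi t ((F.e c').symm z) ≤
            F.Mx t (F.f ((F.e c').symm z)) - H + C * (T - t))
    (hup : ∀ (c : κ) {A : Set (Cn n)}, IsCompact A → A ⊆ (F.e c).target →
      ∃ C : ℝ, 0 ≤ C ∧ ∀ S ⊆ A, ∀ B : ι → Set (Cn n), (∀ i, B i ⊆ cpd 1) →
        (∀ z ∈ S, ∃ i, ∃ x ∈ B i, F.π ((F.a i).symm x) = (F.e c).symm z) →
        volume S ≤ ENNReal.ofReal C * ∑ i, volume (B i))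
    (hsmall : ∀ {η : ℝ}, 0 < η → ∃ d₀ > 0, ∀ t ∈ Ico 0 T, T - t < d₀ → ∀ c,
      volume {x : Cn n | x ∈ cpd 1 ∧ nsq (F.yc c x) ≤ 16 ∧ F.gc t c x < -√(T - t)} ≤
        ENNReal.ofReal (η * (T - t) ^ (2 * n))) :
    ∃ C : ℝ, 0 ≤ C ∧ ∀ t ∈ Ico 0 T, ∀ p,
      F.Mx t (F.f p) - F.Phi t p ≤ C * √(T - t) := by
  obtain ⟨c, C, d₁, A, hc, hC, hd₁, hfin, hA, hcon⟩ := hcontact
  -- one constant for `up`
  obtain ⟨U, hU0, hU⟩ : ∃ U : ℝ, 0 ≤ U ∧ ∀ c', (A c').Nonempty → ∀ S ⊆ A c',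
      ∀ B : ι → Set (Cn n), (∀ i, B i ⊆ cpd 1) →
      (∀ z ∈ S, ∃ i, ∃ x ∈ B i, F.π ((F.a i).symm x) = (F.e c').symm z) →
      volume S ≤ ENNReal.ofReal U * ∑ i, volume (B i) := by
    choose u hu0 hu using fun c' : κ => hup c' (hA c').1 (hA c').2
    obtain ⟨B, hB⟩ := (hfin.image u).bddAbove
    refine ⟨max B 0, le_max_right _ _, fun c' hne S hS D hD h => ?_⟩
    refine (hu c' S hS D hD h).trans ?_
    gcongr
    exact (hB (mem_image_of_mem _ hne)).trans (le_max_left _ _)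
  set η : ℝ := c / (2 * (U * Fintype.card ι + 1)) with hη
  have hcard : (0 : ℝ) ≤ Fintype.card ι := Nat.cast_nonneg _
  have hUc : 0 ≤ U * Fintype.card ι := mul_nonneg hU0 hcard
  have hη0 : 0 < η := by positivity
  obtain ⟨d₂, hd₂, hsm⟩ := hsmall hη0
  obtain ⟨B, hB0, hB⟩ := F.Phi_bound
  set d₀ : ℝ := min d₁ d₂ with hd₀
  have hd0 : 0 < d₀ := lt_min hd₁ hd₂
  refine ⟨max (2 + C * √T) (2 * B / √d₀), le_max_of_le_left (by positivity), fun t ht p => ?_⟩
  have hTt : 0 < T - t := by linarith [ht.2]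
  have hsq : 0 < √(T - t) := Real.sqrt_pos.2 hTt
  by_cases hsmallt : T - t < d₀
  · -- close to the singular time
    refine le_trans ?_ (mul_le_mul_of_nonneg_right (le_max_left _ _) hsq.le)
    by_contra hcontra
    push Not at hcontra
    obtain ⟨c', S, hSA, -, hvol, hS⟩ := hcon t ht (hsmallt.trans_le (min_le_left _ _))
      ((2 + C * √T) * √(T - t)) ⟨p, by linarith⟩
    have hpos : 0 < c * (T - t) ^ (2 * n) := by positivity
    have hne : (A c').Nonempty := by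
      rw [nonempty_iff_ne_empty]
      intro h0
      rw [h0, subset_empty_iff] at hSA
      rw [hSA, measure_empty, nonpos_iff_eq_zero, ENNReal.ofReal_eq_zero] at hvol
      linarith
    have hle : C * (T - t) ≤ C * √T * √(T - t) := by
      have h1 : √(T - t) ≤ √T := Real.sqrt_le_sqrt (by linarith [ht.1])
      have h2 : √(T - t) * √(T - t) = T - t := Real.mul_self_sqrt hTt.le
      have h3 : T - t ≤ √T * √(T - t) := by
        calc T - t = √(T - t) * √(T - t) := h2.symm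
          _ ≤ √T * √(T - t) := mul_le_mul_of_nonneg_right h1 hsq.le
      calc C * (T - t) ≤ C * (√T * √(T - t)) := mul_le_mul_of_nonneg_left h3 hC
        _ = C * √T * √(T - t) := by ring
    have h1 := hU c' hne S hSA
      (fun i => {x : Cn n | x ∈ cpd 1 ∧ nsq (F.yc i x) ≤ 16 ∧ F.gc t i x < -√(T - t)})
      (fun i x hx => hx.1) (fun z hz => by
        obtain ⟨i, x, hx1, hx2, hx3⟩ := F.exists_lift ((F.e c').symm z)
        refine ⟨i, x, ⟨hx1, hx3.trans (by norm_num), ?_⟩, hx2⟩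
        have h2 := hS z hz
        unfold Mod.gc
        rw [hx2]
        nlinarith)
    have h2 : ∑ i, volume {x : Cn n | x ∈ cpd 1 ∧ nsq (F.yc i x) ≤ 16 ∧
        F.gc t i x < -√(T - t)} ≤ ENNReal.ofReal (Fintype.card ι * (η * (T - t) ^ (2 * n))) := by
      refine (Finset.sum_le_sum fun i _ => hsm t ht (hsmallt.trans_le (min_le_right _ _)) i).trans ?_
      rw [Finset.sum_const, Finset.card_univ, nsmul_eq_mul, ENNReal.ofReal_mul hcard,
        ENNReal.ofReal_natCast]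
    have h3 : ENNReal.ofReal (c * (T - t) ^ (2 * n)) ≤
        ENNReal.ofReal (U * (Fintype.card ι * (η * (T - t) ^ (2 * n)))) := by
      refine hvol.trans (h1.trans ?_)
      rw [ENNReal.ofReal_mul hU0]
      gcongr
    have h4 := (ENNReal.ofReal_le_ofReal_iff (by positivity)).1 h3
    have h5 : U * (Fintype.card ι * (η * (T - t) ^ (2 * n))) =
        (U * Fintype.card ι) * η * (T - t) ^ (2 * n) := by ring
    have h6 : (U * Fintype.card ι) * η ≤ c / 2 := by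
      rw [hη, ← mul_div_assoc, div_le_div_iff₀ (by positivity) (by norm_num)]
      nlinarith
    have h7 : 0 < (T - t) ^ (2 * n) := by positivity
    rw [h5] at h4
    nlinarith [mul_le_mul_of_nonneg_right h6 h7.le]
  · -- far from the singular time
    refine le_trans ?_ (mul_le_mul_of_nonneg_right (le_max_right _ _) hsq.le)
    push Not at hsmallt
    obtain ⟨q, -, hq⟩ := hspec t ht (F.f p)
    have h1 := abs_le.1 (hB t ht p)
    have h2 := abs_le.1 (hB t ht q)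
    have h3 : √d₀ ≤ √(T - t) := Real.sqrt_le_sqrt hsmallt
    have h4 : 0 < √d₀ := Real.sqrt_pos.2 hd0
    rw [← hq]
    calc F.Phi t q - F.Phi t p ≤ 2 * B := by linarith
      _ = 2 * B / √d₀ * √d₀ := by field_simp
      _ ≤ 2 * B / √d₀ * √(T - t) := mul_le_mul_of_nonneg_left h3 (by positivity)

end Pool.Agent.KRFG
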