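import Pool.Agent.Work.MP_a2bf38_gt.K.Base
import Pool.Agent.Work.MP_a2bf38_gt.K.ContactOf
import Pool.Agent.Work.MP_a2bf38_gt.K.GapOf
import Pool.Agent.Work.MP_a2bf38_gt.K.DropOf
import Pool.Agent.Work.MP_a2bf38_gt.K.Decay
import Pool.Agent.Work.MP_a2bf38_gt.K.Up
import Pool.Agent.Work.MP_a2bf38_gt.K.Sup

/-!
# The gap and the drop estimate
-/

open scoped ContDiff ENNReal ComplexOrder Topology
open Set MeasureTheory Filter Pool.Agent.ToricKRF Pool.Agent.ToricKRF.G Pool.Agent.KRFS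
  Pool.Agent.KRFF

namespace Pool.Agent.KRFG

variable {n m : ℕ} {M Y W : Type} [TopologicalSpace M] [CompactSpace M] [T2Space M]
  [TopologicalSpace Y] [T2Space Y] [TopologicalSpace W] [T2Space W] {κ P ι : Type}
  [Finite P] [Fintype ι] {T : ℝ} (F : Mod n m M Y W κ P ι T)

theorem Mod.contact : ∃ (c C d₀ : ℝ) (A : κ → Set (Cn n)), 0 < c ∧ 0 ≤ C ∧ 0 < d₀ ∧
    {c | (A c).Nonempty}.Finite ∧ (∀ c, IsCompact (A c) ∧ A c ⊆ (F.e c).target) ∧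
    ∀ t ∈ Ico 0 T, T - t < d₀ → ∀ H : ℝ, (∃ p, F.Phi t p ≤ F.Mx t (F.f p) - H) →
      ∃ c', ∃ S ⊆ A c', MeasurableSet S ∧ ENNReal.ofReal (c * (T - t) ^ (2 * n)) ≤ volume S ∧
        ∀ z ∈ S, F.Phi t ((F.e c').symm z) ≤
          F.Mx t (F.f ((F.e c').symm z)) - H + C * (T - t) :=
  F.contact_of F.base_psh

theorem Mod.gap : ∃ C : ℝ, 0 ≤ C ∧ ∀ t ∈ Ico 0 T, ∀ p,
    F.Mx t (F.f p) - F.Phi t p ≤ C * √(T - t) :=
  F.gap_of (fun _ ht y => (F.Mx_spec ht y).1) F.contact (fun c _ hA hAt => F.up c hA hAt)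
    fun hη => F.small hη

theorem Mod.drop : F.toFlow.Drop (1 / 2) := F.drop_of F.gap F.base_psh

end Pool.Agent.KRFG
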