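import Pool.Agent.Work.MP_a2bf38_gt.K.End
import Pool.Agent.Work.MP_a2bf38_gt.I.Path
import Pool.Agent.Work.MP_a2bf38_gt.K.NatLim

/-!
# The theorem for fibrations with semistable models
-/

open scoped ContDiff ENNReal ComplexOrder Topology
open Set Filter Pool.Agent.ToricKRF Pool.Agent.ToricKRF.G Pool.Agent.KRFS Pool.Agent.KRFF

namespace Pool.Agent.KRFG

theorem diam_bounded_of_semistable {n m : ℕ} {M Y : Type} [TopologicalSpace M] [CompactSpace M]
    [T2Space M] [ConnectedSpace M] [TopologicalSpace Y] [T2Space Y] {κ P : Type} {T : ℝ}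
    {e : κ → OpenPartialHomeomorph M (Cn n)} {b : P → OpenPartialHomeomorph Y (Cn m)} {f : M → Y}
    {ψ : κ → ℝ × Cn n → ℝ} {Ω : κ → Cn n → ℝ} {K : P → Cn m → ℝ}
    (he : IsAtlas e) (hf : IsHolOnto e b f) (hmod : ∀ y, Nonempty (SemistableAt e b f y))
    (hψ : IsKRF e T ψ) (hl : IsPullbackLimit e b f T ψ Ω K) :
    ⨆ t ∈ Ico 0 T, rdiam e ψ t < ⊤ := by
  by_cases hT : 0 < T
  swap
  · have : Ico (0 : ℝ) T = ∅ := Ico_eq_empty hT
    simp [this]
  obtain ⟨P', ι, W, _, _, _, _, F, rfl, rfl⟩ := exists_mod hT he hf hmod hψ hl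
  exact F.toFlow.diam_of_local fun p =>
    F.toFlow.two_points (by norm_num) (by norm_num) F.drop p

end Pool.Agent.KRFG
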