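import Pool.Agent.Work.MP_a2bf38_gt.K.NatDefs
import Pool.Agent.Work.MP_a2bf38_gt.I.NatTop

/-!
# Submersions have semistable models
-/

open scoped ContDiff ENNReal ComplexOrder Topology
open Set Filter Pool.Agent.ToricKRF Pool.Agent.ToricKRF.G Pool.Agent.KRFS Pool.Agent.KRFF

namespace Pool.Agent.KRFG

namespace NSub

theorem cc_sub {m : ℕ} (u v : Cn m) (i : Fin m) : cc (u - v) i = cc u i - cc v i := by
  apply Complex.ext <;> simp [cc]

theorem cc_ext {m : ℕ} {u v : Cn m} (h : ∀ i, cc u i = cc v i) : u = v := by
  ext i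
  · exact congrArg Complex.re (h i)
  · exact congrArg Complex.im (h i)

theorem isCompact_cpd {m : ℕ} (s : ℝ) : IsCompact (cpd s : Set (Cn m)) := by
  have hclosed : IsClosed (cpd s : Set (Cn m)) := by
    have h1 : (cpd s : Set (Cn m)) = ⋂ i, {u : Cn m | u.1 i ^ 2 + u.2 i ^ 2 ≤ s ^ 2} := by
      ext u
      simp [cpd]
    rw [h1]
    refine isClosed_iInter fun i => isClosed_le ?_ continuous_const
    fun_prop
  refine Metric.isCompact_of_isClosed_isBounded hclosed ?_
  refine (Metric.isBounded_closedBall (x := (0 : Cn m)) (r := |s|)).subset fun u hu => ?_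
  rw [mem_closedBall_zero_iff, Prod.norm_def, max_le_iff, pi_norm_le_iff_of_nonneg (abs_nonneg s),
    pi_norm_le_iff_of_nonneg (abs_nonneg s)]
  refine ⟨fun i => ?_, fun i => ?_⟩
  · rw [Real.norm_eq_abs]
    exact sq_le_sq.1 (by nlinarith [hu i, sq_nonneg (u.2 i)])
  · rw [Real.norm_eq_abs]
    exact sq_le_sq.1 (by nlinarith [hu i, sq_nonneg (u.1 i)])

theorem cpd_subset_opd' {m : ℕ} {s r : ℝ} (hs : 0 ≤ s) (h : s < r) :
    (cpd s : Set (Cn m)) ⊆ opd r := fun u hu i =>
  lt_of_le_of_lt (hu i) (pow_lt_pow_left₀ h hs (by norm_num))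

/-- the projection to the last coordinates as a monomial map -/
def prowSnd (k m : ℕ) : Fin (k + m) → Option (Fin m) := Fin.addCases (fun _ => none) some

theorem prow_prowSnd {k m : ℕ} (x : Cn (k + m)) (i : Fin m) :
    prow (prowSnd k m) i x = cc (sndC x) i := by
  unfold prow prowSnd
  rw [Fin.prod_univ_add]
  simp only [Fin.addCases_left, Fin.addCases_right, Option.some.injEq]
  rw [Finset.prod_ite_eq']
  simp
  rfl

end NSub

open NSub NT

theorem semistable_of_submersion {M Y : Type} [TopologicalSpace M] [CompactSpace M] [T2Space M]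
    [TopologicalSpace Y] [T2Space Y] {k m : ℕ} {κ P : Type}
    {e : κ → OpenPartialHomeomorph M (Cn (k + m))} {b : P → OpenPartialHomeomorph Y (Cn m)}
    {f : M → Y} (he : IsAtlas e) (hb : IsAtlas b) (hf : IsSubmersion e b f)
    (hconn : ∀ y, IsPreconnected (f ⁻¹' {y})) (y₀ : Y) : Nonempty (SemistableAt e b f y₀) := by
  obtain ⟨j, hj⟩ := hb.cover y₀
  set z₀ := b j y₀ with hz₀
  obtain ⟨r, hr, hrt⟩ := exists_opd (b j).open_target ((b j).map_source hj)
  rw [← hz₀] at hrt
  have hVo : IsOpen {y : Cn m | y - z₀ ∈ opd r} := (NT.isOpen_opd r).preimage (by fun_prop)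
  have hYo : IsOpen ((b j).source ∩ (b j) ⁻¹' {y : Cn m | y - z₀ ∈ opd r}) :=
    (b j).isOpen_inter_preimage hVo
  let U : TopologicalSpace.Opens M :=
    ⟨f ⁻¹' ((b j).source ∩ (b j) ⁻¹' {y : Cn m | y - z₀ ∈ opd r}), hYo.preimage hf.continuous⟩
  have hU : ∀ w : U, f w.1 ∈ (b j).source ∧ b j (f w.1) - z₀ ∈ opd r := fun w => w.2
  have hcont : Continuous fun w : U => b j (f w.1) - z₀ := by
    have h1 : Continuous fun w : U => b j (f w.1) := by
      rw [continuous_iff_continuousAt]
      intro w
      have h2 : ContinuousAt (b j) (f w.1) := (b j).continuousAt (hU w).1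
      exact ContinuousAt.comp (f := fun w : U => f w.1) h2
        (hf.continuous.comp continuous_subtype_val).continuousAt
    exact h1.sub continuous_const
  refine ⟨{
    j := j
    mem := hj
    r := r
    r_pos := hr
    W := U
    top := inferInstance
    t2 := inferInstance
    π := Subtype.val
    τ := fun w => b j (f w.1) - z₀
    N := fun _ => 1
    N_pos := fun _ => one_pos
    cont := hcont
    range := fun w => (hU w).2
    base := fun w => ⟨(hU w).1, fun i => ?_⟩
    lift := fun p hp t ht h => ?_
    proper := fun s hs hsr => ?_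
    connected := fun t ht => ?_
    chart := fun w hw => ?_ }⟩
  · rw [pow_one, cc_sub]
    ring
  · have h1 : b j (f p) - z₀ = t := cc_ext fun i => by
      rw [cc_sub, h i, pow_one]
      ring
    exact ⟨⟨p, hp, by rw [← h1] at ht; exact ht⟩, h1, rfl⟩
  · -- the map is proper
    have hDc : IsCompact ((b j).symm '' {y : Cn m | y - z₀ ∈ cpd s}) := by
      have h1 : IsCompact {y : Cn m | y - z₀ ∈ cpd s} := by
        have h2 : {y : Cn m | y - z₀ ∈ cpd s} = (fun y => y + z₀) '' cpd s := by
          ext y
          constructor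
          · intro hy
            exact ⟨y - z₀, hy, by simp⟩
          · rintro ⟨u, hu, rfl⟩
            simpa using hu
        rw [h2]
        exact (NSub.isCompact_cpd s).image (by fun_prop)
      refine h1.image_of_continuousOn ((b j).continuousOn_symm.mono fun y hy => ?_)
      exact hrt y (cpd_subset_opd' hs hsr hy)
    have hM : IsCompact (f ⁻¹' ((b j).symm '' {y : Cn m | y - z₀ ∈ cpd s})) :=
      (hDc.isClosed.preimage hf.continuous).isCompact
    have himg : Subtype.val '' {w : U | b j (f w.1) - z₀ ∈ cpd s} =
        f ⁻¹' ((b j).symm '' {y : Cn m | y - z₀ ∈ cpd s}) := by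
      ext p
      constructor
      · rintro ⟨w, hw, rfl⟩
        exact ⟨b j (f w.1), hw, (b j).left_inv (hU w).1⟩
      · rintro ⟨y, hy, hyp⟩
        have hyt : y ∈ (b j).target := hrt y (cpd_subset_opd' hs hsr hy)
        have h1 : f p ∈ (b j).source := by
          rw [← hyp]
          exact (b j).map_target hyt
        have h2 : b j (f p) = y := by
          rw [← hyp]
          exact (b j).right_inv hyt
        refine ⟨⟨p, h1, ?_⟩, ?_, rfl⟩
        · change b j (f p) - z₀ ∈ opd r
          rw [h2]
          exact cpd_subset_opd' hs hsr hy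
        · change b j (f p) - z₀ ∈ cpd s
          rw [h2]
          exact hy
    rw [Topology.IsEmbedding.subtypeVal.isCompact_iff, himg]
    exact hM
  · -- the fibres are connected
    by_cases htr : t ∈ opd r
    · have h1 : IsPreconnected (f ⁻¹' {(b j).symm (z₀ + t)}) := hconn _
      have htt : z₀ + t ∈ (b j).target := hrt _ (by simpa using htr)
      have himg : Subtype.val '' {w : U | b j (f w.1) - z₀ = t} =
          f ⁻¹' {(b j).symm (z₀ + t)} := by
        ext p
        constructor
        · rintro ⟨w, hw, rfl⟩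
          have hw' : b j (f w.1) - z₀ = t := hw
          change f w.1 = _
          rw [← hw', add_sub_cancel, (b j).left_inv (hU w).1]
        · intro hp
          have hp' : f p = (b j).symm (z₀ + t) := hp
          have h2 : f p ∈ (b j).source := by
            rw [hp']
            exact (b j).map_target htt
          have h3 : b j (f p) = z₀ + t := by
            rw [hp']
            exact (b j).right_inv htt
          refine ⟨⟨p, h2, ?_⟩, ?_, rfl⟩
          · change b j (f p) - z₀ ∈ opd r
            rw [h3]
            simpa using htr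
          · change b j (f p) - z₀ = t
            rw [h3]
            simp
      rw [← himg] at h1
      exact Topology.IsInducing.subtypeVal.isPreconnected_image.1 h1
    · have h1 : {w : U | b j (f w.1) - z₀ = t} = ∅ := by
        ext w
        simp only [mem_ofPred_eq, mem_empty_iff_false, iff_false]
        rintro rfl
        exact htr (hU w).2
      change IsPreconnected {w : U | b j (f w.1) - z₀ = t}
      rw [h1]
      exact isPreconnected_empty
  · -- the charts
    have hw' : b j (f w.1) - z₀ = 0 := hw
    obtain ⟨c, E, hpE, hEs, hEf, hEsnd, hE1, hE2⟩ := exists_local he hf j w.1 (hU w).1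
    set p := w.1 with hp
    let E' : OpenPartialHomeomorph M (Cn (k + m)) :=
      E.transHomeomorph (Homeomorph.subRight (E p))
    have hE's : E'.source = E.source := rfl
    have hE'a : ∀ q, E' q = E q - E p := fun q => rfl
    have hE'y : ∀ x, E'.symm x = E.symm (x + E p) := fun x => rfl
    have hE't : ∀ x, x ∈ E'.target ↔ x + E p ∈ E.target := fun x => Iff.rfl
    let a : OpenPartialHomeomorph U (Cn (k + m)) := E'.subtypeRestr ⟨w⟩
    have has : ∀ w' : U, w' ∈ a.source ↔ w'.1 ∈ E.source := fun w' => by
      change w' ∈ (E'.subtypeRestr ⟨w⟩).source ↔ _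
      rw [OpenPartialHomeomorph.subtypeRestr_source]
      rfl
    have haa : ∀ w' : U, a w' = E w'.1 - E p := fun w' => rfl
    have hat : ∀ x ∈ a.target, (a.symm x).1 = E.symm (x + E p) := by
      intro x hx
      have h1 := (OpenPartialHomeomorph.subtypeRestr_symm_eqOn E' ⟨w⟩) hx
      exact h1.symm
    have hat' : ∀ x ∈ a.target, x + E p ∈ E.target := by
      intro x hx
      have h1 := a.map_target hx
      have h2 : a (a.symm x) = x := a.right_inv hx
      rw [haa] at h2
      have h3 : x + E p = E (a.symm x).1 := (sub_eq_iff_eq_add.1 h2).symm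
      rw [h3]
      exact E.map_source ((has _).1 h1)
    refine ⟨a, c, prowSnd k m, (has w).2 hpE, ?_, fun i => ⟨Fin.natAdd k i, ?_⟩, fun w' h => ?_, ?_,
      fun w' h i => ?_⟩
    · rw [haa, hp, sub_self]
    · simp [prowSnd]
    · exact hEs ((has w').1 h)
    · have h1 : HolOn (fun x => e c (E.symm (E p + (1 : ℝ) • x))) a.target :=
        hol_comp (G := fun z => e c (E.symm z)) (S' := E.target) a.open_target E.open_target hE1
          (hol_scale 1 (E p) _) fun x hx => by
            rw [one_smul, add_comm (E p) x]
            exact hat' x hx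
      refine hol_congr a.open_target h1 fun x hx => ?_
      change e c (a.symm x).1 = e c (E.symm (E p + (1 : ℝ) • x))
      rw [hat x hx, one_smul, add_comm (E p) x]
    · rw [prow_prowSnd, haa, sndC_sub, hEsnd _ ((has w').1 h), hEsnd _ hpE]
      rw [← sub_eq_zero.1 hw']

end Pool.Agent.KRFG
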