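import Pool.Agent.Work.MP_a2bf38_gt.K.Setup

/-!
# Propagation of a lower bound along a fibre: the argument

`Prp.core` is `propagate` with the results of `K/EmReach.lean`, `K/Torus.lean` and `K/Harnack.lean`
as hypotheses.
-/

open scoped ContDiff ENNReal ComplexOrder Topology
open Set MeasureTheory Filter Pool.Agent.ToricKRF Pool.Agent.ToricKRF.G Pool.Agent.KRFS
  Pool.Agent.KRFF

namespace Pool.Agent.KRFG.Prp

variable {n m : ℕ}

/-! ### norms of coordinates -/

theorem normsq_cc (x : Cn n) (l : Fin n) : ‖cc x l‖ ^ 2 = x.1 l ^ 2 + x.2 l ^ 2 := by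
  rw [← Complex.normSq_eq_norm_sq]
  simp [cc, Complex.normSq_apply, sq]

theorem mem_opd_of {x : Cn n} {r : ℝ} (h : ∀ l, ‖cc x l‖ < r) : x ∈ opd r := by
  intro l
  rw [← normsq_cc]
  exact pow_lt_pow_left₀ (h l) (norm_nonneg _) two_ne_zero

theorem norm_cc_le {x : Cn n} {r : ℝ} (hr : 0 ≤ r) (h : x ∈ cpd (k := n) r) (l : Fin n) :
    ‖cc x l‖ ≤ r := by
  have := h l
  rw [← normsq_cc] at this
  exact (sq_le_sq₀ (norm_nonneg _) hr).1 this

theorem mem_cpd_of {x : Cn n} {r : ℝ} (h : ∀ l, ‖cc x l‖ ≤ r) : x ∈ cpd (k := n) r := by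
  intro l
  rw [← normsq_cc]
  exact pow_le_pow_left₀ (norm_nonneg _) (h l) 2

theorem abs_fst_le (x : Cn n) (l : Fin n) : |x.1 l| ≤ ‖cc x l‖ := Complex.abs_re_le_norm (cc x l)

theorem abs_snd_le (x : Cn n) (l : Fin n) : |x.2 l| ≤ ‖cc x l‖ := Complex.abs_im_le_norm (cc x l)

theorem norm_cc_le_add (x : Cn n) (l : Fin n) : ‖cc x l‖ ≤ |x.1 l| + |x.2 l| :=
  Complex.norm_le_abs_re_add_abs_im (cc x l)

theorem cc_add (x y : Cn n) (l : Fin n) : cc (x + y) l = cc x l + cc y l := by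
  apply Complex.ext <;> simp [cc]

theorem cc_sub (x y : Cn n) (l : Fin n) : cc (x - y) l = cc x l - cc y l := by
  apply Complex.ext <;> simp [cc]

theorem cc_smul (c : ℝ) (x : Cn n) (l : Fin n) : cc (c • x) l = c * cc x l := by
  apply Complex.ext <;> simp [cc]

theorem continuous_cc (l : Fin n) : Continuous fun x : Cn n => cc x l := by
  have : (fun x : Cn n => cc x l) = fun x : Cn n => ((x.1 l : ℂ) + (x.2 l : ℂ) * Complex.I) := by
    funext x
    apply Complex.ext <;> simp [cc]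
  rw [this]
  fun_prop

theorem isOpen_opd (r : ℝ) : IsOpen (opd (k := n) r) := by
  have : (opd (k := n) r) = ⋂ i, {u : Cn n | u.1 i ^ 2 + u.2 i ^ 2 < r ^ 2} := by
    ext u; simp [opd]
  rw [this]
  exact isOpen_iInter_of_finite fun i => isOpen_lt (by fun_prop) continuous_const

theorem isClosed_cpd (r : ℝ) : IsClosed (cpd (k := n) r) := by
  have : (cpd (k := n) r) = ⋂ i, {u : Cn n | u.1 i ^ 2 + u.2 i ^ 2 ≤ r ^ 2} := by
    ext u; simp [cpd]
  rw [this]
  exact isClosed_iInter fun i => isClosed_le (by fun_prop) continuous_const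

theorem isCompact_cpd (r : ℝ) (hr : 0 ≤ r) : IsCompact (cpd (k := n) r) := by
  have hK : IsCompact ((Icc (fun _ => -r) (fun _ => r) : Set (Fin n → ℝ)) ×ˢ
      (Icc (fun _ => -r) (fun _ => r) : Set (Fin n → ℝ))) := isCompact_Icc.prod isCompact_Icc
  refine hK.of_isClosed_subset (isClosed_cpd r) fun u hu => ?_
  have h1 : ∀ l, |u.1 l| ≤ r := fun l => (abs_fst_le u l).trans (norm_cc_le hr hu l)
  have h2 : ∀ l, |u.2 l| ≤ r := fun l => (abs_snd_le u l).trans (norm_cc_le hr hu l)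
  exact ⟨⟨fun l => (abs_le.1 (h1 l)).1, fun l => (abs_le.1 (h1 l)).2⟩,
    ⟨fun l => (abs_le.1 (h2 l)).1, fun l => (abs_le.1 (h2 l)).2⟩⟩

theorem isCompact_shift {r : ℝ} (hr : 0 ≤ r) (c : Cn n) :
    IsCompact {z : Cn n | z - c ∈ cpd (k := n) r} :=
  (Homeomorph.subRight c).isCompact_preimage.2 (isCompact_cpd r hr)

/-! ### the coordinates of `Em` -/

variable {row : Fin n → Option (Fin m)} {piv : Fin m → Fin n}

theorem cc_ofC (z : Fin n → ℂ) (l : Fin n) : cc (ofC z) l = z l := by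
  apply Complex.ext <;> simp [cc, ofC]

theorem cc_Em_none {q w : Cn n} {l : Fin n} (h : row l = none) :
    cc (Em row piv q w) l = cc q l + cc w l := by
  rw [Em, cc_ofC]
  simp only [h]

theorem cc_Em_np {q w : Cn n} {l : Fin n} {i : Fin m} (h : row l = some i) (hl : l ≠ piv i) :
    cc (Em row piv q w) l = cc q l * Complex.exp (cc w l) := by
  rw [Em, cc_ofC]
  simp only [h, hl, if_false]

open Classical in
theorem cc_Em_piv {q w : Cn n} {i : Fin m} (h : row (piv i) = some i) :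
    cc (Em row piv q w) (piv i) = cc q (piv i) *
      Complex.exp (-∑ l', if row l' = some i ∧ l' ≠ piv i then cc w l' else 0) := by
  rw [Em, cc_ofC]
  simp only [h, if_true]

open Classical in
/-- the real parts which belong to the pivot of the row `i` -/
noncomputable def ps (row : Fin n → Option (Fin m)) (piv : Fin m → Fin n) (i : Fin m)
    (x : Fin n → ℝ) : ℝ := -∑ l', if row l' = some i ∧ l' ≠ piv i then x l' else 0

theorem norm_Em_np {q w : Cn n} {l : Fin n} {i : Fin m} (h : row l = some i) (hl : l ≠ piv i) :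
    ‖cc (Em row piv q w) l‖ = ‖cc q l‖ * Real.exp (w.1 l) := by
  rw [cc_Em_np h hl, norm_mul, Complex.norm_exp]
  rfl

theorem norm_Em_piv {q w : Cn n} {i : Fin m} (h : row (piv i) = some i) :
    ‖cc (Em row piv q w) (piv i)‖ = ‖cc q (piv i)‖ * Real.exp (ps row piv i w.1) := by
  classical
  rw [cc_Em_piv h, norm_mul, Complex.norm_exp, ps, Complex.neg_re, Complex.re_sum]
  congr 3
  refine Finset.sum_congr (by rfl) fun l _ => ?_
  by_cases h' : row l = some i ∧ l ≠ piv i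
  · rw [if_pos h', if_pos h']
    rfl
  · rw [if_neg h', if_neg h', Complex.zero_re]

theorem ps_sub_mul (i : Fin m) (x y : Fin n → ℝ) (ρ δ : ℝ) (hδ : 0 ≤ δ)
    (h : ∀ l i, row l = some i → l ≠ piv i → |x l - ρ * y l| ≤ δ) :
    |ps row piv i x - ρ * ps row piv i y| ≤ n * δ := by
  classical
  have h1 : ps row piv i x - ρ * ps row piv i y =
      -∑ l', if row l' = some i ∧ l' ≠ piv i then x l' - ρ * y l' else 0 := by
    rw [ps, ps, mul_neg, sub_neg_eq_add, neg_add_eq_sub, Finset.mul_sum, ← neg_sub,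
      ← Finset.sum_sub_distrib]
    congr 1
    refine Finset.sum_congr rfl fun l _ => ?_
    split_ifs <;> ring
  rw [h1, abs_neg]
  refine (Finset.abs_sum_le_sum_abs _ _).trans ?_
  have h2 : ∀ l' ∈ (Finset.univ : Finset (Fin n)),
      |if row l' = some i ∧ l' ≠ piv i then x l' - ρ * y l' else 0| ≤ δ := by
    intro l' _
    split_ifs with hh
    · exact h l' i hh.1 hh.2
    · simpa using hδ
  refine (Finset.sum_le_sum h2).trans ?_
  simp

theorem abs_ps_le (i : Fin m) (x : Fin n → ℝ) (R : ℝ) (hR : 0 ≤ R)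
    (h : ∀ l i, row l = some i → l ≠ piv i → |x l| ≤ R) : |ps row piv i x| ≤ n * R := by
  have := ps_sub_mul (row := row) (piv := piv) i x 0 0 R hR (fun l j h1 h2 => by
    simpa using h l j h1 h2)
  simpa using this

theorem Em_mem_opd {q w : Cn n} (hpiv : ∀ i, row (piv i) = some i)
    (h1 : ∀ l i, row l = some i → l ≠ piv i → ‖cc q l‖ * Real.exp (w.1 l) < 9)
    (h2 : ∀ i, ‖cc q (piv i)‖ * Real.exp (ps row piv i w.1) < 9)
    (h3 : ∀ l, row l = none → ‖cc q l + cc w l‖ < 9) : Em row piv q w ∈ opd 9 := by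
  refine mem_opd_of fun l => ?_
  rcases hl : row l with _ | i
  · rw [cc_Em_none hl]
    exact h3 l hl
  · by_cases hp : l = piv i
    · subst hp
      rw [norm_Em_piv (hpiv i)]
      exact h2 i
    · rw [norm_Em_np hl hp]
      exact h1 l i hl hp

theorem exp_bound {x a b ρ s A : ℝ} (hx : 0 ≤ x) (hx2 : x ≤ 2) (hxa : x * Real.exp a ≤ 2)
    (ha : |a| ≤ A) (hs : 0 ≤ s) (hsA : s * A ≤ 1 / 2) (hρ : ρ ∈ Icc 0 (1 + s))
    (hb : |b - ρ * a| ≤ 1 / 2) : x * Real.exp b < 9 := by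
  have h1 : x * Real.exp (ρ * a) ≤ 2 * Real.exp (1 / 2) := by
    have he : 1 ≤ Real.exp (1 / 2 : ℝ) := Real.one_le_exp (by norm_num)
    rcases le_total a 0 with h | h
    · have : Real.exp (ρ * a) ≤ 1 := Real.exp_le_one_iff.2 (mul_nonpos_of_nonneg_of_nonpos hρ.1 h)
      nlinarith [Real.exp_pos (ρ * a)]
    · have h2 : ρ * a ≤ a + 1 / 2 := by
        have : ρ * a ≤ (1 + s) * a := mul_le_mul_of_nonneg_right hρ.2 h
        have h3 : s * a ≤ s * A := mul_le_mul_of_nonneg_left ((le_abs_self a).trans ha) hs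
        nlinarith
      calc x * Real.exp (ρ * a) ≤ x * Real.exp (a + 1 / 2) :=
            mul_le_mul_of_nonneg_left (Real.exp_le_exp.2 h2) hx
        _ = x * Real.exp a * Real.exp (1 / 2) := by rw [Real.exp_add]; ring
        _ ≤ 2 * Real.exp (1 / 2) := mul_le_mul_of_nonneg_right hxa (Real.exp_pos _).le
  have h2 : Real.exp b ≤ Real.exp (ρ * a) * Real.exp (1 / 2) := by
    rw [← Real.exp_add]
    exact Real.exp_le_exp.2 (by linarith [(abs_le.1 hb).2])
  have h3 : Real.exp (1 / 2 : ℝ) * Real.exp (1 / 2) = Real.exp 1 := by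
    rw [← Real.exp_add]; norm_num
  calc x * Real.exp b ≤ x * (Real.exp (ρ * a) * Real.exp (1 / 2)) :=
        mul_le_mul_of_nonneg_left h2 hx
    _ = x * Real.exp (ρ * a) * Real.exp (1 / 2) := by ring
    _ ≤ 2 * Real.exp (1 / 2) * Real.exp (1 / 2) :=
        mul_le_mul_of_nonneg_right h1 (Real.exp_pos _).le
    _ = 2 * Real.exp 1 := by rw [mul_assoc, h3]
    _ < 9 := by nlinarith [Real.exp_one_lt_d9]

/-- the path from `q` to `p` stays in the polydisc -/
theorem path_mem (hpiv : ∀ i, row (piv i) = some i) {p q w₁ : Cn n} {R r s : ℝ}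
    (hp : p ∈ cpd (k := n) 2) (hq : q ∈ cpd (k := n) 2) (hw : Em row piv q w₁ = p) (hR : 0 ≤ R)
    (hR1 : ∀ l i, row l = some i → l ≠ piv i → |w₁.1 l| ≤ R) (hs : 0 ≤ s)
    (hsR : s * ((n + 1) * R) ≤ 1 / 2) (hr : 0 ≤ r) (hr' : (n + 1) * (4 * r) ≤ 1 / 2)
    {w : Cn n} {ρ : ℝ} (hρ : ρ ∈ Icc 0 (1 + s))
    (h1 : ∀ l i, row l = some i → l ≠ piv i → |w.1 l - ρ * w₁.1 l| ≤ 4 * r)
    (h3 : ∀ l, row l = none → ‖cc q l + cc w l‖ < 9) : Em row piv q w ∈ opd 9 := by
  have hn : (0:ℝ) ≤ n := Nat.cast_nonneg n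
  have hq2 := norm_cc_le (by norm_num) hq
  have hp2 := norm_cc_le (by norm_num) hp
  refine Em_mem_opd hpiv (fun l i hl hlp => ?_) (fun i => ?_) h3
  · refine exp_bound (a := w₁.1 l) (ρ := ρ) (s := s) (A := R) (norm_nonneg _) (hq2 l) ?_
      (hR1 l i hl hlp) hs ?_ hρ ?_
    · rw [← norm_Em_np hl hlp, hw]
      exact hp2 l
    · refine le_trans (mul_le_mul_of_nonneg_left ?_ hs) hsR
      nlinarith
    · refine (h1 l i hl hlp).trans ?_
      nlinarith
  · refine exp_bound (a := ps row piv i w₁.1) (ρ := ρ) (s := s) (A := (n + 1) * R)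
      (norm_nonneg _) (hq2 _) ?_ ?_ hs hsR hρ ?_
    · rw [← norm_Em_piv (hpiv i), hw]
      exact hp2 _
    · refine (abs_ps_le i _ R hR hR1).trans ?_
      nlinarith
    · refine (ps_sub_mul i _ _ ρ (4 * r) (by positivity) h1).trans ?_
      nlinarith

/-- a small neighbourhood of `q` stays in the polydisc -/
theorem near_mem (hpiv : ∀ i, row (piv i) = some i) {q w : Cn n} {r : ℝ}
    (hq : q ∈ cpd (k := n) 2) (hr : 0 ≤ r) (hr' : (n + 1) * (4 * r) ≤ 1 / 2)
    (hw : w ∈ cpd (k := n) r) : Em row piv q w ∈ opd 9 := by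
  have hn : (0:ℝ) ≤ n := Nat.cast_nonneg n
  have hr1 : r ≤ 1 := by nlinarith
  have h0 : ∀ l', cc (0 : Cn n) l' = 0 := fun l' => by
    apply Complex.ext <;> simp [cc]
  have hz : Em row piv q 0 = q := by
    have : ∀ l, cc (Em row piv q 0) l = cc q l := by
      intro l
      rcases hl : row l with _ | i
      · rw [cc_Em_none hl, h0, add_zero]
      · by_cases hp : l = piv i
        · subst hp
          rw [cc_Em_piv (hpiv i)]
          simp [h0]
        · rw [cc_Em_np hl hp]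
          simp [h0]
    refine Prod.ext (funext fun l => ?_) (funext fun l => ?_)
    · exact congrArg Complex.re (this l)
    · exact congrArg Complex.im (this l)
  refine path_mem hpiv (p := q) (w₁ := 0) (R := 0) (r := r) (s := 0) hq hq hz le_rfl
    (fun l i _ _ => by simp) le_rfl (by norm_num) hr hr' (ρ := 0) ⟨le_rfl, by norm_num⟩
    (fun l i _ _ => ?_) (fun l _ => ?_)
  · have := (abs_fst_le w l).trans (norm_cc_le hr hw l)
    simp only [Prod.fst_zero, Pi.zero_apply, mul_zero, sub_zero]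
    linarith
  · have h1 := norm_cc_le (by norm_num) hq l
    have h2 := norm_cc_le hr hw l
    linarith [norm_add_le (cc q l) (cc w l)]

/-! ### integrals over a covered set -/

theorem integral_cover {X : Type*} [MeasurableSpace X] {μ : Measure X} {ι : Type*} (t : Finset ι)
    (A : ι → Set X) (hA : ∀ c ∈ t, MeasurableSet (A c)) {B : Set X} (hB : B ⊆ ⋃ c ∈ t, A c)
    {F : X → ℝ} (hF : ∀ c ∈ t, ∀ x ∈ A c, 0 ≤ F x) (hi : ∀ c ∈ t, IntegrableOn F (A c) μ) :
    ∫ x in B, F x ∂μ ≤ ∑ c ∈ t, ∫ x in A c, F x ∂μ := by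
  have hle : μ.restrict B ≤ ∑ c ∈ t, μ.restrict (A c) := by
    refine Measure.le_iff.2 fun s hs => ?_
    rw [Measure.restrict_apply hs, Measure.finsetSum_apply]
    calc μ (s ∩ B) ≤ μ (⋃ c ∈ t, s ∩ A c) := by
          refine measure_mono fun x hx => ?_
          obtain ⟨c, hc, hxc⟩ := mem_iUnion₂.1 (hB hx.2)
          exact mem_iUnion₂.2 ⟨c, hc, hx.1, hxc⟩
      _ ≤ ∑ c ∈ t, μ (s ∩ A c) := measure_biUnion_finset_le _ _
      _ = ∑ c ∈ t, (μ.restrict (A c)) s := by
          refine Finset.sum_congr rfl fun c _ => ?_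
          rw [Measure.restrict_apply hs]
  have hint : Integrable F (∑ c ∈ t, μ.restrict (A c)) := by
    rw [integrable_finsetSum_measure]
    exact hi
  have hnn : 0 ≤ᵐ[∑ c ∈ t, μ.restrict (A c)] F := by
    rw [EventuallyLE, ae_iff, Measure.finsetSum_apply, Finset.sum_eq_zero]
    intro c hc
    have : ∀ᵐ x ∂(μ.restrict (A c)), (0 : X → ℝ) x ≤ F x :=
      (ae_restrict_iff' (hA c hc)).2 (Eventually.of_forall fun x hx => hF c hc x hx)
    exact ae_iff.1 this
  calc ∫ x in B, F x ∂μ ≤ ∫ x, F x ∂(∑ c ∈ t, μ.restrict (A c)) :=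
        integral_mono_measure hle hnn hint
    _ = ∑ c ∈ t, ∫ x in A c, F x ∂μ := integral_finsetSum_measure hi

/-! ### the argument -/

/-- the non-pivot coordinates of the rows -/
def Iset (row : Fin n → Option (Fin m)) (piv : Fin m → Fin n) : Set (Fin n) :=
  {l | ∃ i, row l = some i ∧ l ≠ piv i}

open Classical in
/-- the real translation from `0` to `w₁` -/
noncomputable def dd (row : Fin n → Option (Fin m)) (piv : Fin m → Fin n) (w₁ : Cn n) :
    Fin n → ℝ := fun l => if l ∈ Iset row piv then w₁.1 l else 0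

open Classical in
/-- the upper bound of the imaginary parts -/
noncomputable def bb (row : Fin n → Option (Fin m)) (piv : Fin m → Fin n) (r : ℝ) :
    Fin n → ℝ := fun l => if l ∈ Iset row piv then -r + 2 * Real.pi else r

/-- the box -/
noncomputable def box (row : Fin n → Option (Fin m)) (piv : Fin m → Fin n) (r : ℝ) :
    Set (Cn n) := Icc (fun _ => -r) (fun _ => r) ×ˢ Icc (fun _ => -r) (bb row piv r)

theorem isCompact_box (r : ℝ) : IsCompact (box row piv r) := isCompact_Icc.prod isCompact_Icc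

theorem bb_ge {r : ℝ} (hr : r ≤ 1) (l : Fin n) : r ≤ bb row piv r l := by
  unfold bb
  split_ifs
  · linarith [Real.pi_gt_three]
  · exact le_rfl

theorem bb_le {r : ℝ} (hr : 0 ≤ r) (l : Fin n) : bb row piv r l ≤ 2 * Real.pi + r := by
  unfold bb
  split_ifs
  · linarith
  · linarith [Real.pi_pos]

theorem cpd_subset_box {r : ℝ} (hr : 0 ≤ r) (hr1 : r ≤ 1) : cpd (k := n) r ⊆ box row piv r := by
  intro u hu
  have h1 : ∀ l, |u.1 l| ≤ r := fun l => (abs_fst_le u l).trans (norm_cc_le hr hu l)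
  have h2 : ∀ l, |u.2 l| ≤ r := fun l => (abs_snd_le u l).trans (norm_cc_le hr hu l)
  exact ⟨⟨fun l => (abs_le.1 (h1 l)).1, fun l => (abs_le.1 (h1 l)).2⟩,
    ⟨fun l => (abs_le.1 (h2 l)).1, fun l => (abs_le.1 (h2 l)).2.trans (bb_ge hr1 l)⟩⟩

/-- a finite cover of the box -/
theorem exists_cover {r : ℝ} (hr : 0 < r) {B : Set (Cn n)} (hB : IsCompact B) :
    ∃ t : Finset (Cn n), (∀ c ∈ t, c ∈ B) ∧ B ⊆ ⋃ c ∈ t, {z : Cn n | z - c ∈ cpd (k := n) r} := by
  have h : ∀ c ∈ B, {z : Cn n | z - c ∈ cpd (k := n) r} ∈ 𝓝 c := by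
    intro c _
    have h1 : IsOpen {z : Cn n | z - c ∈ opd (k := n) r} :=
      (isOpen_opd r).preimage (by fun_prop)
    refine mem_of_superset (h1.mem_nhds ?_) fun z hz i => (hz i).le
    intro i
    simp only [sub_self, Prod.fst_zero, Pi.zero_apply, Prod.snd_zero]
    have : 0 < r ^ 2 := by positivity
    simpa using this
  obtain ⟨t, ht1, ht2⟩ := hB.elim_nhds_subcover _ h
  exact ⟨t, ht1, ht2⟩

/-- the chain from `w₁` to the point `c + d` -/
noncomputable def chain (w₁ e : Cn n) (N : ℕ) (i : ℕ) : Cn n := w₁ + ((i : ℝ) / N) • (e - w₁)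

theorem chain_zero (w₁ e : Cn n) (N : ℕ) : chain w₁ e N 0 = w₁ := by simp [chain]

theorem chain_last (w₁ e : Cn n) {N : ℕ} (hN : 0 < N) : chain w₁ e N N = e := by
  have : (N : ℝ) ≠ 0 := by positivity
  rw [chain, div_self this, one_smul, add_sub_cancel]

theorem chain_step (w₁ e : Cn n) (N i : ℕ) :
    chain w₁ e N (i + 1) - chain w₁ e N i = (1 / (N : ℝ)) • (e - w₁) := by
  rw [chain, chain, add_sub_add_left_eq_sub, ← sub_smul]
  congr 1
  push_cast
  ring

/-- the data of the propagation -/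
structure Dat (row : Fin n → Option (Fin m)) (piv : Fin m → Fin n) (p q w₁ : Cn n) (R : ℝ) :
    Prop where
  hpiv : ∀ i, row (piv i) = some i
  hp : p ∈ cpd (k := n) 2
  hq : q ∈ cpd (k := n) 2
  hw : Em row piv q w₁ = p
  R1 : 1 ≤ R
  np : ∀ l i, row l = some i → l ≠ piv i → |w₁.2 l| ≤ Real.pi ∧ |w₁.1 l| ≤ R
  pv : ∀ i, w₁.1 (piv i) = 0 ∧ w₁.2 (piv i) = 0
  fr : ∀ l, row l = none → w₁.1 l = p.1 l - q.1 l ∧ w₁.2 l = p.2 l - q.2 l

theorem mem_I {l : Fin n} {i : Fin m} (h : row l = some i) (hl : l ≠ piv i) :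
    l ∈ Iset row piv := ⟨i, h, hl⟩

theorem notMem_I_none {l : Fin n} (h : row l = none) : l ∉ Iset row piv := by
  rintro ⟨i, hi, _⟩
  rw [h] at hi
  exact absurd hi (by simp)

theorem notMem_I_piv (hpiv : ∀ i, row (piv i) = some i) (i : Fin m) :
    piv i ∉ Iset row piv := by
  rintro ⟨j, hj, hj'⟩
  rw [hpiv i] at hj
  exact hj' (by rw [Option.some_injective _ hj])

section

variable {p q w₁ : Cn n} {R r s : ℝ} (D : Dat row piv p q w₁ R)
include D

theorem Dat.cc_free {l : Fin n} (hl : row l = none) : cc w₁ l = cc p l - cc q l := by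
  obtain ⟨h1, h2⟩ := D.fr l hl
  apply Complex.ext
  · simpa [cc] using h1
  · simpa [cc] using h2

/-- the path of `torus_convex` -/
theorem Dat.torus_mem (hs : 0 ≤ s) (hsR : s * ((n + 1) * R) ≤ 1 / 2) (hr : 0 ≤ r)
    (hr' : (n + 1) * (4 * r) ≤ 1 / 2) {ρ : ℝ} (hρ : ρ ∈ Icc 0 (1 + s)) {z : Cn n}
    (hz : z ∈ box row piv r) : Em row piv q (z.1 + ρ • dd row piv w₁, z.2) ∈ opd 9 := by
  have hn : (0:ℝ) ≤ n := Nat.cast_nonneg n
  have hr1 : r ≤ 1 / 8 := by nlinarith
  refine path_mem D.hpiv D.hp D.hq D.hw (by linarith [D.R1]) (fun l i h1 h2 => (D.np l i h1 h2).2)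
    hs hsR hr hr' hρ (fun l i h1 h2 => ?_) (fun l hl => ?_)
  · have e1 : (z.1 + ρ • dd row piv w₁) l = z.1 l + ρ * w₁.1 l := by
      simp [dd, mem_I h1 h2]
    have e2 : |z.1 l| ≤ r := abs_le.2 ⟨hz.1.1 l, hz.1.2 l⟩
    show |(z.1 + ρ • dd row piv w₁) l - ρ * w₁.1 l| ≤ 4 * r
    rw [e1, add_sub_cancel_right]
    linarith
  · have e1 : (z.1 + ρ • dd row piv w₁) l = z.1 l := by
      simp [dd, notMem_I_none hl]
    have e2 : |z.1 l| ≤ r := abs_le.2 ⟨hz.1.1 l, hz.1.2 l⟩
    have e3 : |z.2 l| ≤ r := by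
      have h5 := hz.2.2 l
      simp only [bb, notMem_I_none hl, if_false] at h5
      exact abs_le.2 ⟨hz.2.1 l, h5⟩
    have e4 := norm_cc_le_add ((z.1 + ρ • dd row piv w₁, z.2) : Cn n) l
    have e5 : ‖cc ((z.1 + ρ • dd row piv w₁, z.2) : Cn n) l‖ ≤ 2 * r := by
      refine e4.trans ?_
      show |(z.1 + ρ • dd row piv w₁) l| + |z.2 l| ≤ 2 * r
      rw [e1]
      linarith
    have e6 := norm_cc_le (by norm_num) D.hq l
    linarith [norm_add_le (cc q l) (cc ((z.1 + ρ • dd row piv w₁, z.2) : Cn n) l)]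

/-- the points of the chain, with their neighbourhoods -/
theorem Dat.chain_mem (hr : 0 ≤ r) (hr' : (n + 1) * (4 * r) ≤ 1 / 2) {N i : ℕ} (hN : 0 < N)
    (hi : i ≤ N) {c z : Cn n} (hc : c ∈ box row piv r)
    (hz : z - chain w₁ (c.1 + dd row piv w₁, c.2) N i ∈ cpd (k := n) (3 * r)) :
    Em row piv q z ∈ opd 9 := by
  have hn : (0:ℝ) ≤ n := Nat.cast_nonneg n
  have hr1 : r ≤ 1 / 8 := by nlinarith
  obtain ⟨x, hx⟩ : ∃ x : ℝ, x = (i : ℝ) / N := ⟨_, rfl⟩
  have hN' : (0:ℝ) < N := by positivity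
  have hx0 : 0 ≤ x := by rw [hx]; positivity
  have hx1 : x ≤ 1 := by rw [hx, div_le_one hN']; exact_mod_cast hi
  obtain ⟨y, hy⟩ : ∃ y : Cn n, y = z - chain w₁ (c.1 + dd row piv w₁, c.2) N i := ⟨_, rfl⟩
  rw [← hy] at hz
  have hzy : z = y + (w₁ + x • ((c.1 + dd row piv w₁, c.2) - w₁)) := by
    rw [hy, hx, chain, sub_add_cancel]
  have hR0 : 0 ≤ R := by linarith [D.R1]
  refine path_mem D.hpiv D.hp D.hq D.hw hR0 (fun l i h1 h2 => (D.np l i h1 h2).2)
    (s := 0) le_rfl (by norm_num) hr hr' (ρ := 1) ⟨zero_le_one, by norm_num⟩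
    (fun l i h1 h2 => ?_) (fun l hl => ?_)
  · have e1 : z.1 l - 1 * w₁.1 l = y.1 l + x * c.1 l := by
      rw [hzy]
      simp [dd, mem_I h1 h2]
      ring
    have e2 : |c.1 l| ≤ r := abs_le.2 ⟨hc.1.1 l, hc.1.2 l⟩
    have e3 : |y.1 l| ≤ 3 * r := (abs_fst_le y l).trans (norm_cc_le (by positivity) hz l)
    rw [e1]
    refine (abs_add_le _ _).trans ?_
    rw [abs_mul, abs_of_nonneg hx0]
    have : x * |c.1 l| ≤ 1 * r := mul_le_mul hx1 e2 (abs_nonneg _) zero_le_one
    linarith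
  · have e1 : cc q l + cc z l = ((1 - x : ℝ) * cc p l + (x : ℝ) * cc q l) + (x : ℝ) * cc c l +
        cc y l := by
      have h5 : cc ((c.1 + dd row piv w₁, c.2) : Cn n) l = cc c l := by
        apply Complex.ext <;> simp [cc, dd, notMem_I_none hl]
      rw [hzy, cc_add, cc_add, cc_smul, cc_sub, h5, D.cc_free hl]
      push_cast
      ring
    have e2 : |c.1 l| ≤ r := abs_le.2 ⟨hc.1.1 l, hc.1.2 l⟩
    have e3 : |c.2 l| ≤ r := by
      have h5 := hc.2.2 l
      simp only [bb, notMem_I_none hl, if_false] at h5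
      exact abs_le.2 ⟨hc.2.1 l, h5⟩
    have e4 : ‖cc c l‖ ≤ 2 * r := (norm_cc_le_add c l).trans (by linarith)
    have e5 : ‖cc y l‖ ≤ 3 * r := norm_cc_le (by positivity) hz l
    have e6 := norm_cc_le (by norm_num) D.hq l
    have e7 := norm_cc_le (by norm_num) D.hp l
    have e8 : ‖((1 - x : ℝ) : ℂ) * cc p l‖ ≤ (1 - x) * 2 := by
      rw [norm_mul, Complex.norm_real, Real.norm_of_nonneg (by linarith)]
      exact mul_le_mul_of_nonneg_left e7 (by linarith)
    have e9 : ‖(x : ℂ) * cc q l‖ ≤ x * 2 := by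
      rw [norm_mul, Complex.norm_real, Real.norm_of_nonneg hx0]
      exact mul_le_mul_of_nonneg_left e6 hx0
    have e10 : ‖(x : ℂ) * cc c l‖ ≤ 2 * r := by
      rw [norm_mul, Complex.norm_real, Real.norm_of_nonneg hx0]
      calc x * ‖cc c l‖ ≤ 1 * (2 * r) := mul_le_mul hx1 e4 (norm_nonneg _) zero_le_one
        _ = 2 * r := one_mul _
    rw [e1]
    have t1 := norm_add_le (((1 - x : ℝ) * cc p l + (x : ℝ) * cc q l) + (x : ℝ) * cc c l) (cc y l)
    have t2 := norm_add_le (((1 - x : ℝ) * cc p l + (x : ℝ) * cc q l)) ((x : ℝ) * cc c l)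
    have t3 := norm_add_le ((1 - x : ℝ) * cc p l) ((x : ℝ) * cc q l)
    linarith

/-- the steps of the chain are short -/
theorem Dat.chain_short (hr : 0 < r) (hr1 : r ≤ 1 / 8) {N : ℕ} (hN : 11 ≤ N * (r / 2)) {i : ℕ}
    {c : Cn n} (hc : c ∈ box row piv r) :
    chain w₁ (c.1 + dd row piv w₁, c.2) N (i + 1) - chain w₁ (c.1 + dd row piv w₁, c.2) N i ∈
      cpd (k := n) (r / 2) := by
  rw [chain_step]
  have hN0 : (0:ℝ) < N := by
    rcases Nat.eq_zero_or_pos N with h | h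
    · subst h
      norm_num at hN
    · exact_mod_cast h
  have key : ∀ l, ‖cc ((c.1 + dd row piv w₁, c.2) - w₁) l‖ ≤ 11 := by
    intro l
    have e2 : |c.1 l| ≤ r := abs_le.2 ⟨hc.1.1 l, hc.1.2 l⟩
    rcases hl : row l with _ | j
    · have h5 : cc ((c.1 + dd row piv w₁, c.2) : Cn n) l = cc c l := by
        apply Complex.ext <;> simp [cc, dd, notMem_I_none hl]
      have e3 : |c.2 l| ≤ r := by
        have h5 := hc.2.2 l
        simp only [bb, notMem_I_none hl, if_false] at h5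
        exact abs_le.2 ⟨hc.2.1 l, h5⟩
      have e4 : ‖cc c l‖ ≤ 2 * r := (norm_cc_le_add c l).trans (by linarith)
      rw [cc_sub, h5, D.cc_free hl]
      have e6 := norm_cc_le (by norm_num) D.hq l
      have e7 := norm_cc_le (by norm_num) D.hp l
      have t1 := norm_sub_le (cc c l) (cc p l - cc q l)
      have t2 := norm_sub_le (cc p l) (cc q l)
      linarith
    · by_cases hp : l = piv j
      · subst hp
        have hI := notMem_I_piv (row := row) D.hpiv j
        have e3 : |c.2 (piv j)| ≤ r := by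
          have h5 := hc.2.2 (piv j)
          simp only [bb, hI, if_false] at h5
          exact abs_le.2 ⟨hc.2.1 _, h5⟩
        have h6 : cc ((c.1 + dd row piv w₁, c.2) - w₁) (piv j) = cc c (piv j) := by
          obtain ⟨h7, h8⟩ := D.pv j
          apply Complex.ext <;> simp [cc, dd, hI, h7, h8]
        rw [h6]
        exact (norm_cc_le_add c _).trans (by linarith)
      · have hI := mem_I (piv := piv) hl hp
        have h3 := (D.np l j hl hp).1
        refine (norm_cc_le_add _ _).trans ?_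
        have h6 : ((c.1 + dd row piv w₁, c.2) - w₁ : Cn n).1 l = c.1 l := by
          simp [dd, hI]
        have h7 : ((c.1 + dd row piv w₁, c.2) - w₁ : Cn n).2 l = c.2 l - w₁.2 l := by
          simp
        rw [h6, h7]
        have h8 : |c.2 l - w₁.2 l| ≤ 3 * Real.pi := by
          have h9 := hc.2.1 l
          have h10 := hc.2.2 l
          simp only [bb, hI, if_true] at h10
          have h11 := abs_le.1 h3
          simp only at h9
          refine abs_le.2 ⟨?_, ?_⟩ <;> linarith [Real.pi_gt_three]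
        linarith [Real.pi_lt_d2]
  refine mem_cpd_of fun l => ?_
  rw [cc_smul, norm_mul, Complex.norm_real, Real.norm_of_nonneg (by positivity)]
  have := key l
  rw [div_mul_eq_mul_div, one_mul, div_le_iff₀ hN0]
  linarith

end

/-- `propagate`, with its inputs as hypotheses -/
theorem core (row : Fin n → Option (Fin m)) {piv : Fin m → Fin n}
    (hpiv : ∀ i, row (piv i) = some i)
    (hEm : ∀ q, ContDiff ℝ ∞ (Em row piv q))
    (hprow : ∀ q w i, prow row i (Em row piv q w) = prow row i q)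
    (hper : ∀ {l : Fin n} {i : Fin m}, row l = some i → l ≠ piv i → ∀ q w : Cn n,
      Em row piv q (w.1, w.2 + Pi.single l (2 * Real.pi)) = Em row piv q w)
    (hreach : ∃ C : ℝ, 1 ≤ C ∧ ∀ p ∈ cpd (k := n) 2, ∀ q ∈ cpd (k := n) 2,
      (∀ i, prow row i q ≠ 0) → (∀ i, prow row i p = prow row i q) → ∃ w₁ : Cn n,
        Em row piv q w₁ = p ∧
        (∀ l i, row l = some i → l ≠ piv i → |w₁.2 l| ≤ Real.pi ∧
          |w₁.1 l| ≤ C * (1 + ∑ i, |Real.log ‖prow row i q‖|)) ∧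
        (∀ i, w₁.1 (piv i) = 0 ∧ w₁.2 (piv i) = 0) ∧
        (∀ l, row l = none → w₁.1 l = p.1 l - q.1 l ∧ w₁.2 l = p.2 l - q.2 l))
    (htorus : ∀ {G : Cn n → ℝ} {V : Set (Cn n)}, IsOpen V →
      ContDiffOn ℝ ∞ G V → (∀ z ∈ V, G z ≤ 0) → (∀ z ∈ V, ∀ u, 0 ≤ levz G u z) →
      ∀ I : Set (Fin n), (∀ z ∈ V, ∀ l ∈ I,
        (z.1, z.2 + Pi.single l (2 * Real.pi)) ∈ V →
          G (z.1, z.2 + Pi.single l (2 * Real.pi)) = G z) →
      ∀ {α β α' β' : Fin n → ℝ}, α ≤ β → α' ≤ β' → (∀ l ∈ I, β' l = α' l + 2 * Real.pi) →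
      ∀ {d : Fin n → ℝ}, (∀ l ∉ I, d l = 0) → ∀ {s : ℝ}, 0 < s →
      (∀ r ∈ Icc 0 (1 + s), ∀ z ∈ Icc α β ×ˢ Icc α' β', (z.1 + r • d, z.2) ∈ V) →
      ∫ z in Icc α β ×ˢ Icc α' β', -G z ≤
        (1 + s) / s * ∫ z in Icc α β ×ˢ Icc α' β', -G (z.1 + d, z.2))
    (hharnack : ∃ C : ℝ, 1 ≤ C ∧ ∀ (G : Cn n → ℝ) (V : Set (Cn n)) (r L : ℝ) (N : ℕ)
      (u : ℕ → Cn n), IsOpen V → ContDiffOn ℝ ∞ G V → (∀ z ∈ V, G z ≤ 0) →
      (∀ z ∈ V, ∀ v, 0 ≤ levz G v z) → 0 < r →
      (∀ i ≤ N, ∀ z, z - u i ∈ cpd (k := n) (3 * r) → z ∈ V) →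
      (∀ i < N, u (i + 1) - u i ∈ cpd (k := n) (r / 2)) → -L ≤ G (u 0) →
      ∫ z in {z | z - u N ∈ cpd (k := n) r}, -G z ≤ C ^ (N + 1) * L * r ^ (2 * n)) :
    ∃ C r : ℝ, 0 < C ∧ 0 < r ∧ r ≤ 1 ∧
      (∀ q ∈ cpd (k := n) 2, ∀ w ∈ cpd (k := n) r, Em row piv q w ∈ opd 9) ∧
      ∀ (g : Cn n → ℝ) (p q : Cn n) (L : ℝ), ContDiffOn ℝ ∞ g (opd 9) →
      p ∈ cpd 2 → q ∈ cpd 2 → (∀ i, prow row i q ≠ 0) → (∀ i, prow row i p = prow row i q) →
      (∀ x ∈ opd (k := n) 9, (∀ i, prow row i x = prow row i q) → g x ≤ 0) →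
      (∀ w, Em row piv q w ∈ opd 9 → ∀ u, 0 ≤ levz (fun w => g (Em row piv q w)) u w) →
      -L ≤ g p →
      ∫ w in cpd (k := n) r, -g (Em row piv q w) ≤
        C * (1 + ∑ i, |Real.log ‖prow row i q‖|) * L := by
  obtain ⟨CR, hCR, hreach⟩ := hreach
  obtain ⟨CH, hCH, hH⟩ := hharnack
  have hn : (0:ℝ) ≤ n := Nat.cast_nonneg n
  obtain ⟨r, hrdef⟩ : ∃ r : ℝ, r = 1 / (8 * (n + 1)) := ⟨_, rfl⟩
  have hr0 : 0 < r := by rw [hrdef]; positivity
  have hr' : (n + 1) * (4 * r) ≤ 1 / 2 := by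
    rw [hrdef]
    apply le_of_eq
    field_simp
    norm_num
  have hr8 : r ≤ 1 / 8 := by
    rw [hrdef]
    apply div_le_div_of_nonneg_left <;> linarith
  obtain ⟨t, ht1, ht2⟩ := exists_cover hr0 (isCompact_box (row := row) (piv := piv) r)
  obtain ⟨N, hNdef⟩ : ∃ N : ℕ, N = 176 * (n + 1) := ⟨_, rfl⟩
  have hN0 : 0 < N := by rw [hNdef]; positivity
  have hN : 11 ≤ N * (r / 2) := by
    rw [hNdef, hrdef]
    push_cast
    apply le_of_eq
    field_simp
    norm_num
  obtain ⟨K, hK⟩ : ∃ K : ℝ, K = t.card * (CH ^ (N + 1) * r ^ (2 * n)) := ⟨_, rfl⟩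
  have hK0 : 0 ≤ K := by
    rw [hK]
    have : 0 ≤ CH := by linarith
    positivity
  refine ⟨(1 + 2 * (n + 1) * CR) * (K + 1), r, by positivity, hr0, by linarith,
    fun q hq w hw => near_mem hpiv hq hr0.le hr' hw, ?_⟩
  intro g p q L hg hp hq hq0 hpq hneg hpsh hgp
  obtain ⟨w₁, hw₁, hnp, hpv, hfr⟩ := hreach p hp q hq hq0 hpq
  obtain ⟨Λ, hΛ⟩ : ∃ Λ : ℝ, Λ = 1 + ∑ i, |Real.log ‖prow row i q‖| := ⟨_, rfl⟩
  rw [← hΛ] at hnp ⊢
  have hΛ1 : 1 ≤ Λ := by
    rw [hΛ]
    have : 0 ≤ ∑ i, |Real.log ‖prow row i q‖| := Finset.sum_nonneg fun i _ => abs_nonneg _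
    linarith
  have hR1 : 1 ≤ CR * Λ := by nlinarith
  have D : Dat row piv p q w₁ (CR * Λ) := ⟨hpiv, hp, hq, hw₁, hR1, hnp, hpv, hfr⟩
  -- the function and its domain
  obtain ⟨V, hVdef⟩ : ∃ V : Set (Cn n), V = {w | Em row piv q w ∈ opd (k := n) 9} := ⟨_, rfl⟩
  obtain ⟨G, hGdef⟩ : ∃ G : Cn n → ℝ, G = fun w => g (Em row piv q w) := ⟨_, rfl⟩
  have hV : IsOpen V := by
    rw [hVdef]
    exact (isOpen_opd 9).preimage (hEm q).continuous
  have hG : ContDiffOn ℝ ∞ G V := by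
    rw [hGdef]
    exact hg.comp (hEm q).contDiffOn fun w hw => by rw [hVdef] at hw; exact hw
  have hGn : ∀ z ∈ V, G z ≤ 0 := by
    intro z hz
    rw [hVdef] at hz
    rw [hGdef]
    exact hneg _ hz fun i => hprow q z i
  have hGp : ∀ z ∈ V, ∀ u, 0 ≤ levz G u z := by
    intro z hz u
    rw [hVdef] at hz
    rw [hGdef]
    exact hpsh z hz u
  have hGc : ContinuousOn G V := hG.continuousOn
  have hL : 0 ≤ L := by
    have h1 : g p ≤ 0 := by
      refine hneg p (mem_opd_of fun l => ?_) hpq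
      exact lt_of_le_of_lt (norm_cc_le (by norm_num) hp l) (by norm_num)
    linarith
  -- the first step
  obtain ⟨s, hsdef⟩ : ∃ s : ℝ, s = 1 / (2 * ((n + 1) * (CR * Λ))) := ⟨_, rfl⟩
  have hRpos : 0 < CR * Λ := by linarith
  have hs0 : 0 < s := by rw [hsdef]; positivity
  have hsR : s * ((n + 1) * (CR * Λ)) ≤ 1 / 2 := by
    rw [hsdef]
    apply le_of_eq
    field_simp
  have hboxV : ∀ ρ ∈ Icc (0:ℝ) (1 + s), ∀ z ∈ box row piv r,
      (z.1 + ρ • dd row piv w₁, z.2) ∈ V := by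
    intro ρ hρ z hz
    rw [hVdef]
    exact D.torus_mem hs0.le hsR hr0.le hr' hρ hz
  have hbox0 : box row piv r ⊆ V := by
    intro z hz
    have := hboxV 0 ⟨le_rfl, by linarith⟩ z hz
    simpa using this
  have step1 : ∫ z in cpd (k := n) r, -G z ≤ ∫ z in box row piv r, -G z := by
    refine setIntegral_mono_set ?_ ?_ (LE.le.eventuallyLE
      (cpd_subset_box hr0.le (by linarith)))
    · exact (hGc.mono hbox0).neg.integrableOn_compact (isCompact_box r)
    · refine (ae_restrict_iff' (isCompact_box r).measurableSet).2 (Eventually.of_forall fun z hz => ?_)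
      simpa using hGn z (hbox0 hz)
  have step2 : ∫ z in box row piv r, -G z ≤
      (1 + s) / s * ∫ z in box row piv r, -G (z.1 + dd row piv w₁, z.2) := by
    refine htorus hV hG hGn hGp (Iset row piv) ?_ ?_ ?_ ?_ ?_ hs0 hboxV
    · rintro z _ l ⟨i, h1, h2⟩ _
      rw [hGdef]
      simp only [hper h1 h2 q z]
    · intro l
      simp only
      linarith
    · intro l
      have := bb_ge (row := row) (piv := piv) (r := r) (by linarith) l
      simp only
      linarith
    · intro l hl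
      simp only [bb, hl, if_true]
    · intro l hl
      simp only [dd, hl, if_false]
  -- the chains
  have step3 : ∀ c ∈ t, (∫ z in {z | z - c ∈ cpd (k := n) r},
      -G (z.1 + dd row piv w₁, z.2)) ≤ CH ^ (N + 1) * L * r ^ (2 * n) := by
    intro c hc
    have hcB := ht1 c hc
    have h1 := hH G V r L N (chain w₁ (c.1 + dd row piv w₁, c.2) N) hV hG hGn hGp hr0
      (fun i hi z hz => by
        rw [hVdef]
        exact D.chain_mem hr0.le hr' hN0 hi hcB hz)
      (fun i _ => D.chain_short hr0 hr8 hN hcB)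
      (by
        rw [chain_zero, hGdef]
        simp only [hw₁]
        exact hgp)
    rw [chain_last _ _ hN0] at h1
    refine le_trans (le_of_eq ?_) h1
    have : (volume : Measure (Cn n)).IsAddHaarMeasure :=
      Measure.prod.instIsAddHaarMeasure (G := Fin n → ℝ) (H := Fin n → ℝ) volume volume
    have h2 := (measurePreserving_add_right (volume : Measure (Cn n))
      ((dd row piv w₁, 0) : Cn n)).setIntegral_preimage_emb
      (MeasurableEquiv.addRight ((dd row piv w₁, 0) : Cn n)).measurableEmbedding (fun z => -G z)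
      {z | z - (c.1 + dd row piv w₁, c.2) ∈ cpd (k := n) r}
    have h3 : ((fun x : Cn n => x + (dd row piv w₁, 0)) ⁻¹'
        {z | z - (c.1 + dd row piv w₁, c.2) ∈ cpd (k := n) r}) =
        {z | z - c ∈ cpd (k := n) r} := by
      ext z
      simp only [mem_preimage, mem_ofPred_eq]
      have : z + (dd row piv w₁, 0) - (c.1 + dd row piv w₁, c.2) = z - c := by
        refine Prod.ext ?_ ?_
        · simp
        · simp
      rw [this]
    rw [h3] at h2
    rw [← h2]
    refine setIntegral_congr_fun (isCompact_shift hr0.le c).measurableSet fun z _ => ?_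
    have : (z.1 + dd row piv w₁, z.2) = z + (dd row piv w₁, 0) := by
      refine Prod.ext ?_ ?_
      · simp
      · simp
    simp only [this]
  have hmem : ∀ c ∈ t, ∀ z ∈ {z | z - c ∈ cpd (k := n) r}, (z.1 + dd row piv w₁, z.2) ∈ V := by
    intro c hc z hz
    have hcB := ht1 c hc
    rw [hVdef]
    refine D.chain_mem (i := N) hr0.le hr' hN0 le_rfl hcB ?_
    rw [chain_last _ _ hN0]
    have : (z.1 + dd row piv w₁, z.2) - (c.1 + dd row piv w₁, c.2) = z - c := by
      refine Prod.ext ?_ ?_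
      · simp
      · simp
    rw [this]
    refine mem_cpd_of fun l => (norm_cc_le hr0.le hz l).trans (by linarith)
  have step4 : (∫ z in box row piv r, -G (z.1 + dd row piv w₁, z.2)) ≤ K * L := by
    refine (integral_cover t (fun c => {z | z - c ∈ cpd (k := n) r})
      (fun c _ => (isCompact_shift hr0.le c).measurableSet) ht2 ?_ ?_).trans ?_
    · intro c hc z hz
      have := hGn _ (hmem c hc z hz)
      simpa using this
    · intro c hc
      refine ContinuousOn.integrableOn_compact (isCompact_shift hr0.le c) ?_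
      refine ContinuousOn.neg (hGc.comp ?_ fun z hz => hmem c hc z hz)
      fun_prop
    · refine (Finset.sum_le_sum step3).trans ?_
      rw [Finset.sum_const, nsmul_eq_mul, hK]
      apply le_of_eq
      ring
  -- the end
  have hss : (1 + s) / s = 1 + 2 * ((n + 1) * (CR * Λ)) := by
    rw [add_div, div_self hs0.ne', hsdef, one_div_one_div]
    ring
  have hKL : 0 ≤ K * L := mul_nonneg hK0 hL
  have h9 : (1 + s) / s ≤ (1 + 2 * (n + 1) * CR) * Λ := by
    rw [hss]
    nlinarith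
  calc ∫ w in cpd (k := n) r, -g (Em row piv q w) = ∫ z in cpd (k := n) r, -G z := by rw [hGdef]
    _ ≤ (1 + s) / s * ∫ z in box row piv r, -G (z.1 + dd row piv w₁, z.2) := step1.trans step2
    _ ≤ (1 + s) / s * (K * L) := mul_le_mul_of_nonneg_left step4 (by positivity)
    _ ≤ (1 + 2 * (n + 1) * CR) * Λ * (K * L) := mul_le_mul_of_nonneg_right h9 hKL
    _ ≤ (1 + 2 * (n + 1) * CR) * Λ * ((K + 1) * L) := by
        refine mul_le_mul_of_nonneg_left ?_ (by positivity)
        nlinarith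
    _ = (1 + 2 * (n + 1) * CR) * (K + 1) * Λ * L := by ring

end Pool.Agent.KRFG.Prp
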