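import Pool.Agent.Work.MP_a2bf38_gt.K.Setup

/-!
# The tasks of Part IV (statements only; nothing may import this file)
-/

open scoped ContDiff ENNReal ComplexOrder Topology
open Set MeasureTheory Filter Pool.Agent.ToricKRF Pool.Agent.ToricKRF.G Pool.Agent.KRFS
  Pool.Agent.KRFF

namespace Pool.Agent.KRFG

/-! ## A. One variable and continuous psh functions (no manifold) -/

/-- `K/Visc.lean` -/
theorem visc {u : ℂ → ℝ} {r : ℝ} (hr : 0 < r) (hu : ContinuousOn u (Metric.closedBall 0 r))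
    {S : Set ℂ} (hS : S.Finite)
    (h : ∀ z ∈ Metric.ball (0 : ℂ) r, z ∉ S → ∃ q : ℂ → ℝ, ContDiffAt ℝ 2 q z ∧ q z = u z ∧
      (∀ᶠ w in 𝓝 z, q w ≤ u w) ∧ 0 ≤ lapC q z) : u 0 ≤ cavg u r := sorry

/-- `K/PshC.lean` -/
theorem pshC_of_touch {m : ℕ} {u : Cn m → ℝ} {V : Set (Cn m)} (hV : IsOpen V)
    (hu : ContinuousOn u V)
    (h : ∀ z ∈ V, (∀ i, cc z i ≠ 0) → ∀ v : Cn m, ∃ q : ℂ → ℝ, ContDiffAt ℝ 2 q 0 ∧ q 0 = u z ∧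
      (∀ᶠ ζ in 𝓝 (0 : ℂ), q ζ ≤ u (line z v ζ)) ∧ 0 ≤ lapC q 0) : PshC u V := sorry

/-- `K/PshC.lean` -/
theorem pshC_mollify {m : ℕ} {u : Cn m → ℝ} {V A : Set (Cn m)} (hV : IsOpen V) (hu : PshC u V)
    (hA : IsCompact A) (hAV : A ⊆ V) {ε : ℝ} (hε : 0 < ε) :
    ∃ (u' : Cn m → ℝ) (V' : Set (Cn m)), IsOpen V' ∧ A ⊆ V' ∧ V' ⊆ V ∧ ContDiffOn ℝ ∞ u' V' ∧
      (∀ z ∈ V', ∀ v, 0 ≤ levz u' v z) ∧ ∀ z ∈ V', |u' z - u z| ≤ ε := sorry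

/-! ## B. Logarithmic coordinates of the fibres (no manifold) -/

section E

variable {n m : ℕ} {row : Fin n → Option (Fin m)} {piv : Fin m → Fin n}

/-- `K/Emap.lean` -/
theorem prow_Em (hpiv : ∀ i, row (piv i) = some i) (q w : Cn n) (i : Fin m) :
    prow row i (Em row piv q w) = prow row i q := sorry

theorem Em_zero (q : Cn n) : Em row piv q 0 = q := sorry

theorem Em_holOn (q : Cn n) : HolOn (Em row piv q) univ := sorry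

theorem Em_continuous : Continuous fun p : Cn n × Cn n => Em row piv p.1 p.2 := sorry

/-- the point `E(q, w)` moves little if `w` is small -/
theorem Em_close (row : Fin n → Option (Fin m)) (piv : Fin m → Fin n) :
    ∃ C : ℝ, 0 < C ∧ ∀ q ∈ cpd (k := n) 9, ∀ r ∈ Icc (0 : ℝ) 1, ∀ w ∈ cpd (k := n) r,
      Em row piv q w - q ∈ cpd (k := n) (C * r) := sorry

/-- `K/Prop.lean`: **propagation of a lower bound along a fibre** -/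
theorem propagate (row : Fin n → Option (Fin m)) {piv : Fin m → Fin n}
    (hpiv : ∀ i, row (piv i) = some i) :
    ∃ C r : ℝ, 0 < C ∧ 0 < r ∧ r ≤ 1 ∧
      (∀ q ∈ cpd (k := n) 2, ∀ w ∈ cpd (k := n) r, Em row piv q w ∈ opd 9) ∧
      ∀ (g : Cn n → ℝ) (p q : Cn n) (L : ℝ), ContDiffOn ℝ ∞ g (opd 9) →
      p ∈ cpd 2 → q ∈ cpd 2 → (∀ i, prow row i q ≠ 0) → (∀ i, prow row i p = prow row i q) →
      (∀ x ∈ opd (k := n) 9, (∀ i, prow row i x = prow row i q) → g x ≤ 0) →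
      (∀ w, Em row piv q w ∈ opd 9 → ∀ u, 0 ≤ levz (fun w => g (Em row piv q w)) u w) →
      -L ≤ g p →
      ∫ w in cpd (k := n) r, -g (Em row piv q w) ≤
        C * (1 + ∑ i, |Real.log ‖prow row i q‖|) * L := sorry

end E

/-- `K/Torus.lean`: the convexity of torus averages, used in `propagate` -/
theorem torus_convex {n : ℕ} {G : Cn n → ℝ} {V : Set (Cn n)} (hV : IsOpen V)
    (hG : ContDiffOn ℝ ∞ G V) (hneg : ∀ z ∈ V, G z ≤ 0) (hpsh : ∀ z ∈ V, ∀ u, 0 ≤ levz G u z)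
    (I : Set (Fin n)) (hper : ∀ z ∈ V, ∀ l ∈ I,
      (z.1, z.2 + Pi.single l (2 * Real.pi)) ∈ V → G (z.1, z.2 + Pi.single l (2 * Real.pi)) = G z)
    {α β α' β' : Fin n → ℝ} (hαβ : α ≤ β) (hαβ' : α' ≤ β')
    (hI : ∀ l ∈ I, β' l = α' l + 2 * Real.pi) {d : Fin n → ℝ} (hd : ∀ l ∉ I, d l = 0)
    {s : ℝ} (hs : 0 < s)
    (hsub : ∀ r ∈ Icc 0 (1 + s), ∀ z ∈ Icc α β ×ˢ Icc α' β', (z.1 + r • d, z.2) ∈ V) :
    ∫ z in Icc α β ×ˢ Icc α' β', -G z ≤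
      (1 + s) / s * ∫ z in Icc α β ×ˢ Icc α' β', -G (z.1 + d, z.2) := sorry

/-- `K/Harnack.lean`: a chain of polydiscs -/
theorem harnack (n : ℕ) : ∃ C : ℝ, 1 ≤ C ∧ ∀ (G : Cn n → ℝ) (V : Set (Cn n)) (r L : ℝ) (N : ℕ)
    (u : ℕ → Cn n), IsOpen V → ContDiffOn ℝ ∞ G V → (∀ z ∈ V, G z ≤ 0) →
    (∀ z ∈ V, ∀ v, 0 ≤ levz G v z) → 0 < r →
    (∀ i ≤ N, ∀ z, z - u i ∈ cpd (k := n) (3 * r) → z ∈ V) →
    (∀ i < N, u (i + 1) - u i ∈ cpd (k := n) (r / 2)) → -L ≤ G (u 0) →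
    ∫ z in {z | z - u N ∈ cpd (k := n) r}, -G z ≤ C ^ (N + 1) * L * r ^ (2 * n) := sorry

/-! ## C. The maximum over the fibres -/

section Mod

variable {n m : ℕ} {M Y W : Type} [TopologicalSpace M] [CompactSpace M] [T2Space M]
  [TopologicalSpace Y] [T2Space Y] [TopologicalSpace W] [T2Space W] {κ P ι : Type}
  [Finite P] [Fintype ι] {T : ℝ} (F : Mod n m M Y W κ P ι T)

/-- `K/Sup.lean` -/
theorem Mod.Mx_spec {t : ℝ} (ht : t ∈ Ico 0 T) (y : Y) :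
    (∃ p, F.f p = y ∧ F.Phi t p = F.Mx t y) ∧ ∀ p, F.f p = y → F.Phi t p ≤ F.Mx t y := sorry

theorem Mod.Mx_continuous {t : ℝ} (ht : t ∈ Ico 0 T) : Continuous (F.Mx t) := sorry

/-- `K/Touch.lean`: the maximum is touched from below -/
theorem Mod.touch : ∃ C ε : ℝ, 0 ≤ C ∧ 0 < ε ∧ ε ≤ 1 ∧ ∀ t ∈ Ico 0 T, ∀ j, ∀ y : Cn m,
    nsq y < 25 → (∀ i, cc y i ≠ 0) → ∀ v : Cn m, ∃ q : ℂ → ℝ, ContDiffAt ℝ 2 q 0 ∧
      q 0 = F.Mx t ((F.b j).symm y) ∧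
      (∀ᶠ ζ in 𝓝 (0 : ℂ), q ζ ≤ F.Mx t ((F.b j).symm (line y v ζ))) ∧
      -(4 * (t / T) * levz (F.K j) v y) - 4 * (1 - t / T) * (C *
        ∑ i, (y.1 i ^ 2 + y.2 i ^ 2) ^ (ε - 1) * (v.1 i ^ 2 + v.2 i ^ 2)) ≤ lapC q 0 := sorry

/-- `K/Base.lean`: from `touch`, `pshC_of_touch` -/
theorem Mod.base_psh : ∃ C₁ A C₃ ε d₀ : ℝ, 0 ≤ C₁ ∧ 0 ≤ A ∧ 0 ≤ C₃ ∧ 0 < ε ∧ 0 < d₀ ∧
    (∀ y : Cn m, nsq y ≤ 1 → -A ≤ hB C₁ A ε y) ∧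
    (∀ y : Cn m, 9 ≤ nsq y → nsq y ≤ 16 → hB C₁ A ε y < -A) ∧
    ∀ t ∈ Ico 0 T, T - t < d₀ → C₃ * (1 - t / T) ≤ 1 / 2 ∧ ∀ j,
      PshC (fun y => (1 - C₃ * (1 - t / T)) * (F.Mx t ((F.b j).symm y) +
        (1 - t / T) * hB C₁ A ε y) + t / T * F.K j y) {y : Cn m | nsq y < 25} := sorry

/-! ## D. The contact set -/

/-- `K/Contact.lean`: from `base_psh`, `pshC_mollify`, `abp` -/
theorem Mod.contact : ∃ (c C d₀ : ℝ) (A : κ → Set (Cn n)), 0 < c ∧ 0 ≤ C ∧ 0 < d₀ ∧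
    {c | (A c).Nonempty}.Finite ∧ (∀ c, IsCompact (A c) ∧ A c ⊆ (F.e c).target) ∧
    ∀ t ∈ Ico 0 T, T - t < d₀ → ∀ H : ℝ, (∃ p, F.Phi t p ≤ F.Mx t (F.f p) - H) →
      ∃ c', ∃ S ⊆ A c', MeasurableSet S ∧ ENNReal.ofReal (c * (T - t) ^ (2 * n)) ≤ volume S ∧
        ∀ z ∈ S, F.Phi t ((F.e c').symm z) ≤
          F.Mx t (F.f ((F.e c').symm z)) - H + C * (T - t) := sorry

/-- `K/Up.lean`: volumes in `M` and in `W` -/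
theorem Mod.up (c : κ) {A : Set (Cn n)} (hA : IsCompact A) (hAt : A ⊆ (F.e c).target) :
    ∃ C : ℝ, 0 ≤ C ∧ ∀ S ⊆ A, ∀ B : ι → Set (Cn n), (∀ i, B i ⊆ cpd 1) →
      (∀ z ∈ S, ∃ i, ∃ x ∈ B i, F.π ((F.a i).symm x) = (F.e c).symm z) →
      volume S ≤ ENNReal.ofReal C * ∑ i, volume (B i) := sorry

/-! ## E. The fibres -/

/-- `K/Fib.lean`: `φ` on the fibres, in a chart of `W`.  The function
`gc + C (1 - t/T) (nsq x - 81 n)` is `≤ 0` and psh along the fibres. -/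
theorem Mod.fib_psh : ∃ C : ℝ, 0 ≤ C ∧ ∀ t ∈ Ico 0 T, ∀ c, ∀ q ∈ opd (k := n) 9, ∀ M₀ : ℝ,
    ∀ piv : Fin m → Fin n, (∀ i, F.row c (piv i) = some i) → ∀ w,
    Em (F.row c) piv q w ∈ opd 9 → ∀ u,
    0 ≤ levz (fun w => F.Phi t (F.π ((F.a c).symm (Em (F.row c) piv q w))) - M₀ +
      C * (1 - t / T) * (nsq (Em (F.row c) piv q w) - 81 * n)) u w := sorry

theorem Mod.smooth_W {t : ℝ} (ht : t ∈ Ico 0 T) (c : ι) :
    ContDiffOn ℝ ∞ (fun x => F.Phi t (F.π ((F.a c).symm x))) (opd 10) := sorry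

/-- `K/Overlap.lean`: the radius of the overlaps -/
theorem Mod.overlap : ∃ r : ℝ, 0 < r ∧ ∀ c c' : ι, ∀ w,
    w ∈ (F.a c).source → w ∈ (F.a c').source → F.a c w ∈ cpd (3 / 2) →
    F.a c' w ∈ cpd (3 / 2) → ∀ x, x - F.a c w ∈ cpd (k := n) r →
    (F.a c).symm x ∈ (F.a c').source ∧ F.a c' ((F.a c).symm x) ∈ cpd 2 := sorry

/-- `K/Chain.lean` -/
theorem Mod.chain : ∃ (C r : ℝ) (B : ℕ), 1 ≤ C ∧ 0 < r ∧ r ≤ 1 ∧ ∀ t ∈ Ico 0 T, ∀ c,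
    ∀ piv : Fin m → Fin n, (∀ i, F.row c (piv i) = some i) →
    ∀ q ∈ cpd (k := n) (3 / 2), (∀ i, prow (F.row c) i q ≠ 0) → nsq (F.yc c q) ≤ 20 →
    (∀ w ∈ cpd (k := n) r, Em (F.row c) piv q w ∈ opd 9) ∧
    ∫ w in cpd (k := n) r, -F.gc t c (Em (F.row c) piv q w) ≤
      C * (T - t) * (1 + ∑ i, |Real.log ‖prow (F.row c) i q‖|) ^ B := sorry

/-- `K/Decay.lean` -/
theorem Mod.small {η : ℝ} (hη : 0 < η) : ∃ d₀ > 0, ∀ t ∈ Ico 0 T, T - t < d₀ → ∀ c,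
    volume {x : Cn n | x ∈ cpd 1 ∧ nsq (F.yc c x) ≤ 16 ∧ F.gc t c x < -√(T - t)} ≤
      ENNReal.ofReal (η * (T - t) ^ (2 * n)) := sorry

/-! ## F. The end -/

/-- `K/Gap.lean`: from `contact`, `up`, `small` -/
theorem Mod.gap : ∃ C : ℝ, 0 ≤ C ∧ ∀ t ∈ Ico 0 T, ∀ p,
    F.Mx t (F.f p) - F.Phi t p ≤ C * √(T - t) := sorry

/-- `K/Drop.lean`: from `gap`, `base_psh`, `pshC_mollify` -/
theorem Mod.drop : F.toFlow.Drop (1 / 2) := sorry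

end Mod

end Pool.Agent.KRFG
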