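import Pool.Agent.Work.MP_a2bf38_gt.K.Sup
import Pool.Agent.Work.MP_a2bf38_gt.K.TouchA

/-!
# The maximum over the fibres is touched from below
-/

open scoped ContDiff ENNReal ComplexOrder Topology
open Set Filter Pool.Agent.ToricKRF Pool.Agent.ToricKRF.G Pool.Agent.KRFS
  Pool.Agent.KRFF

namespace Pool.Agent.KRFG

open Touch

section Mod

variable {n m : ℕ} {M Y W : Type} [TopologicalSpace M] [CompactSpace M]
  [TopologicalSpace Y] [T2Space Y] [TopologicalSpace W] {κ P ι : Type}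
  [Finite P] [Fintype ι] {T : ℝ} (F : Mod n m M Y W κ P ι T)

theorem Mod.touch : ∃ C ε : ℝ, 0 ≤ C ∧ 0 < ε ∧ ε ≤ 1 ∧ ∀ t ∈ Ico 0 T, ∀ j, ∀ y : Cn m,
    nsq y < 25 → (∀ i, cc y i ≠ 0) → ∀ v : Cn m, ∃ q : ℂ → ℝ, ContDiffAt ℝ 2 q 0 ∧
      q 0 = F.Mx t ((F.b j).symm y) ∧
      (∀ᶠ ζ in 𝓝 (0 : ℂ), q ζ ≤ F.Mx t ((F.b j).symm (line y v ζ))) ∧
      -(4 * (t / T) * levz (F.K j) v y) - 4 * (1 - t / T) * (C *
        ∑ i, (y.1 i ^ 2 + y.2 i ^ 2) ^ (ε - 1) * (v.1 i ^ 2 + v.2 i ^ 2)) ≤ lapC q 0 := by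
  by_cases hT : 0 < T
  swap
  · exact ⟨0, 1, le_rfl, one_pos, le_rfl, fun t ht => absurd (lt_of_le_of_lt ht.1 ht.2) hT⟩
  obtain ⟨C₁, hC₁, hω⟩ := F.omega_le hT
  -- a bound of the exponents
  obtain ⟨Nm, hNm⟩ : ∃ Nm : ℕ, ∀ j i, F.N j i ≤ Nm := by
    obtain ⟨B, hB⟩ := (Set.finite_range fun q : P × Fin m => F.N q.1 q.2).bddAbove
    exact ⟨B, fun j i => hB ⟨(j, i), rfl⟩⟩
  obtain ⟨C₀, hC₀⟩ : ∃ C₀ : ℝ, ∀ c i, (F.s c i ^ F.N (F.pc c) i)⁻¹ ≤ C₀ := by
    obtain ⟨B, hB⟩ := (Set.finite_range fun q : ι × Fin m =>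
      (F.s q.1 q.2 ^ F.N (F.pc q.1) q.2)⁻¹).bddAbove
    exact ⟨B, fun c i => hB ⟨(c, i), rfl⟩⟩
  set D : ℕ := n * Nm + 1 with hD
  have hD0 : D ≠ 0 := by omega
  have hD1 : (1 : ℝ) ≤ D := by
    rw [hD]
    push_cast
    have : (0 : ℝ) ≤ n * Nm := by positivity
    linarith
  set ε : ℝ := (D : ℝ)⁻¹ with hε
  set C₂ : ℝ := (C₀ ^ 2) ^ ε with hC₂
  have hC₂0 : 0 ≤ C₂ := by positivity
  refine ⟨C₁ * C₂, ε, by positivity, by positivity, inv_le_one_of_one_le₀ hD1,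
    fun t ht j y hy25 hy0 v => ?_⟩
  -- the maximum point
  obtain ⟨⟨p, hp, hpM⟩, -⟩ := F.Mx_spec ht ((F.b j).symm y)
  have hyt : y ∈ (F.b j).target := F.hol.target j (by
    change nsq y < 100
    linarith)
  have hps : F.f p ∈ (F.b j).source := by
    rw [hp]
    exact (F.b j).map_target hyt
  have hpy : F.b j (F.f p) = y := by rw [hp, (F.b j).right_inv hyt]
  -- its lift
  choose t' ht' using fun i => IsAlgClosed.exists_pow_nat_eq (cc y i) (F.model.N_pos j i)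
  obtain ⟨w, hlab, hτ, hπ⟩ := F.model.onto j p hps (by rw [hpy]; exact hy25.le)
    (ofC t') (fun i => by rw [Touch.cc_ofC, ht', hpy])
  obtain ⟨c, hwc, hwx⟩ := F.model.cover w (by rw [hlab, hπ, hpy]; exact hy25.le)
  obtain rfl : F.pc c = j := by rw [← F.model.lab_eq c w hwc, hlab]
  set x : Cn n := F.a c w with hx
  have hsub : cpd (k := n) 1 ⊆ opd 10 := cpd_subset_opd (by norm_num) (by norm_num)
  have hx10 : x ∈ opd (k := n) 10 := hsub hwx
  have hxw : (F.a c).symm x = w := (F.a c).left_inv hwc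
  have hyi : ∀ i, ((F.s c i : ℂ) * prow (F.row c) i x) ^ F.N (F.pc c) i = cc y i := by
    intro i
    rw [← F.model.mono c w hwc i, hτ, Touch.cc_ofC, ht']
  -- the pivots
  have hpl : ∀ i, ∃ l, F.row c l = some i ∧ ∀ l', F.row c l' = some i →
      ‖cc x l‖ ≤ ‖cc x l'‖ := by
    intro i
    obtain ⟨l₀, hl₀⟩ := F.model.row_ne c i
    have hne : (Finset.univ.filter fun l => F.row c l = some i).Nonempty :=
      ⟨l₀, by simp [hl₀]⟩
    obtain ⟨l, hl, hmin⟩ := Finset.exists_min_image _ (fun l => ‖cc x l‖) hne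
    rw [Finset.mem_filter] at hl
    exact ⟨l, hl.2, fun l' hl' => hmin l' (by simp [hl'])⟩
  choose pl hpl hplmin using hpl
  set X : Cn m → Cn n := sec pl (F.N (F.pc c)) x y with hX
  set S : Set (Cn m) := dS y ∩ X ⁻¹' opd 10 with hS
  have hXh : HolOn X (dS y) := sec_holOn
  have hSo : IsOpen S := hXh.1.continuousOn.isOpen_inter_preimage (isOpen_dS y) (isOpen_opd 10)
  have hXy : X y = x := sec_self hy0
  have hyS : y ∈ S := ⟨mem_dS hy0, by
    change X y ∈ opd 10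
    rw [hXy]
    exact hx10⟩
  have hXS : HolOn X S := NF.holOn_mono hXh inter_subset_left
  have hXmem : ∀ y' ∈ S, X y' ∈ opd (k := n) 10 := fun y' hy' => hy'.2
  -- the section lies over the base
  have hbase : ∀ y' ∈ S, F.f (F.π ((F.a c).symm (X y'))) ∈ (F.b (F.pc c)).source ∧
      F.b (F.pc c) (F.f (F.π ((F.a c).symm (X y')))) = y' := by
    intro y' hy'
    obtain ⟨h1, h2⟩ := F.base_eq (c := c) (hXmem y' hy')
    refine ⟨h1, ext_cc fun i => ?_⟩
    rw [h2 i, hX, prow_sec hpl, ← mul_assoc, mul_pow, hyi i,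
      Complex.cpow_nat_inv_pow _ (F.model.N_pos _ i).ne', mul_div_cancel₀ _ (hy0 i)]
  have hbase' : ∀ y' ∈ S, F.f (F.π ((F.a c).symm (X y'))) = (F.b (F.pc c)).symm y' := by
    intro y' hy'
    obtain ⟨h1, h2⟩ := hbase y' hy'
    rw [← h2, (F.b (F.pc c)).left_inv h1, h2]
  -- the map to `M`
  have hHX : HolOn (fun y' => F.Hc c (X y')) S :=
    NF.holOn_comp (isOpen_opd 10) (F.Hc_holOn c) hSo hXS hXmem
  have hHm : ∀ y' ∈ S, F.Hc c (X y') ∈ (F.e (F.al c)).target := fun y' hy' =>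
    F.Hc_mem (hXmem y' hy')
  set z : Cn n := F.Hc c x with hz
  have hzt : z ∈ (F.e (F.al c)).target := F.Hc_mem hx10
  set ξ : Cn n := fderiv ℝ X y v with hξ
  set u : Cn n := fderiv ℝ (fun y' => F.Hc c (X y')) y v with hu
  have hu' : u = fderiv ℝ (F.Hc c) x ξ := by
    rw [hu, hξ]
    have h1 : DifferentiableAt ℝ (F.Hc c) (X y) := by
      rw [hXy]
      exact NF.diffAt (isOpen_opd 10) (F.Hc_holOn c).1 hx10
    have h2 : fderiv ℝ (fun y' => F.Hc c (X y')) y = (fderiv ℝ (F.Hc c) (X y)).comp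
        (fderiv ℝ X y) := fderiv_comp y h1 (NF.diffAt hSo hXS.1 hyS)
    rw [h2, hXy]
    rfl
  set g : Cn m → ℝ := fun y' => F.phi (F.al c) (t, F.Hc c (X y')) with hg
  have hgs : ContDiffOn ℝ ∞ g S :=
    (Touch.phi_slice F.toFlow (F.al c) ht).comp hHX.1 hHm
  have hPhi : ∀ y' ∈ S, g y' = F.Phi t (F.π ((F.a c).symm (X y'))) := fun y' hy' =>
    (F.Phi_Hc (hXmem y' hy') ht).symm
  have hle : ∀ y' ∈ S, g y' ≤ F.Mx t ((F.b (F.pc c)).symm y') := by
    intro y' hy'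
    rw [hPhi y' hy']
    exact (F.Mx_spec ht _).2 _ (hbase' y' hy')
  have hline : Tendsto (fun ζ : ℂ => line y v ζ) (𝓝 0) (𝓝 y) := by
    have := (contDiff_line y v).continuous.tendsto 0
    rwa [line_zero] at this
  have hev : ∀ᶠ ζ in 𝓝 (0 : ℂ), line y v ζ ∈ S := hline.eventually (hSo.mem_nhds hyS)
  -- the Levi form
  have hlapq : lapC (fun ζ => g (line y v ζ)) 0 = 4 * levz g v y := by
    have hU : IsOpen ((univ : Set ℝ) ×ˢ S) := isOpen_univ.prod hSo
    have hf : ContDiffOn ℝ ∞ (fun q : ℝ × Cn m => g q.2) (univ ×ˢ S) :=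
      hgs.comp contDiffOn_snd fun q hq => hq.2
    have h1 := lapC_line (f := fun q : ℝ × Cn m => g q.2) hU hf (t := 0) (z := y) (v := v)
      (ζ := 0) (by rw [line_zero]; exact ⟨mem_univ _, hyS⟩)
    rw [h1, line_zero, lev_snd hSo hgs hyS]
  obtain ⟨U, hU, hsubU, hphiU⟩ := F.phi_isFun.smooth (F.al c)
  have hlevg : levz g v y = lev (F.phi (F.al c)) u (t, z) := by
    have h1 := levz_comp (F.e (F.al c)).open_target (Touch.phi_slice F.toFlow (F.al c) ht) hSo hHX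
      hyS (hHm y hyS) v
    have h2 : levz (fun z => F.phi (F.al c) (t, z)) u z = lev (F.phi (F.al c)) u (t, z) :=
      levz_slice hU hphiU (hsubU ⟨ht, hzt⟩) u
    rw [hg, h1, hXy, ← hz]
    exact h2
  -- the form `Θ`
  have hTheta : levz (F.Θ (F.al c)) u z = levz (F.K (F.pc c)) v y := by
    have hfz : F.f ((F.e (F.al c)).symm z) ∈ (F.b (F.pc c)).source := by
      have h1 : (F.e (F.al c)).symm z = F.π ((F.a c).symm x) :=
        (F.e (F.al c)).left_inv (F.pi_mem hx10)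
      rw [h1, hxw, hπ]
      exact hps
    rw [← F.theta (F.al c) z hzt u, F.lim.eq (F.al c) (F.pc c) z hzt hfz u]
    set S' : Set (Cn n) := {z | z ∈ (F.e (F.al c)).target ∧
      F.f ((F.e (F.al c)).symm z) ∈ (F.b (F.pc c)).source} with hS'
    have hS'o : IsOpen S' := (F.e (F.al c)).isOpen_inter_preimage_symm
      ((F.b (F.pc c)).open_source.preimage F.hol.cont)
    have hKs : ContDiffOn ℝ ∞
        (fun z => F.K (F.pc c) (F.b (F.pc c) (F.f ((F.e (F.al c)).symm z)))) S' :=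
      (F.lim.smooth (F.pc c)).comp (F.hol.holo (F.al c) (F.pc c)).1 fun z hz =>
        (F.b (F.pc c)).map_source hz.2
    have hmS' : F.Hc c (X y) ∈ S' := by
      rw [hXy]
      exact ⟨hzt, hfz⟩
    have h1 := levz_comp hS'o hKs hSo hHX hyS hmS' v
    rw [hXy, ← hz, ← hu] at h1
    rw [← h1]
    refine Bd.levz_congr ?_ v
    filter_upwards [hSo.mem_nhds hyS] with y' hy'
    have h2 : (F.e (F.al c)).symm (F.Hc c (X y')) = F.π ((F.a c).symm (X y')) :=
      (F.e (F.al c)).left_inv (F.pi_mem (hXmem y' hy'))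
    rw [h2, (hbase y' hy').2]
  refine ⟨fun ζ => g (line y v ζ), ?_, ?_, ?_, ?_⟩
  · have h1 : ContDiffAt ℝ ∞ g (line y v 0) := by
      rw [line_zero]
      exact hgs.contDiffAt (hSo.mem_nhds hyS)
    exact (h1.comp (0 : ℂ) (contDiff_line y v).contDiffAt).of_le two_le_infty
  · simp only [line_zero]
    rw [hPhi y hyS, hXy, hxw, hπ, hpM]
  · filter_upwards [hev] with ζ hζ
    exact hle _ hζ
  · rw [hlapq, hlevg, F.lev_phi ht hzt, hTheta]
    have hpos : 0 ≤ lev (F.ψ (F.al c)) u (t, z) := by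
      obtain ⟨V, hV, hVs, hVd⟩ := F.krf.smooth (F.al c)
      by_cases hw : u = 0
      · have h6 : levz (fun z => F.ψ (F.al c) (t, z)) 0 z = lev (F.ψ (F.al c)) 0 (t, z) :=
          levz_slice hV hVd (hVs ⟨ht, hzt⟩) _
        rw [hw, ← h6]
        have := Bd.levz_smul (F.e (F.al c)).open_target (Touch.psi_slice F.toFlow (F.al c) ht) hzt 0 0
        simp at this
        exact this.ge
      · exact (lev_pos hV hVd (hVs ⟨ht, hzt⟩) (F.krf.pos (F.al c) t ht _ hzt) hw).le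
    have h0 : lev (F.ψ (F.al c)) u (0, z) ≤ C₁ * nsq ξ := by
      rw [hu']
      exact hω c x hwx ξ
    have hξ' : nsq ξ ≤ ∑ i, C₂ * Complex.normSq (cc y i) ^ (ε - 1) * Complex.normSq (cc v i) := by
      refine nsq_fderiv_le hpl (fun i => F.model.N_pos _ i) hy0 v fun i => ?_
      have hpos' : 0 < Complex.normSq (cc y i) := Complex.normSq_pos.2 (hy0 i)
      have h1 := pivot_bound hwx (hplmin i) (F.model.s_pos c i) (N := F.N (F.pc c) i) (D := D)
        (by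
          have := Nat.mul_le_mul_left n (hNm (F.pc c) i)
          omega) hD0 (hC₀ c i) (hyi i)
      refine h1.trans_eq ?_
      rw [Real.rpow_sub_one hpos'.ne', mul_assoc, div_mul_cancel₀ _ hpos'.ne']
    have h1 : 0 ≤ 1 - t / T := by
      rw [sub_nonneg, div_le_one hT]
      exact ht.2.le
    have h2 : (1 - t / T) * lev (F.ψ (F.al c)) u (0, z) ≤ (1 - t / T) * (C₁ * C₂ *
        ∑ i, (y.1 i ^ 2 + y.2 i ^ 2) ^ (ε - 1) * (v.1 i ^ 2 + v.2 i ^ 2)) := by
      refine mul_le_mul_of_nonneg_left ?_ h1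
      refine h0.trans ((mul_le_mul_of_nonneg_left hξ' hC₁).trans_eq ?_)
      rw [mul_assoc C₁ C₂]
      congr 1
      rw [Finset.mul_sum]
      refine Finset.sum_congr rfl fun i _ => ?_
      rw [normSq_cc, normSq_cc]
      ring
    linarith

end Mod

end Pool.Agent.KRFG
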